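import Mathlib
import Pool.Agent.Helper65.EU.Wind5

/-! Rational vector fields with simple zeros and poles. -/

set_option autoImplicit false

open Topology Filter Metric Set MeasureTheory Polynomial
open scoped Real

namespace Pool.Agent.Helper65.EV

open Pool.Agent.Helper65.EU

/-- a rational vector field `R / Q` with simple zeros (infinity included) and simple poles -/
structure Dat where
  Q : ℂ[X]
  R : ℂ[X]
  hR : R.Separable
  hc : IsCoprime Q R
  hd : R.natDegree = Q.natDegree + 1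
  hn : 1 ≤ Q.natDegree

namespace Dat

variable (D : Dat)

theorem R_ne : D.R ≠ 0 := D.hR.ne_zero

theorem Q_ne : D.Q ≠ 0 := by
  intro h
  have := D.hn
  rw [h, natDegree_zero] at this
  omega

/-- the finite zeros -/
noncomputable def zs : Finset ℂ := D.R.roots.toFinset

/-- the poles -/
noncomputable def ps : Finset ℂ := D.Q.roots.toFinset

theorem mem_zs {a : ℂ} : a ∈ D.zs ↔ D.R.eval a = 0 := by
  unfold zs
  rw [Multiset.mem_toFinset, mem_roots D.R_ne, IsRoot.def]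

theorem mem_ps {a : ℂ} : a ∈ D.ps ↔ D.Q.eval a = 0 := by
  unfold ps
  rw [Multiset.mem_toFinset, mem_roots D.Q_ne, IsRoot.def]

theorem not_both (a : ℂ) : D.Q.eval a ≠ 0 ∨ D.R.eval a ≠ 0 := by
  by_contra h
  push Not at h
  obtain ⟨u, v, huv⟩ := D.hc
  have := congrArg (Polynomial.eval a) huv
  rw [eval_add, eval_mul, eval_mul, h.1, h.2] at this
  simp at this

theorem Q_zs {a : ℂ} (ha : a ∈ D.zs) : D.Q.eval a ≠ 0 :=
  (D.not_both a).resolve_right (fun h => h (D.mem_zs.1 ha))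

theorem R_ps {a : ℂ} (ha : a ∈ D.ps) : D.R.eval a ≠ 0 :=
  (D.not_both a).resolve_left (fun h => h (D.mem_ps.1 ha))

theorem dR_zs {a : ℂ} (ha : a ∈ D.zs) : (derivative D.R).eval a ≠ 0 :=
  D.hR.eval₂_derivative_ne_zero (RingHom.id ℂ) (D.mem_zs.1 ha)

/-- the multiplicity of a pole -/
noncomputable def mu (p : ℂ) : ℕ := D.Q.rootMultiplicity p

theorem mu_pos {p : ℂ} (hp : p ∈ D.ps) : 1 ≤ D.mu p := by
  have h := (rootMultiplicity_pos D.Q_ne).2 (D.mem_ps.1 hp)
  exact h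

/-- the factor at a pole -/
theorem exists_Qp (p : ℂ) : ∃ Qp : ℂ[X], D.Q = (Polynomial.X - C p) ^ D.mu p * Qp ∧
    Qp.eval p ≠ 0 := by
  obtain ⟨q, hq, hq2⟩ := exists_eq_pow_rootMultiplicity_mul_and_not_dvd D.Q D.Q_ne p
  exact ⟨q, hq, fun h => hq2 (dvd_iff_isRoot.2 h)⟩

theorem card_zs : D.zs.card = D.R.natDegree := by
  unfold zs
  rw [Multiset.toFinset_card_of_nodup (nodup_roots D.hR)]
  exact splits_iff_card_roots.1 (IsAlgClosed.splits D.R)

/-- residues of the reciprocal -/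
noncomputable def ρ (a : ℂ) : ℂ := D.Q.eval a / (derivative D.R).eval a

theorem ρ_ne {a : ℂ} (ha : a ∈ D.zs) : D.ρ a ≠ 0 := div_ne_zero (D.Q_zs ha) (D.dR_zs ha)

theorem R_eq : D.R = C D.R.leadingCoeff * Lagrange.nodal D.zs id := by
  have h := (IsAlgClosed.splits D.R).eq_prod_roots
  rw [Lagrange.nodal]
  have h2 : ∏ i ∈ D.zs, (X - C (id i)) = (D.R.roots.map (fun a => X - C a)).prod := by
    unfold zs Finset.prod
    rw [Multiset.toFinset_val, Multiset.dedup_eq_self.2 (nodup_roots D.hR)]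
    rfl
  rw [h2]
  exact h

theorem eval_R (z : ℂ) : D.R.eval z = D.R.leadingCoeff * (Lagrange.nodal D.zs id).eval z := by
  have h := congrArg (Polynomial.eval z) D.R_eq
  rwa [eval_mul, eval_C] at h

theorem eval_dR (z : ℂ) : (derivative D.R).eval z =
    D.R.leadingCoeff * (derivative (Lagrange.nodal D.zs id)).eval z := by
  have h : (derivative D.R).eval z =
      (derivative (C D.R.leadingCoeff * Lagrange.nodal D.zs id)).eval z :=
    congrArg (fun p => Polynomial.eval z (derivative p)) D.R_eq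
  rwa [derivative_C_mul, eval_mul, eval_C] at h

/-- partial fractions -/
theorem pf {z : ℂ} (hz : D.R.eval z ≠ 0) :
    D.Q.eval z / D.R.eval z = ∑ a ∈ D.zs, D.ρ a / (z - a) := by
  have hinj : Set.InjOn (id : ℂ → ℂ) (D.zs : Set ℂ) := Function.injective_id.injOn
  have hdeg : D.Q.degree < D.zs.card := by
    rw [D.card_zs, D.hd, degree_eq_natDegree D.Q_ne]
    exact_mod_cast Nat.lt_succ_self _
  have h1 := Lagrange.eq_interpolate (s := D.zs) (v := id) hinj hdeg
  have hx : ∀ i ∈ D.zs, z ≠ id i := by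
    intro i hi h
    apply hz
    rw [h]
    exact D.mem_zs.1 hi
  have h2 := Lagrange.eval_interpolate_not_at_node (s := D.zs) (v := id)
    (fun i => D.Q.eval (id i)) hx
  rw [← h1] at h2
  have hlc : D.R.leadingCoeff ≠ 0 := leadingCoeff_ne_zero.2 D.R_ne
  have hnz : (Lagrange.nodal D.zs id).eval z ≠ 0 := by
    intro h
    apply hz
    rw [D.eval_R, h, mul_zero]
  rw [h2, D.eval_R z, Finset.mul_sum, Finset.sum_div]
  refine Finset.sum_congr rfl fun a ha => ?_
  have h3 := Lagrange.nodalWeight_eq_eval_derivative_nodal (v := (id : ℂ → ℂ)) ha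
  have h4 := D.dR_zs ha
  rw [D.eval_dR a] at h4
  have h5 : (derivative (Lagrange.nodal D.zs id)).eval a ≠ 0 := (mul_ne_zero_iff.1 h4).2
  have h6 : z - a ≠ 0 := sub_ne_zero.2 (hx a ha)
  unfold ρ
  rw [h3, D.eval_dR a]
  simp only [id]
  field_simp

/-- the field -/
noncomputable def X (z : ℂ) : ℂ := D.R.eval z / D.Q.eval z

/-- the local primitive of the reciprocal -/
noncomputable def W (w z : ℂ) : ℂ := ∑ a ∈ D.zs, D.ρ a * Complex.log ((z - a) / (w - a))

theorem W_self {w : ℂ} (hw : D.R.eval w ≠ 0) : D.W w w = 0 := by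
  unfold W
  apply Finset.sum_eq_zero
  intro a ha
  have : w - a ≠ 0 := sub_ne_zero.2 (fun h => hw (h ▸ D.mem_zs.1 ha))
  rw [div_self this, Complex.log_one, mul_zero]

/-- a radius around a point which is not a zero -/
theorem exists_rad {w : ℂ} (hw : D.R.eval w ≠ 0) : ∃ δ : ℝ, 0 < δ ∧ ∀ z ∈ ball w δ,
    D.R.eval z ≠ 0 ∧ ∀ a ∈ D.zs, (z - a) / (w - a) ∈ Complex.slitPlane := by
  have h : ∀ᶠ z in 𝓝 w, D.R.eval z ≠ 0 ∧ ∀ a ∈ D.zs, (z - a) / (w - a) ∈ Complex.slitPlane := by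
    apply Filter.Eventually.and
    · exact (D.R.continuous.continuousAt).eventually_ne hw
    · rw [Filter.eventually_all_finset]
      intro a ha
      have hwa : w - a ≠ 0 := sub_ne_zero.2 (fun h => hw (h ▸ D.mem_zs.1 ha))
      have hc : ContinuousAt (fun z => (z - a) / (w - a)) w := by fun_prop
      apply hc.eventually_mem
      apply Complex.isOpen_slitPlane.mem_nhds
      rw [div_self hwa]
      exact Complex.one_mem_slitPlane
  exact Metric.eventually_nhds_iff_ball.1 h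

theorem W_deriv {w z : ℂ} (hw : D.R.eval w ≠ 0) (hz : D.R.eval z ≠ 0)
    (h : ∀ a ∈ D.zs, (z - a) / (w - a) ∈ Complex.slitPlane) :
    HasDerivAt (D.W w) (D.Q.eval z / D.R.eval z) z := by
  rw [D.pf hz]
  unfold W
  apply HasDerivAt.fun_sum
  intro a ha
  have hwa : w - a ≠ 0 := sub_ne_zero.2 (fun h => hw (h ▸ D.mem_zs.1 ha))
  have hza : z - a ≠ 0 := sub_ne_zero.2 (fun h => hz (h ▸ D.mem_zs.1 ha))
  have h1 : HasDerivAt (fun z => (z - a) / (w - a)) (1 / (w - a)) z :=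
    ((hasDerivAt_id z).sub_const a).div_const _
  have h2 := (h1.clog (h a ha)).const_mul (D.ρ a)
  refine h2.congr_deriv ?_
  field_simp

/-- charts -/
theorem chart {w : ℂ} (hw : D.R.eval w ≠ 0) (hw' : D.Q.eval w ≠ 0) :
    ∃ e : OpenPartialHomeomorph ℂ ℂ, w ∈ e.source ∧ e w = 0 ∧
      (∀ z ∈ e.source, HasDerivAt e (D.Q.eval z / D.R.eval z) z ∧ D.Q.eval z ≠ 0 ∧
        D.R.eval z ≠ 0) ∧
      ∀ ζ ∈ e.target, HasDerivAt e.symm (D.X (e.symm ζ)) ζ := by
  obtain ⟨δ, hδ, hδ2⟩ := D.exists_rad hw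
  have hdiff : DifferentiableOn ℂ (D.W w) (ball w δ) := fun z hz =>
    (D.W_deriv hw (hδ2 z hz).1 (hδ2 z hz).2).differentiableAt.differentiableWithinAt
  have han : AnalyticAt ℂ (D.W w) w := hdiff.analyticAt (ball_mem_nhds w hδ)
  have hder := D.W_deriv hw (hδ2 w (mem_ball_self hδ)).1 (hδ2 w (mem_ball_self hδ)).2
  have hs : HasStrictDerivAt (D.W w) (D.Q.eval w / D.R.eval w) w := by
    have := han.hasStrictDerivAt
    rwa [hder.deriv] at this
  have hne : D.Q.eval w / D.R.eval w ≠ 0 := div_ne_zero hw' hw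
  set e0 := (hs.hasStrictFDerivAt_equiv hne).toOpenPartialHomeomorph (D.W w) with he0
  set s : Set ℂ := ball w δ ∩ {z | D.Q.eval z ≠ 0} with hs'
  have hso : IsOpen s := isOpen_ball.inter (isOpen_ne_fun D.Q.continuous continuous_const)
  set e := e0.restrOpen s hso with he
  have hsrc : e.source = e0.source ∩ s := rfl
  have hcoe : (e : ℂ → ℂ) = D.W w := rfl
  have h1 : ∀ z ∈ e.source, HasDerivAt e (D.Q.eval z / D.R.eval z) z ∧ D.Q.eval z ≠ 0 ∧
        D.R.eval z ≠ 0 := by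
    intro z hz
    rw [hsrc] at hz
    rw [hcoe]
    exact ⟨D.W_deriv hw (hδ2 z hz.2.1).1 (hδ2 z hz.2.1).2, hz.2.2, (hδ2 z hz.2.1).1⟩
  refine ⟨e, ?_, ?_, h1, ?_⟩
  · rw [hsrc]
    exact ⟨(hs.hasStrictFDerivAt_equiv hne).mem_toOpenPartialHomeomorph_source,
      mem_ball_self hδ, hw'⟩
  · rw [hcoe]
    exact D.W_self hw
  · intro ζ hζ
    obtain ⟨h2, h3, h4⟩ := h1 _ (e.map_target hζ)
    have h5 := e.hasDerivAt_symm hζ (div_ne_zero h3 h4) h2
    refine h5.congr_deriv ?_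
    unfold X
    rw [inv_div]

end Dat

theorem pos_right {φ : ℝ → ℝ} {c : ℝ} (h : HasDerivAt φ c 0) (h0 : φ 0 = 0) (hc : 0 < c) :
    ∀ᶠ y : ℝ in 𝓝[>] 0, 0 < φ y := by
  have h1 := h.isLittleO
  have h2 := h1.def (half_pos hc)
  filter_upwards [h2.filter_mono nhdsWithin_le_nhds, self_mem_nhdsWithin] with y hy hy0
  have hy1 : (0 : ℝ) < y := hy0
  rw [h0, sub_zero, sub_zero, Real.norm_eq_abs, Real.norm_eq_abs, smul_eq_mul, abs_of_pos hy1,
    abs_le] at hy
  nlinarith [hy.1]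

namespace Dat

variable (D : Dat)

/-- trajectories are lines in charts -/
theorem ch_of {Γ Γ' : ℝ → ℂ} {t0 : ℝ} (h : ∀ᶠ t in 𝓝 t0, HasDerivAt Γ (Γ' t) t ∧
    Γ' t = D.R.eval (Γ t) * (starRingEnd ℂ) (D.Q.eval (Γ t)))
    (hw : D.R.eval (Γ t0) ≠ 0) (hw' : D.Q.eval (Γ t0) ≠ 0) : Ch Γ Γ' t0 := by
  obtain ⟨e, he1, he2, he3, -⟩ := D.chart hw hw'
  refine ⟨e, he1, he2, ?_⟩
  have hΓc : ContinuousAt Γ t0 := (h.self_of_nhds).1.continuousAt
  have hsrc : ∀ᶠ t in 𝓝 t0, Γ t ∈ e.source := hΓc.eventually_mem (e.open_source.mem_nhds he1)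
  obtain ⟨δ, hδ, hδ2⟩ := Metric.eventually_nhds_iff_ball.1 (h.and hsrc)
  have hval : ∀ t ∈ ball t0 δ, HasDerivAt (fun t => e (Γ t))
      ((‖D.Q.eval (Γ t)‖ ^ 2 : ℝ) : ℂ) t := by
    intro t ht
    obtain ⟨⟨h1, h2⟩, h3⟩ := hδ2 t ht
    obtain ⟨h4, h5, h6⟩ := he3 _ h3
    have h7 := h4.scomp t h1
    refine h7.congr_deriv ?_
    rw [h2, smul_eq_mul]
    rw [← Complex.normSq_eq_norm_sq, ← Complex.mul_conj]
    field_simp
  have him : ∀ t ∈ ball t0 δ, HasDerivAt (fun t => (e (Γ t)).im) 0 t := by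
    intro t ht
    have := (Complex.imCLM.hasFDerivAt.comp_hasDerivAt t (hval t ht))
    refine this.congr_deriv ?_
    rw [Complex.imCLM_apply, Complex.ofReal_im]
  have hconst : ∀ t ∈ ball t0 δ, (e (Γ t)).im = 0 := by
    intro t ht
    have h1 := (convex_ball t0 δ).is_const_of_fderivWithin_eq_zero (𝕜 := ℝ)
      (f := fun t => (e (Γ t)).im) (fun t ht => (him t ht).differentiableAt.differentiableWithinAt)
      (fun t ht => by
        rw [fderivWithin_of_isOpen isOpen_ball ht]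
        have := (him t ht).hasFDerivAt.fderiv
        rw [this]
        ext
        simp) ht (mem_ball_self hδ)
    rw [h1, he2, Complex.zero_im]
  filter_upwards [ball_mem_nhds t0 hδ] with t ht
  refine ⟨hconst t ht, ?_⟩
  obtain ⟨⟨h1, h2⟩, h3⟩ := hδ2 t ht
  obtain ⟨h4, h5, h6⟩ := he3 _ h3
  have hq : 0 < ‖D.Q.eval (Γ t)‖ ^ 2 := by
    have := norm_pos_iff.2 h5
    positivity
  have hmain : ∀ σ : ℝ, HasDerivAt (fun y : ℝ => (e (Γ t + y * Complex.I * (σ * Γ' t))).im)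
      (σ * ‖D.Q.eval (Γ t)‖ ^ 2) 0 := by
    intro σ
    have g1 : HasDerivAt (fun y : ℝ => Γ t + (y : ℂ) * Complex.I * (σ * Γ' t))
        (Complex.I * (σ * Γ' t)) 0 := by
      have := ((Complex.ofRealCLM.hasDerivAt (x := 0)).mul_const (Complex.I * (σ * Γ' t))).const_add (Γ t)
      simpa [mul_assoc] using this
    have g2 : HasDerivAt e (D.Q.eval (Γ t) / D.R.eval (Γ t))
        (Γ t + ((0 : ℝ) : ℂ) * Complex.I * (σ * Γ' t)) := by
      simpa using h4
    have g3 := g2.scomp (0 : ℝ) g1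
    have g4 := (Complex.imCLM.hasFDerivAt.comp_hasDerivAt (0 : ℝ) g3)
    refine g4.congr_deriv ?_
    have g5 : Complex.I * (σ * Γ' t) * (D.Q.eval (Γ t) / D.R.eval (Γ t)) =
        ((σ * ‖D.Q.eval (Γ t)‖ ^ 2 : ℝ) : ℂ) * Complex.I := by
      rw [h2]
      push_cast
      rw [← Complex.ofReal_pow, ← Complex.normSq_eq_norm_sq, ← Complex.mul_conj]
      field_simp
    simp only [smul_eq_mul, Complex.imCLM_apply, g5]
    simp only [Complex.mul_im, Complex.ofReal_re, Complex.I_im, mul_one, Complex.ofReal_im,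
      Complex.I_re, mul_zero, add_zero]
  have p1 := pos_right (hmain 1) (by simp [hconst t ht]) (by linarith)
  have hneg : HasDerivAt (fun y : ℝ => -(e (Γ t + y * Complex.I * (((-1 : ℝ) : ℂ) * Γ' t))).im)
      (‖D.Q.eval (Γ t)‖ ^ 2) 0 := by
    exact (hmain (-1)).fun_neg.congr_deriv (by ring)
  have p2 := pos_right hneg (by simp [hconst t ht]) hq
  filter_upwards [p1, p2] with y y1 y2
  constructor
  · simpa using y1
  · have : Γ t + y * Complex.I * (((-1 : ℝ) : ℂ) * Γ' t) = Γ t - y * Complex.I * Γ' t := by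
      push_cast; ring
    rw [this] at y2
    linarith

end Dat

end Pool.Agent.Helper65.EV
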