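import Mathlib
import Pool.Agent.Helper65.EV.Fld
import Pool.Agent.Helper65.EU.Flow

/-! Trajectories of rational vector fields are not recurrent. -/

set_option autoImplicit false

open Topology Filter Metric Set MeasureTheory Polynomial
open scoped Real NNReal

namespace Pool.Agent.Helper65.EV

open Pool.Agent.Helper65.EU

theorem finite_gap {F : Set ℝ} (hF : F.Finite) : ∃ η : ℝ, 0 < η ∧ ∀ x ∈ F, |x| < η → x = 0 := by
  have h : ∀ x ∈ hF.toFinset, ∀ᶠ η : ℝ in 𝓝[>] 0, |x| < η → x = 0 := by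
    intro x _
    by_cases hx : x = 0
    · exact Eventually.of_forall fun _ _ => hx
    · have : 0 < |x| := abs_pos.2 hx
      filter_upwards [Ioo_mem_nhdsGT this] with η hη h
      linarith [hη.2]
  have h2 := (Filter.eventually_all_finset hF.toFinset).2 h
  obtain ⟨η, h3, h4⟩ := (h2.and self_mem_nhdsWithin).exists
  exact ⟨η, h4, fun x hx => h3 x (hF.mem_toFinset.2 hx)⟩

namespace Dat

variable (D : Dat)

/-- the time-changed field -/
noncomputable def V0 (z : ℂ) : ℂ := D.R.eval z * (starRingEnd ℂ) (D.Q.eval z)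

theorem V0_eq (z : ℂ) (hz : D.Q.eval z ≠ 0) : D.X z = (((‖D.Q.eval z‖ ^ 2)⁻¹ : ℝ) : ℂ) * D.V0 z := by
  unfold X V0
  rw [← Complex.normSq_eq_norm_sq, Complex.ofReal_inv, ← Complex.mul_conj]
  have : (starRingEnd ℂ) (D.Q.eval z) ≠ 0 := (_root_.map_ne_zero _).2 hz
  field_simp

/-- the gap of the possible displacements -/
theorem gap : ∃ η : ℝ, 0 < η ∧ ∀ n : ℂ → ℤ, (∀ a ∈ D.zs, |n a| ≤ 9) →
    |∑ a ∈ D.zs, 2 * π * n a * (D.ρ a).re| < η → ∑ a ∈ D.zs, 2 * π * n a * (D.ρ a).re = 0 := by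
  classical
  set F : Set ℝ := (fun n : D.zs → ℤ => ∑ a : D.zs, 2 * π * n a * (D.ρ a).re) ''
    (Fintype.piFinset (fun _ : D.zs => Finset.Icc (-9 : ℤ) 9) : Set (D.zs → ℤ)) with hF
  have hfin : F.Finite := (Finset.finite_toSet _).image _
  obtain ⟨η, hη, h⟩ := finite_gap hfin
  refine ⟨η, hη, fun n hn hlt => ?_⟩
  have hsum : ∑ a : D.zs, 2 * π * (n a : ℝ) * (D.ρ a).re =
      ∑ a ∈ D.zs, 2 * π * n a * (D.ρ a).re :=
    Finset.sum_coe_sort D.zs (fun a => 2 * π * (n a : ℝ) * (D.ρ a).re)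
  rw [← hsum] at hlt ⊢
  apply h _ _ hlt
  refine ⟨fun a => n a, ?_, rfl⟩
  rw [Finset.mem_coe, Fintype.mem_piFinset]
  intro a
  rw [Finset.mem_Icc]
  exact abs_le.1 (hn a a.2)

/-- integral of the reciprocal along a curve -/
theorem sum_J {γ γ' : ℝ → ℂ} {a b : ℝ} (hab : a ≤ b)
    (hγ : ∀ t ∈ Icc a b, HasDerivAt γ (γ' t) t) (hc : ContinuousOn γ' (Icc a b))
    (hR : ∀ t ∈ Icc a b, D.R.eval (γ t) ≠ 0) :
    ∑ z ∈ D.zs, D.ρ z * J γ γ' a b z = ∫ t in a..b, γ' t * (D.Q.eval (γ t) / D.R.eval (γ t)) := by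
  have hne : ∀ z ∈ D.zs, ∀ t ∈ Icc a b, γ t ≠ z := by
    intro z hz t ht h
    apply hR t ht
    rw [h]
    exact D.mem_zs.1 hz
  have h1 : ∑ z ∈ D.zs, D.ρ z * J γ γ' a b z =
      ∑ z ∈ D.zs, ∫ t in a..b, D.ρ z * (γ' t / (γ t - z)) := by
    refine Finset.sum_congr rfl fun z _ => ?_
    rw [J, intervalIntegral.integral_const_mul]
  rw [h1, ← intervalIntegral.integral_finsetSum]
  · apply intervalIntegral.integral_congr
    intro t ht
    rw [uIcc_of_le hab] at ht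
    simp only
    rw [D.pf (hR t ht), Finset.mul_sum]
    refine Finset.sum_congr rfl fun z _ => ?_
    ring
  · intro z hz
    apply IntervalIntegrable.const_mul
    exact (by rw [uIcc_of_le hab]; exact J_int hγ hc (hne z hz) :
      ContinuousOn _ (uIcc a b)).intervalIntegrable

end Dat

end Pool.Agent.Helper65.EV
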