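import Mathlib
import Pool.Agent.Helper65.EV.Recur

/-! Trajectories of rational vector fields are not recurrent, conclusion. -/

set_option autoImplicit false

open Topology Filter Metric Set MeasureTheory Polynomial
open scoped Real NNReal

namespace Pool.Agent.Helper65.EV

open Pool.Agent.Helper65.EU

namespace Dat

variable (D : Dat)

theorem norm_xy {ε x y : ℝ} (hx : |x| ≤ ε / 2) (hy : |y| ≤ ε / 4) :
    ‖(x : ℂ) + y * Complex.I‖ ≤ 3 * ε / 4 := by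
  refine (norm_add_le _ _).trans ?_
  rw [norm_mul, Complex.norm_I, mul_one, Complex.norm_real, Complex.norm_real, Real.norm_eq_abs,
    Real.norm_eq_abs]
  linarith

/-- crossings of the vertical axis of a chart -/
theorem crossing {v : ℂ → ℂ} {K : ℝ≥0} (hL : LipschitzWith K v) {R1 : ℝ}
    (hv : ∀ z, ‖z‖ ≤ R1 → v z = D.V0 z) {Γ : ℝ → ℂ} (hΓ : ∀ t, HasDerivAt Γ (v (Γ t)) t)
    {e : OpenPartialHomeomorph ℂ ℂ}
    (he3 : ∀ z ∈ e.source, HasDerivAt e (D.Q.eval z / D.R.eval z) z ∧ D.Q.eval z ≠ 0 ∧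
        D.R.eval z ≠ 0)
    (he4 : ∀ ζ ∈ e.target, HasDerivAt e.symm (D.X (e.symm ζ)) ζ) {ε : ℝ} (hε : 0 < ε)
    (hεt : ball (0 : ℂ) ε ⊆ e.target) (hεR : ∀ ζ ∈ ball (0 : ℂ) ε, ‖e.symm ζ‖ ≤ R1) :
    ∃ C0 : ℝ, 0 ≤ C0 ∧ ∀ τ, Γ τ ∈ e.source → ‖e (Γ τ)‖ < ε / 4 →
      ∃ τ', |τ' - τ| ≤ C0 ∧ Γ τ' = e.symm ((e (Γ τ)).im * Complex.I) := by
  have hsubc : closedBall (0 : ℂ) (3 * ε / 4) ⊆ ball 0 ε := closedBall_subset_ball (by linarith)
  have hcont : ContinuousOn (fun ζ : ℂ => (‖D.Q.eval (e.symm ζ)‖ ^ 2)⁻¹)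
      (closedBall (0 : ℂ) (3 * ε / 4)) := by
    apply ContinuousOn.inv₀
    · apply ContinuousOn.pow
      apply ContinuousOn.norm
      exact D.Q.continuous.comp_continuousOn
        (e.symm.continuousOn.mono (hsubc.trans hεt))
    · intro ζ hζ
      have := (he3 _ (e.map_target (hεt (hsubc hζ)))).2.1
      have := norm_pos_iff.2 this
      positivity
  obtain ⟨H, hH⟩ := (isCompact_closedBall (0 : ℂ) (3 * ε / 4)).exists_bound_of_continuousOn hcont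
  have hH0 : 0 ≤ H := (norm_nonneg _).trans (hH 0 (mem_closedBall_self (by positivity)))
  refine ⟨H * (ε / 4), by positivity, fun τ hτ hτ2 => ?_⟩
  set x : ℝ := (e (Γ τ)).re with hx
  set y : ℝ := (e (Γ τ)).im with hy
  have hxy : e (Γ τ) = x + y * Complex.I := (Complex.re_add_im _).symm
  have hxl : |x| < ε / 4 := (Complex.abs_re_le_norm _).trans_lt hτ2
  have hyl : |y| < ε / 4 := (Complex.abs_im_le_norm _).trans_lt hτ2
  have hmem : ∀ s ∈ Icc (-(ε / 2)) (ε / 2), ((s : ℝ) : ℂ) + y * Complex.I ∈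
      closedBall (0 : ℂ) (3 * ε / 4) := by
    intro s hs
    rw [mem_closedBall_zero_iff]
    exact norm_xy (abs_le.2 hs) hyl.le
  have h1 := time_change hL hΓ (ζ := fun s : ℝ => e.symm (s + y * Complex.I))
    (h := fun s : ℝ => (‖D.Q.eval (e.symm (s + y * Complex.I))‖ ^ 2)⁻¹)
    (A := -(ε / 2)) (B := ε / 2) (s0 := x) (τ0 := τ) (by
      have h2 : ContinuousOn (fun s : ℝ => (s : ℂ) + y * Complex.I) (Icc (-(ε / 2)) (ε / 2)) := by
        fun_prop
      exact hcont.comp h2 hmem) (by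
      intro s hs
      have hs' := hmem s (Ioo_subset_Icc_self hs)
      have h2 := he4 _ (hεt (hsubc hs'))
      have h3 : HasDerivAt (fun s : ℝ => (s : ℂ) + y * Complex.I) 1 s :=
        (Complex.ofRealCLM.hasDerivAt (x := s)).add_const (y * Complex.I)
      have h4 := h2.scomp s h3
      refine h4.congr_deriv ?_
      rw [one_smul, D.V0_eq _ (he3 _ (e.map_target (hεt (hsubc hs')))).2.1,
        hv _ (hεR _ (hsubc hs'))]) (by
      rw [abs_lt] at hxl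
      exact ⟨by linarith [hxl.1], by linarith [hxl.2]⟩) (by
      show e.symm ((x : ℂ) + y * Complex.I) = Γ τ
      rw [← hxy]
      exact e.left_inv hτ)
  have h2 := h1 0 ⟨by linarith, by linarith⟩
  refine ⟨τ + ∫ u in x..0, (‖D.Q.eval (e.symm (u + y * Complex.I))‖ ^ 2)⁻¹, ?_, ?_⟩
  rotate_left
  · rw [← h2]
    congr 1
    simp
  · rw [add_sub_cancel_left]
    have h3 := intervalIntegral.norm_integral_le_of_norm_le_const (a := x) (b := 0)
      (f := fun s : ℝ => (‖D.Q.eval (e.symm (s + y * Complex.I))‖ ^ 2)⁻¹) (C := H) (by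
        intro s hs
        apply hH
        apply hmem
        have h4 := uIoc_subset_uIcc hs
        rw [mem_uIcc] at h4
        rw [abs_lt] at hxl
        rcases h4 with h4 | h4
        · exact ⟨by linarith [h4.1], by linarith [h4.2]⟩
        · exact ⟨by linarith [h4.1], by linarith [h4.2]⟩)
    rw [Real.norm_eq_abs] at h3
    refine h3.trans ?_
    rw [zero_sub, abs_neg]
    exact mul_le_mul_of_nonneg_left hxl.le hH0

/-- the crossing times in a bounded time interval are finitely many -/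
theorem finite_crossings {v : ℂ → ℂ} {R0 R1 : ℝ} (hR01 : R0 < R1)
    (hv : ∀ z, ‖z‖ ≤ R1 → v z = D.V0 z) {Γ : ℝ → ℂ} (hΓ : ∀ t, HasDerivAt Γ (v (Γ t)) t)
    (hreg : ∀ t, 0 ≤ t → ‖Γ t‖ ≤ R0 ∧ D.R.eval (Γ t) ≠ 0 ∧ D.Q.eval (Γ t) ≠ 0)
    {e : OpenPartialHomeomorph ℂ ℂ}
    (he3 : ∀ z ∈ e.source, HasDerivAt e (D.Q.eval z / D.R.eval z) z ∧ D.Q.eval z ≠ 0 ∧
        D.R.eval z ≠ 0) {ε : ℝ} (hε : 0 < ε) (hεt : ball (0 : ℂ) ε ⊆ e.target) (M : ℝ) :
    {t : ℝ | t ∈ Icc 0 M ∧ ∃ y : ℝ, |y| ≤ ε / 4 ∧ Γ t = e.symm (y * Complex.I)}.Finite := by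
  have hΓc : Continuous Γ := continuous_iff_continuousAt.2 fun t => (hΓ t).continuousAt
  set T : Set ℝ := {t : ℝ | t ∈ Icc 0 M ∧ ∃ y : ℝ, |y| ≤ ε / 4 ∧ Γ t = e.symm (y * Complex.I)} with hT
  have hyt : ∀ y : ℝ, |y| ≤ ε / 4 → (y : ℂ) * Complex.I ∈ e.target := by
    intro y hy
    apply hεt
    rw [mem_ball_zero_iff, norm_mul, Complex.norm_I, mul_one, Complex.norm_real, Real.norm_eq_abs]
    linarith
  set S : Set ℂ := (fun y : ℝ => e.symm (y * Complex.I)) '' Icc (-(ε / 4)) (ε / 4) with hS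
  have hSc : IsCompact S := by
    apply isCompact_Icc.image_of_continuousOn
    apply e.symm.continuousOn.comp (by fun_prop)
    intro y hy
    exact hyt y (abs_le.2 hy)
  have hTc : IsCompact T := by
    have : T = Icc 0 M ∩ Γ ⁻¹' S := by
      ext t
      constructor
      · rintro ⟨h1, y, h2, h3⟩
        exact ⟨h1, y, abs_le.1 h2, h3.symm⟩
      · rintro ⟨h1, y, h2, h3⟩
        exact ⟨h1, y, abs_le.2 h2, h3.symm⟩
    rw [this]
    exact isCompact_Icc.inter_right (hSc.isClosed.preimage hΓc)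
  by_contra hinf
  have hinf' : T.Infinite := hinf
  obtain ⟨t, htT, hacc⟩ := hinf'.exists_accPt_of_subset_isCompact hTc (Subset.refl _)
  rw [accPt_iff_frequently] at hacc
  obtain ⟨ht0, y, hy, hty⟩ := htT
  have hsrc : Γ t ∈ e.source := by rw [hty]; exact e.map_target (hyt y hy)
  obtain ⟨h4, h5, h6⟩ := he3 _ hsrc
  have hgt := (hreg t ht0.1).1
  have h7 : HasDerivAt (fun t => (e (Γ t)).re) (‖D.Q.eval (Γ t)‖ ^ 2) t := by
    have g3 := h4.scomp t (hΓ t)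
    have g4 := (Complex.reCLM.hasFDerivAt.comp_hasDerivAt t g3)
    refine g4.congr_deriv ?_
    rw [hv _ (hgt.trans hR01.le), smul_eq_mul, Complex.reCLM_apply]
    unfold V0
    have : D.R.eval (Γ t) * (starRingEnd ℂ) (D.Q.eval (Γ t)) * (D.Q.eval (Γ t) / D.R.eval (Γ t)) =
        ((‖D.Q.eval (Γ t)‖ ^ 2 : ℝ) : ℂ) := by
      rw [← Complex.normSq_eq_norm_sq, ← Complex.mul_conj]
      field_simp
    rw [this, Complex.ofReal_re]
  have hq : ‖D.Q.eval (Γ t)‖ ^ 2 ≠ 0 := by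
    have := norm_pos_iff.2 h5
    positivity
  have h8 := h7.eventually_ne (c := 0) hq
  rw [eventually_nhdsWithin_iff] at h8
  obtain ⟨s, ⟨hsne, hsT⟩, hs8⟩ := (hacc.and_eventually h8).exists
  obtain ⟨-, y', hy', hsy'⟩ := hsT
  apply hs8 hsne
  rw [hsy', e.right_inv (hyt y' hy')]
  simp

/-- a pair of consecutive crossings at small distance -/
theorem exists_pair {v : ℂ → ℂ} {K : ℝ≥0} (hL : LipschitzWith K v) {R0 R1 : ℝ} (hR01 : R0 < R1)
    (hv : ∀ z, ‖z‖ ≤ R1 → v z = D.V0 z) {Γ : ℝ → ℂ} (hΓ : ∀ t, HasDerivAt Γ (v (Γ t)) t)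
    (hreg : ∀ t, 0 ≤ t → ‖Γ t‖ ≤ R0 ∧ D.R.eval (Γ t) ≠ 0 ∧ D.Q.eval (Γ t) ≠ 0)
    (hinj : InjOn Γ (Ici 0)) {q : ℂ} (hacc : MapClusterPt q atTop Γ)
    {e : OpenPartialHomeomorph ℂ ℂ} (he1 : q ∈ e.source) (he2 : e q = 0)
    (he3 : ∀ z ∈ e.source, HasDerivAt e (D.Q.eval z / D.R.eval z) z ∧ D.Q.eval z ≠ 0 ∧
        D.R.eval z ≠ 0)
    (he4 : ∀ ζ ∈ e.target, HasDerivAt e.symm (D.X (e.symm ζ)) ζ) {ε : ℝ} (hε : 0 < ε)
    (hεt : ball (0 : ℂ) ε ⊆ e.target) (hεR : ∀ ζ ∈ ball (0 : ℂ) ε, ‖e.symm ζ‖ ≤ R1)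
    {η : ℝ} (hη : 0 < η) :
    ∃ s s' y y' : ℝ, 0 ≤ s ∧ s < s' ∧ y ≠ y' ∧ |y - y'| < η ∧ |y| ≤ ε / 4 ∧ |y'| ≤ ε / 4 ∧
      Γ s = e.symm (y * Complex.I) ∧ Γ s' = e.symm (y' * Complex.I) ∧
      ∀ t ∈ Ioo s s', ∀ w ∈ Icc (0 : ℝ) 1,
        Γ t ≠ e.symm (((y' + w * (y - y') : ℝ) : ℂ) * Complex.I) := by
  classical
  obtain ⟨C0, hC0, hcr⟩ := D.crossing hL hv hΓ he3 he4 hε hεt hεR
  have hyt : ∀ y : ℝ, |y| ≤ ε / 4 → (y : ℂ) * Complex.I ∈ e.target := by
    intro y hy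
    apply hεt
    rw [mem_ball_zero_iff, norm_mul, Complex.norm_I, mul_one, Complex.norm_real, Real.norm_eq_abs]
    linarith
  -- late crossings close to the centre
  have hlate : ∀ M : ℝ, ∃ t y : ℝ, M ≤ t ∧ |y| ≤ ε / 4 ∧ |y| < η / 2 ∧
      Γ t = e.symm (y * Complex.I) := by
    intro M
    have hU : e.source ∩ e ⁻¹' ball 0 (min (ε / 4) (η / 2)) ∈ 𝓝 q := by
      apply (e.isOpen_inter_preimage isOpen_ball).mem_nhds
      refine ⟨he1, ?_⟩
      rw [mem_preimage, he2]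
      exact mem_ball_self (lt_min (by positivity) (by positivity))
    have h1 := (mapClusterPt_iff_frequently.1 hacc) _ hU
    obtain ⟨τ, ⟨hτ1, hτ2⟩, hτ3⟩ := (h1.and_eventually (eventually_ge_atTop (M + C0))).exists
    rw [mem_preimage, mem_ball_zero_iff] at hτ2
    obtain ⟨t, ht1, ht2⟩ := hcr τ hτ1 (hτ2.trans_le (min_le_left _ _))
    have him := (Complex.abs_im_le_norm (e (Γ τ))).trans_lt hτ2
    refine ⟨t, (e (Γ τ)).im, ?_, (him.trans_le (min_le_left _ _)).le,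
      him.trans_le (min_le_right _ _), ht2⟩
    have := (abs_le.1 ht1).1
    linarith
  obtain ⟨t1, y1, h11, h12, h13, h14⟩ := hlate 0
  obtain ⟨t2, y2, h21, h22, h23, h24⟩ := hlate (t1 + 1)
  set T : Set ℝ := {t : ℝ | t ∈ Icc 0 t2 ∧ ∃ y : ℝ, |y| ≤ ε / 4 ∧ Γ t = e.symm (y * Complex.I)} with hT
  have hfin : T.Finite := D.finite_crossings hR01 hv hΓ hreg he3 hε hεt t2
  set ht : ℝ → ℝ := fun t => (e (Γ t)).im with hht
  have hheight : ∀ t y : ℝ, |y| ≤ ε / 4 → Γ t = e.symm (y * Complex.I) → ht t = y := by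
    intro t y hy h
    simp only [hht]
    rw [h, e.right_inv (hyt y hy)]
    simp
  have hTht : ∀ t ∈ T, |ht t| ≤ ε / 4 ∧ Γ t = e.symm (ht t * Complex.I) := by
    rintro t ⟨-, y, hy, h⟩
    rw [hheight t y hy h]
    exact ⟨hy, h⟩
  have ht1T : t1 ∈ T := ⟨⟨h11, by linarith⟩, y1, h12, h14⟩
  have ht2T : t2 ∈ T := ⟨⟨by linarith, le_rfl⟩, y2, h22, h24⟩
  set P : Finset (ℝ × ℝ) := hfin.toFinset.offDiag with hP
  have hPne : P.Nonempty := by
    refine ⟨(t1, t2), ?_⟩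
    rw [hP, Finset.mem_offDiag]
    refine ⟨hfin.mem_toFinset.2 ht1T, hfin.mem_toFinset.2 ht2T, ?_⟩
    intro h
    simp only at h
    linarith
  obtain ⟨⟨a, b⟩, hab, hmin⟩ := P.exists_min_image (fun p => |ht p.1 - ht p.2|) hPne
  rw [hP, Finset.mem_offDiag] at hab
  obtain ⟨ha, hb, hne⟩ := hab
  simp only [hfin.mem_toFinset] at ha hb
  simp only at hne
  have hmin' : ∀ u ∈ T, ∀ u' ∈ T, u ≠ u' → |ht a - ht b| ≤ |ht u - ht u'| := by
    intro u hu u' hu' huu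
    apply hmin (u, u')
    rw [hP, Finset.mem_offDiag]
    exact ⟨hfin.mem_toFinset.2 hu, hfin.mem_toFinset.2 hu', huu⟩
  have hord : ∃ s s', s ∈ T ∧ s' ∈ T ∧ s < s' ∧
      ∀ u ∈ T, ∀ u' ∈ T, u ≠ u' → |ht s - ht s'| ≤ |ht u - ht u'| := by
    rcases lt_or_gt_of_ne hne with h | h
    · exact ⟨a, b, ha, hb, h, hmin'⟩
    · refine ⟨b, a, hb, ha, h, fun u hu u' hu' huu => ?_⟩
      rw [abs_sub_comm]
      exact hmin' u hu u' hu' huu
  obtain ⟨s, s', hs, hs', hss, hminss⟩ := hord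
  obtain ⟨k1, k2⟩ := hTht s hs
  obtain ⟨k3, k4⟩ := hTht s' hs'
  have hyne : ht s ≠ ht s' := by
    intro h
    rw [h, ← k4] at k2
    exact absurd (hinj hs.1.1 hs'.1.1 k2) (ne_of_lt hss)
  refine ⟨s, s', ht s, ht s', hs.1.1, hss, hyne, ?_, k1, k3, k2, k4, ?_⟩
  · have h1 := hminss t1 ht1T t2 ht2T (ne_of_lt (by linarith))
    rw [hheight t1 y1 h12 h14, hheight t2 y2 h22 h24] at h1
    have h2 : |y1 - y2| ≤ |y1| + |y2| := by
      have := abs_add_le y1 (-y2)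
      rw [abs_neg] at this
      simpa [sub_eq_add_neg] using this
    linarith
  · intro t ht' w hw heq
    set y'' : ℝ := ht s' + w * (ht s - ht s') with hy''
    have hy''b : |y''| ≤ ε / 4 := by
      have : y'' = (1 - w) * ht s' + w * ht s := by rw [hy'']; ring
      rw [this]
      have e1 := abs_add_le ((1 - w) * ht s') (w * ht s)
      rw [abs_mul, abs_mul, abs_of_nonneg hw.1,
        abs_of_nonneg (show (0 : ℝ) ≤ 1 - w by linarith [hw.2])] at e1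
      have e2 := mul_le_mul_of_nonneg_left k3 (by linarith [hw.2] : 0 ≤ 1 - w)
      have e3 := mul_le_mul_of_nonneg_left k1 hw.1
      linarith
    have htT : t ∈ T := ⟨⟨hs.1.1.trans ht'.1.le, ht'.2.le.trans hs'.1.2⟩, y'', hy''b, heq⟩
    have hhy : ht t = y'' := hheight t y'' hy''b heq
    have m1 := hminss t htT s hs (ne_of_gt ht'.1)
    have m2 := hminss t htT s' hs' (ne_of_lt ht'.2)
    rw [hhy] at m1 m2
    have hd : 0 < |ht s - ht s'| := abs_pos.2 (sub_ne_zero.2 hyne)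
    have m3 : |y'' - ht s| = (1 - w) * |ht s - ht s'| := by
      have : y'' - ht s = -((1 - w) * (ht s - ht s')) := by rw [hy'']; ring
      rw [this, abs_neg, abs_mul, abs_of_nonneg (show (0 : ℝ) ≤ 1 - w by linarith [hw.2])]
    have m4 : |y'' - ht s'| = w * |ht s - ht s'| := by
      have : y'' - ht s' = w * (ht s - ht s') := by rw [hy'']; ring
      rw [this, abs_mul, abs_of_nonneg hw.1]
    rw [m3] at m1
    rw [m4] at m2
    have w0 : 1 ≤ 1 - w := by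
      by_contra hcon
      push Not at hcon
      nlinarith
    have w1 : 1 ≤ w := by
      by_contra hcon
      push Not at hcon
      nlinarith
    linarith

end Dat

end Pool.Agent.Helper65.EV
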