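import Mathlib
import Pool.Agent.Helper65.EV.Recur2

/-! Trajectories of rational vector fields are not recurrent, conclusion. -/

set_option autoImplicit false

open Topology Filter Metric Set MeasureTheory Polynomial
open scoped Real NNReal

namespace Pool.Agent.Helper65.EV

open Pool.Agent.Helper65.EU

namespace Dat

variable (D : Dat)

theorem no_recur {v : ℂ → ℂ} {K : ℝ≥0} (hL : LipschitzWith K v) {R0 R1 : ℝ} (hR01 : R0 < R1)
    (hv : ∀ z, ‖z‖ ≤ R1 → v z = D.V0 z) {Γ : ℝ → ℂ} (hΓ : ∀ t, HasDerivAt Γ (v (Γ t)) t)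
    (hreg : ∀ t, 0 ≤ t → ‖Γ t‖ ≤ R0 ∧ D.R.eval (Γ t) ≠ 0 ∧ D.Q.eval (Γ t) ≠ 0)
    (hinj : InjOn Γ (Ici 0)) {q : ℂ} (hq : D.R.eval q ≠ 0) (hq' : D.Q.eval q ≠ 0)
    (hacc : MapClusterPt q atTop Γ) : False := by
  classical
  obtain ⟨η, hη, hgap⟩ := D.gap
  obtain ⟨e, he1, he2, he3, he4⟩ := D.chart hq hq'
  have hΓc : Continuous Γ := continuous_iff_continuousAt.2 fun t => (hΓ t).continuousAt
  -- the point q is in the ball
  have hqR : ‖q‖ ≤ R0 := by
    have h1 : IsClosed (closedBall (0 : ℂ) R0) := isClosed_closedBall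
    by_contra hcon
    push Not at hcon
    have h2 : (closedBall (0 : ℂ) R0)ᶜ ∈ 𝓝 q := by
      apply h1.isOpen_compl.mem_nhds
      rw [mem_compl_iff, mem_closedBall_zero_iff, not_le]
      exact hcon
    have h3 := (mapClusterPt_iff_frequently.1 hacc) _ h2
    obtain ⟨t, ht1, ht2⟩ := (h3.and_eventually (eventually_ge_atTop (0 : ℝ))).exists
    apply ht1
    rw [mem_closedBall_zero_iff]
    exact (hreg t ht2).1
  have hnb : {z | D.R.eval z ≠ 0} ∩ ball (0 : ℂ) R1 ∈ 𝓝 q := by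
    apply ((isOpen_ne_fun D.R.continuous continuous_const).inter isOpen_ball).mem_nhds
    exact ⟨hq, by rw [mem_ball_zero_iff]; linarith⟩
  obtain ⟨r, hr, hrb⟩ := Metric.nhds_basis_closedBall.mem_iff.1 hnb
  have h0t : (0 : ℂ) ∈ e.target := by rw [← he2]; exact e.map_source he1
  have hs0 : e.symm 0 = q := by rw [← he2]; exact e.left_inv he1
  have hsc : ContinuousAt e.symm 0 := e.symm.continuousAt h0t
  obtain ⟨ε1, hε1, hball1⟩ := Metric.isOpen_iff.1 e.open_target 0 h0t
  obtain ⟨ε2, hε2, hball2⟩ := Metric.continuousAt_iff.1 hsc r hr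
  set ε : ℝ := min ε1 ε2 with hεd
  have hε : 0 < ε := lt_min hε1 hε2
  have hεt : ball (0 : ℂ) ε ⊆ e.target := (ball_subset_ball (min_le_left _ _)).trans hball1
  have hεr : ∀ ζ ∈ ball (0 : ℂ) ε, e.symm ζ ∈ closedBall q r := by
    intro ζ hζ
    have := hball2 (lt_of_lt_of_le (mem_ball.1 hζ) (min_le_right _ _))
    rw [hs0] at this
    exact this.le
  have hεR : ∀ ζ ∈ ball (0 : ℂ) ε, ‖e.symm ζ‖ ≤ R1 := by
    intro ζ hζ
    have := (hrb (hεr ζ hζ)).2
    rw [mem_ball_zero_iff] at this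
    exact this.le
  obtain ⟨s, s', y, y', hs0', hss, hyy, hyη, hy1, hy2, hΓs, hΓs', hdis⟩ :=
    D.exists_pair hL hR01 hv hΓ hreg hinj hacc he1 he2 he3 he4 hε hεt hεR hη
  -- the closing curve
  set c : ℝ → ℂ := fun w => e.symm (((y' + w * (y - y') : ℝ) : ℂ) * Complex.I) with hc
  set c' : ℝ → ℂ := fun w => D.X (c w) * (((y - y' : ℝ) : ℂ) * Complex.I) with hc'
  have hcy : ∀ w ∈ Icc (0 : ℝ) 1, (((y' + w * (y - y') : ℝ) : ℂ) * Complex.I) ∈ ball (0 : ℂ) ε := by
    intro w hw
    have hb : |y' + w * (y - y')| ≤ ε / 4 := by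
      have : y' + w * (y - y') = (1 - w) * y' + w * y := by ring
      rw [this]
      have e1 := abs_add_le ((1 - w) * y') (w * y)
      rw [abs_mul, abs_mul, abs_of_nonneg hw.1,
        abs_of_nonneg (show (0 : ℝ) ≤ 1 - w by linarith [hw.2])] at e1
      have e2 := mul_le_mul_of_nonneg_left hy2 (by linarith [hw.2] : 0 ≤ 1 - w)
      have e3 := mul_le_mul_of_nonneg_left hy1 hw.1
      linarith
    rw [mem_ball_zero_iff, norm_mul, Complex.norm_I, mul_one, Complex.norm_real, Real.norm_eq_abs]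
    linarith
  have hcreg : ∀ w ∈ Icc (0 : ℝ) 1, D.Q.eval (c w) ≠ 0 ∧ D.R.eval (c w) ≠ 0 := by
    intro w hw
    exact (he3 _ (e.map_target (hεt (hcy w hw)))).2
  have hcd : ∀ w ∈ Icc (0 : ℝ) 1, HasDerivAt c (c' w) w := by
    intro w hw
    have h2 := he4 _ (hεt (hcy w hw))
    have h3 : HasDerivAt (fun w : ℝ => ((y' + w * (y - y') : ℝ) : ℂ) * Complex.I)
        (((y - y' : ℝ) : ℂ) * Complex.I) w := by
      have e1 : HasDerivAt (fun w : ℝ => y' + w * (y - y')) (y - y') w := by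
        simpa using ((hasDerivAt_id w).mul_const (y - y')).const_add y'
      exact (e1.ofReal_comp).mul_const Complex.I
    have h4 := h2.scomp w h3
    refine h4.congr_deriv ?_
    rw [smul_eq_mul, mul_comm]
  have hcc : ContinuousOn c' (Icc 0 1) := by
    have hcont : ContinuousOn c (Icc 0 1) := fun w hw => (hcd w hw).continuousAt.continuousWithinAt
    apply ContinuousOn.mul _ continuousOn_const
    unfold X
    apply ContinuousOn.div
    · exact D.R.continuous.comp_continuousOn hcont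
    · exact D.Q.continuous.comp_continuousOn hcont
    · intro w hw
      exact (hcreg w hw).1
  have hsub : Icc s s' ⊆ Ici 0 := fun t ht => hs0'.trans ht.1
  have hV0 : ∀ t, 0 ≤ t → v (Γ t) = D.V0 (Γ t) := fun t ht =>
    hv _ ((hreg t ht).1.trans hR01.le)
  have L : Loop Γ (fun t => v (Γ t)) c c' s s' := by
    refine ⟨hss, fun t _ => hΓ t, (hL.continuous.comp hΓc).continuousOn, ?_, hinj.mono hsub, hcd, hcc,
      ?_, ?_, hdis⟩
    · intro t ht
      have ht0 : 0 ≤ t := hsub ht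
      show v (Γ t) ≠ 0
      rw [hV0 t ht0]
      unfold V0
      exact mul_ne_zero (hreg t ht0).2.1 ((_root_.map_ne_zero _).2 (hreg t ht0).2.2)
    · simp only [hc]
      rw [hΓs']
      congr 2
      simp
    · simp only [hc]
      rw [hΓs]
      congr 2
      push_cast
      ring
  have hch : ∀ t ∈ Ioo s s', Ch Γ (fun t => v (Γ t)) t := by
    intro t ht
    have ht0 : 0 < t := lt_of_le_of_lt hs0' ht.1
    apply D.ch_of
    · filter_upwards [lt_mem_nhds ht0] with u hu
      exact ⟨hΓ u, hV0 u hu.le⟩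
    · exact (hreg t ht0.le).2.1
    · exact (hreg t ht0.le).2.2
  have hcq : ∀ w ∈ Icc (0 : ℝ) 1, c w ∈ closedBall q r := fun w hw => hεr _ (hcy w hw)
  have hw : ∀ a ∈ D.zs, ∃ n : ℤ, |n| ≤ 9 ∧ L.N a = n * (2 * π * Complex.I) := by
    intro a ha
    have ha0 := D.mem_zs.1 ha
    apply L.winding_bound hch hcq
    · intro h
      exact (hrb h).1 ha0
    · rintro (⟨t, ht, h⟩ | ⟨w, hw, h⟩)
      · apply (hreg t (hsub ht)).2.1
        rw [h]
        exact ha0
      · apply (hcreg w hw).2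
        rw [h]
        exact ha0
  choose! n hn1 hn2 using hw
  have hsum1 := D.sum_J hss.le (γ := Γ) (γ' := fun t => v (Γ t)) (fun t _ => hΓ t)
    (hL.continuous.comp hΓc).continuousOn (fun t ht => (hreg t (hsub ht)).2.1)
  have hsum2 := D.sum_J zero_le_one hcd hcc (fun t ht => (hcreg t ht).2)
  have hI1 : (∫ t in s..s', v (Γ t) * (D.Q.eval (Γ t) / D.R.eval (Γ t))).im = 0 := by
    have : ∫ t in s..s', v (Γ t) * (D.Q.eval (Γ t) / D.R.eval (Γ t)) =
        ∫ t in s..s', ((‖D.Q.eval (Γ t)‖ ^ 2 : ℝ) : ℂ) := by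
      apply intervalIntegral.integral_congr
      intro t ht
      rw [uIcc_of_le hss.le] at ht
      have ht0 : 0 ≤ t := hsub ht
      have h5 := (hreg t ht0).2.1
      simp only
      rw [hV0 t ht0]
      unfold V0
      rw [← Complex.normSq_eq_norm_sq, ← Complex.mul_conj]
      field_simp
    rw [this, intervalIntegral.integral_ofReal, Complex.ofReal_im]
  have hI2 : ∫ w in (0 : ℝ)..1, c' w * (D.Q.eval (c w) / D.R.eval (c w)) =
      ((y - y' : ℝ) : ℂ) * Complex.I := by
    have : ∫ w in (0 : ℝ)..1, c' w * (D.Q.eval (c w) / D.R.eval (c w)) =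
        ∫ w in (0 : ℝ)..1, ((y - y' : ℝ) : ℂ) * Complex.I := by
      apply intervalIntegral.integral_congr
      intro w hw
      rw [uIcc_of_le zero_le_one] at hw
      obtain ⟨h5, h6⟩ := hcreg w hw
      simp only [hc']
      unfold X
      field_simp
    rw [this, intervalIntegral.integral_const]
    simp
  have htot : ∑ a ∈ D.zs, D.ρ a * L.N a =
      (∫ t in s..s', v (Γ t) * (D.Q.eval (Γ t) / D.R.eval (Γ t))) +
      ((y - y' : ℝ) : ℂ) * Complex.I := by
    rw [← hsum1, ← hI2, ← hsum2, ← Finset.sum_add_distrib]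
    refine Finset.sum_congr rfl fun a _ => ?_
    unfold Loop.N
    ring
  have him := congrArg Complex.im htot
  rw [Complex.add_im, hI1, zero_add, Complex.im_sum] at him
  have hR : (((y - y' : ℝ) : ℂ) * Complex.I).im = y - y' := by simp
  rw [hR] at him
  have hL2 : ∑ a ∈ D.zs, (D.ρ a * L.N a).im = ∑ a ∈ D.zs, 2 * π * n a * (D.ρ a).re := by
    refine Finset.sum_congr rfl fun a ha => ?_
    rw [hn2 a ha]
    have : D.ρ a * ((n a : ℂ) * (2 * π * Complex.I)) =
        ((2 * π * n a : ℝ) : ℂ) * (D.ρ a * Complex.I) := by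
      push_cast; ring
    rw [this]
    simp [Complex.mul_im, Complex.mul_re]
  rw [hL2] at him
  have h9 := hgap n hn1 (by rw [him]; exact hyη)
  rw [him] at h9
  exact hyy (sub_eq_zero.1 h9)

end Dat

end Pool.Agent.Helper65.EV
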