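import Mathlib
import Pool.Agent.Helper65.EV.Recur3

/-! Trajectories which do not reach a sink. -/

set_option autoImplicit false

open Topology Filter Metric Set MeasureTheory Polynomial
open scoped Real NNReal

namespace Pool.Agent.Helper65.EV

open Pool.Agent.Helper65.EU

theorem barrier {f f' : ℝ → ℝ} (hf : ∀ t, HasDerivAt f (f' t) t) (h0 : 0 < f 0)
    (h : ∀ t, 0 ≤ t → f t = 0 → 0 < f' t) : ∀ t, 0 ≤ t → 0 < f t := by
  have hc : Continuous f := continuous_iff_continuousAt.2 fun t => (hf t).continuousAt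
  intro t ht
  by_contra hcon
  push Not at hcon
  set S : Set ℝ := {s | 0 ≤ s ∧ f s ≤ 0} with hS
  have hSc : IsClosed S := by
    have : S = Ici 0 ∩ f ⁻¹' Iic 0 := rfl
    rw [this]
    exact isClosed_Ici.inter (isClosed_Iic.preimage hc)
  have hne : S.Nonempty := ⟨t, ht, hcon⟩
  have hbb : BddBelow S := ⟨0, fun s hs => hs.1⟩
  have hm := hSc.csInf_mem hne hbb
  set m := sInf S with hmd
  have hm0 : 0 < m := by
    rcases eq_or_lt_of_le hm.1 with h1 | h1
    · rw [← h1] at hm
      linarith [hm.2]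
    · exact h1
  have hlt : ∀ s, 0 ≤ s → s < m → 0 < f s := by
    intro s hs hsm
    by_contra hcon2
    push Not at hcon2
    exact absurd (csInf_le hbb (show s ∈ S from ⟨hs, hcon2⟩)) (not_le.2 hsm)
  have hfm : f m = 0 := by
    apply le_antisymm hm.2
    have h1 : Tendsto f (𝓝[<] m) (𝓝 (f m)) := (hc.tendsto m).mono_left nhdsWithin_le_nhds
    apply ge_of_tendsto h1
    filter_upwards [Ioo_mem_nhdsLT hm0] with s hs
    exact (hlt s hs.1.le hs.2).le
  have hd := h m hm.1 hfm
  have hd2 : HasDerivAt (fun y => -f (m - y)) (f' m) 0 := by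
    have e1 : HasDerivAt (fun y : ℝ => m - y) (-1) 0 := by
      simpa using (hasDerivAt_id (0 : ℝ)).const_sub m
    have e2 : HasDerivAt f (f' m) (m - 0) := by rw [sub_zero]; exact hf m
    have e3 := (e2.comp (0 : ℝ) e1).fun_neg
    refine e3.congr_deriv (by ring)
  have h3 := pos_right hd2 (by simp [hfm]) hd
  obtain ⟨y, hy1, hy2⟩ := (h3.and (Ioo_mem_nhdsGT hm0)).exists
  have := hlt (m - y) (by linarith [hy2.2]) (by linarith [hy2.1])
  linarith

/-- convergence of logarithms -/
theorem log_conv {L : ℝ → ℂ} {T : ℝ} (hL : ContinuousOn L (Ioi T)) {w : ℂ} (hw : w ≠ 0)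
    (h : Tendsto (fun t => Complex.exp (L t)) atTop (𝓝 w)) :
    ∃ ℓ : ℂ, Complex.exp ℓ = w ∧ Tendsto L atTop (𝓝 ℓ) := by
  set ω := Complex.log w with hω
  have hexp : Complex.exp ω = w := Complex.exp_log hw
  have h1 : Tendsto (fun t => Complex.exp (L t - ω)) atTop (𝓝 1) := by
    have : (fun t => Complex.exp (L t - ω)) = fun t => Complex.exp (L t) / w := by
      funext t
      rw [Complex.exp_sub, hexp]
    rw [this]
    have := h.div_const w
    rwa [div_self hw] at this
  have h2 : ∀ᶠ t in atTop, Complex.exp (L t - ω) ∈ Complex.slitPlane :=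
    h1.eventually_mem (Complex.isOpen_slitPlane.mem_nhds Complex.one_mem_slitPlane)
  obtain ⟨T', hT'⟩ := eventually_atTop.1 h2
  set T₁ := max T T' with hT₁
  set G : ℝ → ℂ := fun t => L t - ω - Complex.log (Complex.exp (L t - ω)) with hG
  have hGc : ContinuousOn G (Ioi T₁) := by
    have e1 : ContinuousOn (fun t => L t - ω) (Ioi T₁) :=
      (hL.mono (Ioi_subset_Ioi (le_max_left _ _))).sub continuousOn_const
    apply e1.sub
    apply ContinuousOn.clog e1.cexp
    intro t ht
    exact hT' t ((le_max_right _ _).trans (le_of_lt ht))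
  have hGint : ∀ t, ∃ n : ℤ, G t = n * (2 * π * Complex.I) := by
    intro t
    apply Complex.exp_eq_one_iff.1
    rw [hG]
    simp only
    rw [Complex.exp_sub, Complex.exp_log (Complex.exp_ne_zero _), div_self (Complex.exp_ne_zero _)]
  have hloc : ∀ t ∈ Ioi T₁, ∀ᶠ s in 𝓝 t, G s = G t := by
    intro t ht
    have hct : ContinuousAt G t := hGc.continuousAt (Ioi_mem_nhds ht)
    have := Metric.continuousAt_iff.1 hct 1 one_pos
    obtain ⟨δ, hδ, hδ2⟩ := this
    filter_upwards [ball_mem_nhds t hδ] with s hs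
    have h3 := hδ2 hs
    obtain ⟨n, hn⟩ := hGint s
    obtain ⟨m, hm⟩ := hGint t
    rw [hn, hm, dist_eq_norm] at h3
    rw [hn, hm]
    have e1 : ((n : ℂ) * (2 * π * Complex.I) - m * (2 * π * Complex.I)) =
        ((n - m : ℤ) : ℂ) * (2 * π * Complex.I) := by push_cast; ring
    rw [e1, norm_mul] at h3
    have e2 : ‖(2 * π * Complex.I : ℂ)‖ = 2 * π := by
      simp [abs_of_pos Real.pi_pos]
    rw [e2, Complex.norm_intCast] at h3
    have h4 : |((n - m : ℤ) : ℝ)| < 1 := by
      have := Real.pi_gt_three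
      by_contra hcon
      push Not at hcon
      nlinarith
    have h5 : n - m = 0 := by
      rw [← Int.cast_abs] at h4
      have : |n - m| < 1 := by exact_mod_cast h4
      exact Int.abs_lt_one_iff.1 this
    have h6 : n = m := by omega
    rw [h6]
  set c := G (T₁ + 1) with hc
  obtain ⟨n, hn⟩ := hGint (T₁ + 1)
  have hconst : ∀ t ∈ Ioi T₁, G t = c := fun t ht =>
    const_on isPreconnected_Ioi hloc t ht (T₁ + 1) (by simp)
  refine ⟨ω + c, ?_, ?_⟩
  · rw [Complex.exp_add, hexp, hc, hn, Complex.exp_int_mul_two_pi_mul_I, mul_one]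
  · have h7 : Tendsto (fun t => ω + c + Complex.log (Complex.exp (L t - ω))) atTop
        (𝓝 (ω + c + Complex.log 1)) := by
      apply Tendsto.const_add
      exact (continuousAt_clog Complex.one_mem_slitPlane).tendsto.comp h1
    rw [Complex.log_one, add_zero] at h7
    apply h7.congr'
    filter_upwards [eventually_gt_atTop T₁] with t ht
    have := hconst t ht
    rw [← this, hG]
    ring

namespace Dat

variable (D : Dat)

/-- the cofactor of a zero -/
theorem exists_cof {a : ℂ} (ha : a ∈ D.zs) : ∃ Ra : ℂ[X], (∀ z, D.R.eval z = (z - a) * Ra.eval z) ∧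
    Ra.eval a = (derivative D.R).eval a ∧ Ra.natDegree = D.Q.natDegree := by
  have h1 : (Polynomial.X - Polynomial.C a) ∣ D.R := dvd_iff_isRoot.2 (D.mem_zs.1 ha)
  obtain ⟨Ra, hRa⟩ := h1
  have hRa0 : Ra ≠ 0 := by
    rintro rfl
    exact D.R_ne (by rw [hRa, mul_zero])
  refine ⟨Ra, fun z => ?_, ?_, ?_⟩
  · rw [hRa, eval_mul, eval_sub, eval_X, eval_C]
  · rw [hRa, derivative_mul, eval_add, eval_mul, eval_mul]
    simp
  · have h2 := congrArg natDegree hRa
    rw [natDegree_mul (X_sub_C_ne_zero a) hRa0, natDegree_X_sub_C, D.hd] at h2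
    omega

/-- the direction of the field near a zero -/
theorem near_zero {a : ℂ} (ha : a ∈ D.zs) (hre : (D.ρ a).re ≠ 0) : ∃ r : ℝ, 0 < r ∧
    ∀ z, z ≠ a → ‖z - a‖ ≤ r → D.Q.eval z ≠ 0 ∧
      0 < (D.ρ a).re * ((starRingEnd ℂ) (z - a) * D.V0 z).re := by
  obtain ⟨Ra, h1, h2, -⟩ := D.exists_cof ha
  set m : ℂ → ℂ := fun z => Ra.eval z * (starRingEnd ℂ) (D.Q.eval z) with hm
  have hmc : Continuous m := by
    apply Continuous.mul Ra.continuous
    exact Complex.continuous_conj.comp D.Q.continuous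
  have hma : 0 < (D.ρ a).re * (m a).re := by
    have e1 : m a = ((‖(derivative D.R).eval a‖ ^ 2 : ℝ) : ℂ) * (starRingEnd ℂ) (D.ρ a) := by
      simp only [hm]
      rw [h2]
      unfold ρ
      rw [map_div₀, ← Complex.normSq_eq_norm_sq, ← Complex.mul_conj]
      have := D.dR_zs ha
      have h3 : (starRingEnd ℂ) ((derivative D.R).eval a) ≠ 0 := (_root_.map_ne_zero _).2 this
      field_simp
    rw [e1, Complex.re_ofReal_mul, Complex.conj_re]
    have h4 : 0 < ‖(derivative D.R).eval a‖ ^ 2 := by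
      have := norm_pos_iff.2 (D.dR_zs ha)
      positivity
    have h5 : 0 < (D.ρ a).re ^ 2 := by positivity
    nlinarith
  have hev : ∀ᶠ z in 𝓝 a, D.Q.eval z ≠ 0 ∧ 0 < (D.ρ a).re * (m z).re := by
    apply Filter.Eventually.and
    · exact D.Q.continuous.continuousAt.eventually_ne (D.Q_zs ha)
    · have : ContinuousAt (fun z => (D.ρ a).re * (m z).re) a := by
        apply ContinuousAt.mul continuousAt_const
        exact Complex.continuous_re.continuousAt.comp hmc.continuousAt
      exact this.eventually (lt_mem_nhds hma)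
  obtain ⟨r, hr, hr2⟩ := Metric.nhds_basis_closedBall.eventually_iff.1 hev
  refine ⟨r, hr, fun z hz hzr => ?_⟩
  obtain ⟨h3, h4⟩ := hr2 (show z ∈ closedBall a r by rw [mem_closedBall, dist_eq_norm]; exact hzr)
  refine ⟨h3, ?_⟩
  have e2 : (starRingEnd ℂ) (z - a) * D.V0 z = ((‖z - a‖ ^ 2 : ℝ) : ℂ) * m z := by
    unfold V0
    simp only [hm]
    rw [h1, ← Complex.normSq_eq_norm_sq, ← Complex.mul_conj]
    ring
  rw [e2, Complex.re_ofReal_mul]
  have h5 : 0 < ‖z - a‖ ^ 2 := by
    have := norm_pos_iff.2 (sub_ne_zero.2 hz)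
    positivity
  nlinarith

/-- the multiplier at infinity -/
noncomputable def rinf : ℂ := D.R.leadingCoeff / D.Q.leadingCoeff

end Dat

end Pool.Agent.Helper65.EV
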