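import Mathlib
import Pool.Agent.Helper65.EV.Conf

/-! Trajectories reach a sink. -/

set_option autoImplicit false

open Topology Filter Metric Set MeasureTheory Polynomial
open scoped Real NNReal

namespace Pool.Agent.Helper65.EV

open Pool.Agent.Helper65.EU

theorem eval_reverse {p : ℂ[X]} {z : ℂ} (hz : z ≠ 0) :
    p.eval z = p.reverse.eval z⁻¹ * z ^ p.natDegree := by
  have hu : Invertible z := invertibleOfNonzero hz
  have h := Polynomial.eval₂_reverse_mul_pow (RingHom.id ℂ) z p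
  rw [invOf_eq_inv] at h
  exact h.symm

theorem reverse_zero (p : ℂ[X]) : p.reverse.eval 0 = p.leadingCoeff := by
  rw [← Polynomial.coeff_zero_eq_eval_zero, Polynomial.coeff_zero_reverse]

namespace Dat

variable (D : Dat)

theorem tendsto_rinf : Tendsto (fun z => D.R.eval z / (z * D.Q.eval z)) (Bornology.cobounded ℂ)
    (𝓝 D.rinf) := by
  have h1 : Tendsto (fun z : ℂ => D.R.reverse.eval z⁻¹ / D.Q.reverse.eval z⁻¹)
      (Bornology.cobounded ℂ) (𝓝 D.rinf) := by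
    have h2 : Tendsto (fun w : ℂ => D.R.reverse.eval w / D.Q.reverse.eval w) (𝓝 0)
        (𝓝 D.rinf) := by
      have h3 : ContinuousAt (fun w : ℂ => D.R.reverse.eval w / D.Q.reverse.eval w) 0 := by
        apply ContinuousAt.div D.R.reverse.continuous.continuousAt
          D.Q.reverse.continuous.continuousAt
        rw [reverse_zero]
        exact leadingCoeff_ne_zero.2 D.Q_ne
      have h4 := h3.tendsto
      rwa [reverse_zero, reverse_zero] at h4
    exact h2.comp tendsto_inv₀_cobounded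
  apply h1.congr'
  have h5 : ∀ᶠ z : ℂ in Bornology.cobounded ℂ, z ≠ 0 := by
    have := (tendsto_norm_cobounded_atTop (E := ℂ)).eventually (eventually_gt_atTop 0)
    filter_upwards [this] with z hz
    exact norm_pos_iff.1 hz
  filter_upwards [h5] with z hz
  rw [eval_reverse (p := D.R) hz, eval_reverse (p := D.Q) hz, D.hd, pow_succ]
  have : z ^ D.Q.natDegree ≠ 0 := pow_ne_zero _ hz
  rw [show z * (D.Q.reverse.eval z⁻¹ * z ^ D.Q.natDegree) =
    D.Q.reverse.eval z⁻¹ * (z ^ D.Q.natDegree * z) by ring]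
  rw [mul_div_mul_right _ _ (mul_ne_zero this hz)]

/-- the direction of the field near infinity -/
theorem near_inf (hre : D.rinf.re ≠ 0) : ∃ R0 : ℝ, 0 < R0 ∧ ∀ z, R0 ≤ ‖z‖ →
    D.Q.eval z ≠ 0 ∧ D.R.eval z ≠ 0 ∧ 0 < D.rinf.re * ((starRingEnd ℂ) z * D.V0 z).re := by
  have h1 : ∀ᶠ z in Bornology.cobounded ℂ, 0 < D.rinf.re *
      (D.R.eval z / (z * D.Q.eval z)).re := by
    have h2 : Tendsto (fun z => D.rinf.re * (D.R.eval z / (z * D.Q.eval z)).re)
        (Bornology.cobounded ℂ) (𝓝 (D.rinf.re * D.rinf.re)) :=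
      (Complex.continuous_re.continuousAt.tendsto.comp D.tendsto_rinf).const_mul _
    exact h2.eventually (lt_mem_nhds (mul_self_pos.2 hre))
  obtain ⟨r, -, hr⟩ := (hasBasis_cobounded_norm (E := ℂ)).eventually_iff.1 h1
  refine ⟨max r 1, by positivity, fun z hz => ?_⟩
  have h3 := hr (show z ∈ {x : ℂ | r ≤ ‖x‖} from (le_max_left _ _).trans hz)
  have hz0 : z ≠ 0 := by
    have : 1 ≤ ‖z‖ := (le_max_right _ _).trans hz
    exact norm_pos_iff.1 (by linarith)
  have hQ : D.Q.eval z ≠ 0 := by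
    intro h
    rw [h] at h3
    simp at h3
  have hR : D.R.eval z ≠ 0 := by
    intro h
    rw [h] at h3
    simp at h3
  refine ⟨hQ, hR, ?_⟩
  have h4 : (starRingEnd ℂ) z * D.V0 z =
      ((‖z‖ ^ 2 * ‖D.Q.eval z‖ ^ 2 : ℝ) : ℂ) * (D.R.eval z / (z * D.Q.eval z)) := by
    unfold V0
    push_cast
    rw [← Complex.ofReal_pow, ← Complex.ofReal_pow, ← Complex.normSq_eq_norm_sq,
      ← Complex.normSq_eq_norm_sq, ← Complex.mul_conj, ← Complex.mul_conj]
    field_simp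
  rw [h4, Complex.re_ofReal_mul]
  have h5 : 0 < ‖z‖ ^ 2 * ‖D.Q.eval z‖ ^ 2 := by
    have := norm_pos_iff.2 hz0
    have := norm_pos_iff.2 hQ
    positivity
  nlinarith

theorem deriv_normSq {Γ : ℝ → ℂ} {Γ' : ℂ} {t : ℝ} (h : HasDerivAt Γ Γ' t) (a : ℂ) :
    HasDerivAt (fun t => ‖Γ t - a‖ ^ 2) (2 * ((starRingEnd ℂ) (Γ t - a) * Γ').re) t := by
  have h1 := (h.sub_const a).norm_sq
  refine h1.congr_deriv ?_
  rw [Complex.inner, mul_comm Γ']

/-- the core stays in the disc when infinity is a source -/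
theorem stay_in {v : ℂ → ℂ} {R0 R1 : ℝ} (hR01 : R0 < R1)
    (hv : ∀ z, ‖z‖ ≤ R1 → v z = D.V0 z) (hre : D.rinf.re < 0)
    (hR0 : ∀ z, R0 ≤ ‖z‖ → 0 < D.rinf.re * ((starRingEnd ℂ) z * D.V0 z).re)
    (h0R : 0 < R0)
    {Γ : ℝ → ℂ} (hΓ : ∀ t, HasDerivAt Γ (v (Γ t)) t) (h0 : ‖Γ 0‖ < R0) :
    ∀ t, 0 ≤ t → ‖Γ t‖ < R0 := by
  have hb := barrier (f := fun t => R0 ^ 2 - ‖Γ t - 0‖ ^ 2)
    (f' := fun t => -(2 * ((starRingEnd ℂ) (Γ t - 0) * v (Γ t)).re))
    (fun t => (deriv_normSq (hΓ t) 0).const_sub _) (by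
      simp only [sub_zero]
      have := norm_nonneg (Γ 0)
      nlinarith) (by
      intro t _ ht
      simp only [sub_zero] at ht ⊢
      have h1 : ‖Γ t‖ = R0 := by
        have h2 : ‖Γ t‖ ^ 2 = R0 ^ 2 := by linarith
        exact (pow_left_inj₀ (norm_nonneg _) h0R.le two_ne_zero).1 h2
      rw [hv _ (by rw [h1]; exact hR01.le)]
      have h3 := hR0 (Γ t) h1.ge
      nlinarith)
  intro t ht
  have h1 := hb t ht
  simp only [sub_zero] at h1
  have := norm_nonneg (Γ t)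
  nlinarith

/-- trajectories do not enter the discs around sources -/
theorem stay_out {v : ℂ → ℂ} {R1 : ℝ}
    (hv : ∀ z, ‖z‖ ≤ R1 → v z = D.V0 z) {a : ℂ} (hre : 0 < (D.ρ a).re) {r : ℝ} (hr0 : 0 < r)
    (hr : ∀ z, z ≠ a → ‖z - a‖ ≤ r → 0 < (D.ρ a).re * ((starRingEnd ℂ) (z - a) * D.V0 z).re)
    (hrR : ∀ z, ‖z - a‖ ≤ r → ‖z‖ ≤ R1)
    {Γ : ℝ → ℂ} (hΓ : ∀ t, HasDerivAt Γ (v (Γ t)) t) (h0 : r < ‖Γ 0 - a‖) :
    ∀ t, 0 ≤ t → r < ‖Γ t - a‖ := by
  have hb := barrier (f := fun t => ‖Γ t - a‖ ^ 2 - r ^ 2)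
    (f' := fun t => (2 * ((starRingEnd ℂ) (Γ t - a) * v (Γ t)).re))
    (fun t => (deriv_normSq (hΓ t) a).sub_const _) (by
      nlinarith) (by
      intro t _ ht
      have h1 : ‖Γ t - a‖ = r := by
        have h2 : ‖Γ t - a‖ ^ 2 = r ^ 2 := by linarith
        exact (pow_left_inj₀ (norm_nonneg _) hr0.le two_ne_zero).1 h2
      rw [hv _ (hrR _ h1.le)]
      have hne : Γ t ≠ a := by
        intro h
        rw [h, sub_self, norm_zero] at h1
        linarith
      have h3 := hr (Γ t) hne h1.le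
      have := (mul_pos_iff_of_pos_left hre).1 h3
      linarith)
  intro t ht
  have h1 := hb t ht
  by_contra hcon
  push Not at hcon
  have := norm_nonneg (Γ t - a)
  nlinarith

end Dat

/-- a continuous curve all of whose cluster points are in a finite set converges -/
theorem conv_finite {Γ : ℝ → ℂ} (hΓ : Continuous Γ) {K : Set ℂ} (hK : IsCompact K) (F : Finset ℂ)
    (hmem : ∀ t, 0 ≤ t → Γ t ∈ K) (hcl : ∀ q ∈ K, MapClusterPt q atTop Γ → q ∈ F) :
    ∃ p ∈ F, Tendsto Γ atTop (𝓝 p) := by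
  classical
  have hev : ∀ ε : ℝ, 0 < ε → ∀ᶠ t in atTop, ∃ p ∈ F, Γ t ∈ ball p ε := by
    intro ε hε
    by_contra hcon
    rw [not_eventually] at hcon
    have hK2 : IsCompact (K \ ⋃ p ∈ F, ball p ε) :=
      hK.diff (isOpen_biUnion fun p _ => isOpen_ball)
    have hfr : ∃ᶠ t in atTop, Γ t ∈ K \ ⋃ p ∈ F, ball p ε := by
      refine (hcon.and_eventually (eventually_ge_atTop 0)).mono ?_
      rintro t ⟨h1, h2⟩
      refine ⟨hmem t h2, ?_⟩
      intro h3
      simp only [mem_iUnion] at h3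
      obtain ⟨p, hp, hp2⟩ := h3
      exact h1 ⟨p, hp, hp2⟩
    obtain ⟨q, hq, hq2⟩ := hK2.exists_mapClusterPt_of_frequently hfr
    have hqF := hcl q hq.1 hq2
    apply hq.2
    simp only [mem_iUnion]
    exact ⟨q, hqF, mem_ball_self hε⟩
  -- separation
  obtain ⟨ε0, hε0, hsep⟩ : ∃ ε0 : ℝ, 0 < ε0 ∧ ∀ p ∈ F, ∀ q ∈ F, p ≠ q → 2 * ε0 ≤ dist p q := by
    have h : ∀ x ∈ F ×ˢ F, ∀ᶠ η : ℝ in 𝓝[>] 0, x.1 ≠ x.2 → 2 * η ≤ dist x.1 x.2 := by
      intro x _
      by_cases hx : x.1 = x.2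
      · exact Eventually.of_forall fun _ h => absurd hx h
      · have : 0 < dist x.1 x.2 / 2 := half_pos (dist_pos.2 hx)
        filter_upwards [Ioo_mem_nhdsGT this] with η hη _
        linarith [hη.2]
    have h2 := (Filter.eventually_all_finset (F ×ˢ F)).2 h
    obtain ⟨η, h3, h4⟩ := (h2.and self_mem_nhdsWithin).exists
    exact ⟨η, h4, fun p hp q hq hpq => h3 (p, q) (Finset.mk_mem_product hp hq) hpq⟩
  have huniq : ∀ z p q, p ∈ F → q ∈ F → z ∈ ball p ε0 → z ∈ ball q ε0 → p = q := by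
    intro z p q hp hq h1 h2
    by_contra hne
    have h3 := hsep p hp q hq hne
    rw [mem_ball] at h1 h2
    have := dist_triangle_left p q z
    linarith
  obtain ⟨T, hT⟩ := eventually_atTop.1 (hev ε0 hε0)
  have hch : ∀ t : ℝ, ∃ p : ℂ, t ∈ Ioi T → p ∈ F ∧ Γ t ∈ ball p ε0 := by
    intro t
    by_cases ht : t ∈ Ioi T
    · obtain ⟨p, hp, hp2⟩ := hT t (le_of_lt ht)
      exact ⟨p, fun _ => ⟨hp, hp2⟩⟩
    · exact ⟨0, fun h => absurd h ht⟩
  choose idx hidx using hch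
  have hconst := const_on (f := idx) (S := Ioi T) isPreconnected_Ioi (by
    intro t ht
    obtain ⟨h1, h2⟩ := hidx t ht
    have h3 : ∀ᶠ s in 𝓝 t, Γ s ∈ ball (idx t) ε0 := hΓ.continuousAt.eventually_mem
      (isOpen_ball.mem_nhds h2)
    filter_upwards [h3, Ioi_mem_nhds ht] with s hs hs2
    obtain ⟨h4, h5⟩ := hidx s hs2
    exact huniq _ _ _ h4 h1 h5 hs)
  set p := idx (T + 1) with hp
  have hT1 : T + 1 ∈ Ioi T := by simp
  refine ⟨p, (hidx _ hT1).1, ?_⟩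
  rw [Metric.tendsto_nhds]
  intro ε hε
  filter_upwards [hev (min ε ε0) (lt_min hε hε0), eventually_gt_atTop T] with t ht ht2
  obtain ⟨q, hq, hq2⟩ := ht
  have h1 := hconst t ht2 (T + 1) hT1
  have h2 := (hidx t ht2).2
  rw [h1] at h2
  have h3 : q = p := huniq (Γ t) q p hq (hidx _ hT1).1 (ball_subset_ball (min_le_right _ _) hq2) h2
  rw [h3] at hq2
  exact mem_ball.1 (ball_subset_ball (min_le_left _ _) hq2)

end Pool.Agent.Helper65.EV
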