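import Mathlib

/-! The discrete equation `x' = x + 1 / x ^ m + E`. -/

set_option autoImplicit false

open Topology Filter Metric Set
open scoped Real

namespace Pool.Agent.Helper65.EV

theorem cone_re {m : ℕ} {x : ℂ} (hx : 0 < x.re) (h : |x.im| * (4 * (m + 1)) ≤ x.re) :
    (1 - (1 / (4 * ((m : ℝ) + 1))) ^ 2) * ‖x‖ ≤ x.re := by
  set τ : ℝ := 1 / (4 * ((m : ℝ) + 1)) with hτ
  have hm0 : (0 : ℝ) ≤ m := Nat.cast_nonneg m
  have hτ0 : 0 < τ := by positivity
  have hb : |x.im| ≤ τ * x.re := by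
    rw [hτ, div_mul_eq_mul_div, one_mul, le_div_iff₀ (by positivity)]
    exact h
  have hn : ‖x‖ ^ 2 = x.re ^ 2 + x.im ^ 2 := by
    rw [← Complex.normSq_eq_norm_sq, Complex.normSq_apply]
    ring
  have hb2 : x.im ^ 2 ≤ τ ^ 2 * x.re ^ 2 := by
    rw [← sq_abs x.im, ← mul_pow]
    exact pow_le_pow_left₀ (abs_nonneg _) hb 2
  apply le_of_sq_le_sq _ hx.le
  rw [mul_pow, hn]
  have h2 : (1 - τ ^ 2) ^ 2 * (x.re ^ 2 + x.im ^ 2) ≤ (1 - τ ^ 2) ^ 2 * ((1 + τ ^ 2) * x.re ^ 2) :=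
    mul_le_mul_of_nonneg_left (by linarith) (sq_nonneg _)
  have h3 : (1 - τ ^ 2) ^ 2 * (1 + τ ^ 2) ≤ 1 := by
    have e1 : (1 - τ ^ 2) ^ 2 * (1 + τ ^ 2) = 1 - τ ^ 2 * (1 + τ ^ 2 * (1 - τ ^ 2)) := by ring
    have hτ1 : τ ≤ 1 := by
      rw [hτ, div_le_one (by positivity)]
      linarith
    have hτ2 : τ ^ 2 ≤ 1 := pow_le_one₀ hτ0.le hτ1
    have : 0 ≤ τ ^ 2 * (1 + τ ^ 2 * (1 - τ ^ 2)) := by
      have : 0 ≤ 1 - τ ^ 2 := by linarith
      positivity
    linarith
  nlinarith [sq_nonneg x.re, mul_le_mul_of_nonneg_right h3 (sq_nonneg x.re)]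

theorem cone_pow {m : ℕ} {x : ℂ} (hx : 0 < x.re) (h : |x.im| * (4 * (m + 1)) ≤ x.re) :
    ∀ k : ℕ, k ≤ m + 1 → (15 / 16) * ‖x‖ ^ k ≤ (x ^ k).re ∧
      |(x ^ k).im| * ‖x‖ ≤ k * |x.im| * ‖x‖ ^ k ∧ 0 ≤ (x ^ k).im * x.im := by
  set τ : ℝ := 1 / (4 * ((m : ℝ) + 1)) with hτ
  have hm0 : (0 : ℝ) ≤ m := Nat.cast_nonneg m
  have hτ0 : 0 < τ := by positivity
  have hb : |x.im| ≤ τ * x.re := by
    rw [hτ, div_mul_eq_mul_div, one_mul, le_div_iff₀ (by positivity)]
    exact h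
  have hτm : τ * (m + 1) = 1 / 4 := by rw [hτ]; field_simp
  have hre := cone_re hx h
  rw [← hτ] at hre
  have hle := Complex.re_le_norm x
  have hnp : 0 < ‖x‖ := lt_of_lt_of_le hx hle
  have hbn : |x.im| ≤ τ * ‖x‖ := hb.trans (mul_le_mul_of_nonneg_left hle hτ0.le)
  have key : ∀ k : ℕ, k ≤ m + 1 → (1 - k * ((m + 1) * τ ^ 2)) * ‖x‖ ^ k ≤ (x ^ k).re ∧
      |(x ^ k).im| * ‖x‖ ≤ k * |x.im| * ‖x‖ ^ k ∧ 0 ≤ (x ^ k).im * x.im := by
    intro k
    induction k with
    | zero => intro _; simp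
    | succ k ih =>
      intro hk
      obtain ⟨i1, i2, i3⟩ := ih (by omega)
      have hkm : (k : ℝ) + 1 ≤ m + 1 := by exact_mod_cast hk
      have hk0 : (0 : ℝ) ≤ k := Nat.cast_nonneg k
      set A := (x ^ k).re with hA
      set B := (x ^ k).im with hB
      set a := x.re with ha
      set b := x.im with hb'
      set n := ‖x‖ with hn
      have hnk : 0 < n ^ k := by positivity
      have hAn : |A| ≤ n ^ k := by
        have := Complex.abs_re_le_norm (x ^ k)
        rwa [norm_pow] at this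
      have e1 : (x ^ (k + 1)).re = A * a - B * b := by rw [pow_succ, Complex.mul_re]
      have e2 : (x ^ (k + 1)).im = A * b + B * a := by rw [pow_succ, Complex.mul_im]
      have hq : ((m : ℝ) + 1) * τ ^ 2 = τ / 4 := by
        have : ((m : ℝ) + 1) * τ ^ 2 = τ * (τ * (m + 1)) := by ring
        rw [this, hτm]
        ring
      have hτ8 : τ ≤ 1 / 4 := by
        rw [← hτm]
        nlinarith
      have hcoef : 0 ≤ 1 - (k : ℝ) * ((m + 1) * τ ^ 2) := by
        rw [hq]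
        have : (k : ℝ) * (τ / 4) ≤ (m + 1) * (τ / 4) :=
          mul_le_mul_of_nonneg_right (by linarith) (by positivity)
        have h5 : ((m : ℝ) + 1) * (τ / 4) = 1 / 16 := by
          have : ((m : ℝ) + 1) * (τ / 4) = τ * (m + 1) / 4 := by ring
          rw [this, hτm]; norm_num
        linarith
      have hA0 : 0 ≤ A := le_trans (by positivity) i1
      have hBb : |B| * |b| ≤ k * τ ^ 2 * n ^ (k + 1) := by
        have h1 : |B| * |b| ≤ |B| * (τ * n) := mul_le_mul_of_nonneg_left hbn (abs_nonneg _)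
        have h2 : |B| * (τ * n) = τ * (|B| * n) := by ring
        have h3 : τ * (|B| * n) ≤ τ * (k * |b| * n ^ k) := mul_le_mul_of_nonneg_left i2 hτ0.le
        have h4 : τ * (k * |b| * n ^ k) ≤ τ * (k * (τ * n) * n ^ k) := by
          apply mul_le_mul_of_nonneg_left _ hτ0.le
          apply mul_le_mul_of_nonneg_right _ hnk.le
          exact mul_le_mul_of_nonneg_left hbn hk0
        have h5 : τ * (k * (τ * n) * n ^ k) = k * τ ^ 2 * n ^ (k + 1) := by ring
        linarith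
      refine ⟨?_, ?_, ?_⟩
      · rw [e1]
        have h1 : B * b ≤ |B| * |b| := by
          rw [← abs_mul]; exact le_abs_self _
        have h2 : (1 - (k : ℝ) * ((m + 1) * τ ^ 2)) * n ^ k * ((1 - τ ^ 2) * n) ≤ A * a :=
          mul_le_mul i1 hre (by
            have : 0 ≤ 1 - τ ^ 2 := by nlinarith
            positivity) hA0
        have h3 : (1 - ((k + 1 : ℕ) : ℝ) * ((m + 1) * τ ^ 2)) * n ^ (k + 1) ≤
            (1 - (k : ℝ) * ((m + 1) * τ ^ 2)) * n ^ k * ((1 - τ ^ 2) * n) -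
            k * τ ^ 2 * n ^ (k + 1) := by
          have h4 : (1 - (k : ℝ) * ((m + 1) * τ ^ 2)) * n ^ k * ((1 - τ ^ 2) * n) -
            k * τ ^ 2 * n ^ (k + 1) = ((1 - (k : ℝ) * ((m + 1) * τ ^ 2)) * (1 - τ ^ 2) -
            k * τ ^ 2) * n ^ (k + 1) := by ring
          rw [h4]
          apply mul_le_mul_of_nonneg_right _ (by positivity)
          push_cast
          have h6 : 0 ≤ (k : ℝ) * ((m + 1) * τ ^ 2) * τ ^ 2 := by positivity
          have h7 : ((k : ℝ) + 1) * τ ^ 2 ≤ (m + 1) * τ ^ 2 :=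
            mul_le_mul_of_nonneg_right hkm (sq_nonneg _)
          nlinarith
        linarith
      · rw [e2]
        have h1 : |A * b + B * a| ≤ n ^ k * |b| + |B| * n := by
          refine (abs_add_le _ _).trans (add_le_add ?_ ?_)
          · rw [abs_mul]
            exact mul_le_mul_of_nonneg_right hAn (abs_nonneg _)
          · rw [abs_mul, abs_of_pos hx]
            exact mul_le_mul_of_nonneg_left hle (abs_nonneg _)
        calc |A * b + B * a| * n ≤ (n ^ k * |b| + |B| * n) * n :=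
              mul_le_mul_of_nonneg_right h1 hnp.le
          _ ≤ (n ^ k * |b| + k * |b| * n ^ k) * n := by
              apply mul_le_mul_of_nonneg_right _ hnp.le
              linarith
          _ = ((k + 1 : ℕ) : ℝ) * |b| * n ^ (k + 1) := by push_cast; ring
      · rw [e2]
        have h1 : (A * b + B * a) * b = A * b ^ 2 + (B * b) * a := by ring
        rw [h1]
        have := mul_nonneg i3 hx.le
        positivity
  intro k hk
  obtain ⟨i1, i2, i3⟩ := key k hk
  refine ⟨le_trans ?_ i1, i2, i3⟩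
  apply mul_le_mul_of_nonneg_right _ (by positivity)
  have h1 : (k : ℝ) ≤ m + 1 := by exact_mod_cast hk
  have h2 : (k : ℝ) * ((m + 1) * τ ^ 2) ≤ (m + 1) * ((m + 1) * τ ^ 2) :=
    mul_le_mul_of_nonneg_right h1 (by positivity)
  have h3 : ((m : ℝ) + 1) * ((m + 1) * τ ^ 2) = (τ * (m + 1)) ^ 2 := by ring
  rw [h3, hτm] at h2
  linarith

/-- the remainder of the binomial formula -/
theorem pow_rem (x h : ℂ) (M : ℕ) : ‖(x + h) ^ (M + 1) - x ^ (M + 1) - ((M + 1 : ℕ) : ℂ) * x ^ M * h‖ ≤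
    (M + 1) ^ 2 * (‖x‖ + ‖h‖) ^ (M - 1) * ‖h‖ ^ 2 := by
  induction M with
  | zero =>
    simp
  | succ M ih =>
    set s := ‖x‖ + ‖h‖ with hs
    have hs0 : 0 ≤ s := by positivity
    have hxs : ‖x‖ ≤ s := by rw [hs]; linarith [norm_nonneg h]
    have hxh : ‖x + h‖ ≤ s := norm_add_le _ _
    have e1 : (x + h) ^ (M + 1 + 1) - x ^ (M + 1 + 1) - ((M + 1 + 1 : ℕ) : ℂ) * x ^ (M + 1) * h =
        ((M + 1 : ℕ) : ℂ) * x ^ M * h ^ 2 + (x + h) * ((x + h) ^ (M + 1) - x ^ (M + 1) -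
        ((M + 1 : ℕ) : ℂ) * x ^ M * h) := by
      push_cast
      ring
    rw [e1]
    refine (norm_add_le _ _).trans ?_
    rw [norm_mul, norm_mul, norm_mul, norm_pow, norm_pow, Complex.norm_natCast]
    have h1 : ((M + 1 : ℕ) : ℝ) * ‖x‖ ^ M * ‖h‖ ^ 2 ≤ (M + 1) * s ^ M * ‖h‖ ^ 2 := by
      push_cast
      apply mul_le_mul_of_nonneg_right _ (sq_nonneg _)
      apply mul_le_mul_of_nonneg_left _ (by positivity)
      exact pow_le_pow_left₀ (norm_nonneg _) hxs M
    have h2 : ‖x + h‖ * ‖(x + h) ^ (M + 1) - x ^ (M + 1) - ((M + 1 : ℕ) : ℂ) * x ^ M * h‖ ≤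
        (M + 1) ^ 2 * s ^ M * ‖h‖ ^ 2 := by
      rcases Nat.eq_zero_or_pos M with h0 | h0
      · subst h0
        simp
      · calc ‖x + h‖ * ‖(x + h) ^ (M + 1) - x ^ (M + 1) - ((M + 1 : ℕ) : ℂ) * x ^ M * h‖ ≤
            s * ((M + 1) ^ 2 * s ^ (M - 1) * ‖h‖ ^ 2) :=
              mul_le_mul hxh ih (norm_nonneg _) hs0
          _ = (M + 1) ^ 2 * (s * s ^ (M - 1)) * ‖h‖ ^ 2 := by ring
          _ = _ := by
              rw [← pow_succ', Nat.sub_add_cancel h0]
    have h3 : M + 1 - 1 = M := by omega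
    rw [h3]
    push_cast at h1 h2 ⊢
    have h4 : 0 ≤ s ^ M * ‖h‖ ^ 2 := by positivity
    have hM : (0 : ℝ) ≤ M := Nat.cast_nonneg M
    have h5 : (((M : ℝ) + 1) + (M + 1) ^ 2) * (s ^ M * ‖h‖ ^ 2) ≤
        ((M : ℝ) + 1 + 1) ^ 2 * (s ^ M * ‖h‖ ^ 2) :=
      mul_le_mul_of_nonneg_right (by nlinarith) h4
    linarith

theorem disc_gen {m : ℕ} (hm : 1 ≤ m) {x E : ℂ} (hx : 0 < x.re)
    (hc : |x.im| * (4 * (m + 1)) ≤ x.re) (hn : (9 / 10) * (m : ℝ) ≤ ‖x‖ ^ (m + 1))
    (hE : ‖E‖ * (8 * (m + 1)) * ‖x‖ ^ m ≤ 1) :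
    0 < (x + (x ^ m)⁻¹ + E).re ∧
    |(x + (x ^ m)⁻¹ + E).im| * (4 * (m + 1)) ≤ (x + (x ^ m)⁻¹ + E).re ∧
    ‖x‖ ^ (m + 1) + (7 / 8) * (m + 1) ≤ ‖x + (x ^ m)⁻¹ + E‖ ^ (m + 1) ∧
    ‖(x + (x ^ m)⁻¹ + E) ^ (m + 1) - x ^ (m + 1) - (m + 1)‖ ≤
      (m + 1) ^ 2 * 4 ^ m / ‖x‖ ^ (m + 1) + (m + 1) * (‖x‖ ^ m * ‖E‖) := by
  have hm1 : (1 : ℝ) ≤ m := by exact_mod_cast hm
  set n := ‖x‖ with hnd
  have hnp : 0 < n := lt_of_lt_of_le hx (Complex.re_le_norm x)
  have hx0 : x ≠ 0 := norm_pos_iff.1 hnp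
  obtain ⟨c1, c2, c3⟩ := cone_pow hx hc m (by omega)
  obtain ⟨d1, -, -⟩ := cone_pow hx hc (m + 1) le_rfl
  rw [← hnd] at c1 c2 d1
  set i := (n ^ m)⁻¹ with hi
  have hi0 : 0 < i := by positivity
  have hni : n ^ m * i = 1 := mul_inv_cancel₀ (by positivity)
  have hEi : ‖E‖ * (8 * (m + 1)) ≤ i := by
    rw [hi, ← one_div, le_div_iff₀ (by positivity)]
    exact hE
  have hE0 := norm_nonneg E
  have hE16 : ‖E‖ ≤ i / 16 := by nlinarith
  -- the inverse power
  have hpm : x ^ m ≠ 0 := pow_ne_zero _ hx0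
  have hns : Complex.normSq (x ^ m) = n ^ m * n ^ m := by
    rw [Complex.normSq_eq_norm_sq, norm_pow, sq]
  have hinvre : (15 / 16) * i ≤ ((x ^ m)⁻¹).re := by
    rw [Complex.inv_re, hns, le_div_iff₀ (by positivity)]
    calc 15 / 16 * i * (n ^ m * n ^ m) = 15 / 16 * n ^ m * (n ^ m * i) := by ring
      _ = 15 / 16 * n ^ m := by rw [hni, mul_one]
      _ ≤ _ := c1
  have hinvim : ((x ^ m)⁻¹).im = -((x ^ m).im / (n ^ m * n ^ m)) := by
    rw [Complex.inv_im, hns, neg_div]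
  set β := (x ^ m).im / (n ^ m * n ^ m) with hβ
  have hβs : 0 ≤ β * x.im := by
    rw [hβ, div_mul_eq_mul_div]
    exact div_nonneg c3 (by positivity)
  have hβb : |β| ≤ 2 * |x.im| := by
    have h1 : |β| = |(x ^ m).im| / (n ^ m * n ^ m) := by
      rw [hβ, abs_div, abs_of_pos (by positivity : 0 < n ^ m * n ^ m)]
    rw [h1, div_le_iff₀ (by positivity)]
    have h2 : |(x ^ m).im| * n ≤ m * |x.im| * n ^ m := c2
    have h3 : (m : ℝ) ≤ 2 * n ^ (m + 1) := by linarith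
    have h4 : m * |x.im| * n ^ m ≤ (2 * n ^ (m + 1)) * |x.im| * n ^ m := by
      apply mul_le_mul_of_nonneg_right _ (by positivity)
      exact mul_le_mul_of_nonneg_right h3 (abs_nonneg _)
    have h5 : (2 * n ^ (m + 1)) * |x.im| * n ^ m = (2 * |x.im| * (n ^ m * n ^ m)) * n := by
      rw [pow_succ]; ring
    exact le_of_mul_le_mul_right (by linarith) hnp
  have hbβ : |x.im - β| ≤ |x.im| := by
    rcases le_total 0 x.im with h | h
    · have hβ0 : 0 ≤ β := by
        rcases eq_or_lt_of_le h with h' | h'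
        · rw [← h', abs_zero, mul_zero] at hβb
          have := abs_nonpos_iff.1 hβb
          rw [this]
        · by_contra hcon
          push Not at hcon
          nlinarith
      rw [abs_of_nonneg hβ0, abs_of_nonneg h] at hβb
      rw [abs_of_nonneg h, abs_le]
      constructor <;> linarith
    · have hβ0 : β ≤ 0 := by
        rcases eq_or_lt_of_le h with h' | h'
        · rw [h', abs_zero, mul_zero] at hβb
          have := abs_nonpos_iff.1 hβb
          rw [this]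
        · by_contra hcon
          push Not at hcon
          nlinarith
      rw [abs_of_nonpos hβ0, abs_of_nonpos h] at hβb
      rw [abs_of_nonpos h, abs_le]
      constructor <;> linarith
  have hEre := (abs_le.1 ((Complex.abs_re_le_norm E)))
  have hEim := Complex.abs_im_le_norm E
  have hre' : x.re + (15 / 16) * i - ‖E‖ ≤ (x + (x ^ m)⁻¹ + E).re := by
    rw [Complex.add_re, Complex.add_re]
    linarith [hEre.1]
  refine ⟨by linarith, ?_, ?_, ?_⟩
  · have him : |(x + (x ^ m)⁻¹ + E).im| ≤ |x.im| + ‖E‖ := by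
      rw [Complex.add_im, Complex.add_im, hinvim]
      have : x.im + -β + E.im = (x.im - β) + E.im := by ring
      rw [this]
      exact (abs_add_le _ _).trans (add_le_add hbβ hEim)
    have h1 : |(x + (x ^ m)⁻¹ + E).im| * (4 * (m + 1)) ≤ (|x.im| + ‖E‖) * (4 * (m + 1)) :=
      mul_le_mul_of_nonneg_right him (by positivity)
    nlinarith
  · -- growth
    have h1 : n + (7 / 8) * i ≤ ‖x + (x ^ m)⁻¹ + E‖ := by
      have h2 : n + (15 / 16) * i ≤ ‖x + (x ^ m)⁻¹‖ := by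
        have h3 : x + (x ^ m)⁻¹ = x * (1 + (x ^ (m + 1))⁻¹) := by
          rw [pow_succ]
          field_simp
        rw [h3, norm_mul, ← hnd]
        have h4 : 1 + (15 / 16) * (n ^ (m + 1))⁻¹ ≤ ‖1 + (x ^ (m + 1))⁻¹‖ := by
          refine le_trans ?_ (Complex.re_le_norm _)
          rw [Complex.add_re, Complex.one_re, Complex.inv_re]
          have h5 : Complex.normSq (x ^ (m + 1)) = n ^ (m + 1) * n ^ (m + 1) := by
            rw [Complex.normSq_eq_norm_sq, norm_pow, sq]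
          rw [h5]
          have h6 : (15 / 16) * (n ^ (m + 1))⁻¹ ≤ (x ^ (m + 1)).re / (n ^ (m + 1) * n ^ (m + 1)) := by
            rw [le_div_iff₀ (by positivity)]
            calc 15 / 16 * (n ^ (m + 1))⁻¹ * (n ^ (m + 1) * n ^ (m + 1)) =
                15 / 16 * n ^ (m + 1) := by field_simp
              _ ≤ _ := d1
          linarith
        have h7 : n + (15 / 16) * i = n * (1 + (15 / 16) * (n ^ (m + 1))⁻¹) := by
          rw [hi, pow_succ]
          field_simp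
        rw [h7]
        exact mul_le_mul_of_nonneg_left h4 hnp.le
      have h3 := norm_sub_norm_le (x + (x ^ m)⁻¹) (-E)
      rw [sub_neg_eq_add, norm_neg] at h3
      linarith
    have h2 : n ^ (m + 1) + (7 / 8) * (m + 1) ≤ (n + (7 / 8) * i) ^ (m + 1) := by
      have h3 : n + (7 / 8) * i = n * (1 + (7 / 8) * (i / n)) := by field_simp
      rw [h3, mul_pow]
      have h4 := one_add_mul_le_pow (a := (7 / 8) * (i / n)) (by
        have : 0 ≤ (7 / 8) * (i / n) := by positivity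
        linarith) (m + 1)
      have h5 : n ^ (m + 1) * (1 + ((m + 1 : ℕ) : ℝ) * ((7 / 8) * (i / n))) ≤
          n ^ (m + 1) * (1 + (7 / 8) * (i / n)) ^ (m + 1) :=
        mul_le_mul_of_nonneg_left h4 (by positivity)
      have h6 : n ^ (m + 1) * (1 + ((m + 1 : ℕ) : ℝ) * ((7 / 8) * (i / n))) =
          n ^ (m + 1) + (7 / 8) * (m + 1) * (n ^ m * i) := by
        rw [pow_succ]
        push_cast
        field_simp
      rw [h6, hni, mul_one] at h5
      exact h5
    exact h2.trans (pow_le_pow_left₀ (by positivity) h1 _)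
  · set h : ℂ := (x ^ m)⁻¹ + E with hh
    have hinvn : ‖(x ^ m)⁻¹‖ = i := by rw [norm_inv, norm_pow]
    have hhb : ‖h‖ ≤ 2 * i := by
      refine (norm_add_le _ _).trans ?_
      rw [hinvn]
      linarith
    have h1 := pow_rem x h m
    have h2 : x + (x ^ m)⁻¹ + E = x + h := by rw [hh]; ring
    rw [h2]
    have h3 : (x + h) ^ (m + 1) - x ^ (m + 1) - (m + 1) = ((x + h) ^ (m + 1) - x ^ (m + 1) -
        ((m + 1 : ℕ) : ℂ) * x ^ m * h) + ((m + 1 : ℕ) : ℂ) * (x ^ m * E) := by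
      have h4 : x ^ m * h = 1 + x ^ m * E := by
        rw [hh, mul_add, mul_inv_cancel₀ hpm]
      have h5 : ((m + 1 : ℕ) : ℂ) * x ^ m * h = ((m + 1 : ℕ) : ℂ) * (x ^ m * h) := by ring
      rw [h5, h4]
      push_cast
      ring
    rw [h3]
    refine (norm_add_le _ _).trans (add_le_add (h1.trans ?_) ?_)
    · have hin : i ≤ (10 / 9) * n := by
        have h5 : n * n ^ m * i = n := by rw [mul_assoc, hni, mul_one]
        have h6 : (9 / 10) * i ≤ n * n ^ m * i := by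
          apply mul_le_mul_of_nonneg_right _ hi0.le
          rw [← pow_succ']
          nlinarith
        linarith
      have hs : n + ‖h‖ ≤ 4 * n := by linarith
      have hs2 : (n + ‖h‖) ^ (m - 1) ≤ 4 ^ (m - 1) * n ^ (m - 1) := by
        rw [← mul_pow]
        exact pow_le_pow_left₀ (by positivity) hs _
      have hh2 : ‖h‖ ^ 2 ≤ 4 * (i * i) := by
        calc ‖h‖ ^ 2 ≤ (2 * i) ^ 2 := pow_le_pow_left₀ (norm_nonneg _) hhb 2
          _ = _ := by ring
      rw [mul_assoc, mul_div_assoc]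
      apply mul_le_mul_of_nonneg_left _ (by positivity)
      rw [le_div_iff₀ (by positivity)]
      calc (n + ‖h‖) ^ (m - 1) * ‖h‖ ^ 2 * n ^ (m + 1) ≤
          (4 ^ (m - 1) * n ^ (m - 1)) * (4 * (i * i)) * n ^ (m + 1) := by
            apply mul_le_mul_of_nonneg_right _ (by positivity)
            exact mul_le_mul hs2 hh2 (by positivity) (by positivity)
        _ = (4 ^ (m - 1) * 4) * ((n ^ (m - 1) * n) * i) * (n ^ m * i) := by
            rw [pow_succ n m]; ring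
        _ = 4 ^ m := by
            rw [← pow_succ, ← pow_succ, Nat.sub_add_cancel hm, hni, mul_one, mul_one]
    · rw [norm_mul, norm_mul, norm_pow, Complex.norm_natCast]
      push_cast
      exact le_rfl

end Pool.Agent.Helper65.EV
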