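import Mathlib
import Pool.Agent.Helper65.EV.Conf2

/-! Trajectories from a pole reach a sink. -/

set_option autoImplicit false

open Topology Filter Metric Set MeasureTheory Polynomial
open scoped Real NNReal

namespace Pool.Agent.Helper65.EV

open Pool.Agent.Helper65.EU

namespace Dat

variable (D : Dat)

/-- no trajectory joins `p` to a pole -/
def NoLinkFrom (p : ℂ) : Prop := ∀ q ∈ D.ps, ∀ ℓ : ℂ → ℂ,
  (∀ a ∈ D.zs, Complex.exp (ℓ a) = (q - a) / (p - a)) →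
    ∀ s : ℝ, 0 < s → ∑ a ∈ D.zs, D.ρ a * ℓ a ≠ (s : ℂ)

theorem reach {v : ℂ → ℂ} {K : ℝ≥0} (hL : LipschitzWith K v) {R0 R1 : ℝ} (hR01 : R0 < R1)
    (hv : ∀ z, ‖z‖ ≤ R1 → v z = D.V0 z) (h0R : 0 < R0)
    (hG : ∀ a ∈ D.zs, (D.ρ a).re ≠ 0) (hGi : D.rinf.re ≠ 0)
    (hR0 : ∀ z, R0 ≤ ‖z‖ → 0 < D.rinf.re * ((starRingEnd ℂ) z * D.V0 z).re)
    {r : ℂ → ℝ} (hr0 : ∀ a ∈ D.zs, 0 < r a)
    (hr : ∀ a ∈ D.zs, ∀ z, z ≠ a → ‖z - a‖ ≤ r a →
      0 < (D.ρ a).re * ((starRingEnd ℂ) (z - a) * D.V0 z).re)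
    (hrR : ∀ a ∈ D.zs, ∀ z, ‖z - a‖ ≤ r a → ‖z‖ ≤ R1)
    {q0 : ℂ} (hq0 : q0 ∈ D.ps) (hNL0 : D.NoLinkFrom q0)
    {Γ : ℝ → ℂ} (hΓ : ∀ t, HasDerivAt Γ (v (Γ t)) t) (h0 : ‖Γ 0‖ < R0)
    (h0a : ∀ a ∈ D.zs, r a < ‖Γ 0 - a‖) (h0Q : D.Q.eval (Γ 0) ≠ 0)
    {p : ℂ} (hNL : D.NoLinkFrom p) (hpR : D.R.eval p ≠ 0)
    {ℓ0 : ℂ → ℂ} (hℓ : ∀ a ∈ D.zs, Complex.exp (ℓ0 a) = (Γ 0 - a) / (p - a)) {δ : ℝ} (hδ : 0 ≤ δ)
    (hsum : ∑ a ∈ D.zs, D.ρ a * ℓ0 a = (δ : ℂ)) :
    ∃ T, 0 ≤ T ∧ ((0 < D.rinf.re ∧ R0 < ‖Γ T‖) ∨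
      ∃ a ∈ D.zs, (D.ρ a).re < 0 ∧ ‖Γ T - a‖ < r a) := by
  by_contra hcon
  push Not at hcon
  have hΓc : Continuous Γ := continuous_iff_continuousAt.2 fun t => (hΓ t).continuousAt
  -- the trajectory is in the core
  have hin : ∀ t, 0 ≤ t → ‖Γ t‖ ≤ R0 := by
    intro t ht
    rcases lt_or_gt_of_ne hGi with h | h
    · exact (D.stay_in hR01 hv h hR0 h0R hΓ h0 t ht).le
    · exact (hcon t ht).1 h
  have hout : ∀ t, 0 ≤ t → ∀ a ∈ D.zs, r a ≤ ‖Γ t - a‖ := by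
    intro t ht a ha
    rcases lt_or_gt_of_ne (hG a ha) with h | h
    · exact (hcon t ht).2 a ha h
    · exact (D.stay_out hv h (hr0 a ha) (hr a ha) (hrR a ha) hΓ (h0a a ha) t ht).le
  have hQ : ∀ t, 0 ≤ t → D.Q.eval (Γ t) ≠ 0 := by
    intro t ht h
    have h1 : v (Γ t) = 0 := by
      rw [hv _ ((hin t ht).trans hR01.le)]
      unfold V0
      rw [h, map_zero, mul_zero]
    have h2 := const_of_zero hL hΓ h1 0
    rw [h2] at h0Q
    exact h0Q h
  have hRz : ∀ t, 0 ≤ t → D.R.eval (Γ t) ≠ 0 := by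
    intro t ht h
    have h1 := hout t ht (Γ t) (D.mem_zs.2 h)
    rw [sub_self, norm_zero] at h1
    linarith [hr0 _ (D.mem_zs.2 h)]
  have hvc : Continuous (fun t => v (Γ t)) := hL.continuous.comp hΓc
  have hΓ' : ∀ t, HasDerivAt Γ ((fun t => v (Γ t)) t) t := hΓ
  have hne : ∀ a ∈ D.zs, ∀ t, 0 ≤ t → Γ t ≠ a := by
    intro a ha t ht h
    apply hRz t ht
    rw [h]
    exact D.mem_zs.1 ha
  have hval0 : ∀ t, 0 ≤ t → ∑ a ∈ D.zs, D.ρ a * J Γ (fun t => v (Γ t)) 0 t a =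
      ((∫ s in (0 : ℝ)..t, ‖D.Q.eval (Γ s)‖ ^ 2 : ℝ) : ℂ) := by
    intro t ht
    rw [D.sum_J ht (fun s _ => hΓ' s) hvc.continuousOn (fun s hs => hRz s hs.1)]
    rw [← intervalIntegral.integral_ofReal]
    apply intervalIntegral.integral_congr
    intro s hs
    rw [uIcc_of_le ht] at hs
    simp only
    rw [hv _ ((hin s hs.1).trans hR01.le)]
    unfold V0
    rw [← Complex.normSq_eq_norm_sq, ← Complex.mul_conj]
    have := hRz s hs.1
    field_simp
  have hnorm2 : Continuous (fun s => ‖D.Q.eval (Γ s)‖ ^ 2) :=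
    ((D.Q.continuous.comp hΓc).norm).pow 2
  have hposint : ∀ t, 0 < t → 0 < ∫ s in (0 : ℝ)..t, ‖D.Q.eval (Γ s)‖ ^ 2 := by
    intro t ht
    apply intervalIntegral.intervalIntegral_pos_of_pos_on (hnorm2.intervalIntegrable _ _) _ ht
    intro s hs
    have := norm_pos_iff.2 (hQ s hs.1.le)
    positivity
  -- injectivity
  have hinj0 : ∀ t1 t2, t1 < t2 → Γ t1 ≠ Γ t2 := by
    intro t1 t2 hlt heq
    have hper := periodic hL hΓ heq
    have hT : 0 < t2 - t1 := by linarith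
    have h00 : Γ (t2 - t1) = Γ 0 := by
      have := hper 0
      rwa [zero_add] at this
    apply hNL0 q0 hq0 (fun a => J Γ (fun t => v (Γ t)) 0 (t2 - t1) a) _ _ (hposint _ hT)
      (hval0 _ hT.le)
    intro a ha
    rw [exp_J hT.le (fun s _ => hΓ' s) hvc.continuousOn (fun s hs => hne a ha s hs.1), h00,
      div_self (sub_ne_zero.2 (hne a ha 0 le_rfl)), div_self]
    intro h
    have := sub_eq_zero.1 h
    exact D.Q_zs ha (this ▸ D.mem_ps.1 hq0)
  have hinj : InjOn Γ (Ici 0) := by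
    intro x _ y _ hxy
    rcases lt_trichotomy x y with h | h | h
    · exact absurd hxy (hinj0 x y h)
    · exact h
    · exact absurd hxy.symm (hinj0 y x h)
  -- convergence
  set Kc : Set ℂ := closedBall 0 R0 ∩ ⋂ a ∈ D.zs, {z | r a ≤ ‖z - a‖} with hKc
  have hKcc : IsCompact Kc := by
    apply (isCompact_closedBall 0 R0).inter_right
    apply isClosed_biInter
    intro a _
    exact isClosed_le continuous_const (by fun_prop)
  obtain ⟨q, hq, hlim⟩ := conv_finite hΓc hKcc D.ps (by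
      intro t ht
      refine ⟨by rw [mem_closedBall_zero_iff]; exact hin t ht, ?_⟩
      simp only [mem_iInter]
      exact fun a ha => hout t ht a ha) (by
      intro q hq hcl
      by_contra hqp
      have hq1 : D.Q.eval q ≠ 0 := fun h => hqp (D.mem_ps.2 h)
      have hq2 : D.R.eval q ≠ 0 := by
        intro h
        have h1 := hq.2
        simp only [mem_iInter] at h1
        have h2 : r q ≤ ‖q - q‖ := h1 q (D.mem_zs.2 h)
        rw [sub_self, norm_zero] at h2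
        linarith [hr0 _ (D.mem_zs.2 h)]
      exact D.no_recur hL hR01 hv hΓ (fun t ht => ⟨hin t ht, hRz t ht, hQ t ht⟩) hinj hq2 hq1 hcl)
  -- logarithms
  have hpa : ∀ a ∈ D.zs, p - a ≠ 0 := by
    intro a ha h
    have := sub_eq_zero.1 h
    apply hpR
    rw [this]
    exact D.mem_zs.1 ha
  have hqa : ∀ a ∈ D.zs, q - a ≠ 0 := by
    intro a ha h
    have := sub_eq_zero.1 h
    exact D.Q_zs ha (this ▸ D.mem_ps.1 hq)
  have hlog : ∀ a : ℂ, ∃ ℓ : ℂ, a ∈ D.zs → Complex.exp ℓ = (q - a) / (p - a) ∧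
      Tendsto (fun t => ℓ0 a + J Γ (fun t => v (Γ t)) 0 t a) atTop (𝓝 ℓ) := by
    intro a
    by_cases ha : a ∈ D.zs
    · obtain ⟨ℓ, h1, h2⟩ := log_conv (L := fun t => ℓ0 a + J Γ (fun t => v (Γ t)) 0 t a) (T := 0)
        (w := (q - a) / (p - a)) (by
          apply ContinuousOn.add continuousOn_const
          intro t ht
          apply ContinuousAt.continuousWithinAt
          have ht0 : (0 : ℝ) < t := ht
          have h3 : ContinuousOn (fun s => v (Γ s) / (Γ s - a)) (Icc 0 (t + 1)) :=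
            J_int (fun s _ => hΓ' s) hvc.continuousOn (fun s hs => hne a ha s hs.1)
          have h4 : ContinuousOn (fun t => J Γ (fun t => v (Γ t)) 0 t a) (Icc 0 (t + 1)) := by
            have h5 := intervalIntegral.continuousOn_primitive_interval (a := 0) (b := t + 1)
              (f := fun s => v (Γ s) / (Γ s - a)) (μ := volume) (by
                rw [uIcc_of_le (by linarith)]
                exact h3.integrableOn_Icc)
            rw [uIcc_of_le (by linarith)] at h5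
            exact h5
          exact h4.continuousAt (Icc_mem_nhds ht0 (by linarith))) (div_ne_zero (hqa a ha) (hpa a ha))
        (by
          have h3 : Tendsto (fun t => (Γ t - a) / (p - a)) atTop (𝓝 ((q - a) / (p - a))) :=
            (hlim.sub_const a).div_const _
          apply h3.congr'
          filter_upwards [eventually_ge_atTop (0 : ℝ)] with t ht
          rw [Complex.exp_add, hℓ a ha, exp_J ht (fun s _ => hΓ' s) hvc.continuousOn
            (fun s hs => hne a ha s hs.1)]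
          have h4 := sub_ne_zero.2 (hne a ha 0 le_rfl)
          field_simp)
      exact ⟨ℓ, fun _ => ⟨h1, h2⟩⟩
    · exact ⟨0, fun h => absurd h ha⟩
  choose ℓ hℓ2 using hlog
  have hsumlim : Tendsto (fun t => ∑ a ∈ D.zs, D.ρ a * (ℓ0 a + J Γ (fun t => v (Γ t)) 0 t a)) atTop
      (𝓝 (∑ a ∈ D.zs, D.ρ a * ℓ a)) :=
    tendsto_finsetSum _ fun a ha => ((hℓ2 a ha).2).const_mul _
  have hval : ∀ t, 0 ≤ t → ∑ a ∈ D.zs, D.ρ a * (ℓ0 a + J Γ (fun t => v (Γ t)) 0 t a) =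
      ((δ + ∫ s in (0 : ℝ)..t, ‖D.Q.eval (Γ s)‖ ^ 2 : ℝ) : ℂ) := by
    intro t ht
    simp only [mul_add]
    rw [Finset.sum_add_distrib, hsum, hval0 t ht]
    push_cast
    rfl
  have hnn : ∀ t, 1 ≤ t → (∫ s in (0 : ℝ)..1, ‖D.Q.eval (Γ s)‖ ^ 2) ≤
      ∫ s in (0 : ℝ)..t, ‖D.Q.eval (Γ s)‖ ^ 2 := fun t ht => by
    have h1 := intervalIntegral.integral_add_adjacent_intervals
      (hnorm2.intervalIntegrable (0 : ℝ) 1) (hnorm2.intervalIntegrable (μ := volume) 1 t)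
    have h2 : 0 ≤ ∫ s in (1 : ℝ)..t, ‖D.Q.eval (Γ s)‖ ^ 2 :=
      intervalIntegral.integral_nonneg ht fun s _ => by positivity
    linarith
  set S := ∑ a ∈ D.zs, D.ρ a * ℓ a with hS
  have hre : δ + (∫ s in (0 : ℝ)..1, ‖D.Q.eval (Γ s)‖ ^ 2) ≤ S.re := by
    have h1 := (Complex.continuous_re.tendsto S).comp hsumlim
    apply ge_of_tendsto h1
    filter_upwards [eventually_ge_atTop (1 : ℝ)] with t ht
    simp only [Function.comp_apply]
    rw [hval t (by linarith), Complex.ofReal_re]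
    linarith [hnn t ht]
  have him : S.im = 0 := by
    have h1 := (Complex.continuous_im.tendsto S).comp hsumlim
    have h2 : Tendsto (fun _ : ℝ => (0 : ℝ)) atTop (𝓝 S.im) := by
      apply h1.congr'
      filter_upwards [eventually_ge_atTop (0 : ℝ)] with t ht
      simp only [Function.comp_apply]
      rw [hval t ht, Complex.ofReal_im]
    exact tendsto_nhds_unique h2 tendsto_const_nhds |>.symm ▸ rfl
  exact hNL q hq ℓ (fun a ha => (hℓ2 a ha).1) S.re (by linarith [hposint 1 one_pos])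
    (by rw [← hS]; exact Complex.ext (by simp) (by simp [him]))

end Dat

end Pool.Agent.Helper65.EV
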