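import Mathlib
import Pool.Agent.Helper65.EV.Reach

/-! The square root coordinate at a pole. -/

set_option autoImplicit false

open Topology Filter Metric Set MeasureTheory Polynomial
open scoped Real NNReal

namespace Pool.Agent.Helper65.EV

open Pool.Agent.Helper65.EU

namespace Dat

variable (D : Dat)

/-- the factor of the primitive at a pole -/
theorem W_factor {p : ℂ} (hp : p ∈ D.ps) : ∃ (δ : ℝ) (w2 : ℂ → ℂ), 0 < δ ∧
    (∀ z ∈ ball p δ, D.R.eval z ≠ 0 ∧ ∀ a ∈ D.zs, (z - a) / (p - a) ∈ Complex.slitPlane) ∧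
    DifferentiableOn ℂ w2 (ball p δ) ∧ w2 p ≠ 0 ∧
    ∀ z ∈ ball p δ, D.W p z = (z - p) ^ (D.mu p + 1) * w2 z := by
  have hRp := D.R_ps hp
  obtain ⟨δ0, hδ0, hδ2⟩ := D.exists_rad hRp
  have hdiff : DifferentiableOn ℂ (D.W p) (ball p δ0) := fun z hz =>
    (D.W_deriv hRp (hδ2 z hz).1 (hδ2 z hz).2).differentiableAt.differentiableWithinAt
  have han : AnalyticAt ℂ (D.W p) p := hdiff.analyticAt (ball_mem_nhds p hδ0)
  have hWp : D.W p p = 0 := D.W_self hRp
  obtain ⟨Qp, hQp, hQp2⟩ := D.exists_Qp p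
  have hord : analyticOrderAt (deriv (D.W p)) p = (D.mu p : ℕ∞) := by
    rw [han.deriv.analyticOrderAt_eq_natCast]
    refine ⟨fun z => Qp.eval z / D.R.eval z, ?_, div_ne_zero hQp2 hRp, ?_⟩
    · exact (Qp.differentiable.analyticAt p).div (D.R.differentiable.analyticAt p) hRp
    · filter_upwards [ball_mem_nhds p hδ0] with z hz
      rw [(D.W_deriv hRp (hδ2 z hz).1 (hδ2 z hz).2).deriv, smul_eq_mul]
      have h1 := congrArg (Polynomial.eval z) hQp
      rw [eval_mul, eval_pow, eval_sub, eval_X, eval_C] at h1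
      rw [h1, mul_div_assoc]
  have hord2 : analyticOrderAt (D.W p) p = ((D.mu p + 1 : ℕ) : ℕ∞) := by
    have h1 := han.analyticOrderAt_deriv_add_one
    rw [hord, hWp] at h1
    simp only [sub_zero] at h1
    rw [← h1]
    push_cast
    rfl
  rw [han.analyticOrderAt_eq_natCast] at hord2
  obtain ⟨w2, h1, h2, h3⟩ := hord2
  obtain ⟨δ1, hδ1, hδ12⟩ := Metric.eventually_nhds_iff_ball.1 (h3.and h1.eventually_analyticAt)
  refine ⟨min δ0 δ1, w2, lt_min hδ0 hδ1, fun z hz => hδ2 z (ball_subset_ball (min_le_left _ _) hz),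
    ?_, h2, ?_⟩
  · intro z hz
    exact (hδ12 z (ball_subset_ball (min_le_right _ _) hz)).2.differentiableAt.differentiableWithinAt
  · intro z hz
    rw [(hδ12 z (ball_subset_ball (min_le_right _ _) hz)).1, smul_eq_mul]

/-- the chart at a pole -/
structure Cht (p : ℂ) (e : OpenPartialHomeomorph ℂ ℂ) (e' : ℂ → ℂ) : Prop where
  mem : p ∈ e.source
  zero : e p = 0
  cont : ContinuousOn e' e.source
  deriv : ∀ z ∈ e.source, HasDerivAt e (e' z) z
  ne : ∀ z ∈ e.source, e' z ≠ 0
  mul : ∀ z ∈ e.source, e z ^ D.mu p * e' z = D.Q.eval z / D.R.eval z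
  reg : ∀ z ∈ e.source, D.R.eval z ≠ 0
  pow : ∀ z ∈ e.source, e z ^ (D.mu p + 1) = ((D.mu p + 1 : ℕ) : ℂ) * D.W p z

/-- the root coordinate -/
theorem pole_chart {p : ℂ} (hp : p ∈ D.ps) : ∃ (e : OpenPartialHomeomorph ℂ ℂ) (e' : ℂ → ℂ),
    D.Cht p e e' ∧
    ∃ (L r : ℝ), 0 < L ∧ 0 < r ∧ closedBall p r ⊆ e.source ∧
      ∀ z ∈ closedBall p r, ∀ z' ∈ closedBall p r,
        ‖e z' - e z - e' z * (z' - z)‖ ≤ L * ‖z' - z‖ ^ 2 := by
  obtain ⟨δ, w2, hδ, hδ2, hd2, hne, hfac⟩ := D.W_factor hp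
  have hRp := D.R_ps hp
  set M : ℕ := D.mu p + 1 with hM
  have hM0 : (M : ℂ) ≠ 0 := Nat.cast_ne_zero.2 (by omega)
  obtain ⟨s0, hs0⟩ : ∃ s0 : ℂ, s0 ^ M = M * w2 p :=
    IsAlgClosed.exists_pow_nat_eq _ (show 0 < M by omega)
  have hs00 : s0 ≠ 0 := by
    rintro rfl
    rw [zero_pow (by omega : M ≠ 0)] at hs0
    exact mul_ne_zero hM0 hne hs0.symm
  have hcw2 : ContinuousAt w2 p := (hd2 p (mem_ball_self hδ)).continuousWithinAt.continuousAt
    (ball_mem_nhds p hδ)
  have hsl : ∀ᶠ z in 𝓝 p, w2 z / w2 p ∈ Complex.slitPlane := by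
    have h1 : ContinuousAt (fun z => w2 z / w2 p) p := hcw2.div_const _
    apply h1.eventually_mem
    apply Complex.isOpen_slitPlane.mem_nhds
    rw [div_self hne]
    exact Complex.one_mem_slitPlane
  obtain ⟨δ', hδ', hδ'2⟩ := Metric.eventually_nhds_iff_ball.1 (hsl.and (ball_mem_nhds p hδ))
  set φ : ℂ → ℂ := fun z => (z - p) * (s0 * Complex.exp (Complex.log (w2 z / w2 p) / M)) with hφ
  have hφd : DifferentiableOn ℂ φ (ball p δ') := by
    have h1 : DifferentiableOn ℂ (fun z => w2 z / w2 p) (ball p δ') :=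
      (hd2.mono fun z hz => (hδ'2 z hz).2).div_const _
    have h2 : DifferentiableOn ℂ (fun z => Complex.log (w2 z / w2 p)) (ball p δ') :=
      h1.clog fun z hz => (hδ'2 z hz).1
    have h3 : DifferentiableOn ℂ (fun z => Complex.exp (Complex.log (w2 z / w2 p) / M))
        (ball p δ') := (h2.div_const (M : ℂ)).cexp
    exact (differentiableOn_id.sub_const p).mul (h3.const_mul s0)
  have hφp : φ p = 0 := by simp [hφ]
  have hφsq : ∀ z ∈ ball p δ', φ z ^ M = M * D.W p z := by
    intro z hz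
    have h1 := Complex.slitPlane_ne_zero (hδ'2 z hz).1
    rw [hφ, hfac z (hδ'2 z hz).2]
    simp only
    rw [mul_pow, mul_pow, hs0, ← Complex.exp_nat_mul]
    rw [show (M : ℂ) * (Complex.log (w2 z / w2 p) / M) = Complex.log (w2 z / w2 p) by
      field_simp, Complex.exp_log h1]
    field_simp
  have han : AnalyticAt ℂ φ p := hφd.analyticAt (ball_mem_nhds p hδ')
  have hderp : HasDerivAt φ s0 p := by
    have h1 : HasDerivAt φ (deriv φ p) p := han.differentiableAt.hasDerivAt
    have h2 := h1.tendsto_slope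
    have h3 : Tendsto (slope φ p) (𝓝[≠] p) (𝓝 s0) := by
      have h4 : ContinuousAt (fun z => s0 * Complex.exp (Complex.log (w2 z / w2 p) / M)) p := by
        apply ContinuousAt.mul continuousAt_const
        apply ContinuousAt.cexp
        apply ContinuousAt.div_const
        apply ContinuousAt.clog (hcw2.div_const _)
        rw [div_self hne]
        exact Complex.one_mem_slitPlane
      have h5 := h4.tendsto.mono_left (nhdsWithin_le_nhds (s := {p}ᶜ))
      rw [div_self hne, Complex.log_one, zero_div, Complex.exp_zero, mul_one] at h5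
      apply h5.congr'
      filter_upwards [self_mem_nhdsWithin] with z hz
      have hz' : z - p ≠ 0 := sub_ne_zero.2 hz
      rw [slope_def_field, hφp, sub_zero, hφ]
      field_simp
    have h6 := tendsto_nhds_unique h2 h3
    rw [h6] at h1
    exact h1
  have hs : HasStrictDerivAt φ s0 p := by
    have := han.hasStrictDerivAt
    rwa [hderp.deriv] at this
  set e0 := (hs.hasStrictFDerivAt_equiv hs00).toOpenPartialHomeomorph φ with he0
  have hdc : ContinuousOn (deriv φ) (ball p δ') := (hφd.deriv isOpen_ball).continuousOn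
  set s : Set ℂ := ball p δ' ∩ (deriv φ) ⁻¹' {x | x ≠ 0} with hs'
  have hso : IsOpen s := hdc.isOpen_inter_preimage isOpen_ball isOpen_ne
  set e := e0.restrOpen s hso with he
  have hsrc : e.source = e0.source ∩ s := rfl
  have hcoe : (e : ℂ → ℂ) = φ := rfl
  have hpsrc : p ∈ e.source := by
    rw [hsrc]
    refine ⟨(hs.hasStrictFDerivAt_equiv hs00).mem_toOpenPartialHomeomorph_source,
      mem_ball_self hδ', ?_⟩
    simp only [mem_preimage, mem_ofPred_eq]
    rw [hderp.deriv]
    exact hs00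
  have hzb' : ∀ z ∈ e.source, z ∈ ball p δ' := fun z hz => by
    rw [hsrc] at hz
    exact hz.2.1
  have hd1 : ∀ z ∈ e.source, HasDerivAt φ (deriv φ z) z := fun z hz =>
    ((hφd z (hzb' z hz)).differentiableAt (isOpen_ball.mem_nhds (hzb' z hz))).hasDerivAt
  refine ⟨e, deriv φ, ⟨hpsrc, hφp, ?_, ?_, ?_, ?_, ?_, ?_⟩, ?_⟩
  · exact hdc.mono hzb'
  · intro z hz
    rw [hcoe]
    exact hd1 z hz
  · intro z hz
    rw [hsrc] at hz
    exact hz.2.2
  · intro z hz
    have hzb := hzb' z hz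
    have h1 := hd1 z hz
    rw [hcoe]
    have h2 : HasDerivAt (fun z => φ z ^ M) (M * φ z ^ D.mu p * deriv φ z) z := by
      refine (h1.pow M).congr_deriv ?_
      simp [hM]
    have h3 : HasDerivAt (fun z => φ z ^ M) (M * (D.Q.eval z / D.R.eval z)) z := by
      have h4 := (D.W_deriv hRp (hδ2 z (hδ'2 z hzb).2).1 (hδ2 z (hδ'2 z hzb).2).2).const_mul
        (M : ℂ)
      apply h4.congr_of_eventuallyEq
      filter_upwards [isOpen_ball.mem_nhds hzb] with y hy
      exact hφsq y hy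
    have h5 := h2.unique h3
    apply mul_left_cancel₀ hM0
    rw [← h5]
    ring
  · intro z hz
    exact (hδ2 z (hδ'2 z (hzb' z hz)).2).1
  · intro z hz
    exact hφsq z (hzb' z hz)
  · have hana' : AnalyticAt ℂ (deriv φ) p := han.deriv
    obtain ⟨K, t, ht, hK⟩ := (hana'.contDiffAt (n := 1)).exists_lipschitzOnWith
    have hev : ∀ᶠ z in 𝓝 p, z ∈ t ∧ z ∈ e.source :=
      Filter.inter_mem ht (e.open_source.mem_nhds hpsrc)
    obtain ⟨r, hr, hr2⟩ := Metric.nhds_basis_closedBall.eventually_iff.1 hev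
    refine ⟨K + 1, r, by positivity, hr, fun z hz => (hr2 hz).2, fun z hz z' hz' => ?_⟩
    have hconv : Convex ℝ (closedBall p r ∩ closedBall z ‖z' - z‖) :=
      (convex_closedBall p r).inter (convex_closedBall z _)
    have h1 := hconv.norm_image_sub_le_of_norm_hasDerivWithin_le
      (f := fun w => φ w - deriv φ z * w) (f' := fun w => deriv φ w - deriv φ z)
      (C := K * ‖z' - z‖) (x := z) (y := z') (fun w hw => by
        have hw1 := (hr2 hw.1).2
        rw [hsrc] at hw1
        have h2 : HasDerivAt φ (deriv φ w) w :=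
          ((hφd w hw1.2.1).differentiableAt (isOpen_ball.mem_nhds hw1.2.1)).hasDerivAt
        have h3 := (h2.sub ((hasDerivAt_id w).const_mul (deriv φ z)))
        rw [mul_one] at h3
        exact h3.hasDerivWithinAt) (fun w hw => by
        have h4 := hK.dist_le_mul w (hr2 hw.1).1 z (hr2 hz).1
        rw [dist_eq_norm] at h4
        have h5 : dist w z ≤ ‖z' - z‖ := mem_closedBall.1 hw.2
        have h6 : (K : ℝ) * dist w z ≤ K * ‖z' - z‖ := mul_le_mul_of_nonneg_left h5 K.2
        exact h4.trans h6)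
      ⟨hz, mem_closedBall_self (norm_nonneg _)⟩ ⟨hz', by rw [mem_closedBall, dist_eq_norm]⟩
    rw [hcoe]
    have h7 : φ z' - φ z - deriv φ z * (z' - z) =
        (φ z' - deriv φ z * z') - (φ z - deriv φ z * z) := by ring
    rw [h7]
    refine h1.trans ?_
    have h8 := sq_nonneg ‖z' - z‖
    nlinarith

end Dat

end Pool.Agent.Helper65.EV
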