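import Mathlib
import Pool.Agent.Helper65.EV.Pole
import Pool.Agent.Helper65.EV.Disc

/-! One step of the method near a pole. -/

set_option autoImplicit false

open Topology Filter Metric Set MeasureTheory Polynomial
open scoped Real NNReal

namespace Pool.Agent.Helper65.EV

open Pool.Agent.Helper65.EU

namespace Dat

variable (D : Dat)

/-- the perturbed denominator -/
noncomputable def Qt (S : ℂ[X]) (t : ℝ) (z : ℂ) : ℂ := D.Q.eval z + t * S.eval z

/-- the perturbed Euler step -/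
noncomputable def ft (S : ℂ[X]) (t : ℝ) (z : ℂ) : ℂ := z + t * (D.R.eval z / D.Qt S t z)

/-- one step in the root coordinate -/
theorem chart_step (S : ℂ[X]) {p : ℂ} (hp : p ∈ D.ps) {e : OpenPartialHomeomorph ℂ ℂ} {e' : ℂ → ℂ}
    (hC : D.Cht p e e') {L r0 : ℝ} (hL : 0 < L) (hr0 : 0 < r0) (h6 : closedBall p r0 ⊆ e.source)
    (h7 : ∀ z ∈ closedBall p r0, ∀ z' ∈ closedBall p r0,
        ‖e z' - e z - e' z * (z' - z)‖ ≤ L * ‖z' - z‖ ^ 2) :
    ∃ (r μ C l1 : ℝ), 0 < r ∧ r ≤ r0 ∧ 0 < μ ∧ 0 < C ∧ 0 < l1 ∧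
      (∀ z ∈ closedBall p r, μ * ‖z - p‖ ≤ ‖e z‖) ∧
      ∀ lam : ℝ, 0 < lam → lam < l1 → ∀ z ∈ closedBall p (r / 2), lam ≤ 2 * ‖e z‖ →
        D.Qt S (lam ^ (D.mu p + 1)) z ≠ 0 ∧ D.ft S (lam ^ (D.mu p + 1)) z ∈ closedBall p r ∧
        ‖e (D.ft S (lam ^ (D.mu p + 1)) z) - e z - (lam ^ (D.mu p + 1) : ℝ) / e z ^ D.mu p‖ ≤
          C * (lam ^ (D.mu p + 1)) ^ 2 / (‖e z‖ ^ D.mu p) ^ 2 := by
  obtain ⟨h1, h2, h4, h5, h5', h5'', h5''', -⟩ := hC
  set m := D.mu p with hmdef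
  have hep := h5' p h1
  set A := ‖e' p‖ with hA
  have hA0 : 0 < A := norm_pos_iff.2 hep
  have hRp : 0 < ‖D.R.eval p‖ := norm_pos_iff.2 (D.R_ps hp)
  have hce : ContinuousAt e' p := (h4 p h1).continuousAt (e.open_source.mem_nhds h1)
  have hev : ∀ᶠ z in 𝓝 p, A / 2 ≤ ‖e' z‖ ∧ ‖e' z‖ ≤ 2 * A ∧ ‖D.R.eval p‖ / 2 ≤ ‖D.R.eval z‖ := by
    refine Filter.Eventually.and ?_ (Filter.Eventually.and ?_ ?_)
    · have := hce.norm.eventually (lt_mem_nhds (show A / 2 < ‖e' p‖ by rw [← hA]; linarith))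
      exact this.mono fun z hz => hz.le
    · have := hce.norm.eventually (gt_mem_nhds (show ‖e' p‖ < 2 * A by rw [← hA]; linarith))
      exact this.mono fun z hz => hz.le
    · have := (D.R.continuous.continuousAt (x := p)).norm.eventually
        (lt_mem_nhds (show ‖D.R.eval p‖ / 2 < ‖D.R.eval p‖ by linarith))
      exact this.mono fun z hz => hz.le
  obtain ⟨r1, hr1, hr12⟩ := Metric.nhds_basis_closedBall.eventually_iff.1 hev
  set r := min (min r0 r1) (A / (2 * L)) with hr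
  have hrpos : 0 < r := lt_min (lt_min hr0 hr1) (by positivity)
  have hrr0 : closedBall p r ⊆ closedBall p r0 :=
    closedBall_subset_closedBall ((min_le_left _ _).trans (min_le_left _ _))
  have hrr1 : closedBall p r ⊆ closedBall p r1 :=
    closedBall_subset_closedBall ((min_le_left _ _).trans (min_le_right _ _))
  obtain ⟨B1, hB1⟩ := (isCompact_closedBall p r).exists_bound_of_continuousOn
    D.R.continuous.continuousOn
  obtain ⟨B2, hB2⟩ := (isCompact_closedBall p r).exists_bound_of_continuousOn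
    S.continuous.continuousOn
  set B := max (max B1 B2) 1 with hB
  have hB0 : 0 < B := lt_of_lt_of_le one_pos (le_max_right _ _)
  have hBR : ∀ z ∈ closedBall p r, ‖D.R.eval z‖ ≤ B := fun z hz =>
    (hB1 z hz).trans ((le_max_left _ _).trans (le_max_left _ _))
  have hBS : ∀ z ∈ closedBall p r, ‖S.eval z‖ ≤ B := fun z hz =>
    (hB2 z hz).trans ((le_max_right _ _).trans (le_max_left _ _))
  set c := (A / 2) * (‖D.R.eval p‖ / 2) with hc
  have hc0 : 0 < c := by positivity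
  have hQc : ∀ z ∈ closedBall p r, c * ‖e z‖ ^ m ≤ ‖D.Q.eval z‖ := by
    intro z hz
    have g1 := h5'' z (h6 (hrr0 hz))
    have g2 := h5''' z (h6 (hrr0 hz))
    have g3 : D.Q.eval z = e z ^ m * e' z * D.R.eval z := by
      rw [g1]; field_simp
    obtain ⟨g4, -, g5⟩ := hr12 (hrr1 hz)
    rw [g3, norm_mul, norm_mul, norm_pow, hc]
    have : 0 ≤ ‖e z‖ ^ m := by positivity
    calc A / 2 * (‖D.R.eval p‖ / 2) * ‖e z‖ ^ m = ‖e z‖ ^ m * ((A / 2) * (‖D.R.eval p‖ / 2)) := by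
          ring
      _ ≤ ‖e z‖ ^ m * (‖e' z‖ * ‖D.R.eval z‖) := by
        apply mul_le_mul_of_nonneg_left _ this
        exact mul_le_mul g4 g5 (by positivity) (norm_nonneg _)
      _ = _ := by ring
  have hm : ∀ z ∈ closedBall p r, A / 2 * ‖z - p‖ ≤ ‖e z‖ := by
    intro z hz
    have g1 := h7 p (mem_closedBall_self hr0.le) z (hrr0 hz)
    rw [h2, sub_zero] at g1
    have g2 : ‖z - p‖ ≤ A / (2 * L) := by
      rw [← dist_eq_norm]
      exact (mem_closedBall.1 hz).trans (min_le_right _ _)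
    have g3 : ‖e' p * (z - p)‖ ≤ ‖e z‖ + ‖e z - e' p * (z - p)‖ := by
      have := norm_sub_norm_le (e' p * (z - p)) (e z)
      rw [norm_sub_rev] at this
      linarith
    rw [norm_mul, ← hA] at g3
    have g4 : L * ‖z - p‖ ^ 2 ≤ A / 2 * ‖z - p‖ := by
      have g5 : L * ‖z - p‖ ≤ A / 2 := by
        calc L * ‖z - p‖ ≤ L * (A / (2 * L)) := mul_le_mul_of_nonneg_left g2 hL.le
          _ = A / 2 := by field_simp
      have := norm_nonneg (z - p)
      nlinarith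
    linarith
  -- constants
  set C := 4 * L * B ^ 2 / c ^ 2 + 4 * A * B ^ 2 / c ^ 2 with hC
  have hCpos : 0 < C := by positivity
  set l1 := min (c / (2 * 2 ^ m * B)) (c * r / (4 * 2 ^ m * B)) with hl1
  have hl1pos : 0 < l1 := lt_min (by positivity) (by positivity)
  refine ⟨r, A / 2, C, l1, hrpos, (min_le_left _ _).trans (min_le_left _ _), by positivity, hCpos,
    hl1pos, hm, ?_⟩
  intro lam hlam hlam1 z hz hle
  have hz' : z ∈ closedBall p r := closedBall_subset_closedBall (by linarith) hz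
  set x := ‖e z‖ with hx
  have hx0 : 0 < x := by linarith
  have hez : e z ≠ 0 := norm_pos_iff.1 hx0
  set t := lam ^ (m + 1) with ht
  have ht0 : 0 < t := by positivity
  set y := x ^ m with hy
  have hy0 : 0 < y := by positivity
  have hty : t ≤ lam * (2 ^ m * y) := by
    rw [ht, pow_succ']
    apply mul_le_mul_of_nonneg_left _ hlam.le
    rw [hy, ← mul_pow]
    exact pow_le_pow_left₀ hlam.le hle m
  have hs1 : lam * (2 * 2 ^ m * B) ≤ c := by
    have := (hlam1.trans_le (min_le_left _ _)).le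
    rwa [le_div_iff₀ (by positivity)] at this
  have hs1' : lam * (4 * 2 ^ m * B) ≤ c * r := by
    have := (hlam1.trans_le (min_le_right _ _)).le
    rwa [le_div_iff₀ (by positivity)] at this
  have hQz := hQc z hz'
  rw [← hx, ← hy] at hQz
  have hQ0 : D.Q.eval z ≠ 0 := by
    rw [← norm_pos_iff]
    exact lt_of_lt_of_le (by positivity) hQz
  have hR0 : D.R.eval z ≠ 0 := h5''' z (h6 (hrr0 hz'))
  -- lower bound of the denominator
  have htB : t * B ≤ c / 2 * y := by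
    calc t * B ≤ lam * (2 ^ m * y) * B := mul_le_mul_of_nonneg_right hty hB0.le
      _ = (lam * (2 * 2 ^ m * B)) * y / 2 := by ring
      _ ≤ c * y / 2 := by
          have := mul_le_mul_of_nonneg_right hs1 hy0.le
          linarith
      _ = c / 2 * y := by ring
  have htS : ‖(t : ℂ) * S.eval z‖ ≤ t * B := by
    rw [norm_mul, Complex.norm_real, Real.norm_eq_abs, abs_of_pos ht0]
    exact mul_le_mul_of_nonneg_left (hBS z hz') ht0.le
  have hQt : c / 2 * y ≤ ‖D.Qt S t z‖ := by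
    unfold Qt
    have := norm_sub_le (D.Q.eval z + t * S.eval z) (t * S.eval z)
    rw [add_sub_cancel_right] at this
    linarith
  have hQtpos : 0 < ‖D.Qt S t z‖ := lt_of_lt_of_le (by positivity) hQt
  have hQt0 : D.Qt S t z ≠ 0 := norm_pos_iff.1 hQtpos
  set h : ℂ := (t : ℂ) * (D.R.eval z / D.Qt S t z) with hh
  have hhb : ‖h‖ ≤ 2 * B * t / (c * y) := by
    rw [hh, norm_mul, Complex.norm_real, Real.norm_eq_abs, abs_of_pos ht0, norm_div]
    have g1 : ‖D.R.eval z‖ / ‖D.Qt S t z‖ ≤ B / (c / 2 * y) :=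
      div_le_div₀ hB0.le (hBR z hz') (by positivity) hQt
    calc t * (‖D.R.eval z‖ / ‖D.Qt S t z‖) ≤ t * (B / (c / 2 * y)) :=
        mul_le_mul_of_nonneg_left g1 ht0.le
      _ = _ := by field_simp
  have hhr : ‖h‖ ≤ r / 2 := by
    refine hhb.trans ?_
    rw [div_le_iff₀ (by positivity)]
    have g2 : 2 * B * t ≤ 2 * B * (lam * (2 ^ m * y)) :=
      mul_le_mul_of_nonneg_left hty (by positivity)
    have g3 : 2 * B * (lam * (2 ^ m * y)) = (lam * (4 * 2 ^ m * B)) * y / 2 := by ring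
    have g4 := mul_le_mul_of_nonneg_right hs1' hy0.le
    linarith
  have hft : D.ft S t z = z + h := rfl
  have hmem : D.ft S t z ∈ closedBall p r := by
    rw [hft, mem_closedBall, dist_eq_norm]
    have g1 : ‖z - p‖ ≤ r / 2 := by rw [← dist_eq_norm]; exact mem_closedBall.1 hz
    calc ‖z + h - p‖ = ‖(z - p) + h‖ := by congr 1; ring
      _ ≤ ‖z - p‖ + ‖h‖ := norm_add_le _ _
      _ ≤ r := by linarith
  refine ⟨hQt0, hmem, ?_⟩
  have g2 := h5'' z (h6 (hrr0 hz'))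
  have g3 := h7 z (hrr0 hz') _ (hrr0 hmem)
  have g4 : D.ft S t z - z = h := by rw [hft]; ring
  rw [g4] at g3
  have hezm : e z ^ m ≠ 0 := pow_ne_zero _ hez
  have g5 : e' z * h - t / e z ^ m = -(e' z * (t ^ 2 * (D.R.eval z * S.eval z /
      (D.Q.eval z * D.Qt S t z)))) := by
    have g6 : (t : ℂ) / e z ^ m = e' z * (t * (D.R.eval z / D.Q.eval z)) := by
      rw [div_eq_iff hezm, show e' z * (t * (D.R.eval z / D.Q.eval z)) * e z ^ m =
        t * (e z ^ m * e' z) * (D.R.eval z / D.Q.eval z) by ring, g2]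
      field_simp
    rw [g6, hh]
    have : D.Qt S t z = D.Q.eval z + t * S.eval z := rfl
    field_simp
    rw [this]
    ring
  have g8 : ‖e' z * h - t / e z ^ m‖ ≤ 4 * A * B ^ 2 / c ^ 2 * (t ^ 2 / y ^ 2) := by
    rw [g5, norm_neg, norm_mul, norm_mul, norm_pow, Complex.norm_real, Real.norm_eq_abs,
      abs_of_pos ht0, norm_div, norm_mul, norm_mul]
    have k1 : ‖D.R.eval z‖ * ‖S.eval z‖ ≤ B * B :=
      mul_le_mul (hBR z hz') (hBS z hz') (norm_nonneg _) hB0.le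
    have k2 : (c * y) * (c / 2 * y) ≤ ‖D.Q.eval z‖ * ‖D.Qt S t z‖ :=
      mul_le_mul hQz hQt (by positivity) (norm_nonneg _)
    have k3 : ‖D.R.eval z‖ * ‖S.eval z‖ / (‖D.Q.eval z‖ * ‖D.Qt S t z‖) ≤
        B * B / ((c * y) * (c / 2 * y)) := div_le_div₀ (by positivity) k1 (by positivity) k2
    have k4 : ‖e' z‖ ≤ 2 * A := (hr12 (hrr1 hz')).2.1
    calc ‖e' z‖ * (t ^ 2 * (‖D.R.eval z‖ * ‖S.eval z‖ / (‖D.Q.eval z‖ * ‖D.Qt S t z‖))) ≤
        (2 * A) * (t ^ 2 * (B * B / ((c * y) * (c / 2 * y)))) := by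
          apply mul_le_mul k4 _ (by positivity) (by positivity)
          exact mul_le_mul_of_nonneg_left k3 (by positivity)
      _ = _ := by field_simp; ring
  have g9 : L * ‖h‖ ^ 2 ≤ 4 * L * B ^ 2 / c ^ 2 * (t ^ 2 / y ^ 2) := by
    have k1 : ‖h‖ ^ 2 ≤ (2 * B * t / (c * y)) ^ 2 := pow_le_pow_left₀ (norm_nonneg _) hhb 2
    calc L * ‖h‖ ^ 2 ≤ L * (2 * B * t / (c * y)) ^ 2 := mul_le_mul_of_nonneg_left k1 hL.le
      _ = _ := by field_simp; ring
  calc ‖e (D.ft S t z) - e z - t / e z ^ m‖ =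
      ‖(e (D.ft S t z) - e z - e' z * h) + (e' z * h - t / e z ^ m)‖ := by congr 1; ring
    _ ≤ L * ‖h‖ ^ 2 + 4 * A * B ^ 2 / c ^ 2 * (t ^ 2 / y ^ 2) :=
      (norm_add_le _ _).trans (add_le_add g3 g8)
    _ ≤ 4 * L * B ^ 2 / c ^ 2 * (t ^ 2 / y ^ 2) + 4 * A * B ^ 2 / c ^ 2 * (t ^ 2 / y ^ 2) := by
      linarith
    _ = C * t ^ 2 / y ^ 2 := by rw [hC]; ring

end Dat

end Pool.Agent.Helper65.EV
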