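import Mathlib
import Pool.Agent.Helper65.EV.Step

/-! The passage of the critical points away from a pole. -/

set_option autoImplicit false

open Topology Filter Metric Set MeasureTheory Polynomial
open scoped Real NNReal

namespace Pool.Agent.Helper65.EV

open Pool.Agent.Helper65.EU

theorem root_close {m : ℕ} {y : ℂ} (hy : 0 < y.re) (h : |y.im| * (4 * (m + 1)) ≤ y.re) {s : ℝ}
    (hs : 0 < s) : ‖y - s‖ * s ^ m ≤ ‖y ^ (m + 1) - (s : ℂ) ^ (m + 1)‖ := by
  have h1 := geom_sum₂_mul y (s : ℂ) (m + 1)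
  rw [← h1, norm_mul, mul_comm]
  apply mul_le_mul_of_nonneg_right _ (norm_nonneg _)
  refine le_trans ?_ (Complex.re_le_norm _)
  rw [Complex.re_sum]
  have hterm : ∀ i ∈ Finset.range (m + 1), 0 ≤ (y ^ i * (s : ℂ) ^ (m + 1 - 1 - i)).re := by
    intro i hi
    rw [Finset.mem_range] at hi
    have h2 := (cone_pow hy h i (by omega)).1
    rw [← Complex.ofReal_pow, Complex.re_mul_ofReal]
    have : 0 ≤ (y ^ i).re := le_trans (by positivity) h2
    positivity
  refine le_trans ?_ (Finset.single_le_sum hterm (Finset.mem_range.2 (Nat.succ_pos m)))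
  simp only [pow_zero, one_mul, Nat.add_sub_cancel, Nat.sub_zero]
  rw [← Complex.ofReal_pow, Complex.ofReal_re]

theorem inv_sqrt (j : ℕ) : 1 / ((j : ℝ) + 1) ≤ 2 * (√((j : ℝ) + 1) - √(j : ℝ)) := by
  have hj0 : (0 : ℝ) ≤ j := Nat.cast_nonneg j
  set a := √(j : ℝ) with ha
  set b := √((j : ℝ) + 1) with hb
  have ha0 : 0 ≤ a := Real.sqrt_nonneg _
  have hb1 : 1 ≤ b := Real.one_le_sqrt.2 (by linarith)
  have ha2 : a ^ 2 = j := Real.sq_sqrt hj0
  have hb2 : b ^ 2 = j + 1 := Real.sq_sqrt (by linarith)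
  have hab : a ≤ b := Real.sqrt_le_sqrt (by linarith)
  rw [← hb2, div_le_iff₀ (by positivity)]
  have h1 : (b - a) * (b + a) = 1 := by nlinarith
  have h2 : b + a ≤ 2 * b := by linarith
  have h3 : 0 ≤ b - a := by linarith
  have h4 : 1 ≤ (b - a) * (2 * b) := by
    rw [← h1]
    exact mul_le_mul_of_nonneg_left h2 h3
  nlinarith

namespace Dat

variable (D : Dat)

theorem pole_pass (S : ℂ[X]) {p : ℂ} (hp : p ∈ D.ps) {e : OpenPartialHomeomorph ℂ ℂ} {e' : ℂ → ℂ}
    (hC : D.Cht p e e') {L r0 : ℝ} (hL : 0 < L) (hr0 : 0 < r0) (h6 : closedBall p r0 ⊆ e.source)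
    (h7 : ∀ z ∈ closedBall p r0, ∀ z' ∈ closedBall p r0,
        ‖e z' - e z - e' z * (z' - z)‖ ≤ L * ‖z' - z‖ ^ 2) :
    ∃ (r ρ1 : ℝ), 0 < r ∧ r ≤ r0 ∧ 0 < ρ1 ∧ closedBall (0 : ℂ) ρ1 ⊆ e.target ∧
      ∀ s : ℝ, 0 < s → 2 * s ^ (D.mu p + 1) ≤ ρ1 ^ (D.mu p + 1) → ∀ ω : ℂ, ω ^ (D.mu p + 1) = 1 →
        ∀ ε : ℝ, 0 < ε → ∀ᶠ lam : ℝ in 𝓝[>] 0, ∀ c ∈ closedBall p (r / 2),
          0 < (ω⁻¹ * e c).re → |(ω⁻¹ * e c).im| * (4 * ((D.mu p : ℕ) + 1)) ≤ (ω⁻¹ * e c).re →
          ‖e c ^ (D.mu p + 1) / (lam ^ (D.mu p + 1) : ℝ) - (D.mu p : ℕ)‖ ≤ 1 / 10 →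
          ∃ N : ℕ, (∀ j < N, D.Qt S (lam ^ (D.mu p + 1)) ((D.ft S (lam ^ (D.mu p + 1)))^[j] c) ≠ 0) ∧
            ‖(D.ft S (lam ^ (D.mu p + 1)))^[N] c - e.symm (ω * s)‖ < ε := by
  obtain ⟨r, μ, C, l1, hr, hrr0, hμ, hCp, hl1, h7', h8⟩ := D.chart_step S hp hC hL hr0 h6 h7
  have hmp : 1 ≤ D.mu p := D.mu_pos hp
  set m := D.mu p with hmdef
  have hm1 : (1 : ℝ) ≤ m := by exact_mod_cast hmp
  obtain ⟨κ, hκ, hκ2⟩ := Metric.nhds_basis_closedBall.mem_iff.1
    (e.open_target.mem_nhds (by rw [← hC.zero]; exact e.map_source hC.mem : (0 : ℂ) ∈ e.target))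
  set ρ1 := min κ (μ * (r / 2)) with hρ1
  have hρ1p : 0 < ρ1 := lt_min hκ (by positivity)
  refine ⟨r, ρ1, hr, hrr0, hρ1p, (closedBall_subset_closedBall (min_le_left _ _)).trans hκ2, ?_⟩
  intro s hs hsρ ω hω ε hε
  have hω0 : ω ≠ 0 := by
    rintro rfl
    rw [zero_pow (by omega)] at hω
    exact zero_ne_one hω
  have hωn : ‖ω‖ = 1 := by
    have h1 : ‖ω‖ ^ (m + 1) = 1 := by rw [← norm_pow, hω, norm_one]
    exact (pow_eq_one_iff_of_nonneg (norm_nonneg _) (by omega)).1 h1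
  have hωi : ω⁻¹ ^ (m + 1) = 1 := by rw [inv_pow, hω, inv_one]
  set w0 : ℂ := ω * s with hw0
  have hw0n : ‖w0‖ = s := by
    rw [hw0, norm_mul, hωn, one_mul, Complex.norm_real, Real.norm_eq_abs, abs_of_pos hs]
  have hsρ1 : s ≤ ρ1 := by
    have h1 : s ^ (m + 1) ≤ ρ1 ^ (m + 1) := by
      have : 0 ≤ s ^ (m + 1) := by positivity
      linarith
    exact le_of_pow_le_pow_left₀ (by omega) hρ1p.le h1
  have hw0t : w0 ∈ e.target := by
    apply hκ2
    rw [mem_closedBall_zero_iff, hw0n]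
    exact hsρ1.trans (min_le_left _ _)
  have hcs : ContinuousAt e.symm w0 := (e.symm.continuousOn w0 hw0t).continuousAt
    (e.open_target.mem_nhds hw0t)
  obtain ⟨κ', hκ', hκ'2⟩ := Metric.continuousAt_iff.1 hcs ε hε
  -- constants
  set δ := s ^ (m + 1) / (m + 1) with hδ
  have hδp : 0 < δ := by positivity
  have hδs : (m + 1) * δ = s ^ (m + 1) := by rw [hδ]; field_simp
  set K1 : ℝ := 4 * (m + 1) ^ 2 * 4 ^ m with hK1
  have hK1p : 0 < K1 := by positivity
  set κm : ℝ := (9 / 10) ^ m with hκm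
  have hκmp : 0 < κm := by positivity
  set err : ℝ → ℝ := fun lam => 3 * (m + 1) * lam ^ (m + 1) + K1 * (√(lam ^ (m + 1)) * √δ) +
    (m + 1) * (C * lam / κm) * δ with herr
  have hl0 : Tendsto (fun lam : ℝ => lam) (𝓝[>] 0) (𝓝 0) := nhdsWithin_le_nhds
  have herr0 : Tendsto err (𝓝[>] 0) (𝓝 0) := by
    have h1 : Continuous err := by
      simp only [herr]
      fun_prop
    have h2 := (h1.tendsto 0).mono_left (nhdsWithin_le_nhds (s := Ioi 0))
    have h3 : err 0 = 0 := by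
      simp [herr]
    rwa [h3] at h2
  have c1 : ∀ᶠ lam : ℝ in 𝓝[>] 0, lam < l1 := hl0.eventually (gt_mem_nhds hl1)
  have c2 : ∀ᶠ lam : ℝ in 𝓝[>] 0, C * lam * (8 * (m + 1)) < κm := by
    have := (hl0.const_mul C).mul_const (8 * ((m : ℝ) + 1))
    rw [mul_zero, zero_mul] at this
    exact this.eventually (gt_mem_nhds hκmp)
  have c3 : ∀ᶠ lam : ℝ in 𝓝[>] 0, err lam < s ^ (m + 1) :=
    herr0.eventually (gt_mem_nhds (by positivity))
  have c4 : ∀ᶠ lam : ℝ in 𝓝[>] 0, err lam < κ' * s ^ m :=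
    herr0.eventually (gt_mem_nhds (by positivity))
  filter_upwards [c1, c2, c3, c4, self_mem_nhdsWithin] with lam g1 g2 g3 g4 g5
  have hlam : 0 < lam := g5
  intro c hc hcre hcim hc1
  have hlamC : (lam : ℂ) ≠ 0 := by exact_mod_cast hlam.ne'
  set t := lam ^ (m + 1) with ht
  have htp : 0 < t := by positivity
  have htC : (t : ℂ) = (lam : ℂ) ^ (m + 1) := by rw [ht]; push_cast; rfl
  have htne : (t : ℂ) ≠ 0 := by exact_mod_cast htp.ne'
  set η := C * lam / κm with hη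
  have hη0 : 0 < η := by positivity
  set N := ⌊δ / t⌋₊ with hN
  have hNle : (N : ℝ) ≤ δ / t := Nat.floor_le (by positivity)
  have hNt : (N : ℝ) * t ≤ δ := by rwa [le_div_iff₀ htp] at hNle
  have hNt2 : δ < (N + 1) * t := by
    have := Nat.lt_floor_add_one (δ / t)
    rwa [div_lt_iff₀ htp] at this
  have hsqN : ∀ j : ℝ, 0 ≤ j → j ≤ N → t * √j ≤ √t * √δ := by
    intro j hj hjN
    have k1 : √j * √t ≤ √δ := by
      rw [← Real.sqrt_mul hj]
      apply Real.sqrt_le_sqrt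
      calc j * t ≤ N * t := mul_le_mul_of_nonneg_right hjN htp.le
        _ ≤ δ := hNt
    have k2 : √t * √t = t := Real.mul_self_sqrt htp.le
    calc t * √j = (√t * √t) * √j := by rw [k2]
      _ = √t * (√j * √t) := by ring
      _ ≤ √t * √δ := mul_le_mul_of_nonneg_left k1 (Real.sqrt_nonneg _)
  -- the size of the terms
  have hsize : ∀ j : ℝ, 0 ≤ j → j ≤ N → t * (m + 1 / 10 + K1 * √j + (m + 1) * η * j) ≤
      err lam - 2 * (m + 1) * t + t := by
    intro j hj hjN
    have k1 := hsqN j hj hjN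
    have k2 : t * j ≤ δ := by
      calc t * j ≤ t * N := mul_le_mul_of_nonneg_left hjN htp.le
        _ ≤ δ := by linarith
    have k3 : (m + 1) * η * (t * j) ≤ (m + 1) * η * δ := mul_le_mul_of_nonneg_left k2 (by positivity)
    have k4 : K1 * (t * √j) ≤ K1 * (√t * √δ) := mul_le_mul_of_nonneg_left k1 hK1p.le
    simp only [herr]
    rw [← ht, ← hη]
    have k5 : t * (m + 1 / 10 + K1 * √j + (m + 1) * η * j) =
        t * m + t / 10 + K1 * (t * √j) + (m + 1) * η * (t * j) := by ring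
    rw [k5]
    linarith
  -- the induction
  have key : ∀ j : ℕ, j ≤ N → (∀ i < j, D.Qt S t ((D.ft S t)^[i] c) ≠ 0) ∧
      (D.ft S t)^[j] c ∈ closedBall p (r / 2) ∧ 0 < (ω⁻¹ * e ((D.ft S t)^[j] c)).re ∧
      |(ω⁻¹ * e ((D.ft S t)^[j] c)).im| * (4 * (m + 1)) ≤ (ω⁻¹ * e ((D.ft S t)^[j] c)).re ∧
      t * ((9 / 10) * m + (7 / 8) * (m + 1) * j) ≤ ‖e ((D.ft S t)^[j] c)‖ ^ (m + 1) ∧
      ‖e ((D.ft S t)^[j] c) ^ (m + 1) / t - (m + 1) * j - m‖ ≤
        1 / 10 + K1 * √(j : ℝ) + (m + 1) * η * j := by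
    intro j
    induction j with
    | zero =>
      intro _
      refine ⟨fun i hi => absurd hi (Nat.not_lt_zero i), hc, hcre, hcim, ?_, ?_⟩
      · simp only [Function.iterate_zero, id_eq, Nat.cast_zero, mul_zero, add_zero]
        have k1 : (m : ℝ) - 1 / 10 ≤ ‖e c ^ (m + 1) / t‖ := by
          have k2 := norm_sub_norm_le (m : ℂ) (-(e c ^ (m + 1) / t - m))
          rw [norm_neg, Complex.norm_natCast] at k2
          have k3 : (m : ℂ) - -(e c ^ (m + 1) / t - m) = e c ^ (m + 1) / t := by ring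
          rw [k3] at k2
          linarith
        rw [norm_div, norm_pow, Complex.norm_real, Real.norm_eq_abs, abs_of_pos htp,
          le_div_iff₀ htp] at k1
        have k2 : (9 / 10 * (m : ℝ)) * t ≤ (m - 1 / 10) * t :=
          mul_le_mul_of_nonneg_right (by linarith) htp.le
        linarith
      · simp only [Function.iterate_zero, id_eq, Nat.cast_zero, Real.sqrt_zero, mul_zero,
          add_zero, sub_zero]
        exact hc1
    | succ j ih =>
      intro hjN
      obtain ⟨i1, i2, i3, i4, i5, i6⟩ := ih (Nat.le_of_succ_le hjN)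
      set z := (D.ft S t)^[j] c with hz
      have hj0 : (0 : ℝ) ≤ j := Nat.cast_nonneg j
      set x : ℂ := ω⁻¹ * e z / lam with hx
      have hxe : e z = ω * (lam * x) := by
        rw [hx]; field_simp
      have hxn : ‖x‖ = ‖e z‖ / lam := by
        rw [hx, norm_div, norm_mul, norm_inv, hωn, inv_one, one_mul, Complex.norm_real,
          Real.norm_eq_abs, abs_of_pos hlam]
      have hxpow : x ^ (m + 1) = e z ^ (m + 1) / t := by
        rw [hx, div_pow, mul_pow, hωi, one_mul, htC]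
      have hxnp : ‖x‖ ^ (m + 1) = ‖e z‖ ^ (m + 1) / t := by rw [hxn, div_pow]
      have hxre : 0 < x.re := by
        rw [hx, Complex.div_ofReal_re]
        exact div_pos i3 hlam
      have hxc : |x.im| * (4 * (m + 1)) ≤ x.re := by
        rw [hx, Complex.div_ofReal_re, Complex.div_ofReal_im, abs_div, abs_of_pos hlam,
          div_mul_eq_mul_div]
        exact div_le_div_of_nonneg_right i4 hlam.le
      have hn1 : (9 / 10) * m + (7 / 8) * (m + 1) * j ≤ ‖x‖ ^ (m + 1) := by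
        rw [hxnp, le_div_iff₀ htp]
        linarith
      have hjm : 0 ≤ (7 / 8 : ℝ) * (m + 1) * j := by positivity
      have hn2 : (9 / 10) * (m : ℝ) ≤ ‖x‖ ^ (m + 1) := by linarith
      have hx9 : 9 / 10 ≤ ‖x‖ := by
        by_contra hcon
        push Not at hcon
        have h1 : ‖x‖ ^ (m + 1) ≤ ‖x‖ ^ 1 :=
          pow_le_pow_of_le_one (norm_nonneg _) (by linarith) (by omega)
        rw [pow_one] at h1
        linarith
      have hxp : 0 < ‖x‖ := by linarith
      have hx0 : x ≠ 0 := norm_pos_iff.1 hxp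
      have hez : lam ≤ 2 * ‖e z‖ := by
        rw [hxn, le_div_iff₀ hlam] at hx9
        linarith
      obtain ⟨j1, j2, j3⟩ := h8 lam hlam g1 z i2 hez
      rw [← ht] at j1 j2 j3
      set z' := D.ft S t z with hz'
      have hiter : (D.ft S t)^[j + 1] c = z' := by
        rw [Function.iterate_succ_apply']
      set E : ℂ := ω⁻¹ * (e z' - e z - t / e z ^ m) / lam with hE
      have hxm : 0 < ‖x‖ ^ m := by positivity
      have hEb : ‖E‖ ≤ (C * lam) / (‖x‖ ^ m) ^ 2 := by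
        rw [hE, norm_div, norm_mul, norm_inv, hωn, inv_one, one_mul, Complex.norm_real,
          Real.norm_eq_abs, abs_of_pos hlam, div_le_iff₀ hlam]
        refine j3.trans (le_of_eq ?_)
        have k1 : ‖e z‖ = lam * ‖x‖ := by rw [hxn]; field_simp
        rw [k1, mul_pow, ht]
        field_simp
        ring
      have hxmκ : κm ≤ ‖x‖ ^ m := pow_le_pow_left₀ (by norm_num) hx9 m
      have hEη : ‖x‖ ^ m * ‖E‖ ≤ η := by
        calc ‖x‖ ^ m * ‖E‖ ≤ ‖x‖ ^ m * ((C * lam) / (‖x‖ ^ m) ^ 2) :=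
              mul_le_mul_of_nonneg_left hEb hxm.le
          _ = C * lam / ‖x‖ ^ m := by field_simp
          _ ≤ C * lam / κm := div_le_div_of_nonneg_left (by positivity) hκmp hxmκ
      have hEc : ‖E‖ * (8 * (m + 1)) * ‖x‖ ^ m ≤ 1 := by
        have k1 : ‖E‖ * (8 * (m + 1)) * ‖x‖ ^ m = (8 * (m + 1)) * (‖x‖ ^ m * ‖E‖) := by ring
        rw [k1]
        have k2 : (8 * ((m : ℝ) + 1)) * (‖x‖ ^ m * ‖E‖) ≤ (8 * (m + 1)) * η :=
          mul_le_mul_of_nonneg_left hEη (by positivity)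
        have k3 : (8 * ((m : ℝ) + 1)) * η ≤ 1 := by
          rw [hη, mul_div_assoc', div_le_one hκmp]
          linarith
        linarith
      have hx' : ω⁻¹ * e z' / lam = x + (x ^ m)⁻¹ + E := by
        have k1 : (x ^ m)⁻¹ = ω⁻¹ * (t / e z ^ m) / lam := by
          rw [hxe, htC, mul_pow, mul_pow, pow_succ]
          have k2 : ω ^ m * ω = 1 := by rw [← pow_succ]; exact hω
          field_simp
          rw [mul_comm, k2]
        rw [hE, k1, hx]
        ring
      have hx'pow : (x + (x ^ m)⁻¹ + E) ^ (m + 1) = e z' ^ (m + 1) / t := by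
        rw [← hx', div_pow, mul_pow, hωi, one_mul, htC]
      have hx'n : ‖x + (x ^ m)⁻¹ + E‖ ^ (m + 1) = ‖e z'‖ ^ (m + 1) / t := by
        rw [← norm_pow, hx'pow, norm_div, norm_pow, Complex.norm_real, Real.norm_eq_abs,
          abs_of_pos htp]
      obtain ⟨l1', l2, l3, l4⟩ := disc_gen hmp hxre hxc hn2 hEc
      rw [hx'n] at l3
      have l5 : ‖e z' ^ (m + 1) / t - (m + 1) * ((j + 1 : ℕ) : ℂ) - m‖ ≤
          1 / 10 + K1 * √((j + 1 : ℕ) : ℝ) + (m + 1) * η * ((j + 1 : ℕ) : ℝ) := by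
        rw [← hx'pow]
        have k1 : (x + (x ^ m)⁻¹ + E) ^ (m + 1) - (m + 1) * ((j + 1 : ℕ) : ℂ) - m =
          ((x + (x ^ m)⁻¹ + E) ^ (m + 1) - x ^ (m + 1) - (m + 1)) +
          (x ^ (m + 1) - (m + 1) * j - m) := by
          push_cast; ring
        rw [k1]
        refine (norm_add_le _ _).trans ?_
        rw [← hxpow] at i6
        have k2 : ((m : ℝ) + 1) ^ 2 * 4 ^ m / ‖x‖ ^ (m + 1) ≤
            K1 * (√((j : ℝ) + 1) - √(j : ℝ)) := by
          have k3 : ((j : ℝ) + 1) / 2 ≤ ‖x‖ ^ (m + 1) := by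
            refine le_trans ?_ hn1
            have : (j : ℝ) ≤ m * j := le_mul_of_one_le_left hj0 hm1
            linarith
          have k4 : ((m : ℝ) + 1) ^ 2 * 4 ^ m / ‖x‖ ^ (m + 1) ≤
              ((m : ℝ) + 1) ^ 2 * 4 ^ m / (((j : ℝ) + 1) / 2) :=
            div_le_div_of_nonneg_left (by positivity) (by positivity) k3
          have k5 : ((m : ℝ) + 1) ^ 2 * 4 ^ m / (((j : ℝ) + 1) / 2) =
              2 * ((m : ℝ) + 1) ^ 2 * 4 ^ m * (1 / ((j : ℝ) + 1)) := by field_simp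
          rw [k5] at k4
          refine k4.trans ?_
          have k6 := mul_le_mul_of_nonneg_left (inv_sqrt j)
            (by positivity : 0 ≤ 2 * ((m : ℝ) + 1) ^ 2 * 4 ^ m)
          refine k6.trans (le_of_eq ?_)
          rw [hK1]
          ring
        have k7 : ((m : ℝ) + 1) * (‖x‖ ^ m * ‖E‖) ≤ (m + 1) * η :=
          mul_le_mul_of_nonneg_left hEη (by positivity)
        push_cast
        linarith
      have hjN' : ((j + 1 : ℕ) : ℝ) ≤ N := by exact_mod_cast hjN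
      have l6 : z' ∈ closedBall p (r / 2) := by
        have k1 : ‖e z'‖ ^ (m + 1) ≤ 2 * s ^ (m + 1) := by
          have k2 : ‖e z'‖ ^ (m + 1) = t * ‖e z' ^ (m + 1) / t‖ := by
            rw [norm_div, norm_pow, Complex.norm_real, Real.norm_eq_abs, abs_of_pos htp]
            field_simp
          have k3 : ‖e z' ^ (m + 1) / t‖ ≤ (m + 1) * ((j + 1 : ℕ) : ℝ) +
              (m + 1 / 10 + K1 * √((j + 1 : ℕ) : ℝ) + (m + 1) * η * ((j + 1 : ℕ) : ℝ)) := by
            have k4 : e z' ^ (m + 1) / t = (((m + 1 : ℕ) : ℂ) * ((j + 1 : ℕ) : ℂ) + (m : ℕ)) +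
              (e z' ^ (m + 1) / t - (m + 1) * ((j + 1 : ℕ) : ℂ) - m) := by push_cast; ring
            rw [k4]
            refine (norm_add_le _ _).trans ?_
            have k5 : ‖((m + 1 : ℕ) : ℂ) * ((j + 1 : ℕ) : ℂ) + (m : ℕ)‖ ≤
                (m + 1) * ((j + 1 : ℕ) : ℝ) + m := by
              refine (norm_add_le _ _).trans ?_
              rw [norm_mul, Complex.norm_natCast, Complex.norm_natCast, Complex.norm_natCast]
              push_cast
              exact le_rfl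
            linarith
          have k6 := hsize ((j + 1 : ℕ) : ℝ) (Nat.cast_nonneg _) hjN'
          have k7 : t * ((j + 1 : ℕ) : ℝ) ≤ δ := by
            calc t * ((j + 1 : ℕ) : ℝ) ≤ t * N := mul_le_mul_of_nonneg_left hjN' htp.le
              _ ≤ δ := by linarith
          rw [k2]
          have k8 : t * ‖e z' ^ (m + 1) / t‖ ≤ t * ((m + 1) * ((j + 1 : ℕ) : ℝ) +
              (m + 1 / 10 + K1 * √((j + 1 : ℕ) : ℝ) + (m + 1) * η * ((j + 1 : ℕ) : ℝ))) :=
            mul_le_mul_of_nonneg_left k3 htp.le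
          have k9 : ((m : ℝ) + 1) * (t * ((j + 1 : ℕ) : ℝ)) ≤ (m + 1) * δ :=
            mul_le_mul_of_nonneg_left k7 (by positivity)
          rw [hδs] at k9
          have k10 : t * ((m + 1) * ((j + 1 : ℕ) : ℝ) +
              (m + 1 / 10 + K1 * √((j + 1 : ℕ) : ℝ) + (m + 1) * η * ((j + 1 : ℕ) : ℝ))) =
              (m + 1) * (t * ((j + 1 : ℕ) : ℝ)) + t * (m + 1 / 10 + K1 * √((j + 1 : ℕ) : ℝ) +
              (m + 1) * η * ((j + 1 : ℕ) : ℝ)) := by ring
          rw [k10] at k8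
          have k11 : 0 ≤ (m : ℝ) * t := by positivity
          linarith
        have k2 : ‖e z'‖ ≤ ρ1 := le_of_pow_le_pow_left₀ (by omega) hρ1p.le (k1.trans hsρ)
        have k3 := h7' z' j2
        rw [mem_closedBall, dist_eq_norm]
        have k4 : μ * ‖z' - p‖ ≤ μ * (r / 2) := k3.trans (k2.trans (min_le_right _ _))
        exact le_of_mul_le_mul_left k4 hμ
      refine ⟨?_, ?_, ?_, ?_, ?_, ?_⟩
      · intro i hi
        rcases Nat.lt_succ_iff_lt_or_eq.1 hi with h | h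
        · exact i1 i h
        · rw [h]
          exact j1
      · rw [hiter]
        exact l6
      · rw [hiter]
        rw [← hx', Complex.div_ofReal_re] at l1'
        exact (div_pos_iff_of_pos_right hlam).1 l1'
      · rw [hiter]
        rw [← hx', Complex.div_ofReal_re, Complex.div_ofReal_im, abs_div, abs_of_pos hlam,
          div_mul_eq_mul_div] at l2
        exact (div_le_div_iff_of_pos_right hlam).1 l2
      · rw [hiter]
        have k1 : ‖x‖ ^ (m + 1) + 7 / 8 * (m + 1) ≤ ‖e z'‖ ^ (m + 1) / t := l3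
        rw [le_div_iff₀ htp] at k1
        have k2 := mul_le_mul_of_nonneg_right hn1 htp.le
        push_cast
        linarith
      · rw [hiter]
        exact l5
  obtain ⟨k1, k2, k3, k4, -, k5⟩ := key N le_rfl
  refine ⟨N, k1, ?_⟩
  set z := (D.ft S t)^[N] c with hz
  set w : ℂ := ω⁻¹ * e z with hw
  have hwp : w ^ (m + 1) = e z ^ (m + 1) := by rw [hw, mul_pow, hωi, one_mul]
  have hwb : ‖w ^ (m + 1) - (s : ℂ) ^ (m + 1)‖ ≤ err lam := by
    have l1' : w ^ (m + 1) - (s : ℂ) ^ (m + 1) =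
        (t : ℝ) * (e z ^ (m + 1) / t - (m + 1) * N - m) +
        (((m + 1) * (N * t) + m * t - (m + 1) * δ : ℝ) : ℂ) := by
      rw [hwp, ← Complex.ofReal_pow, ← hδs]
      push_cast
      field_simp
      ring
    rw [l1']
    refine (norm_add_le _ _).trans ?_
    rw [norm_mul, Complex.norm_real, Complex.norm_real, Real.norm_eq_abs, Real.norm_eq_abs,
      abs_of_pos htp]
    have l2 : |(m + 1) * (N * t) + m * t - (m + 1) * δ| ≤ (m + 1) * t := by
      have e1 : ((m : ℝ) + 1) * (N * t) ≤ (m + 1) * δ := mul_le_mul_of_nonneg_left hNt (by positivity)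
      have e2 : ((m : ℝ) + 1) * δ ≤ (m + 1) * ((N + 1) * t) :=
        mul_le_mul_of_nonneg_left hNt2.le (by positivity)
      have e3 : 0 ≤ (m : ℝ) * t := by positivity
      rw [abs_le]
      constructor
      · linarith
      · linarith
    have l3 : t * ‖e z ^ (m + 1) / t - (m + 1) * N - m‖ ≤
        t * (1 / 10 + K1 * √(N : ℝ) + (m + 1) * η * N) := mul_le_mul_of_nonneg_left k5 htp.le
    have l4 := hsize N (Nat.cast_nonneg _) le_rfl
    have l5 : 0 ≤ (m : ℝ) * t := by positivity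
    linarith
  have hwd : ‖w - s‖ < κ' := by
    have l1' := root_close k3 k4 hs
    have l2 : ‖w - s‖ * s ^ m < κ' * s ^ m := by linarith
    exact lt_of_mul_lt_mul_right l2 (by positivity)
  have hez : e z - w0 = ω * (w - s) := by
    rw [hw, hw0]
    field_simp
  have hdist : dist (e z) w0 < κ' := by
    rw [dist_eq_norm, hez, norm_mul, hωn, one_mul]
    exact hwd
  have hfin := hκ'2 hdist
  rw [e.left_inv (h6 (closedBall_subset_closedBall (by linarith) k2)), dist_eq_norm] at hfin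
  exact hfin

end Dat

end Pool.Agent.Helper65.EV
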