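import Mathlib
import Pool.Agent.Helper65.EV.Step

/-! The method follows the trajectories. -/

set_option autoImplicit false

open Topology Filter Metric Set MeasureTheory Polynomial
open scoped Real NNReal

namespace Pool.Agent.Helper65.EV

open Pool.Agent.Helper65.EU

namespace Dat

variable (D : Dat)

theorem track (S : ℂ[X]) {v : ℂ → ℂ} {K : ℝ≥0} (hL : LipschitzWith K v) {R1 : ℝ}
    (hv : ∀ z, ‖z‖ ≤ R1 → v z = D.V0 z) {Γ : ℝ → ℂ} (hΓ : ∀ t, HasDerivAt Γ (v (Γ t)) t)
    {T : ℝ} (hT : 0 ≤ T) (hin : ∀ s ∈ Icc 0 T, ‖Γ s‖ < R1 ∧ D.Q.eval (Γ s) ≠ 0) {ε : ℝ}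
    (hε : 0 < ε) : ∃ ε1 : ℝ, 0 < ε1 ∧ ∀ᶠ t : ℝ in 𝓝[>] 0, ∀ z0, ‖z0 - Γ 0‖ < ε1 →
      ∃ n : ℕ, (∀ j < n, D.Qt S t ((D.ft S t)^[j] z0) ≠ 0) ∧ ‖(D.ft S t)^[n] z0 - Γ T‖ < ε := by
  have hΓc : Continuous Γ := continuous_iff_continuousAt.2 fun t => (hΓ t).continuousAt
  set Kc := Γ '' Icc 0 T with hKc
  have hKcc : IsCompact Kc := isCompact_Icc.image hΓc
  have hΩ : IsOpen ({z : ℂ | ‖z‖ < R1} ∩ {z | D.Q.eval z ≠ 0}) :=
    (isOpen_lt continuous_norm continuous_const).inter
      (isOpen_ne_fun D.Q.continuous continuous_const)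
  obtain ⟨η, hη, hη2⟩ := hKcc.exists_cthickening_subset_open hΩ (by
    rintro _ ⟨s, hs, rfl⟩
    exact hin s hs)
  set Ω := cthickening η Kc with hΩd
  have hΩc : IsCompact Ω := hKcc.cthickening
  have hmemΩ : ∀ z, ∀ s ∈ Icc 0 T, ‖z - Γ s‖ ≤ η → z ∈ Ω := by
    intro z s hs hz
    apply mem_cthickening_of_dist_le z (Γ s) η Kc ⟨s, hs, rfl⟩
    rw [dist_eq_norm]
    exact hz
  obtain ⟨B1, hB1⟩ := hΩc.exists_bound_of_continuousOn D.R.continuous.continuousOn
  obtain ⟨B2, hB2⟩ := hΩc.exists_bound_of_continuousOn S.continuous.continuousOn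
  obtain ⟨B3, hB3⟩ := hΩc.exists_bound_of_continuousOn D.Q.continuous.continuousOn
  obtain ⟨B4, hB4⟩ := hΩc.exists_bound_of_continuousOn
    (f := fun z => (D.Q.eval z)⁻¹) (D.Q.continuous.continuousOn.inv₀ fun z hz => (hη2 hz).2)
  obtain ⟨B5, hB5⟩ := hΩc.exists_bound_of_continuousOn hL.continuous.continuousOn
  set B := max (max (max B1 B2) (max B3 B4)) (max B5 1) with hB
  have hB0 : 0 < B := lt_of_lt_of_le one_pos ((le_max_right _ _).trans (le_max_right _ _))
  have hBR : ∀ z ∈ Ω, ‖D.R.eval z‖ ≤ B := fun z hz =>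
    (hB1 z hz).trans ((le_max_left _ _).trans ((le_max_left _ _).trans (le_max_left _ _)))
  have hBS : ∀ z ∈ Ω, ‖S.eval z‖ ≤ B := fun z hz =>
    (hB2 z hz).trans ((le_max_right _ _).trans ((le_max_left _ _).trans (le_max_left _ _)))
  have hBQ : ∀ z ∈ Ω, ‖D.Q.eval z‖ ≤ B := fun z hz =>
    (hB3 z hz).trans ((le_max_left _ _).trans ((le_max_right _ _).trans (le_max_left _ _)))
  have hBv : ∀ z ∈ Ω, ‖v z‖ ≤ B := fun z hz =>
    (hB5 z hz).trans ((le_max_left _ _).trans (le_max_right _ _))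
  set c := 1 / B with hc
  have hc0 : 0 < c := by positivity
  have hQc : ∀ z ∈ Ω, c ≤ ‖D.Q.eval z‖ := by
    intro z hz
    have h1 : ‖(D.Q.eval z)⁻¹‖ ≤ B :=
      (hB4 z hz).trans ((le_max_right _ _).trans ((le_max_right _ _).trans (le_max_left _ _)))
    rw [norm_inv] at h1
    have h2 : 0 < ‖D.Q.eval z‖ := norm_pos_iff.2 (hη2 hz).2
    rw [hc, one_div]
    exact inv_le_of_inv_le₀ h2 h1
  set C1 := 2 * B ^ 4 / c ^ 2 with hC1
  set C2 := C1 + K * B / c ^ 2 with hC2
  have hC20 : 0 ≤ C2 := by positivity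
  set X := Real.exp (K * T) with hX
  have hX1 : 1 ≤ X := Real.one_le_exp (by positivity)
  set μ := min η ε with hμ
  have hμ0 : 0 < μ := lt_min hη hε
  refine ⟨μ / (4 * X), by positivity, ?_⟩
  have ht0' : Tendsto (fun t : ℝ => t) (𝓝[>] 0) (𝓝 0) := nhdsWithin_le_nhds
  have c1 : ∀ᶠ t : ℝ in 𝓝[>] 0, t * B < c / 2 := by
    have := ht0'.mul_const B
    rw [zero_mul] at this
    exact this.eventually (gt_mem_nhds (by positivity))
  have c2 : ∀ᶠ t : ℝ in 𝓝[>] 0, t * (X * C2 * T + B / c ^ 2) < μ / 4 := by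
    have := ht0'.mul_const (X * C2 * T + B / c ^ 2)
    rw [zero_mul] at this
    exact this.eventually (gt_mem_nhds (by positivity))
  filter_upwards [c1, c2, self_mem_nhdsWithin] with t g1 g2 g3
  have ht : 0 < t := g3
  intro z0 hz0
  set E0 := ‖z0 - Γ 0‖ with hE0
  set z : ℕ → ℂ := fun n => (D.ft S t)^[n] z0 with hz
  set h : ℕ → ℝ := fun n => t / ‖D.Q.eval (z n)‖ ^ 2 with hh
  set s : ℕ → ℝ := fun n => ∑ i ∈ Finset.range n, h i with hs
  have hh0 : ∀ n, 0 ≤ h n := fun n => by positivity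
  have hs0 : ∀ n, 0 ≤ s n := fun n => Finset.sum_nonneg fun i _ => hh0 i
  have hss : ∀ n, s (n + 1) = s n + h n := fun n => Finset.sum_range_succ _ _
  have hXC : X * (E0 + C2 * t * T) ≤ μ / 2 := by
    have e1 : X * E0 ≤ μ / 4 := by
      have := mul_le_mul_of_nonneg_left hz0.le (by positivity : 0 ≤ X)
      calc X * E0 ≤ X * (μ / (4 * X)) := this
        _ = μ / 4 := by field_simp
    have e2 : t * (X * C2 * T) ≤ μ / 4 := by
      have : 0 ≤ t * (B / c ^ 2) := by positivity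
      linarith
    linarith
  -- one step
  have hstep : ∀ w ∈ Ω, D.Qt S t w ≠ 0 ∧ ‖D.ft S t w - w - (t / ‖D.Q.eval w‖ ^ 2 : ℝ) * v w‖ ≤
      C1 * t * (t / ‖D.Q.eval w‖ ^ 2) := by
    intro w hw
    have k1 := hQc w hw
    have k2 : ‖(t : ℂ) * S.eval w‖ ≤ t * B := by
      rw [norm_mul, Complex.norm_real, Real.norm_eq_abs, abs_of_pos ht]
      exact mul_le_mul_of_nonneg_left (hBS w hw) ht.le
    have k3 : c / 2 ≤ ‖D.Qt S t w‖ := by
      unfold Qt
      have := norm_sub_le (D.Q.eval w + t * S.eval w) (t * S.eval w)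
      rw [add_sub_cancel_right] at this
      linarith
    have k4 : D.Qt S t w ≠ 0 := norm_pos_iff.1 (lt_of_lt_of_le (by positivity) k3)
    have k5 : D.Q.eval w ≠ 0 := (hη2 hw).2
    refine ⟨k4, ?_⟩
    have k6 : D.ft S t w - w - (t / ‖D.Q.eval w‖ ^ 2 : ℝ) * v w =
        -(t ^ 2 * (D.R.eval w * S.eval w / (D.Q.eval w * D.Qt S t w))) := by
      rw [hv w (hη2 hw).1.le]
      have k7 : ((t / ‖D.Q.eval w‖ ^ 2 : ℝ) : ℂ) * D.V0 w = t * (D.R.eval w / D.Q.eval w) := by
        have h9 : D.R.eval w / D.Q.eval w = (((‖D.Q.eval w‖ ^ 2)⁻¹ : ℝ) : ℂ) * D.V0 w :=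
          D.V0_eq w k5
        rw [h9]
        push_cast
        ring
      rw [k7]
      unfold ft
      have k8 : D.Qt S t w = D.Q.eval w + t * S.eval w := rfl
      field_simp
      rw [k8]
      ring
    rw [k6, norm_neg, norm_mul, norm_pow, Complex.norm_real, Real.norm_eq_abs, abs_of_pos ht,
      norm_div, norm_mul, norm_mul]
    have k9 : ‖D.R.eval w‖ * ‖S.eval w‖ / (‖D.Q.eval w‖ * ‖D.Qt S t w‖) ≤ B * B / (c * (c / 2)) := by
      apply div_le_div₀ (by positivity) _ (by positivity)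
      · exact mul_le_mul k1 k3 (by positivity) (norm_nonneg _)
      · exact mul_le_mul (hBR w hw) (hBS w hw) (norm_nonneg _) hB0.le
    have k10 : 0 < ‖D.Q.eval w‖ := norm_pos_iff.2 k5
    have k11 : 1 ≤ B ^ 2 / ‖D.Q.eval w‖ ^ 2 := by
      rw [one_le_div (by positivity)]
      exact pow_le_pow_left₀ (norm_nonneg _) (hBQ w hw) 2
    calc t ^ 2 * (‖D.R.eval w‖ * ‖S.eval w‖ / (‖D.Q.eval w‖ * ‖D.Qt S t w‖)) ≤
        t ^ 2 * (B * B / (c * (c / 2))) := mul_le_mul_of_nonneg_left k9 (by positivity)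
      _ = t ^ 2 * (B * B / (c * (c / 2))) * 1 := by ring
      _ ≤ t ^ 2 * (B * B / (c * (c / 2))) * (B ^ 2 / ‖D.Q.eval w‖ ^ 2) :=
        mul_le_mul_of_nonneg_left k11 (by positivity)
      _ = C1 * t * (t / ‖D.Q.eval w‖ ^ 2) := by rw [hC1]; field_simp
  -- a bound for steps
  have hhle : ∀ n, z n ∈ Ω → h n ≤ t / c ^ 2 := by
    intro n hn
    apply div_le_div_of_nonneg_left ht.le (by positivity)
    exact pow_le_pow_left₀ hc0.le (hQc _ hn) 2
  have hhge : ∀ n, z n ∈ Ω → t / B ^ 2 ≤ h n := by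
    intro n hn
    apply div_le_div_of_nonneg_left ht.le
    · have := norm_pos_iff.2 (hη2 hn).2
      positivity
    · exact pow_le_pow_left₀ (norm_nonneg _) (hBQ _ hn) 2
  -- Lipschitz bound of the trajectory
  have hΓlip : ∀ a b, 0 ≤ a → a ≤ b → b ≤ T → ‖Γ b - Γ a‖ ≤ B * (b - a) := by
    intro a b ha hab hb
    have := norm_image_sub_le_of_norm_deriv_le_segment' (f := Γ) (f' := fun s => v (Γ s)) (C := B)
      (a := a) (b := b) (fun x hx => (hΓ x).hasDerivWithinAt) (fun x hx => by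
        apply hBv
        apply hmemΩ _ x ⟨ha.trans hx.1, hx.2.le.trans hb⟩
        rw [sub_self, norm_zero]
        exact hη.le) b ⟨hab, le_rfl⟩
    exact this
  have hΓstep : ∀ a b, 0 ≤ a → a ≤ b → b ≤ T → ‖Γ b - Γ a - ((b - a : ℝ) : ℂ) * v (Γ a)‖ ≤
      K * B * (b - a) ^ 2 := by
    intro a b ha hab hb
    have h1 := norm_image_sub_le_of_norm_deriv_le_segment' (f := fun x : ℝ => Γ x - (x : ℂ) * v (Γ a))
      (f' := fun s => v (Γ s) - v (Γ a)) (C := K * (B * (b - a)))
      (a := a) (b := b) (fun x hx => by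
        apply HasDerivAt.hasDerivWithinAt
        have e1 := (Complex.ofRealCLM.hasDerivAt (x := x)).mul_const (v (Γ a))
        refine ((hΓ x).sub e1).congr_deriv ?_
        simp) (fun x hx => by
        have e1 := hL.dist_le_mul (Γ x) (Γ a)
        rw [dist_eq_norm, dist_eq_norm] at e1
        refine e1.trans (mul_le_mul_of_nonneg_left ?_ K.2)
        refine (hΓlip a x ha hx.1 (hx.2.le.trans hb)).trans ?_
        apply mul_le_mul_of_nonneg_left _ hB0.le
        linarith [hx.2]) b ⟨hab, le_rfl⟩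
    have h2 : Γ b - Γ a - ((b - a : ℝ) : ℂ) * v (Γ a) =
        (Γ b - (b : ℂ) * v (Γ a)) - (Γ a - (a : ℂ) * v (Γ a)) := by push_cast; ring
    rw [h2]
    refine h1.trans (le_of_eq ?_)
    ring
  -- the error
  have herr : ∀ n, s n ≤ T → (∀ j < n, D.Qt S t (z j) ≠ 0) ∧
      ‖z n - Γ (s n)‖ ≤ Real.exp (K * s n) * (E0 + C2 * t * s n) := by
    intro n
    induction n with
    | zero =>
      intro _
      refine ⟨fun j hj => absurd hj (Nat.not_lt_zero j), ?_⟩
      simp [hs, hz, hE0]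
    | succ n ih =>
      intro hn
      have hn' : s n ≤ T := by
        have := hss n
        have := hh0 n
        linarith
      obtain ⟨i1, i2⟩ := ih hn'
      have hexpn : Real.exp (K * s n) ≤ X :=
        Real.exp_le_exp.2 (mul_le_mul_of_nonneg_left hn' K.2)
      have hbd : ‖z n - Γ (s n)‖ ≤ η := by
        refine i2.trans ?_
        have e1 : Real.exp (K * s n) * (E0 + C2 * t * s n) ≤ X * (E0 + C2 * t * T) := by
          apply mul_le_mul hexpn _ (by positivity) (by positivity)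
          have : C2 * t * s n ≤ C2 * t * T := mul_le_mul_of_nonneg_left hn' (by positivity)
          linarith
        have : μ ≤ η := min_le_left _ _
        linarith
      have hzΩ : z n ∈ Ω := hmemΩ _ (s n) ⟨hs0 n, hn'⟩ hbd
      obtain ⟨j1, j2⟩ := hstep _ hzΩ
      refine ⟨fun j hj => ?_, ?_⟩
      · rcases Nat.lt_succ_iff_lt_or_eq.1 hj with h | h
        · exact i1 j h
        · rw [h]; exact j1
      have hzs : z (n + 1) = D.ft S t (z n) := by
        simp only [hz]
        rw [Function.iterate_succ_apply']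
      have k1 := hΓstep (s n) (s (n + 1)) (hs0 n) (by rw [hss]; linarith [hh0 n]) hn
      have k2 : s (n + 1) - s n = h n := by rw [hss]; ring
      rw [k2] at k1
      have k3 := hL.dist_le_mul (z n) (Γ (s n))
      rw [dist_eq_norm, dist_eq_norm] at k3
      have k4 : z (n + 1) - Γ (s (n + 1)) = (z n - Γ (s n)) +
          (D.ft S t (z n) - z n - (h n : ℝ) * v (z n)) + (h n : ℝ) * (v (z n) - v (Γ (s n))) -
          (Γ (s (n + 1)) - Γ (s n) - (h n : ℝ) * v (Γ (s n))) := by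
        rw [hzs]; ring
      have k5 : ‖z (n + 1) - Γ (s (n + 1))‖ ≤ ‖z n - Γ (s n)‖ + C1 * t * h n +
          h n * (K * ‖z n - Γ (s n)‖) + K * B * h n ^ 2 := by
        rw [k4]
        refine (norm_sub_le _ _).trans (add_le_add ?_ k1)
        refine (norm_add_le _ _).trans (add_le_add ((norm_add_le _ _).trans
          (add_le_add le_rfl j2)) ?_)
        rw [norm_mul, Complex.norm_real, Real.norm_eq_abs, abs_of_nonneg (hh0 n)]
        exact mul_le_mul_of_nonneg_left k3 (hh0 n)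
      have k6 : K * B * h n ^ 2 ≤ K * B / c ^ 2 * t * h n := by
        have e1 := hhle n hzΩ
        calc K * B * h n ^ 2 = K * B * h n * h n := by ring
          _ ≤ K * B * h n * (t / c ^ 2) := by
            apply mul_le_mul_of_nonneg_left e1
            have := hh0 n
            positivity
          _ = K * B / c ^ 2 * t * h n := by ring
      have k7 : ‖z (n + 1) - Γ (s (n + 1))‖ ≤ (1 + K * h n) * ‖z n - Γ (s n)‖ + C2 * t * h n := by
        have : C2 * t * h n = C1 * t * h n + K * B / c ^ 2 * t * h n := by rw [hC2]; ring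
        rw [this]
        linarith
      have k8 : 1 + K * h n ≤ Real.exp (K * h n) := by
        have := Real.add_one_le_exp (K * h n)
        linarith
      have k9 : Real.exp (K * s (n + 1)) = Real.exp (K * h n) * Real.exp (K * s n) := by
        rw [← Real.exp_add, hss]
        congr 1
        ring
      have k10 : 1 ≤ Real.exp (K * s (n + 1)) := Real.one_le_exp (mul_nonneg K.2 (hs0 _))
      have hh0n := hh0 n
      calc ‖z (n + 1) - Γ (s (n + 1))‖ ≤ (1 + K * h n) * ‖z n - Γ (s n)‖ + C2 * t * h n := k7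
        _ ≤ Real.exp (K * h n) * (Real.exp (K * s n) * (E0 + C2 * t * s n)) +
            Real.exp (K * s (n + 1)) * (C2 * t * h n) := by
          apply add_le_add
          · exact mul_le_mul k8 i2 (norm_nonneg _) (Real.exp_nonneg _)
          · have : 0 ≤ C2 * t * h n := by positivity
            nlinarith
        _ = Real.exp (K * s (n + 1)) * (E0 + C2 * t * s (n + 1)) := by
          rw [k9, hss]; ring
  have hΩn : ∀ n, s n ≤ T → ‖z n - Γ (s n)‖ ≤ μ / 2 ∧ z n ∈ Ω := by
    intro n hn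
    have i2 := (herr n hn).2
    have hexpn : Real.exp (K * s n) ≤ X :=
      Real.exp_le_exp.2 (mul_le_mul_of_nonneg_left hn K.2)
    have hsn := hs0 n
    have e1 : Real.exp (K * s n) * (E0 + C2 * t * s n) ≤ X * (E0 + C2 * t * T) := by
      apply mul_le_mul hexpn _ (by positivity) (by positivity)
      have : C2 * t * s n ≤ C2 * t * T := mul_le_mul_of_nonneg_left hn (by positivity)
      linarith
    have e2 : ‖z n - Γ (s n)‖ ≤ μ / 2 := by linarith
    refine ⟨e2, hmemΩ _ (s n) ⟨hs0 n, hn⟩ ?_⟩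
    have : μ ≤ η := min_le_left _ _
    linarith
  -- termination
  have hterm : ∃ n, T < s n := by
    by_contra hcon
    push Not at hcon
    have e1 : ∀ n : ℕ, n * (t / B ^ 2) ≤ s n := by
      intro n
      induction n with
      | zero => simp [hs]
      | succ n ih =>
        have := hhge n (hΩn n (hcon n)).2
        rw [hss]
        push_cast
        linarith
    obtain ⟨n, hn⟩ := exists_nat_gt (T / (t / B ^ 2))
    rw [div_lt_iff₀ (by positivity)] at hn
    have := e1 n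
    have := hcon n
    linarith
  classical
  set n0 := Nat.find hterm with hn0
  have hn0s : T < s n0 := Nat.find_spec hterm
  have hn0p : n0 ≠ 0 := by
    intro h0
    rw [h0] at hn0s
    simp only [hs, Finset.range_zero, Finset.sum_empty] at hn0s
    linarith
  obtain ⟨n, hn⟩ := Nat.exists_eq_succ_of_ne_zero hn0p
  have hsn : s n ≤ T := by
    have := Nat.find_min hterm (m := n) (by rw [← hn0, hn]; exact Nat.lt_succ_self n)
    linarith
  have hsn1 : T < s (n + 1) := by
    rw [hn] at hn0s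
    exact hn0s
  obtain ⟨l1, l2⟩ := hΩn n hsn
  refine ⟨n, (herr n hsn).1, ?_⟩
  have l3 := hΓlip (s n) T (hs0 n) hsn le_rfl
  have l4 : T - s n ≤ t / c ^ 2 := by
    have := hhle n l2
    have := hss n
    linarith
  have l5 : B * (T - s n) ≤ B * (t / c ^ 2) := mul_le_mul_of_nonneg_left l4 hB0.le
  have l6 : t * (B / c ^ 2) ≤ μ / 4 := by
    have : 0 ≤ t * (X * C2 * T) := by positivity
    linarith
  have l7 : ‖z n - Γ T‖ ≤ ‖z n - Γ (s n)‖ + ‖Γ T - Γ (s n)‖ := by
    calc ‖z n - Γ T‖ = ‖(z n - Γ (s n)) - (Γ T - Γ (s n))‖ := by congr 1; ring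
      _ ≤ _ := norm_sub_le _ _
  have l8 : B * (t / c ^ 2) = t * (B / c ^ 2) := by ring
  have l9 : μ ≤ ε := min_le_right _ _
  show ‖z n - Γ T‖ < ε
  linarith

end Dat

end Pool.Agent.Helper65.EV
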