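import Mathlib
import Pool.Agent.Helper65.EV.Pass
import Pool.Agent.Helper65.EV.Track

/-! Trajectories from the poles. -/

set_option autoImplicit false

open Topology Filter Metric Set MeasureTheory Polynomial
open scoped Real NNReal

namespace Pool.Agent.Helper65.EV

open Pool.Agent.Helper65.EU

namespace Dat

variable (D : Dat)

theorem V0_contDiff : ContDiff ℝ 1 D.V0 := by
  have h1 : ContDiff ℝ 1 (fun z : ℂ => D.R.eval z) := by
    have h := (Polynomial.contDiff_aeval (𝕜 := ℂ) D.R 1).restrict_scalars ℝ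
    simpa [Polynomial.coe_aeval_eq_eval] using h
  have h2 : ContDiff ℝ 1 (fun z : ℂ => D.Q.eval z) := by
    have h := (Polynomial.contDiff_aeval (𝕜 := ℂ) D.Q 1).restrict_scalars ℝ
    simpa [Polynomial.coe_aeval_eq_eval] using h
  exact h1.mul (Complex.conjCLE.contDiff.comp h2)

/-- a compactly supported version of the field -/
theorem exists_cut {R1 : ℝ} (hR1 : 0 < R1) : ∃ (v : ℂ → ℂ) (K M : ℝ≥0), LipschitzWith K v ∧
    (∀ z, ‖v z‖ ≤ M) ∧ ∀ z, ‖z‖ ≤ R1 → v z = D.V0 z := by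
  let χ : ContDiffBump (0 : ℂ) := ⟨R1, R1 + 1, hR1, by linarith⟩
  set v : ℂ → ℂ := fun z => ((χ z : ℝ) : ℂ) * D.V0 z with hv
  have h1 : ContDiff ℝ 1 v := by
    apply ContDiff.mul _ D.V0_contDiff
    exact Complex.ofRealCLM.contDiff.comp χ.contDiff
  have h2 : HasCompactSupport v := by
    have h3 : HasCompactSupport (fun z => ((χ z : ℝ) : ℂ)) :=
      χ.hasCompactSupport.comp_left Complex.ofReal_zero
    exact h3.mul_right
  obtain ⟨K, hK⟩ := h1.lipschitzWith_of_hasCompactSupport h2 (by simp)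
  obtain ⟨C, hC⟩ := h1.continuous.bounded_above_of_compact_support h2
  refine ⟨v, K, C.toNNReal, hK, fun z => (hC z).trans (Real.le_coe_toNNReal C), fun z hz => ?_⟩
  simp only [hv]
  rw [χ.one_of_mem_closedBall (by rw [mem_closedBall_zero_iff]; exact hz)]
  simp

/-- the sinks -/
def Sink (R0 : ℝ) (r : ℂ → ℝ) : Set ℂ :=
  {z | (0 < D.rinf.re ∧ R0 < ‖z‖) ∨ ∃ a ∈ D.zs, (D.ρ a).re < 0 ∧ ‖z - a‖ < r a}

theorem Sink_open (R0 : ℝ) (r : ℂ → ℝ) : IsOpen (D.Sink R0 r) := by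
  have : D.Sink R0 r = ({z | 0 < D.rinf.re} ∩ {z | R0 < ‖z‖}) ∪
      ⋃ a ∈ D.zs, ({z | (D.ρ a).re < 0} ∩ {z | ‖z - a‖ < r a}) := by
    ext z
    unfold Sink
    simp only [mem_ofPred_eq, mem_union, mem_inter_iff, mem_iUnion, exists_prop]
  rw [this]
  apply IsOpen.union
  · exact isOpen_const.inter (isOpen_lt continuous_const continuous_norm)
  · apply isOpen_biUnion
    intro a _
    exact isOpen_const.inter (isOpen_lt (by fun_prop) continuous_const)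

/-- trajectories from poles reach a sink, without leaving the disc of radius `R1` -/
theorem reach' {v : ℂ → ℂ} {K : ℝ≥0} (hL : LipschitzWith K v) {R0 R1 : ℝ} (hR01 : R0 < R1)
    (hv : ∀ z, ‖z‖ ≤ R1 → v z = D.V0 z) (h0R : 0 < R0)
    (hG : ∀ a ∈ D.zs, (D.ρ a).re ≠ 0) (hGi : D.rinf.re ≠ 0)
    (hR0 : ∀ z, R0 ≤ ‖z‖ → 0 < D.rinf.re * ((starRingEnd ℂ) z * D.V0 z).re)
    {r : ℂ → ℝ} (hr0 : ∀ a ∈ D.zs, 0 < r a)
    (hr : ∀ a ∈ D.zs, ∀ z, z ≠ a → ‖z - a‖ ≤ r a →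
      0 < (D.ρ a).re * ((starRingEnd ℂ) (z - a) * D.V0 z).re)
    (hrR : ∀ a ∈ D.zs, ∀ z, ‖z - a‖ ≤ r a → ‖z‖ ≤ R1)
    {q0 : ℂ} (hq0 : q0 ∈ D.ps) (hNL0 : D.NoLinkFrom q0)
    {Γ : ℝ → ℂ} (hΓ : ∀ t, HasDerivAt Γ (v (Γ t)) t) (h0 : ‖Γ 0‖ < R0)
    (h0a : ∀ a ∈ D.zs, r a < ‖Γ 0 - a‖) (h0Q : D.Q.eval (Γ 0) ≠ 0)
    {p : ℂ} (hNL : D.NoLinkFrom p) (hpR : D.R.eval p ≠ 0)
    {ℓ0 : ℂ → ℂ} (hℓ : ∀ a ∈ D.zs, Complex.exp (ℓ0 a) = (Γ 0 - a) / (p - a)) {δ : ℝ} (hδ : 0 ≤ δ)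
    (hsum : ∑ a ∈ D.zs, D.ρ a * ℓ0 a = (δ : ℂ)) :
    ∃ T, 0 ≤ T ∧ Γ T ∈ D.Sink R0 r ∧ ∀ s ∈ Icc 0 T, ‖Γ s‖ < R1 ∧ D.Q.eval (Γ s) ≠ 0 := by
  have hΓc : Continuous Γ := continuous_iff_continuousAt.2 fun t => (hΓ t).continuousAt
  obtain ⟨T0, hT0, hT0s⟩ := D.reach hL hR01 hv h0R hG hGi hR0 hr0 hr hrR hq0 hNL0 hΓ h0 h0a h0Q hNL
    hpR hℓ hδ hsum
  have hT0s' : Γ T0 ∈ D.Sink R0 r := hT0s
  have key : ∃ T, 0 ≤ T ∧ Γ T ∈ D.Sink R0 r ∧ ∀ s ∈ Icc 0 T, ‖Γ s‖ < R1 := by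
    rcases lt_or_gt_of_ne hGi with h | h
    · refine ⟨T0, hT0, hT0s', fun s hs => ?_⟩
      exact (D.stay_in hR01 hv h hR0 h0R hΓ h0 s hs.1).trans hR01
    · set A : Set ℝ := {s | 0 ≤ s ∧ Γ s ∈ D.Sink R0 r} with hA
      have hne : A.Nonempty := ⟨T0, hT0, hT0s'⟩
      have hbb : BddBelow A := ⟨0, fun s hs => hs.1⟩
      set T := sInf A with hT
      have hT0' : 0 ≤ T := le_csInf hne fun s hs => hs.1
      have hlt : ∀ s, 0 ≤ s → s < T → ‖Γ s‖ ≤ R0 := by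
        intro s hs hsT
        by_contra hcon
        push Not at hcon
        have : s ∈ A := ⟨hs, Or.inl ⟨h, hcon⟩⟩
        exact absurd (csInf_le hbb this) (not_le.2 hsT)
      have hTle : ‖Γ T‖ ≤ R0 := by
        rcases eq_or_lt_of_le hT0' with h1 | h1
        · rw [← h1]; exact h0.le
        · have h2 : Tendsto (fun s => ‖Γ s‖) (𝓝[<] T) (𝓝 ‖Γ T‖) :=
            (hΓc.norm.tendsto T).mono_left nhdsWithin_le_nhds
          apply le_of_tendsto h2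
          filter_upwards [Ioo_mem_nhdsLT h1] with s hs
          exact hlt s hs.1.le hs.2
      have hev : ∀ᶠ s in 𝓝 T, ‖Γ s‖ < R1 :=
        hΓc.norm.continuousAt.eventually (gt_mem_nhds (hTle.trans_lt hR01))
      obtain ⟨κ, hκ, hκ2⟩ := Metric.eventually_nhds_iff_ball.1 hev
      obtain ⟨s, hs, hs2⟩ := exists_lt_of_csInf_lt hne (show sInf A < T + κ by linarith)
      have hTs : T ≤ s := csInf_le hbb hs
      refine ⟨s, hs.1, hs.2, fun x hx => ?_⟩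
      rcases lt_or_ge x T with h1 | h1
      · exact (hlt x hx.1 h1).trans_lt hR01
      · apply hκ2
        rw [mem_ball, Real.dist_eq, abs_of_nonneg (by linarith)]
        linarith [hx.2]
  obtain ⟨T, hT, hTs, hTR⟩ := key
  refine ⟨T, hT, hTs, fun s hs => ⟨hTR s hs, fun h => ?_⟩⟩
  have h1 : v (Γ s) = 0 := by
    rw [hv _ (hTR s hs).le]
    unfold V0
    rw [h, map_zero, mul_zero]
  have h2 := const_of_zero hL hΓ h1 0
  rw [h2] at h0Q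
  exact h0Q h

end Dat

end Pool.Agent.Helper65.EV
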