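import Mathlib
import Pool.Agent.Helper65.EV.Field

/-! The critical points. -/

set_option autoImplicit false

open Topology Filter Metric Set MeasureTheory Polynomial
open scoped Real NNReal

namespace Pool.Agent.Helper65.EV

open Pool.Agent.Helper65.EU

theorem poly_upper (P : ℂ[X]) {m : ℕ} (hm : P.natDegree ≤ m) :
    ∃ C : ℝ, 0 < C ∧ ∀ z, ‖P.eval z‖ ≤ C * (1 + ‖z‖) ^ m := by
  refine ⟨∑ i ∈ Finset.range (m + 1), ‖P.coeff i‖ + 1, by positivity, fun z => ?_⟩
  rw [eval_eq_sum_range' (Nat.lt_succ_of_le hm)]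
  have h1 : (1 : ℝ) ≤ 1 + ‖z‖ := by linarith [norm_nonneg z]
  calc ‖∑ i ∈ Finset.range (m + 1), P.coeff i * z ^ i‖ ≤
      ∑ i ∈ Finset.range (m + 1), ‖P.coeff i * z ^ i‖ := norm_sum_le _ _
    _ ≤ ∑ i ∈ Finset.range (m + 1), ‖P.coeff i‖ * (1 + ‖z‖) ^ m := by
      apply Finset.sum_le_sum
      intro i hi
      rw [norm_mul, norm_pow]
      apply mul_le_mul_of_nonneg_left _ (norm_nonneg _)
      calc ‖z‖ ^ i ≤ (1 + ‖z‖) ^ i := pow_le_pow_left₀ (norm_nonneg _) (by linarith) i
        _ ≤ (1 + ‖z‖) ^ m := pow_le_pow_right₀ h1 (Nat.lt_succ_iff.1 (Finset.mem_range.1 hi))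
    _ = (∑ i ∈ Finset.range (m + 1), ‖P.coeff i‖) * (1 + ‖z‖) ^ m := by rw [Finset.sum_mul]
    _ ≤ _ := by
      have : 0 ≤ (1 + ‖z‖) ^ m := by positivity
      linarith

namespace Dat

variable (D : Dat)

theorem prod_lower (s : Multiset ℂ) {ε : ℝ} (hε : 0 < ε) : ∃ κ : ℝ, 0 < κ ∧
    ∀ z, (∀ a ∈ s, ε ≤ ‖z - a‖) →
      κ * (1 + ‖z‖) ^ (Multiset.card s) ≤ ‖(s.map (fun a => z - a)).prod‖ := by
  induction s using Multiset.induction with
  | empty => exact ⟨1, one_pos, fun z _ => by simp⟩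
  | cons a s ih =>
    obtain ⟨κ, hκ, hκ2⟩ := ih
    refine ⟨((1 + ‖a‖) / ε + 1)⁻¹ * κ, by positivity, fun z hz => ?_⟩
    rw [Multiset.map_cons, Multiset.prod_cons, norm_mul, Multiset.card_cons]
    have h1 := hz a (Multiset.mem_cons_self a s)
    have h2 := hκ2 z (fun b hb => hz b (Multiset.mem_cons_of_mem hb))
    have h3 : ((1 + ‖a‖) / ε + 1)⁻¹ * (1 + ‖z‖) ≤ ‖z - a‖ := by
      rw [inv_mul_le_iff₀ (by positivity)]
      have h2 : ‖z‖ ≤ ‖z - a‖ + ‖a‖ := by
        have := norm_add_le (z - a) a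
        rwa [sub_add_cancel] at this
      have h3 : 1 + ‖a‖ ≤ (1 + ‖a‖) / ε * ‖z - a‖ := by
        rw [div_mul_eq_mul_div, le_div_iff₀ hε]
        exact mul_le_mul_of_nonneg_left h1 (by positivity)
      linarith
    calc ((1 + ‖a‖) / ε + 1)⁻¹ * κ * (1 + ‖z‖) ^ (Multiset.card s + 1) =
        (((1 + ‖a‖) / ε + 1)⁻¹ * (1 + ‖z‖)) * (κ * (1 + ‖z‖) ^ (Multiset.card s)) := by ring
      _ ≤ ‖z - a‖ * ‖(s.map (fun a => z - a)).prod‖ :=
        mul_le_mul h3 h2 (by positivity) (norm_nonneg _)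

theorem Q_lower {ε : ℝ} (hε : 0 < ε) : ∃ κ : ℝ, 0 < κ ∧ ∀ z, (∀ p ∈ D.ps, ε ≤ ‖z - p‖) →
    κ * (1 + ‖z‖) ^ D.Q.natDegree ≤ ‖D.Q.eval z‖ := by
  have hlc : 0 < ‖D.Q.leadingCoeff‖ := norm_pos_iff.2 (leadingCoeff_ne_zero.2 D.Q_ne)
  obtain ⟨κ, hκ, hκ2⟩ := prod_lower D.Q.roots hε
  refine ⟨‖D.Q.leadingCoeff‖ * κ, by positivity, fun z hz => ?_⟩
  have h := (IsAlgClosed.splits D.Q).eq_prod_roots
  have h3 := congrArg (Polynomial.eval z) h
  rw [eval_mul, eval_C, eval_multiset_prod, Multiset.map_map] at h3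
  have h4 : (Multiset.map (Polynomial.eval z ∘ fun a => Polynomial.X - Polynomial.C a)
      D.Q.roots) = D.Q.roots.map (fun a => z - a) := by
    apply Multiset.map_congr rfl
    intro a _
    simp
  rw [h4] at h3
  rw [h3, norm_mul, mul_assoc]
  apply mul_le_mul_of_nonneg_left _ hlc.le
  have h5 : Multiset.card D.Q.roots = D.Q.natDegree :=
    splits_iff_card_roots.1 (IsAlgClosed.splits D.Q)
  rw [← h5]
  apply hκ2
  intro a ha
  apply hz
  unfold ps
  rw [Multiset.mem_toFinset]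
  exact ha

/-- the critical points are the zeros of this function -/
noncomputable def crit (S : ℂ[X]) (t : ℝ) (z : ℂ) : ℂ :=
  D.Qt S t z ^ 2 + t * ((derivative D.R).eval z * D.Qt S t z -
    D.R.eval z * ((derivative D.Q).eval z + t * (derivative S).eval z))

theorem crit_near {S : ℂ[X]} (hS : S.natDegree ≤ D.Q.natDegree) {ε : ℝ} (hε : 0 < ε) :
    ∀ᶠ t : ℝ in 𝓝[>] 0, ∀ c, D.crit S t c = 0 → ∃ p ∈ D.ps, ‖c - p‖ < ε := by
  obtain ⟨κ, hκ, hκ2⟩ := D.Q_lower hε
  set n := D.Q.natDegree with hn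
  have hR' : (derivative D.R).natDegree ≤ n := by
    have := natDegree_derivative_le D.R
    rw [D.hd] at this
    omega
  have hQ' : (derivative D.Q).natDegree ≤ n - 1 := natDegree_derivative_le D.Q
  have hS' : (derivative S).natDegree ≤ n - 1 := by
    have := natDegree_derivative_le S
    omega
  have hn1 := D.hn
  set A1 : ℂ[X] := Polynomial.C 2 * (D.Q * S) + derivative D.R * D.Q - D.R * derivative D.Q with hA1
  set A2 : ℂ[X] := S * S + derivative D.R * S - D.R * derivative S with hA2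
  have hd1 : A1.natDegree ≤ 2 * n := by
    refine (natDegree_sub_le_of_le (m := 2 * n) (n := 2 * n) ?_ ?_).trans (max_le le_rfl le_rfl)
    · apply natDegree_add_le_of_degree_le
      · refine (natDegree_C_mul_le _ _).trans (natDegree_mul_le.trans ?_)
        omega
      · refine natDegree_mul_le.trans ?_
        omega
    · refine natDegree_mul_le.trans ?_
      rw [D.hd]
      omega
  have hd2 : A2.natDegree ≤ 2 * n := by
    refine (natDegree_sub_le_of_le (m := 2 * n) (n := 2 * n) ?_ ?_).trans (max_le le_rfl le_rfl)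
    · apply natDegree_add_le_of_degree_le
      · refine natDegree_mul_le.trans ?_
        omega
      · refine natDegree_mul_le.trans ?_
        omega
    · refine natDegree_mul_le.trans ?_
      rw [D.hd]
      omega
  obtain ⟨C1, hC1, hC12⟩ := poly_upper A1 hd1
  obtain ⟨C2, hC2, hC22⟩ := poly_upper A2 hd2
  have ht0' : Tendsto (fun t : ℝ => t) (𝓝[>] 0) (𝓝 0) := nhdsWithin_le_nhds
  have c1 : ∀ᶠ t : ℝ in 𝓝[>] 0, t * (C1 + C2) < κ ^ 2 := by
    have := ht0'.mul_const (C1 + C2)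
    rw [zero_mul] at this
    exact this.eventually (gt_mem_nhds (by positivity))
  have c2 : ∀ᶠ t : ℝ in 𝓝[>] 0, t < 1 := ht0'.eventually (gt_mem_nhds one_pos)
  filter_upwards [c1, c2, self_mem_nhdsWithin] with t g1 g2 g3
  have ht : 0 < t := g3
  intro c hc
  by_contra hcon
  push Not at hcon
  have h1 := hκ2 c hcon
  have h2 : D.Q.eval c ^ 2 = -((t : ℂ) * A1.eval c + (t : ℂ) ^ 2 * A2.eval c) := by
    unfold crit Qt at hc
    rw [hA1, hA2]
    simp only [eval_add, eval_sub, eval_mul, eval_C]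
    linear_combination hc
  have h3 : ‖D.Q.eval c‖ ^ 2 ≤ t * (C1 + C2) * (1 + ‖c‖) ^ (2 * n) := by
    rw [← norm_pow, h2, norm_neg]
    refine (norm_add_le _ _).trans ?_
    rw [norm_mul, norm_mul, norm_pow, Complex.norm_real, Real.norm_eq_abs, abs_of_pos ht]
    have k1 : t * ‖A1.eval c‖ ≤ t * (C1 * (1 + ‖c‖) ^ (2 * n)) :=
      mul_le_mul_of_nonneg_left (hC12 c) ht.le
    have k2 : t ^ 2 * ‖A2.eval c‖ ≤ t * (C2 * (1 + ‖c‖) ^ (2 * n)) := by
      apply mul_le_mul _ (hC22 c) (norm_nonneg _) ht.le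
      nlinarith
    linarith
  have h4 : κ ^ 2 * (1 + ‖c‖) ^ (2 * n) ≤ ‖D.Q.eval c‖ ^ 2 := by
    have := pow_le_pow_left₀ (by positivity) h1 2
    rw [mul_pow, ← pow_mul, mul_comm n 2] at this
    exact this
  have h5 : 0 < (1 + ‖c‖) ^ (2 * n) := by positivity
  have h6 : κ ^ 2 ≤ t * (C1 + C2) := by
    by_contra hcon2
    push Not at hcon2
    have := mul_lt_mul_of_pos_right hcon2 h5
    linarith
  linarith

/-- the critical points near a pole -/
theorem crit_local (S : ℂ[X]) {p : ℂ} (hp : p ∈ D.ps) {e : OpenPartialHomeomorph ℂ ℂ} {e' : ℂ → ℂ}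
    (hC : D.Cht p e e') (hS : D.mu p ≠ 1 → S.eval p ≠ 0) {ε1 ε2 : ℝ} (hε1 : 0 < ε1)
    (hε2 : 0 < ε2) :
    ∃ r : ℝ, 0 < r ∧ ∀ᶠ t : ℝ in 𝓝[>] 0, ∀ c ∈ closedBall p r, D.crit S t c = 0 →
      ‖e c ^ (D.mu p + 1) / t - (D.mu p : ℕ)‖ ≤ ε1 ∨
      (D.mu p ≠ 1 ∧ D.Qt S t c ≠ 0 ∧ ‖D.ft S t c - (p + D.R.eval p / S.eval p)‖ < ε2) := by
  have hmp : 1 ≤ D.mu p := D.mu_pos hp
  set m := D.mu p with hm
  have hm0 : (m : ℂ) ≠ 0 := Nat.cast_ne_zero.2 (by omega)
  have hm0' : (0 : ℝ) < m := by exact_mod_cast hmp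
  obtain ⟨Qp, hQp, hQp0⟩ := D.exists_Qp p
  rw [← hm] at hQp
  have hRp := D.R_ps hp
  have hQz : ∀ z, D.Q.eval z = (z - p) ^ m * Qp.eval z := by
    intro z
    have := congrArg (Polynomial.eval z) hQp
    rwa [eval_mul, eval_pow, eval_sub, eval_X, eval_C] at this
  have hdQ : ∀ z, (derivative D.Q).eval z =
      (z - p) ^ (m - 1) * (m * Qp.eval z + (z - p) * (derivative Qp).eval z) := by
    intro z
    have h1 : (z - p) ^ m = (z - p) ^ (m - 1) * (z - p) := by
      rw [← pow_succ, Nat.sub_add_cancel hmp]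
    rw [hQp, derivative_mul, derivative_X_sub_C_pow]
    simp only [eval_add, eval_mul, eval_pow, eval_sub, eval_X, eval_C]
    rw [h1]
    ring
  -- the slope of the chart
  have hde : HasDerivAt e (e' p) p := hC.deriv p hC.mem
  have hEc : ContinuousAt (dslope e p) p := continuousAt_dslope_same.2 hde.differentiableAt
  have hEp : dslope e p p = e' p := by rw [dslope_same, hde.deriv]
  have hEz : ∀ z, e z = (z - p) * dslope e p z := by
    intro z
    have := sub_smul_dslope e p z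
    rw [hC.zero, sub_zero, smul_eq_mul] at this
    exact this.symm
  have hce : ContinuousAt e' p := (hC.cont p hC.mem).continuousAt (e.open_source.mem_nhds hC.mem)
  -- the value of the derivative of the chart
  have hpow : e' p ^ (m + 1) * D.R.eval p = Qp.eval p := by
    have h1 : Tendsto (fun z => dslope e p z ^ m * e' z * D.R.eval z) (𝓝[≠] p)
        (𝓝 (dslope e p p ^ m * e' p * D.R.eval p)) := by
      have : ContinuousAt (fun z => dslope e p z ^ m * e' z * D.R.eval z) p :=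
        ((hEc.pow m).mul hce).mul D.R.continuous.continuousAt
      exact this.tendsto.mono_left nhdsWithin_le_nhds
    have h2 : Tendsto (fun z => Qp.eval z) (𝓝[≠] p) (𝓝 (Qp.eval p)) :=
      (Qp.continuous.tendsto p).mono_left nhdsWithin_le_nhds
    have h3 : (fun z => dslope e p z ^ m * e' z * D.R.eval z) =ᶠ[𝓝[≠] p] fun z => Qp.eval z := by
      filter_upwards [nhdsWithin_le_nhds (e.open_source.mem_nhds hC.mem), self_mem_nhdsWithin]
        with z hz hz2
      have h4 := hC.mul z hz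
      have h5 := hC.reg z hz
      have h6 : z - p ≠ 0 := sub_ne_zero.2 hz2
      rw [← hm, hEz z, hQz, mul_pow] at h4
      have h7 : (z - p) ^ m ≠ 0 := pow_ne_zero _ h6
      rw [eq_div_iff h5] at h4
      apply mul_left_cancel₀ h7
      linear_combination h4
    have h8 := tendsto_nhds_unique (h1.congr' h3) h2
    rw [hEp] at h8
    rw [← h8]
    ring
  -- continuity of polynomials
  have c0 : ∀ (P : ℂ[X]) (x : ℂ × ℂ), ContinuousAt (fun x : ℂ × ℂ => P.eval x.1) x := fun P x =>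
    (P.continuous.comp continuous_fst).continuousAt
  have c1 : ∀ x : ℂ × ℂ, ContinuousAt (fun x : ℂ × ℂ => x.2) x := fun x =>
    continuous_snd.continuousAt
  have c2 : ∀ x : ℂ × ℂ, ContinuousAt (fun x : ℂ × ℂ => x.1 - p) x := fun x =>
    (continuous_fst.sub continuous_const).continuousAt
  set κ0 : ℝ := ‖D.R.eval p‖ * m / (2 * ‖Qp.eval p‖) with hκ0
  have hRpn : 0 < ‖D.R.eval p‖ := norm_pos_iff.2 hRp
  have hQpn : 0 < ‖Qp.eval p‖ := norm_pos_iff.2 hQp0
  have hκ0p : 0 < κ0 := by positivity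
  -- first regime
  set den : ℂ × ℂ → ℂ := fun x =>
    (Qp.eval x.1 + x.2 * (x.1 - p) * S.eval x.1) ^ 2 +
      x.2 * (x.1 - p) * (derivative D.R).eval x.1 * (Qp.eval x.1 + x.2 * (x.1 - p) * S.eval x.1) -
      x.2 ^ 2 * (x.1 - p) ^ 2 * D.R.eval x.1 * (derivative S).eval x.1 with hden
  set H : ℂ × ℂ → ℂ := fun x => dslope e p x.1 ^ (m + 1) * D.R.eval x.1 *
    (m * Qp.eval x.1 + (x.1 - p) * (derivative Qp).eval x.1) / den x with hH
  have hHev : ∀ᶠ z in 𝓝 p, ∀ T ∈ closedBall (0 : ℂ) (1 / κ0), ‖H (z, T) - m‖ < ε1 := by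
    apply IsCompact.eventually_forall_of_forall_eventually (isCompact_closedBall _ _)
    intro T hT
    have hdenp : den (p, T) = Qp.eval p ^ 2 := by
      simp only [hden, sub_self]
      ring
    have hHp : H (p, T) = m := by
      simp only [hH]
      rw [hdenp, hEp, sub_self, zero_mul, add_zero, hpow]
      field_simp
    have hcont : ContinuousAt H (p, T) := by
      apply ContinuousAt.div
      · have k1 : ContinuousAt (fun x : ℂ × ℂ => dslope e p x.1) (p, T) :=
          ContinuousAt.comp (f := fun x : ℂ × ℂ => x.1) (x := (p, T)) hEc continuous_fst.continuousAt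
        exact ((k1.pow _).mul (c0 _ _)).mul ((continuousAt_const.mul (c0 _ _)).add
          ((c2 _).mul (c0 _ _)))
      · have k2 : ContinuousAt (fun x : ℂ × ℂ => Qp.eval x.1 + x.2 * (x.1 - p) * S.eval x.1)
            (p, T) := (c0 _ _).add (((c1 _).mul (c2 _)).mul (c0 _ _))
        exact ((k2.pow 2).add ((((c1 _).mul (c2 _)).mul (c0 _ _)).mul k2)).sub
          (((((c1 _).pow 2).mul ((c2 _).pow 2)).mul (c0 _ _)).mul (c0 _ _))
      · rw [hdenp]
        exact pow_ne_zero 2 hQp0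
    have k1 : ContinuousAt (fun x => ‖H x - m‖) (p, T) := (hcont.sub continuousAt_const).norm
    have k2 := k1.eventually (gt_mem_nhds (show ‖H (p, T) - m‖ < ε1 by
      rw [hHp, sub_self, norm_zero]; exact hε1))
    exact k2
  have hdenev : ∀ᶠ z in 𝓝 p, ∀ T ∈ closedBall (0 : ℂ) (1 / κ0), den (z, T) ≠ 0 := by
    apply IsCompact.eventually_forall_of_forall_eventually (isCompact_closedBall _ _)
    intro T hT
    have hdenp : den (p, T) = Qp.eval p ^ 2 := by
      simp only [hden, sub_self]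
      ring
    have hcont : ContinuousAt den (p, T) := by
      have k2 : ContinuousAt (fun x : ℂ × ℂ => Qp.eval x.1 + x.2 * (x.1 - p) * S.eval x.1)
          (p, T) := (c0 _ _).add (((c1 _).mul (c2 _)).mul (c0 _ _))
      exact ((k2.pow 2).add ((((c1 _).mul (c2 _)).mul (c0 _ _)).mul k2)).sub
        (((((c1 _).pow 2).mul ((c2 _).pow 2)).mul (c0 _ _)).mul (c0 _ _))
    exact hcont.eventually_ne (by rw [hdenp]; exact pow_ne_zero 2 hQp0)
  -- second regime
  set K : ℂ × ℂ → ℂ := fun x => D.R.eval x.1 * (m * Qp.eval x.1 + (x.1 - p) *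
    (derivative Qp).eval x.1) - x.2 * Qp.eval x.1 ^ 2 - 2 * (x.1 - p) * Qp.eval x.1 * S.eval x.1 -
    (x.1 - p) * (derivative D.R).eval x.1 * Qp.eval x.1 with hK
  set k0 : ℝ := ‖D.R.eval p‖ * m * ‖Qp.eval p‖ / 4 with hk0
  have hk0p : 0 < k0 := by positivity
  have hKev : ∀ᶠ z in 𝓝 p, ∀ U ∈ closedBall (0 : ℂ) κ0, k0 < ‖K (z, U)‖ := by
    apply IsCompact.eventually_forall_of_forall_eventually (isCompact_closedBall _ _)
    intro U hU
    have hcont : ContinuousAt K (p, U) := by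
      exact ((((c0 _ _).mul ((continuousAt_const.mul (c0 _ _)).add ((c2 _).mul (c0 _ _)))).sub
        ((c1 _).mul ((c0 _ _).pow 2))).sub
        (((continuousAt_const.mul (c2 _)).mul (c0 _ _)).mul (c0 _ _))).sub
        (((c2 _).mul (c0 _ _)).mul (c0 _ _))
    have hKp : k0 < ‖K (p, U)‖ := by
      have k1 : K (p, U) = D.R.eval p * (m * Qp.eval p) - U * Qp.eval p ^ 2 := by
        simp only [hK, sub_self]
        ring
      rw [k1]
      have k2 := norm_sub_norm_le (D.R.eval p * (m * Qp.eval p)) (U * Qp.eval p ^ 2)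
      rw [norm_mul, norm_mul, norm_mul, norm_pow, Complex.norm_natCast] at k2
      have k3 : ‖U‖ ≤ κ0 := mem_closedBall_zero_iff.1 hU
      have k4 : ‖U‖ * ‖Qp.eval p‖ ^ 2 ≤ κ0 * ‖Qp.eval p‖ ^ 2 :=
        mul_le_mul_of_nonneg_right k3 (sq_nonneg _)
      have k5 : κ0 * ‖Qp.eval p‖ ^ 2 = ‖D.R.eval p‖ * m * ‖Qp.eval p‖ / 2 := by
        rw [hκ0]; field_simp
      have k6 : 0 < ‖D.R.eval p‖ * m * ‖Qp.eval p‖ := by positivity
      rw [hk0]
      nlinarith
    exact hcont.norm.eventually (lt_mem_nhds hKp)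
  obtain ⟨r, hr, hr2⟩ := Metric.nhds_basis_closedBall.eventually_iff.1
    ((hHev.and hdenev).and hKev)
  -- bounds
  obtain ⟨B1, hB1⟩ := (isCompact_closedBall p r).exists_bound_of_continuousOn
    (f := fun z => S.eval z ^ 2 + (derivative D.R).eval z * S.eval z -
      D.R.eval z * (derivative S).eval z)
    (((S.continuous.pow 2).add ((derivative D.R).continuous.mul S.continuous)).sub
      (D.R.continuous.mul (derivative S).continuous)).continuousOn
  obtain ⟨B2, hB2⟩ := (isCompact_closedBall p r).exists_bound_of_continuousOn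
    Qp.continuous.continuousOn
  have hpr : p ∈ closedBall p r := mem_closedBall_self hr.le
  have hB10 : 0 ≤ B1 := (norm_nonneg _).trans (hB1 p hpr)
  have hB20 : 0 ≤ B2 := (norm_nonneg _).trans (hB2 p hpr)
  set C1 : ℝ := B1 / k0 with hC1
  have hC10 : 0 ≤ C1 := by positivity
  -- the key estimate in the second regime
  have hreg2 : ∀ t : ℝ, 0 < t → ∀ c ∈ closedBall p r, D.crit S t c = 0 →
      ‖c - p‖ ^ (m + 1) < κ0 * t → ‖c - p‖ ^ (m - 1) ≤ C1 * t := by
    intro t ht c hc hcrit hlt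
    have htC : (t : ℂ) ≠ 0 := by exact_mod_cast ht.ne'
    have hU : ((c - p) ^ (m + 1) / t) ∈ closedBall (0 : ℂ) κ0 := by
      rw [mem_closedBall_zero_iff, norm_div, norm_pow, Complex.norm_real, Real.norm_eq_abs,
        abs_of_pos ht, div_le_iff₀ ht]
      exact hlt.le
    have k1 := (hr2 hc).2 _ hU
    have k2 : (t : ℂ) * (c - p) ^ (m - 1) * K (c, (c - p) ^ (m + 1) / t) =
        (t : ℂ) ^ 2 * (S.eval c ^ 2 + (derivative D.R).eval c * S.eval c -
        D.R.eval c * (derivative S).eval c) := by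
      have h1 : (c - p) ^ (m + 1) = (c - p) ^ (m - 1) * (c - p) ^ 2 := by
        rw [← pow_add]; congr 1; omega
      have h2 : (c - p) ^ m = (c - p) ^ (m - 1) * (c - p) := by
        rw [← pow_succ, Nat.sub_add_cancel hmp]
      unfold crit Qt at hcrit
      rw [hdQ, hQz, h2] at hcrit
      simp only [hK]
      rw [h1]
      field_simp
      linear_combination (-1 : ℂ) * hcrit
    have k3 := congrArg norm k2
    rw [norm_mul, norm_mul, norm_mul, norm_pow, norm_pow, Complex.norm_real, Real.norm_eq_abs,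
      abs_of_pos ht] at k3
    have k4 := hB1 c hc
    rw [hC1, div_mul_eq_mul_div, le_div_iff₀ hk0p]
    have k5 : t * ‖c - p‖ ^ (m - 1) * k0 ≤ t ^ 2 * B1 := by
      calc t * ‖c - p‖ ^ (m - 1) * k0 ≤ t * ‖c - p‖ ^ (m - 1) * ‖K (c, (c - p) ^ (m + 1) / t)‖ :=
            mul_le_mul_of_nonneg_left k1.le (by positivity)
        _ = _ := k3
        _ ≤ t ^ 2 * B1 := mul_le_mul_of_nonneg_left k4 (sq_nonneg t)
    have k6 : t * (‖c - p‖ ^ (m - 1) * k0) ≤ t * (B1 * t) := by
      calc t * (‖c - p‖ ^ (m - 1) * k0) = t * ‖c - p‖ ^ (m - 1) * k0 := by ring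
        _ ≤ _ := k5
        _ = _ := by ring
    exact le_of_mul_le_mul_left k6 ht
  refine ⟨r, hr, ?_⟩
  -- first regime
  have hreg1 : ∀ t : ℝ, 0 < t → ∀ c ∈ closedBall p r, D.crit S t c = 0 →
      κ0 * t ≤ ‖c - p‖ ^ (m + 1) → ‖e c ^ (m + 1) / t - m‖ ≤ ε1 := by
    intro t ht c hc hcrit hle
    have htC : (t : ℂ) ≠ 0 := by exact_mod_cast ht.ne'
    have hs : c - p ≠ 0 := by
      intro h
      rw [h, norm_zero, zero_pow (by omega)] at hle
      have : 0 < κ0 * t := by positivity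
      linarith
    have hsn : 0 < ‖c - p‖ := norm_pos_iff.2 hs
    have hT : ((t : ℂ) / (c - p) ^ (m + 1)) ∈ closedBall (0 : ℂ) (1 / κ0) := by
      rw [mem_closedBall_zero_iff, norm_div, norm_pow, Complex.norm_real, Real.norm_eq_abs,
        abs_of_pos ht, div_le_div_iff₀ (by positivity) hκ0p]
      linarith
    have k1 := (hr2 hc).1.1 _ hT
    have k0' := (hr2 hc).1.2 _ hT
    have k2 : e c ^ (m + 1) / t = H (c, (t : ℂ) / (c - p) ^ (m + 1)) := by
      have h1 : (c - p) ^ (m + 1) = (c - p) ^ (m - 1) * (c - p) ^ 2 := by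
        rw [← pow_add]; congr 1; omega
      have h2 : (c - p) ^ m = (c - p) ^ (m - 1) * (c - p) := by
        rw [← pow_succ, Nat.sub_add_cancel hmp]
      have h3 : (c - p) ^ (m - 1) ≠ 0 := pow_ne_zero _ hs
      simp only [hH]
      rw [eq_div_iff k0', hEz c, mul_pow]
      unfold crit Qt at hcrit
      rw [hdQ, hQz, h2] at hcrit
      simp only [hden]
      rw [h1]
      field_simp
      linear_combination (dslope e p c ^ (m + 1)) * hcrit
    rw [k2]
    exact k1.le
  rcases Nat.lt_or_ge 1 m with hm2 | hm2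
  · -- multiple poles
    have hSp : S.eval p ≠ 0 := hS (by omega)
    set F : ℂ × ℂ → ℂ := fun x => x.1 + D.R.eval x.1 / (S.eval x.1 + x.2) with hF
    have hFc : ContinuousAt F (p, 0) := by
      apply continuous_fst.continuousAt.add
      apply ContinuousAt.div (c0 _ _) ((c0 _ _).add (c1 _))
      simpa using hSp
    have hev : ∀ᶠ x in 𝓝 ((p, 0) : ℂ × ℂ), ‖F x - (p + D.R.eval p / S.eval p)‖ < ε2 ∧
        S.eval x.1 + x.2 ≠ 0 := by
      apply Filter.Eventually.and
      · have k1 : ContinuousAt (fun x => ‖F x - (p + D.R.eval p / S.eval p)‖) (p, 0) :=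
          (hFc.sub continuousAt_const).norm
        apply k1.eventually (gt_mem_nhds _)
        simp only [hF, add_zero, sub_self, norm_zero]
        exact hε2
      · have k1 : ContinuousAt (fun x : ℂ × ℂ => S.eval x.1 + x.2) (p, 0) := (c0 _ _).add (c1 _)
        apply k1.eventually_ne
        simpa using hSp
    obtain ⟨ρ, hρ, hρ2⟩ := Metric.eventually_nhds_iff_ball.1 hev
    set ρ' : ℝ := min ρ (ρ / (B2 * C1 + 1)) with hρ'
    have hρ'p : 0 < ρ' := lt_min hρ (by positivity)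
    have ht0' : Tendsto (fun t : ℝ => t) (𝓝[>] 0) (𝓝 0) := nhdsWithin_le_nhds
    have g1 : ∀ᶠ t : ℝ in 𝓝[>] 0, κ0 * t < ρ' ^ (m + 1) := by
      have := ht0'.const_mul κ0
      rw [mul_zero] at this
      exact this.eventually (gt_mem_nhds (by positivity))
    filter_upwards [g1, self_mem_nhdsWithin] with t g1 g2
    have ht : 0 < t := g2
    intro c hc hcrit
    rcases le_or_gt (κ0 * t) (‖c - p‖ ^ (m + 1)) with h | h
    · left
      exact hreg1 t ht c hc hcrit h
    · right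
      have k1 := hreg2 t ht c hc hcrit h
      have htC : (t : ℂ) ≠ 0 := by exact_mod_cast ht.ne'
      have k2 : ‖c - p‖ < ρ' := by
        have : ‖c - p‖ ^ (m + 1) < ρ' ^ (m + 1) := h.trans g1
        exact lt_of_pow_lt_pow_left₀ _ hρ'p.le this
      have k3 : ‖D.Q.eval c / t‖ < ρ := by
        rw [norm_div, Complex.norm_real, Real.norm_eq_abs, abs_of_pos ht, div_lt_iff₀ ht, hQz,
          norm_mul, norm_pow]
        have h1 : ‖c - p‖ ^ m = ‖c - p‖ ^ (m - 1) * ‖c - p‖ := by
          rw [← pow_succ, Nat.sub_add_cancel hmp]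
        rw [h1]
        have h2 := hB2 c hc
        have h3 : ‖c - p‖ ^ (m - 1) * ‖c - p‖ * ‖Qp.eval c‖ ≤ (C1 * t) * ‖c - p‖ * B2 := by
          apply mul_le_mul _ h2 (norm_nonneg _) (by positivity)
          exact mul_le_mul_of_nonneg_right k1 (norm_nonneg _)
        have h4 : ‖c - p‖ * (B2 * C1 + 1) < ρ := by
          have := k2.trans_le (min_le_right _ _)
          rwa [lt_div_iff₀ (by positivity)] at this
        have h5 : (C1 * t) * ‖c - p‖ * B2 = (‖c - p‖ * (B2 * C1)) * t := by ring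
        have h6 : ‖c - p‖ * (B2 * C1) ≤ ‖c - p‖ * (B2 * C1 + 1) :=
          mul_le_mul_of_nonneg_left (by linarith) (norm_nonneg _)
        have h7 : (‖c - p‖ * (B2 * C1)) * t < ρ * t :=
          mul_lt_mul_of_pos_right (by linarith) ht
        linarith
      have hmem : (c, D.Q.eval c / t) ∈ ball ((p, 0) : ℂ × ℂ) ρ := by
        rw [mem_ball, Prod.dist_eq]
        apply max_lt
        · rw [dist_eq_norm]
          exact k2.trans_le (min_le_left _ _)
        · rw [dist_eq_norm, sub_zero]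
          exact k3
      obtain ⟨l1, l2⟩ := hρ2 _ hmem
      have l3 : D.Qt S t c = t * (S.eval c + D.Q.eval c / t) := by
        unfold Qt
        field_simp
        ring
      refine ⟨by omega, ?_, ?_⟩
      · rw [l3]
        exact mul_ne_zero htC l2
      · have l4 : D.ft S t c = F (c, D.Q.eval c / t) := by
          unfold ft
          rw [l3]
          simp only [hF]
          simp only at l2
          field_simp
        rw [l4]
        exact l1
  · -- simple poles
    have hm1 : m = 1 := by omega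
    have ht0' : Tendsto (fun t : ℝ => t) (𝓝[>] 0) (𝓝 0) := nhdsWithin_le_nhds
    have g1 : ∀ᶠ t : ℝ in 𝓝[>] 0, C1 * t < 1 := by
      have := ht0'.const_mul C1
      rw [mul_zero] at this
      exact this.eventually (gt_mem_nhds one_pos)
    filter_upwards [g1, self_mem_nhdsWithin] with t g1 g2
    have ht : 0 < t := g2
    intro c hc hcrit
    left
    rcases le_or_gt (κ0 * t) (‖c - p‖ ^ (m + 1)) with h | h
    · exact hreg1 t ht c hc hcrit h
    · exfalso
      have k1 := hreg2 t ht c hc hcrit h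
      have k2 : m - 1 = 0 := by omega
      rw [k2, pow_zero] at k1
      linarith

end Dat

end Pool.Agent.Helper65.EV
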