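import Mathlib
import Pool.Agent.Helper65.EV.Crit

/-! The critical orbits reach a sink. -/

set_option autoImplicit false

open Topology Filter Metric Set MeasureTheory Polynomial
open scoped Real NNReal

namespace Pool.Agent.Helper65.EV

open Pool.Agent.Helper65.EU

/-- the choice of the root of unity -/
theorem root_sel {m : ℕ} (hm : 1 ≤ m) : ∃ ε1 : ℝ, 0 < ε1 ∧ ε1 ≤ 1 / 10 ∧ ∀ u : ℂ,
    ‖u ^ (m + 1) - (m : ℕ)‖ ≤ ε1 → ∃ ω : ℂ, ω ^ (m + 1) = 1 ∧ 0 < (ω⁻¹ * u).re ∧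
      |(ω⁻¹ * u).im| * (4 * ((m : ℕ) + 1)) ≤ (ω⁻¹ * u).re := by
  have hM0 : ((m + 1 : ℕ) : ℂ) ≠ 0 := Nat.cast_ne_zero.2 (by omega)
  have hm0 : (m : ℂ) ≠ 0 := Nat.cast_ne_zero.2 (by omega)
  have hmR : (0 : ℝ) < m := by exact_mod_cast hm
  set g : ℂ → ℂ := fun w => Complex.exp (Complex.log w / ((m + 1 : ℕ) : ℂ)) with hg
  have hsl : (m : ℂ) ∈ Complex.slitPlane := by
    left
    rw [Complex.natCast_re]
    exact hmR
  have hgc : ContinuousAt g m := by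
    apply ContinuousAt.cexp
    exact (continuousAt_clog hsl).div_const _
  have hgm : g m = ((Real.exp (Real.log m / (m + 1 : ℕ)) : ℝ) : ℂ) := by
    simp only [hg]
    rw [← Complex.natCast_log]
    push_cast
    rfl
  have hO : IsOpen {v : ℂ | 0 < v.re ∧ |v.im| * (4 * ((m : ℝ) + 1)) < v.re} := by
    apply IsOpen.and
    · exact isOpen_lt continuous_const Complex.continuous_re
    · exact isOpen_lt (by fun_prop) Complex.continuous_re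
  have hmem : g m ∈ {v : ℂ | 0 < v.re ∧ |v.im| * (4 * ((m : ℝ) + 1)) < v.re} := by
    rw [hgm]
    refine ⟨?_, ?_⟩
    · rw [Complex.ofReal_re]; exact Real.exp_pos _
    · rw [Complex.ofReal_re, Complex.ofReal_im, abs_zero, zero_mul]; exact Real.exp_pos _
  have hev : ∀ᶠ w in 𝓝 (m : ℂ), w ≠ 0 ∧ (0 < (g w).re ∧ |(g w).im| * (4 * ((m : ℝ) + 1)) < (g w).re) :=
    (continuousAt_id.eventually_ne hm0).and (hgc.eventually_mem (hO.mem_nhds hmem))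
  obtain ⟨κ, hκ, hκ2⟩ := Metric.nhds_basis_closedBall.eventually_iff.1 hev
  refine ⟨min κ (1 / 10), lt_min hκ (by norm_num), min_le_right _ _, fun u hu => ?_⟩
  have h1 : u ^ (m + 1) ∈ closedBall (m : ℂ) κ := by
    rw [mem_closedBall, dist_eq_norm]
    exact hu.trans (min_le_left _ _)
  obtain ⟨k0, k1, k2⟩ := hκ2 h1
  have hu0 : u ≠ 0 := by
    rintro rfl
    exact k0 (zero_pow (by omega))
  have hgp : g (u ^ (m + 1)) ^ (m + 1) = u ^ (m + 1) := by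
    simp only [hg]
    rw [← Complex.exp_nat_mul, mul_div_cancel₀ _ hM0, Complex.exp_log k0]
  have hg0 : g (u ^ (m + 1)) ≠ 0 := Complex.exp_ne_zero _
  refine ⟨u / g (u ^ (m + 1)), ?_, ?_⟩
  · rw [div_pow, hgp, div_self k0]
  · have : (u / g (u ^ (m + 1)))⁻¹ * u = g (u ^ (m + 1)) := by
      field_simp
    rw [this]
    exact ⟨k1, k2.le⟩

namespace Dat

variable (D : Dat)

/-- admissible radii -/
structure Radii (R0 : ℝ) (r : ℂ → ℝ) : Prop where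
  R0_pos : 0 < R0
  far : ∀ z, R0 ≤ ‖z‖ → D.Q.eval z ≠ 0 ∧ D.R.eval z ≠ 0 ∧
    0 < D.rinf.re * ((starRingEnd ℂ) z * D.V0 z).re
  r_pos : ∀ a ∈ D.zs, 0 < r a
  near : ∀ a ∈ D.zs, ∀ z, z ≠ a → ‖z - a‖ ≤ r a → D.Q.eval z ≠ 0 ∧
    0 < (D.ρ a).re * ((starRingEnd ℂ) (z - a) * D.V0 z).re
  inside : ∀ a ∈ D.zs, ‖a‖ + r a < R0
  poles : ∀ p ∈ D.ps, ‖p‖ < R0

theorem exists_radii (hG : ∀ a ∈ D.zs, (D.ρ a).re ≠ 0) (hGi : D.rinf.re ≠ 0) (F : Finset ℂ)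
    (hF : ∀ x ∈ F, x ∉ D.zs) :
    ∃ R0 r, D.Radii R0 r ∧ ∀ x ∈ F, ‖x‖ < R0 ∧ ∀ a ∈ D.zs, r a < ‖x - a‖ := by
  classical
  have h1 : ∀ a : ℂ, ∃ r : ℝ, a ∈ D.zs → (0 < r ∧
    (∀ z, z ≠ a → ‖z - a‖ ≤ r → D.Q.eval z ≠ 0 ∧
      0 < (D.ρ a).re * ((starRingEnd ℂ) (z - a) * D.V0 z).re) ∧ ∀ x ∈ F, r < ‖x - a‖) := by
    intro a
    by_cases ha : a ∈ D.zs
    · obtain ⟨r, h1, h2⟩ := D.near_zero ha (hG a ha)
      have h3 : ∀ x ∈ F, ∀ᶠ ε : ℝ in 𝓝[>] 0, ε < ‖x - a‖ := by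
        intro x hx
        have hxa : 0 < ‖x - a‖ := by
          rw [norm_pos_iff, sub_ne_zero]
          rintro rfl
          exact hF x hx ha
        filter_upwards [Ioo_mem_nhdsGT hxa] with ε hε
        exact hε.2
      have h4 : ∀ᶠ ε : ℝ in 𝓝[>] 0, ε < r := by
        filter_upwards [Ioo_mem_nhdsGT h1] with ε hε
        exact hε.2
      obtain ⟨ε, ⟨g1, g2⟩, g3⟩ := ((((Filter.eventually_all_finset F).2 h3).and h4).and
        self_mem_nhdsWithin).exists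
      exact ⟨ε, fun _ => ⟨g3, fun z hz hz2 => h2 z hz (hz2.trans g2.le), g1⟩⟩
    · exact ⟨0, fun h => absurd h ha⟩
  choose r hr using h1
  obtain ⟨R, hR, hR2⟩ := D.near_inf hGi
  have hs1 : 0 ≤ ∑ a ∈ D.zs, (‖a‖ + r a) := Finset.sum_nonneg fun a ha => by
    have := (hr a ha).1
    positivity
  have hs2 : 0 ≤ ∑ p ∈ D.ps, ‖p‖ := Finset.sum_nonneg fun p _ => norm_nonneg p
  have hs3 : 0 ≤ ∑ p ∈ F, ‖p‖ := Finset.sum_nonneg fun p _ => norm_nonneg p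
  refine ⟨R + ∑ a ∈ D.zs, (‖a‖ + r a) + ∑ p ∈ D.ps, ‖p‖ + ∑ p ∈ F, ‖p‖ + 1, r,
    ⟨by linarith, ?_, fun a ha => (hr a ha).1, fun a ha => (hr a ha).2.1, ?_, ?_⟩, ?_⟩
  · intro z hz
    exact hR2 z (by linarith)
  · intro a ha
    have := Finset.single_le_sum (f := fun a => ‖a‖ + r a) (fun a ha => by
      have := (hr a ha).1
      positivity) ha
    linarith
  · intro p hp
    have := Finset.single_le_sum (f := fun p : ℂ => ‖p‖) (fun p _ => norm_nonneg p) hp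
    linarith
  · intro x hx
    refine ⟨?_, fun a ha => (hr a ha).2.2 x hx⟩
    have := Finset.single_le_sum (f := fun p : ℂ => ‖p‖) (fun p _ => norm_nonneg p) hx
    linarith

/-- points near the jump points reach a sink -/
theorem start_reach (S : ℂ[X]) (hG : ∀ a ∈ D.zs, (D.ρ a).re ≠ 0) (hGi : D.rinf.re ≠ 0)
    {q0 : ℂ} (hq0 : q0 ∈ D.ps) (hNL0 : D.NoLinkFrom q0) {R0 : ℝ} {r : ℂ → ℝ} (hr : D.Radii R0 r)
    {x0 : ℂ} (hx0R : ‖x0‖ < R0) (hx0a : ∀ a ∈ D.zs, r a < ‖x0 - a‖) (hx0Q : D.Q.eval x0 ≠ 0)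
    {p : ℂ} (hNL : D.NoLinkFrom p) (hpR : D.R.eval p ≠ 0) {ℓ0 : ℂ → ℂ}
    (hℓ : ∀ a ∈ D.zs, Complex.exp (ℓ0 a) = (x0 - a) / (p - a)) {δ : ℝ} (hδ : 0 ≤ δ)
    (hsum : ∑ a ∈ D.zs, D.ρ a * ℓ0 a = (δ : ℂ)) :
    ∃ ε : ℝ, 0 < ε ∧ ∀ᶠ t : ℝ in 𝓝[>] 0, ∀ z, ‖z - x0‖ < ε →
      ∃ N : ℕ, (∀ j < N, D.Qt S t ((D.ft S t)^[j] z) ≠ 0) ∧ (D.ft S t)^[N] z ∈ D.Sink R0 r := by
  obtain ⟨v, K, M, hL, hM, hv⟩ := D.exists_cut (R1 := R0 + 1) (by linarith [hr.R0_pos])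
  have hR01 : R0 < R0 + 1 := by linarith
  obtain ⟨Γ, hΓ0, hΓ⟩ := exists_flow hL hM x0
  obtain ⟨T, hT, hTs, hTin⟩ := D.reach' hL hR01 hv hr.R0_pos hG hGi (fun z hz => (hr.far z hz).2.2)
    hr.r_pos (fun a ha z hz hz2 => (hr.near a ha z hz hz2).2) (fun a ha z hz => by
      have k1 := hr.inside a ha
      have k2 : ‖z‖ ≤ ‖z - a‖ + ‖a‖ := by
        have := norm_add_le (z - a) a
        rwa [sub_add_cancel] at this
      linarith) hq0 hNL0 hΓ (by rw [hΓ0]; exact hx0R) (by rw [hΓ0]; exact hx0a)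
    (by rw [hΓ0]; exact hx0Q) hNL hpR (ℓ0 := ℓ0) (by rw [hΓ0]; exact hℓ) hδ hsum
  obtain ⟨ε, hε, hε2⟩ := Metric.isOpen_iff.1 (D.Sink_open R0 r) _ hTs
  obtain ⟨ε1, hε1, htr⟩ := D.track S hL hv hΓ hT hTin hε
  refine ⟨ε1, hε1, ?_⟩
  filter_upwards [htr] with t ht1
  intro z hz
  obtain ⟨n, k3, k4⟩ := ht1 z (by rw [hΓ0]; exact hz)
  refine ⟨n, k3, ?_⟩
  apply hε2
  rw [mem_ball, dist_eq_norm]
  exact k4

/-- the critical points near a pole reach a sink -/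
theorem pole_reach (S : ℂ[X]) (hG : ∀ a ∈ D.zs, (D.ρ a).re ≠ 0) (hGi : D.rinf.re ≠ 0)
    {R0 : ℝ} {r : ℂ → ℝ} (hr : D.Radii R0 r) {p : ℂ} (hp : p ∈ D.ps) (hNL : D.NoLinkFrom p)
    (hS : D.mu p ≠ 1 → S.eval p ≠ 0)
    (hJ : D.mu p ≠ 1 → ∃ x0 : ℂ, x0 = p + D.R.eval p / S.eval p ∧ D.R.eval x0 ≠ 0 ∧
      D.Q.eval x0 ≠ 0 ∧ D.NoLinkFrom x0 ∧ ‖x0‖ < R0 ∧ ∀ a ∈ D.zs, r a < ‖x0 - a‖) :
    ∃ ρ0 : ℝ, 0 < ρ0 ∧ ∀ᶠ t : ℝ in 𝓝[>] 0, ∀ c ∈ closedBall p ρ0, D.crit S t c = 0 →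
      ∃ N : ℕ, (∀ j < N, D.Qt S t ((D.ft S t)^[j] c) ≠ 0) ∧ (D.ft S t)^[N] c ∈ D.Sink R0 r := by
  obtain ⟨e, e', hC, L, r0, hLp, hr0, h6, h7⟩ := D.pole_chart hp
  obtain ⟨rc, ρ1, hrc, hrc0, hρ1, htar, hpass⟩ := D.pole_pass S hp hC hLp hr0 h6 h7
  have hmp : 1 ≤ D.mu p := D.mu_pos hp
  set m := D.mu p with hm
  obtain ⟨ε1, hε1, hε110, hsel⟩ := root_sel hmp
  -- the jump
  have hjump : ∃ ε2 : ℝ, 0 < ε2 ∧ (m ≠ 1 → ∀ᶠ t : ℝ in 𝓝[>] 0, ∀ z,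
      ‖z - (p + D.R.eval p / S.eval p)‖ < ε2 →
      ∃ N : ℕ, (∀ j < N, D.Qt S t ((D.ft S t)^[j] z) ≠ 0) ∧ (D.ft S t)^[N] z ∈ D.Sink R0 r) := by
    by_cases h1 : m = 1
    · exact ⟨1, one_pos, fun h => absurd h1 h⟩
    · obtain ⟨x0, rfl, g1, g2, g3, g4, g5⟩ := hJ h1
      obtain ⟨ε2, hε2, h2⟩ := D.start_reach S hG hGi hp hNL hr g4 g5 g2 g3 g1 (ℓ0 := fun _ => 0)
        (fun a ha => by
          rw [Complex.exp_zero, div_self]
          intro h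
          have := sub_eq_zero.1 h
          exact g1 (this ▸ D.mem_zs.1 ha)) le_rfl (by simp)
      exact ⟨ε2, hε2, fun _ => h2⟩
  obtain ⟨ε2, hε2, hjump2⟩ := hjump
  obtain ⟨ρc, hρc, hloc⟩ := D.crit_local S hp hC hS hε1 hε2
  -- the neighbourhood of the pole
  set O : Set ℂ := {z | ‖z‖ < R0} ∩ ⋂ a ∈ D.zs, {z | r a < ‖z - a‖} with hO
  have hOo : IsOpen O := by
    apply (isOpen_lt continuous_norm continuous_const).inter
    apply isOpen_biInter_finset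
    intro a _
    exact isOpen_lt continuous_const (by fun_prop)
  have hpO : p ∈ O := by
    refine ⟨hr.poles p hp, ?_⟩
    simp only [mem_iInter]
    intro a ha
    show r a < ‖p - a‖
    by_contra hcon
    push Not at hcon
    have hne : p ≠ a := by
      rintro rfl
      exact D.Q_zs ha (D.mem_ps.1 hp)
    exact (hr.near a ha p hne hcon).1 (D.mem_ps.1 hp)
  have h0t : (0 : ℂ) ∈ e.target := by rw [← hC.zero]; exact e.map_source hC.mem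
  have hsymm0 : e.symm 0 = p := by rw [← hC.zero]; exact e.left_inv hC.mem
  have hcs : ContinuousAt e.symm 0 := (e.symm.continuousOn _ h0t).continuousAt
    (e.open_target.mem_nhds h0t)
  have hev : ∀ᶠ w in 𝓝 (0 : ℂ), e.symm w ∈ O := by
    apply hcs.eventually_mem
    rw [hsymm0]
    exact hOo.mem_nhds hpO
  obtain ⟨κ, hκ, hκ2⟩ := Metric.nhds_basis_closedBall.eventually_iff.1 hev
  set s := min κ (ρ1 / 2) with hsd
  have hs : 0 < s := lt_min hκ (by positivity)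
  have hsρ : 2 * s ^ (m + 1) ≤ ρ1 ^ (m + 1) := by
    have h1 : s ^ (m + 1) ≤ (ρ1 / 2) ^ (m + 1) :=
      pow_le_pow_left₀ hs.le (min_le_right _ _) _
    rw [div_pow] at h1
    have h2 : (2 : ℝ) ≤ 2 ^ (m + 1) := by
      calc (2 : ℝ) = 2 ^ 1 := (pow_one _).symm
        _ ≤ 2 ^ (m + 1) := pow_le_pow_right₀ (by norm_num) (by omega)
    have h3 : 0 < ρ1 ^ (m + 1) := by positivity
    have h4 : ρ1 ^ (m + 1) / 2 ^ (m + 1) ≤ ρ1 ^ (m + 1) / 2 :=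
      div_le_div_of_nonneg_left h3.le (by norm_num) h2
    linarith
  have hpa : ∀ a ∈ D.zs, p - a ≠ 0 := by
    intro a ha h
    have := sub_eq_zero.1 h
    exact D.Q_zs ha (this ▸ D.mem_ps.1 hp)
  -- all directions
  have hdir : ∀ ω ∈ (nthRoots (m + 1) (1 : ℂ)).toFinset, ∀ᶠ lam : ℝ in 𝓝[>] 0,
      ∀ c ∈ closedBall p (rc / 2), 0 < (ω⁻¹ * e c).re →
      |(ω⁻¹ * e c).im| * (4 * ((m : ℕ) + 1)) ≤ (ω⁻¹ * e c).re →
      ‖e c ^ (m + 1) / (lam ^ (m + 1) : ℝ) - (m : ℕ)‖ ≤ 1 / 10 →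
      ∃ N : ℕ, (∀ j < N, D.Qt S (lam ^ (m + 1)) ((D.ft S (lam ^ (m + 1)))^[j] c) ≠ 0) ∧
        (D.ft S (lam ^ (m + 1)))^[N] c ∈ D.Sink R0 r := by
    intro ω hω'
    have hω : ω ^ (m + 1) = 1 := by
      rw [Multiset.mem_toFinset, mem_nthRoots (Nat.succ_pos m)] at hω'
      exact hω'
    have hωn : ‖ω‖ = 1 := by
      have h1 : ‖ω‖ ^ (m + 1) = 1 := by rw [← norm_pow, hω, norm_one]
      exact (pow_eq_one_iff_of_nonneg (norm_nonneg _) (by omega)).1 h1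
    have hω0 : ω ≠ 0 := by
      rintro rfl
      rw [norm_zero] at hωn
      exact zero_ne_one hωn
    set w0 : ℂ := ω * s with hw0
    have hw0n : ‖w0‖ = s := by
      rw [hw0, norm_mul, hωn, one_mul, Complex.norm_real, Real.norm_eq_abs, abs_of_pos hs]
    have hw0t : w0 ∈ e.target := by
      apply htar
      rw [mem_closedBall_zero_iff, hw0n]
      exact (min_le_right _ _).trans (by linarith)
    set x0 := e.symm w0 with hx0
    have hx0s : x0 ∈ e.source := e.map_target hw0t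
    have hx0O : x0 ∈ O := hκ2 (by
      rw [mem_closedBall_zero_iff, hw0n]
      exact min_le_left _ _)
    have hex0 : e x0 = w0 := e.right_inv hw0t
    have hw0ne : w0 ≠ 0 := by
      rw [← norm_pos_iff, hw0n]; exact hs
    have hQx0 : D.Q.eval x0 ≠ 0 := by
      intro h
      have g1 := hC.mul x0 hx0s
      rw [h, zero_div, hex0] at g1
      exact (mul_ne_zero (pow_ne_zero _ hw0ne) (hC.ne x0 hx0s)) g1
    have hx0a : ∀ a ∈ D.zs, r a < ‖x0 - a‖ := by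
      have := hx0O.2
      simp only [mem_iInter] at this
      exact this
    have hx0a' : ∀ a ∈ D.zs, x0 - a ≠ 0 := by
      intro a ha h
      have h10 := hx0a a ha
      rw [h, norm_zero] at h10
      linarith [hr.r_pos a ha]
    have hWx : D.W p x0 = ((s ^ (m + 1) / (m + 1) : ℝ) : ℂ) := by
      have g1 := hC.pow x0 hx0s
      rw [hex0, hw0, ← hm, mul_pow, hω, one_mul] at g1
      have g2 : ((m + 1 : ℕ) : ℂ) ≠ 0 := Nat.cast_ne_zero.2 (by omega)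
      have g3 : D.W p x0 = (s : ℂ) ^ (m + 1) / ((m + 1 : ℕ) : ℂ) := by
        rw [g1]; field_simp
      rw [g3]
      push_cast
      rfl
    obtain ⟨ε3, hε3, hst⟩ := D.start_reach S hG hGi hp hNL hr hx0O.1 hx0a hQx0 hNL (D.R_ps hp)
      (ℓ0 := fun a => Complex.log ((x0 - a) / (p - a)))
      (fun a ha => by rw [Complex.exp_log (div_ne_zero (hx0a' a ha) (hpa a ha))])
      (δ := s ^ (m + 1) / (m + 1)) (by positivity) hWx
    have hlamt : Tendsto (fun lam : ℝ => lam ^ (m + 1)) (𝓝[>] 0) (𝓝[>] 0) := by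
      apply tendsto_nhdsWithin_of_tendsto_nhds_of_eventually_within
      · have h1 : Continuous (fun lam : ℝ => lam ^ (m + 1)) := by fun_prop
        have h2 := (h1.tendsto 0).mono_left (nhdsWithin_le_nhds (s := Ioi 0))
        rwa [zero_pow (by omega)] at h2
      · filter_upwards [self_mem_nhdsWithin] with x hx
        exact mem_Ioi.2 (pow_pos (mem_Ioi.1 hx) _)
    filter_upwards [hlamt.eventually hst, hpass s hs hsρ ω hω ε3 hε3] with lam ht1 ht2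
    intro c hc hcre hcim hc1
    obtain ⟨N1, k1, k2⟩ := ht2 c hc hcre hcim hc1
    obtain ⟨n, k3, k4⟩ := ht1 _ k2
    refine ⟨n + N1, ?_, ?_⟩
    · intro j hj
      rcases lt_or_ge j N1 with h | h
      · exact k1 j h
      · obtain ⟨i, rfl⟩ := Nat.exists_eq_add_of_le h
        rw [Nat.add_comm N1 i, Function.iterate_add_apply]
        exact k3 i (by omega)
    · rw [Function.iterate_add_apply]
      exact k4
  have hdir2 := (Filter.eventually_all_finset (nthRoots (m + 1) (1 : ℂ)).toFinset).2 hdir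
  -- the root of the parameter
  have hrt : Tendsto (fun t : ℝ => t ^ (((m + 1 : ℕ) : ℝ)⁻¹)) (𝓝[>] 0) (𝓝[>] 0) := by
    apply tendsto_nhdsWithin_of_tendsto_nhds_of_eventually_within
    · have h1 : ContinuousAt (fun t : ℝ => t ^ (((m + 1 : ℕ) : ℝ)⁻¹)) 0 :=
        Real.continuousAt_rpow_const _ _ (Or.inr (by positivity))
      have h2 := h1.tendsto.mono_left (nhdsWithin_le_nhds (s := Ioi 0))
      rwa [Real.zero_rpow (by positivity)] at h2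
    · filter_upwards [self_mem_nhdsWithin] with x hx
      exact Real.rpow_pos_of_pos hx _
  have hjump3 : m ≠ 1 → ∀ᶠ t : ℝ in 𝓝[>] 0, ∀ z,
      ‖z - (p + D.R.eval p / S.eval p)‖ < ε2 →
      ∃ N : ℕ, (∀ j < N, D.Qt S t ((D.ft S t)^[j] z) ≠ 0) ∧ (D.ft S t)^[N] z ∈ D.Sink R0 r := hjump2
  have hjump4 : ∀ᶠ t : ℝ in 𝓝[>] 0, m ≠ 1 → ∀ z,
      ‖z - (p + D.R.eval p / S.eval p)‖ < ε2 →
      ∃ N : ℕ, (∀ j < N, D.Qt S t ((D.ft S t)^[j] z) ≠ 0) ∧ (D.ft S t)^[N] z ∈ D.Sink R0 r := by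
    by_cases h1 : m = 1
    · exact Filter.Eventually.of_forall fun t h => absurd h1 h
    · filter_upwards [hjump3 h1] with t ht _
      exact ht
  refine ⟨min ρc (rc / 2), lt_min hρc (by positivity), ?_⟩
  filter_upwards [hrt.eventually hdir2, hloc, hjump4, self_mem_nhdsWithin] with t g1 g2 g3 g4
  have ht : 0 < t := g4
  intro c hc hcrit
  have hc1 : c ∈ closedBall p ρc := closedBall_subset_closedBall (min_le_left _ _) hc
  have hc2 : c ∈ closedBall p (rc / 2) := closedBall_subset_closedBall (min_le_right _ _) hc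
  rcases g2 c hc1 hcrit with k1 | ⟨k0, k1, k2⟩
  · have hlt : (t ^ (((m + 1 : ℕ) : ℝ)⁻¹)) ^ (m + 1) = t :=
      Real.rpow_inv_natCast_pow ht.le (by omega)
    set lam := t ^ (((m + 1 : ℕ) : ℝ)⁻¹) with hlam
    have hlamp : 0 < lam := Real.rpow_pos_of_pos ht _
    rw [hlt] at g1
    have hlC : (lam : ℂ) ^ (m + 1) = t := by
      rw [← Complex.ofReal_pow, hlt]
    obtain ⟨ω, hω, k2, k3⟩ := hsel (e c / lam) (by
      rw [div_pow, hlC]
      exact k1)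
    have k4 : ω⁻¹ * (e c / lam) = (ω⁻¹ * e c) / lam := by ring
    rw [k4, Complex.div_ofReal_re] at k2
    rw [k4, Complex.div_ofReal_re, Complex.div_ofReal_im, abs_div, abs_of_pos hlamp,
      div_mul_eq_mul_div] at k3
    refine g1 ω ?_ c hc2 ((div_pos_iff_of_pos_right hlamp).1 k2)
      ((div_le_div_iff_of_pos_right hlamp).1 k3) (k1.trans hε110)
    rw [Multiset.mem_toFinset, mem_nthRoots (Nat.succ_pos m)]
    exact hω
  · obtain ⟨n, k3, k4⟩ := g3 k0 _ k2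
    refine ⟨n + 1, ?_, ?_⟩
    · intro j hj
      rcases Nat.eq_zero_or_pos j with h | h
      · rw [h]
        exact k1
      · obtain ⟨i, rfl⟩ : ∃ i, j = i + 1 := ⟨j - 1, by omega⟩
        rw [Function.iterate_succ_apply]
        exact k3 i (by omega)
    · rw [Function.iterate_succ_apply]
      exact k4

/-- the points to which critical points near multiple poles jump -/
noncomputable def jp (S : ℂ[X]) (p : ℂ) : ℂ := p + D.R.eval p / S.eval p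

/-- the generic conditions on the jump points -/
def JOk (S : ℂ[X]) : Prop := ∀ p ∈ D.ps, D.mu p ≠ 1 → S.eval p ≠ 0 ∧
  D.R.eval (D.jp S p) ≠ 0 ∧ D.Q.eval (D.jp S p) ≠ 0 ∧ D.NoLinkFrom (D.jp S p)

/-- radii adapted to the jump points -/
def RadJ (S : ℂ[X]) (R0 : ℝ) (r : ℂ → ℝ) : Prop := ∀ p ∈ D.ps, D.mu p ≠ 1 →
  ‖D.jp S p‖ < R0 ∧ ∀ a ∈ D.zs, r a < ‖D.jp S p - a‖

theorem exists_radii' {S : ℂ[X]} (hG : ∀ a ∈ D.zs, (D.ρ a).re ≠ 0) (hGi : D.rinf.re ≠ 0)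
    (hJ : D.JOk S) : ∃ R0 r, D.Radii R0 r ∧ D.RadJ S R0 r := by
  classical
  obtain ⟨R0, r, h1, h2⟩ := D.exists_radii hG hGi ((D.ps.filter (fun p => D.mu p ≠ 1)).image
    (D.jp S)) (by
      intro x hx
      obtain ⟨p, hp, rfl⟩ := Finset.mem_image.1 hx
      obtain ⟨hp1, hp2⟩ := Finset.mem_filter.1 hp
      intro h
      exact (hJ p hp1 hp2).2.1 (D.mem_zs.1 h))
  exact ⟨R0, r, h1, fun p hp hp2 => h2 _ (Finset.mem_image_of_mem _ (Finset.mem_filter.2 ⟨hp, hp2⟩))⟩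

/-- all the critical points reach a sink -/
theorem crit_reach {S : ℂ[X]} (hS : S.natDegree ≤ D.Q.natDegree)
    (hG : ∀ a ∈ D.zs, (D.ρ a).re ≠ 0) (hGi : D.rinf.re ≠ 0)
    (hNL : ∀ p ∈ D.ps, D.NoLinkFrom p) (hJ : D.JOk S) {R0 : ℝ} {r : ℂ → ℝ} (hr : D.Radii R0 r)
    (hrJ : D.RadJ S R0 r) :
    ∀ᶠ t : ℝ in 𝓝[>] 0, ∀ c, D.crit S t c = 0 →
      ∃ N : ℕ, (∀ j < N, D.Qt S t ((D.ft S t)^[j] c) ≠ 0) ∧ (D.ft S t)^[N] c ∈ D.Sink R0 r := by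
  classical
  have h1 : ∀ p : ℂ, ∃ ρ0 : ℝ, 0 < ρ0 ∧ (p ∈ D.ps → ∀ᶠ t : ℝ in 𝓝[>] 0, ∀ c ∈ closedBall p ρ0,
      D.crit S t c = 0 → ∃ N : ℕ, (∀ j < N, D.Qt S t ((D.ft S t)^[j] c) ≠ 0) ∧
        (D.ft S t)^[N] c ∈ D.Sink R0 r) := by
    intro p
    by_cases hp : p ∈ D.ps
    · obtain ⟨ρ0, g1, g2⟩ := D.pole_reach S hG hGi hr hp (hNL p hp) (fun h => (hJ p hp h).1)
        (fun h => ⟨_, rfl, (hJ p hp h).2.1, (hJ p hp h).2.2.1, (hJ p hp h).2.2.2,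
          (hrJ p hp h).1, (hrJ p hp h).2⟩)
      exact ⟨ρ0, g1, fun _ => g2⟩
    · exact ⟨1, one_pos, fun h => absurd h hp⟩
  choose ρ0 hρ0 hρ02 using h1
  have h2 : ∀ p ∈ D.ps, ∀ᶠ ε : ℝ in 𝓝[>] 0, ε ≤ ρ0 p := fun p _ => by
    filter_upwards [Ioo_mem_nhdsGT (hρ0 p)] with ε hε
    exact hε.2.le
  obtain ⟨ε, hε1, hε⟩ := (((Filter.eventually_all_finset D.ps).2 h2).and self_mem_nhdsWithin).exists
  have h3 := (Filter.eventually_all_finset D.ps).2 hρ02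
  filter_upwards [D.crit_near hS hε, h3] with t g1 g2
  intro c hc
  obtain ⟨p, hp, hp2⟩ := g1 c hc
  refine g2 p hp c ?_ hc
  rw [mem_closedBall, dist_eq_norm]
  exact hp2.le.trans (hε1 p hp)

end Dat

end Pool.Agent.Helper65.EV
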