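import Mathlib
import Pool.Agent.Helper65.EV.CritReach

/-! The sinks of the perturbed Euler steps. -/

set_option autoImplicit false

open Topology Filter Metric Set MeasureTheory Polynomial
open scoped Real NNReal

namespace Pool.Agent.Helper65.EV

open Pool.Agent.Helper65.EU

theorem contract {w : ℂ} {c M t : ℝ} (ht : 0 < t) (hw : w.re ≤ -c) (hM : ‖w‖ ≤ M)
    (htM : M ^ 2 * t ≤ c) (htc : c * t ≤ 1) : ‖1 + t * w‖ ≤ 1 - c * t / 2 := by
  have h1 : ‖1 + (t : ℂ) * w‖ ^ 2 = 1 + 2 * t * w.re + t ^ 2 * ‖w‖ ^ 2 := by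
    rw [← Complex.normSq_eq_norm_sq, ← Complex.normSq_eq_norm_sq, Complex.normSq_apply,
      Complex.normSq_apply]
    simp only [Complex.add_re, Complex.one_re, Complex.re_ofReal_mul, Complex.add_im,
      Complex.one_im, Complex.im_ofReal_mul]
    ring
  have h2 : ‖w‖ ^ 2 ≤ M ^ 2 := pow_le_pow_left₀ (norm_nonneg _) hM 2
  have h3 : ‖1 + (t : ℂ) * w‖ ^ 2 ≤ (1 - c * t / 2) ^ 2 := by
    rw [h1]
    have e1 : t ^ 2 * ‖w‖ ^ 2 ≤ t ^ 2 * M ^ 2 := mul_le_mul_of_nonneg_left h2 (by positivity)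
    have e2 : t ^ 2 * M ^ 2 ≤ t * c := by nlinarith
    have e3 : 2 * t * w.re ≤ -(2 * t * c) := by nlinarith
    nlinarith [sq_nonneg (c * t / 2)]
  have h4 : 0 ≤ 1 - c * t / 2 := by linarith
  exact (pow_le_pow_iff_left₀ (norm_nonneg _) h4 two_ne_zero).1 h3

namespace Dat

variable (D : Dat)

/-- the finite sinks -/
theorem sink_fin (S : ℂ[X]) {R0 : ℝ} {r : ℂ → ℝ} (hr : D.Radii R0 r) {a : ℂ} (ha : a ∈ D.zs)
    (hre : (D.ρ a).re < 0) : ∃ c : ℝ, 0 < c ∧ ∀ᶠ t : ℝ in 𝓝[>] 0, c * t < 1 ∧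
      ∀ z, ‖z - a‖ ≤ r a → D.Qt S t z ≠ 0 ∧ ‖D.ft S t z - a‖ ≤ (1 - c * t) * ‖z - a‖ := by
  obtain ⟨Ra, hRa, hRa2, -⟩ := D.exists_cof ha
  have hr0 := hr.r_pos a ha
  have hQ : ∀ z ∈ closedBall a (r a), D.Q.eval z ≠ 0 := by
    intro z hz
    by_cases hza : z = a
    · rw [hza]; exact D.Q_zs ha
    · exact (hr.near a ha z hza (by rw [← dist_eq_norm]; exact mem_closedBall.1 hz)).1
  have hneg : ∀ z ∈ closedBall a (r a), (Ra.eval z / D.Q.eval z).re < 0 := by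
    intro z hz
    by_cases hza : z = a
    · rw [hza, hRa2]
      have h1 : (derivative D.R).eval a / D.Q.eval a = (D.ρ a)⁻¹ := by
        unfold ρ; rw [inv_div]
      rw [h1, Complex.inv_re]
      exact div_neg_of_neg_of_pos hre (Complex.normSq_pos.2 (D.ρ_ne ha))
    · have h1 := (hr.near a ha z hza (by rw [← dist_eq_norm]; exact mem_closedBall.1 hz)).2
      have h2 : (starRingEnd ℂ) (z - a) * D.V0 z =
          ((‖z - a‖ ^ 2 * ‖D.Q.eval z‖ ^ 2 : ℝ) : ℂ) * (Ra.eval z / D.Q.eval z) := by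
        have := hQ z hz
        unfold V0
        rw [hRa z]
        push_cast
        rw [← Complex.ofReal_pow, ← Complex.ofReal_pow, ← Complex.normSq_eq_norm_sq,
          ← Complex.normSq_eq_norm_sq, ← Complex.mul_conj, ← Complex.mul_conj]
        field_simp
      rw [h2, Complex.re_ofReal_mul] at h1
      have h3 : 0 < ‖z - a‖ ^ 2 * ‖D.Q.eval z‖ ^ 2 := by
        have := norm_pos_iff.2 (sub_ne_zero.2 hza)
        have := norm_pos_iff.2 (hQ z hz)
        positivity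
      by_contra hcon
      push Not at hcon
      have h4 : 0 ≤ ‖z - a‖ ^ 2 * ‖D.Q.eval z‖ ^ 2 * (Ra.eval z / D.Q.eval z).re :=
        mul_nonneg h3.le hcon
      nlinarith
  have hcomp := isCompact_closedBall a (r a)
  have hcont : ContinuousOn (fun z => (Ra.eval z / D.Q.eval z).re) (closedBall a (r a)) := by
    apply Complex.continuous_re.comp_continuousOn
    exact Ra.continuous.continuousOn.div D.Q.continuous.continuousOn hQ
  obtain ⟨z0, hz0, hmax⟩ := hcomp.exists_isMaxOn ⟨a, mem_closedBall_self hr0.le⟩ hcont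
  set c := -(Ra.eval z0 / D.Q.eval z0).re with hc
  have hc0 : 0 < c := by
    have := hneg z0 hz0
    linarith
  have hle : ∀ z ∈ closedBall a (r a), (Ra.eval z / D.Q.eval z).re ≤ -c := by
    intro z hz
    have : (Ra.eval z / D.Q.eval z).re ≤ (Ra.eval z0 / D.Q.eval z0).re := hmax hz
    linarith
  obtain ⟨B1, hB1⟩ := hcomp.exists_bound_of_continuousOn Ra.continuous.continuousOn
  obtain ⟨B2, hB2⟩ := hcomp.exists_bound_of_continuousOn S.continuous.continuousOn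
  obtain ⟨B3, hB3⟩ := hcomp.exists_bound_of_continuousOn
    (f := fun z => (D.Q.eval z)⁻¹) (D.Q.continuous.continuousOn.inv₀ hQ)
  set B := max (max B1 B2) (max B3 1) with hB
  have hB0 : 0 < B := lt_of_lt_of_le one_pos ((le_max_right _ _).trans (le_max_right _ _))
  have hBR : ∀ z ∈ closedBall a (r a), ‖Ra.eval z‖ ≤ B := fun z hz =>
    (hB1 z hz).trans ((le_max_left _ _).trans (le_max_left _ _))
  have hBS : ∀ z ∈ closedBall a (r a), ‖S.eval z‖ ≤ B := fun z hz =>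
    (hB2 z hz).trans ((le_max_right _ _).trans (le_max_left _ _))
  have hBQ : ∀ z ∈ closedBall a (r a), ‖(D.Q.eval z)⁻¹‖ ≤ B := fun z hz =>
    (hB3 z hz).trans ((le_max_left _ _).trans (le_max_right _ _))
  refine ⟨c / 4, by positivity, ?_⟩
  have ht0' : Tendsto (fun t : ℝ => t) (𝓝[>] 0) (𝓝 0) := nhdsWithin_le_nhds
  have hsm : ∀ A ε : ℝ, 0 < ε → ∀ᶠ t : ℝ in 𝓝[>] 0, A * t < ε := by
    intro A ε hε
    have := ht0'.const_mul A
    rw [mul_zero] at this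
    exact this.eventually (gt_mem_nhds hε)
  filter_upwards [hsm ((B * B) ^ 2) c hc0, hsm c 1 one_pos, hsm (B * B) (1 / 2) (by norm_num),
    hsm (2 * B ^ 4) (c / 4) (by positivity), self_mem_nhdsWithin] with t g1 g2 g3 g4 g5
  have ht : 0 < t := g5
  refine ⟨by linarith, fun z hz => ?_⟩
  have hz' : z ∈ closedBall a (r a) := by rw [mem_closedBall, dist_eq_norm]; exact hz
  have hQz := hQ z hz'
  have hQn : 0 < ‖D.Q.eval z‖ := norm_pos_iff.2 hQz
  have hBQz := hBQ z hz'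
  rw [norm_inv] at hBQz
  have hQB : 1 ≤ B * ‖D.Q.eval z‖ := by
    have := mul_le_mul_of_nonneg_right hBQz hQn.le
    rwa [inv_mul_cancel₀ hQn.ne'] at this
  have htS : ‖(t : ℂ) * S.eval z‖ ≤ t * B := by
    rw [norm_mul, Complex.norm_real, Real.norm_eq_abs, abs_of_pos ht]
    exact mul_le_mul_of_nonneg_left (hBS z hz') ht.le
  have htS2 : t * B ≤ ‖D.Q.eval z‖ / 2 := by
    have : t * B * 1 ≤ t * B * (B * ‖D.Q.eval z‖) := mul_le_mul_of_nonneg_left hQB (by positivity)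
    nlinarith
  have hQt : ‖D.Q.eval z‖ / 2 ≤ ‖D.Qt S t z‖ := by
    unfold Qt
    have := norm_sub_le (D.Q.eval z + t * S.eval z) (t * S.eval z)
    rw [add_sub_cancel_right] at this
    linarith
  have hQt0 : D.Qt S t z ≠ 0 := norm_pos_iff.1 (lt_of_lt_of_le (by positivity) hQt)
  refine ⟨hQt0, ?_⟩
  have h1 : D.ft S t z - a = (1 + t * (Ra.eval z / D.Q.eval z) -
      t ^ 2 * (Ra.eval z * S.eval z / (D.Q.eval z * D.Qt S t z))) * (z - a) := by
    unfold ft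
    rw [hRa z]
    have h2 : D.Qt S t z = D.Q.eval z + t * S.eval z := rfl
    field_simp
    rw [h2]
    ring
  rw [h1, norm_mul]
  apply mul_le_mul_of_nonneg_right _ (norm_nonneg _)
  have h2 : ‖1 + (t : ℂ) * (Ra.eval z / D.Q.eval z)‖ ≤ 1 - c * t / 2 := by
    apply contract ht (hle z hz') (M := B * B) _ g1.le g2.le
    rw [norm_div, div_eq_mul_inv]
    exact mul_le_mul (hBR z hz') hBQz (inv_nonneg.2 (norm_nonneg _)) hB0.le
  have h3 : ‖(t : ℂ) ^ 2 * (Ra.eval z * S.eval z / (D.Q.eval z * D.Qt S t z))‖ ≤ t * (c / 4) := by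
    rw [norm_mul, norm_pow, Complex.norm_real, Real.norm_eq_abs, abs_of_pos ht, norm_div, norm_mul,
      norm_mul]
    have k1 : ‖Ra.eval z‖ * ‖S.eval z‖ / (‖D.Q.eval z‖ * ‖D.Qt S t z‖) ≤
        B * B / (‖D.Q.eval z‖ * (‖D.Q.eval z‖ / 2)) := by
      apply div_le_div₀ (by positivity) _ (by positivity)
      · exact mul_le_mul_of_nonneg_left hQt hQn.le
      · exact mul_le_mul (hBR z hz') (hBS z hz') (norm_nonneg _) hB0.le
    have k2 : B * B / (‖D.Q.eval z‖ * (‖D.Q.eval z‖ / 2)) ≤ 2 * B ^ 4 := by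
      rw [div_le_iff₀ (by positivity)]
      have k3 : 1 ≤ (B * ‖D.Q.eval z‖) ^ 2 := one_le_pow₀ hQB
      calc B * B = B * B * 1 := by ring
        _ ≤ B * B * (B * ‖D.Q.eval z‖) ^ 2 := mul_le_mul_of_nonneg_left k3 (by positivity)
        _ = _ := by ring
    calc t ^ 2 * (‖Ra.eval z‖ * ‖S.eval z‖ / (‖D.Q.eval z‖ * ‖D.Qt S t z‖)) ≤
        t ^ 2 * (2 * B ^ 4) := mul_le_mul_of_nonneg_left (k1.trans k2) (by positivity)
      _ = t * (2 * B ^ 4 * t) := by ring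
      _ ≤ t * (c / 4) := mul_le_mul_of_nonneg_left g4.le ht.le
  calc ‖1 + (t : ℂ) * (Ra.eval z / D.Q.eval z) -
      t ^ 2 * (Ra.eval z * S.eval z / (D.Q.eval z * D.Qt S t z))‖ ≤
      ‖1 + (t : ℂ) * (Ra.eval z / D.Q.eval z)‖ +
      ‖(t : ℂ) ^ 2 * (Ra.eval z * S.eval z / (D.Q.eval z * D.Qt S t z))‖ := norm_sub_le _ _
    _ ≤ (1 - c * t / 2) + t * (c / 4) := add_le_add h2 h3
    _ = 1 - c / 4 * t := by ring

/-- infinity as a sink -/
theorem sink_inf {S : ℂ[X]} (hS : S.natDegree ≤ D.Q.natDegree) {R0 : ℝ} {r : ℂ → ℝ}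
    (hr : D.Radii R0 r) (hre : 0 < D.rinf.re) : ∃ c : ℝ, 0 < c ∧ ∀ᶠ t : ℝ in 𝓝[>] 0,
      ∀ z, R0 ≤ ‖z‖ → D.Qt S t z ≠ 0 ∧ (1 + c * t) * ‖z‖ ≤ ‖D.ft S t z‖ := by
  have hR0 := hr.R0_pos
  have hQ : ∀ z, R0 ≤ ‖z‖ → D.Q.eval z ≠ 0 := fun z hz => (hr.far z hz).1
  have hpos : ∀ z, R0 ≤ ‖z‖ → 0 < (D.R.eval z / (z * D.Q.eval z)).re := by
    intro z hz
    obtain ⟨h1, h2, h3⟩ := hr.far z hz
    have hz0 : z ≠ 0 := norm_pos_iff.1 (hR0.trans_le hz)
    have h4 : (starRingEnd ℂ) z * D.V0 z =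
        ((‖z‖ ^ 2 * ‖D.Q.eval z‖ ^ 2 : ℝ) : ℂ) * (D.R.eval z / (z * D.Q.eval z)) := by
      unfold V0
      push_cast
      rw [← Complex.ofReal_pow, ← Complex.ofReal_pow, ← Complex.normSq_eq_norm_sq,
        ← Complex.normSq_eq_norm_sq, ← Complex.mul_conj, ← Complex.mul_conj]
      field_simp
    rw [h4, Complex.re_ofReal_mul] at h3
    have h5 : 0 < ‖z‖ ^ 2 * ‖D.Q.eval z‖ ^ 2 := by
      have := norm_pos_iff.2 hz0
      have := norm_pos_iff.2 h1
      positivity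
    have h6 := (mul_pos_iff_of_pos_left hre).1 h3
    exact (mul_pos_iff_of_pos_left h5).1 h6
  -- a lower bound
  have hlim : ∀ᶠ z in Bornology.cobounded ℂ, D.rinf.re / 2 < (D.R.eval z / (z * D.Q.eval z)).re :=
    (Complex.continuous_re.continuousAt.tendsto.comp D.tendsto_rinf).eventually
      (lt_mem_nhds (by linarith))
  obtain ⟨R2, -, hR2⟩ := (hasBasis_cobounded_norm (E := ℂ)).eventually_iff.1 hlim
  obtain ⟨c, hc0, hc⟩ : ∃ c : ℝ, 0 < c ∧ ∀ z, R0 ≤ ‖z‖ → c ≤ (D.R.eval z / (z * D.Q.eval z)).re := by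
    set A : Set ℂ := closedBall 0 (max R2 R0) ∩ {z | R0 ≤ ‖z‖} with hA
    have hAc : IsCompact A :=
      (isCompact_closedBall 0 _).inter_right (isClosed_le continuous_const continuous_norm)
    have hAne : A.Nonempty := by
      refine ⟨(R0 : ℂ), ?_, ?_⟩
      · rw [mem_closedBall_zero_iff, Complex.norm_real, Real.norm_eq_abs, abs_of_pos hR0]
        exact le_max_right _ _
      · show R0 ≤ ‖(R0 : ℂ)‖
        rw [Complex.norm_real, Real.norm_eq_abs, abs_of_pos hR0]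
    have hcont : ContinuousOn (fun z => (D.R.eval z / (z * D.Q.eval z)).re) A := by
      apply Complex.continuous_re.comp_continuousOn
      apply D.R.continuous.continuousOn.div (continuous_id.mul D.Q.continuous).continuousOn
      intro z hz
      exact mul_ne_zero (norm_pos_iff.1 (hR0.trans_le hz.2)) (hQ z hz.2)
    obtain ⟨z0, hz0, hmin⟩ := hAc.exists_isMinOn hAne hcont
    refine ⟨min (D.rinf.re / 2) (D.R.eval z0 / (z0 * D.Q.eval z0)).re,
      lt_min (by linarith) (hpos z0 hz0.2), fun z hz => ?_⟩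
    rcases le_or_gt ‖z‖ (max R2 R0) with h | h
    · exact (min_le_right _ _).trans (hmin ⟨by rw [mem_closedBall_zero_iff]; exact h, hz⟩)
    · have := hR2 (show z ∈ {x : ℂ | R2 ≤ ‖x‖} from (le_max_left _ _).trans h.le)
      exact (min_le_left _ _).trans this.le
  -- bounds
  obtain ⟨ε, hε, hε2⟩ : ∃ ε : ℝ, 0 < ε ∧ ∀ z, R0 ≤ ‖z‖ → ∀ p ∈ D.ps, ε ≤ ‖z - p‖ := by
    have h : ∀ p ∈ D.ps, ∀ᶠ ε : ℝ in 𝓝[>] 0, ε ≤ R0 - ‖p‖ := fun p hp => by
      filter_upwards [Ioo_mem_nhdsGT (show 0 < R0 - ‖p‖ by linarith [hr.poles p hp])] with ε hε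
      exact hε.2.le
    obtain ⟨ε, h1, h2⟩ := (((Filter.eventually_all_finset D.ps).2 h).and self_mem_nhdsWithin).exists
    refine ⟨ε, h2, fun z hz p hp => ?_⟩
    have := norm_sub_norm_le z p
    linarith [h1 p hp]
  obtain ⟨κ, hκ, hκ2⟩ := D.Q_lower hε
  obtain ⟨C1, hC1, hC12⟩ := poly_upper S hS
  obtain ⟨C2, hC2, hC22⟩ := poly_upper D.R (le_of_eq D.hd)
  have hSQ : ∀ z, R0 ≤ ‖z‖ → ‖S.eval z‖ ≤ C1 / κ * ‖D.Q.eval z‖ := by
    intro z hz
    have h1 := hκ2 z (hε2 z hz)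
    calc ‖S.eval z‖ ≤ C1 * (1 + ‖z‖) ^ D.Q.natDegree := hC12 z
      _ = C1 / κ * (κ * (1 + ‖z‖) ^ D.Q.natDegree) := by field_simp
      _ ≤ _ := mul_le_mul_of_nonneg_left h1 (by positivity)
  set M := C2 / κ * (1 / R0 + 1) with hM
  have hg : ∀ z, R0 ≤ ‖z‖ → ‖D.R.eval z / (z * D.Q.eval z)‖ ≤ M := by
    intro z hz
    have h1 := hκ2 z (hε2 z hz)
    have hz0 : 0 < ‖z‖ := hR0.trans_le hz
    have hQz : 0 < ‖D.Q.eval z‖ := norm_pos_iff.2 (hQ z hz)
    rw [norm_div, norm_mul, div_le_iff₀ (by positivity)]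
    have h2 : 1 + ‖z‖ ≤ (1 / R0 + 1) * ‖z‖ := by
      have : 1 ≤ 1 / R0 * ‖z‖ := by
        rw [one_div, ← div_eq_inv_mul, one_le_div hR0]
        exact hz
      linarith
    calc ‖D.R.eval z‖ ≤ C2 * (1 + ‖z‖) ^ (D.Q.natDegree + 1) := hC22 z
      _ = C2 / κ * (1 + ‖z‖) * (κ * (1 + ‖z‖) ^ D.Q.natDegree) := by
        field_simp
        ring
      _ ≤ C2 / κ * ((1 / R0 + 1) * ‖z‖) * ‖D.Q.eval z‖ := by
        apply mul_le_mul _ h1 (by positivity) (by positivity)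
        exact mul_le_mul_of_nonneg_left h2 (by positivity)
      _ = _ := by rw [hM]; ring
  have hM0 : 0 < M := by positivity
  refine ⟨c / 2, by positivity, ?_⟩
  have ht0' : Tendsto (fun t : ℝ => t) (𝓝[>] 0) (𝓝 0) := nhdsWithin_le_nhds
  have hsm : ∀ A ε : ℝ, 0 < ε → ∀ᶠ t : ℝ in 𝓝[>] 0, A * t < ε := by
    intro A ε hε
    have := ht0'.const_mul A
    rw [mul_zero] at this
    exact this.eventually (gt_mem_nhds hε)
  filter_upwards [hsm (C1 / κ) (1 / 2) (by norm_num), hsm (M * (2 * (C1 / κ))) (c / 2)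
    (by positivity), self_mem_nhdsWithin] with t g1 g2 g3
  have ht : 0 < t := g3
  intro z hz
  have hz0 : z ≠ 0 := norm_pos_iff.1 (hR0.trans_le hz)
  have hQz := hQ z hz
  have hQn : 0 < ‖D.Q.eval z‖ := norm_pos_iff.2 hQz
  have hCκ : 0 < C1 / κ := by positivity
  have htS : ‖(t : ℂ) * S.eval z‖ ≤ ‖D.Q.eval z‖ / 2 := by
    rw [norm_mul, Complex.norm_real, Real.norm_eq_abs, abs_of_pos ht]
    have h1 := mul_le_mul_of_nonneg_left (hSQ z hz) ht.le
    have h2 : C1 / κ * t * ‖D.Q.eval z‖ ≤ 1 / 2 * ‖D.Q.eval z‖ :=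
      mul_le_mul_of_nonneg_right g1.le hQn.le
    linarith
  have hQt : ‖D.Q.eval z‖ / 2 ≤ ‖D.Qt S t z‖ := by
    unfold Qt
    have := norm_sub_le (D.Q.eval z + t * S.eval z) (t * S.eval z)
    rw [add_sub_cancel_right] at this
    linarith
  have hQt0 : D.Qt S t z ≠ 0 := norm_pos_iff.1 (lt_of_lt_of_le (by positivity) hQt)
  refine ⟨hQt0, ?_⟩
  set g := D.R.eval z / (z * D.Q.eval z) with hgd
  have h1 : D.ft S t z = (1 + t * (g - g * (t * S.eval z / D.Qt S t z))) * z := by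
    unfold ft
    rw [hgd]
    have h2 : D.Qt S t z = D.Q.eval z + t * S.eval z := rfl
    field_simp
    rw [h2]
    ring
  have h2 : ‖g * (t * S.eval z / D.Qt S t z)‖ ≤ c / 2 := by
    rw [norm_mul]
    have k1 : ‖(t : ℂ) * S.eval z / D.Qt S t z‖ ≤ 2 * (C1 / κ) * t := by
      rw [norm_div, div_le_iff₀ (by positivity), norm_mul, Complex.norm_real, Real.norm_eq_abs,
        abs_of_pos ht]
      calc t * ‖S.eval z‖ ≤ t * (C1 / κ * ‖D.Q.eval z‖) :=
          mul_le_mul_of_nonneg_left (hSQ z hz) ht.le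
        _ = 2 * (C1 / κ) * t * (‖D.Q.eval z‖ / 2) := by ring
        _ ≤ _ := mul_le_mul_of_nonneg_left hQt (by positivity)
    calc ‖g‖ * ‖(t : ℂ) * S.eval z / D.Qt S t z‖ ≤ M * (2 * (C1 / κ) * t) :=
        mul_le_mul (hg z hz) k1 (norm_nonneg _) hM0.le
      _ = M * (2 * (C1 / κ)) * t := by ring
      _ ≤ c / 2 := g2.le
  rw [h1, norm_mul]
  apply mul_le_mul_of_nonneg_right _ (norm_nonneg _)
  have h3 := Complex.re_le_norm (1 + (t : ℂ) * (g - g * (t * S.eval z / D.Qt S t z)))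
  rw [Complex.add_re, Complex.one_re, Complex.re_ofReal_mul, Complex.sub_re] at h3
  have h4 := (abs_le.1 ((Complex.abs_re_le_norm (g * (t * S.eval z / D.Qt S t z))).trans h2)).2
  have h5 := hc z hz
  have h6 : t * (c / 2) ≤ t * (g.re - (g * (t * S.eval z / D.Qt S t z)).re) :=
    mul_le_mul_of_nonneg_left (by linarith) ht.le
  linarith

end Dat

end Pool.Agent.Helper65.EV
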