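import Mathlib
import Pool.Agent.Helper65.EV.Sinks
import Pool.Agent.Helper65.EU.Defs

/-! From the plane to the sphere. -/

set_option autoImplicit false

open Topology Filter Metric Set MeasureTheory Polynomial
open scoped Real NNReal OnePoint

namespace Pool.Agent.Helper65.EV

open Pool.Agent.Helper65.EU

open Pool.Agent.H790R3.RB

namespace Dat

variable (D : Dat)

/-- the perturbed denominator as a polynomial -/
noncomputable def QP (S : ℂ[X]) (t : ℝ) : ℂ[X] := D.Q + Polynomial.C (t : ℂ) * S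

/-- the perturbed numerator as a polynomial -/
noncomputable def PP (S : ℂ[X]) (t : ℝ) : ℂ[X] :=
  Polynomial.X * D.QP S t + Polynomial.C (t : ℂ) * D.R

theorem QP_eval (S : ℂ[X]) (t : ℝ) (z : ℂ) : (D.QP S t).eval z = D.Qt S t z := by
  unfold QP Qt
  simp

theorem PP_eval (S : ℂ[X]) (t : ℝ) (z : ℂ) :
    (D.PP S t).eval z = z * D.Qt S t z + t * D.R.eval z := by
  unfold PP
  simp [QP_eval]

theorem sphere {S : ℂ[X]} (hS : S.natDegree ≤ D.Q.natDegree) {t : ℝ} (ht : 0 < t)
    (h1 : D.Q.leadingCoeff + t * S.coeff D.Q.natDegree ≠ 0)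
    (h2 : D.Q.leadingCoeff + t * S.coeff D.Q.natDegree + t * D.R.leadingCoeff ≠ 0)
    (h3 : ∀ a ∈ D.zs, D.Qt S t a ≠ 0)
    (hcrit : ∀ c, D.crit S t c = 0 → ∃ N : ℕ, (∀ j < N, D.Qt S t ((D.ft S t)^[j] c) ≠ 0) ∧
      ((∃ a ∈ D.zs, (∀ j, D.Qt S t ((D.ft S t)^[j] ((D.ft S t)^[N] c)) ≠ 0) ∧
        (∃ ε : ℝ, 0 < ε ∧ ∀ w, ‖w - a‖ < ε → (∀ j, D.Qt S t ((D.ft S t)^[j] w) ≠ 0) ∧
          Tendsto (fun k : ℕ => (D.ft S t)^[k] w) atTop (𝓝 a)) ∧
        Tendsto (fun k : ℕ => (D.ft S t)^[k] ((D.ft S t)^[N] c)) atTop (𝓝 a)) ∨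
      ((∀ j, D.Qt S t ((D.ft S t)^[j] ((D.ft S t)^[N] c)) ≠ 0) ∧
        (∃ B : ℝ, ∀ w, B < ‖w‖ → (∀ j, D.Qt S t ((D.ft S t)^[j] w) ≠ 0) ∧
          Tendsto (fun k : ℕ => ‖(D.ft S t)^[k] w‖) atTop atTop) ∧
        Tendsto (fun k : ℕ => ‖(D.ft S t)^[k] ((D.ft S t)^[N] c)‖) atTop atTop))) :
    IsCoprime (D.PP S t) (D.QP S t) ∧
    max (D.PP S t).natDegree (D.QP S t).natDegree = D.Q.natDegree + 1 ∧
    ∃ f : OnePoint ℂ → OnePoint ℂ, Continuous f ∧
      (∀ z : ℂ, (D.QP S t).eval z ≠ 0 → f z = ((D.PP S t).eval z / (D.QP S t).eval z : ℂ)) ∧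
      HypFix f := by
  set n := D.Q.natDegree with hn
  have hn1 : 1 ≤ n := D.hn
  have htne : (t : ℂ) ≠ 0 := by exact_mod_cast ht.ne'
  have hcop : IsCoprime (D.PP S t) (D.QP S t) := by
    rw [isCoprime_iff_aeval_ne_zero_of_isAlgClosed ℂ ℂ]
    intro a
    by_contra hcon
    push Not at hcon
    rw [coe_aeval_eq_eval] at hcon
    obtain ⟨e1, e2⟩ := hcon
    have e2' : D.Qt S t a = 0 := by rw [← D.QP_eval]; exact e2
    have e1' : (D.PP S t).eval a = 0 := e1
    rw [D.PP_eval, e2', mul_zero, zero_add] at e1'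
    have e3 : D.R.eval a = 0 := (mul_eq_zero.1 e1').resolve_left htne
    exact h3 a (D.mem_zs.2 e3) e2'
  have hQd : (D.QP S t).natDegree ≤ n := by
    unfold QP
    apply natDegree_add_le_of_degree_le le_rfl
    exact (natDegree_C_mul_le _ _).trans hS
  have hQc : (D.QP S t).coeff n = D.Q.leadingCoeff + t * S.coeff n := by
    unfold QP
    rw [coeff_add, coeff_C_mul]
    rfl
  have hPc : (D.PP S t).coeff (n + 1) = D.Q.leadingCoeff + t * S.coeff n +
      t * D.R.leadingCoeff := by
    unfold PP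
    rw [coeff_add, coeff_C_mul, coeff_X_mul, hQc]
    congr 2
    unfold leadingCoeff
    rw [D.hd]
  have hPd : (D.PP S t).natDegree ≤ n + 1 := by
    unfold PP
    apply natDegree_add_le_of_degree_le
    · refine natDegree_mul_le.trans ?_
      rw [natDegree_X]
      omega
    · refine (natDegree_C_mul_le _ _).trans ?_
      rw [D.hd]
  have hPd' : (D.PP S t).natDegree = n + 1 := by
    apply le_antisymm hPd
    apply le_natDegree_of_ne_zero
    rw [hPc]
    exact h2
  have hmax : max (D.PP S t).natDegree (D.QP S t).natDegree = n + 1 := by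
    rw [hPd']
    exact max_eq_left (by omega)
  obtain ⟨x, hx, hx0, hx1, -⟩ := ((PQ SP) (n + 1) (by omega)).2 (D.PP S t) (D.QP S t) hcop hmax
  have hspec := ((PQ SP) (n + 1) (by omega)).1 x hx
  obtain ⟨-, -, hco, -, hval⟩ := hspec
  have hcont : Continuous (sp x) := (SP (n + 1) x (by omega) hx).1
  rw [hx0, hx1] at hval
  refine ⟨hcop, hmax, sp x, hcont, hval, ?_⟩
  have hinf : sp x ∞ = ∞ := by
    have e1 : Pool.Agent.H790R3.RB.hc (∞ : OnePoint ℂ) = (1, 0) := rfl
    unfold sp
    rw [e1, PQ.hF_inf, hx0, hx1]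
    unfold pr
    rw [if_pos]
    exact coeff_eq_zero_of_natDegree_lt (lt_of_le_of_lt hQd (Nat.lt_succ_self n))
  have hfin : ∀ z : ℂ, D.Qt S t z ≠ 0 → sp x (z : OnePoint ℂ) = (D.ft S t z : OnePoint ℂ) := by
    intro z hz
    rw [hval z (by rw [D.QP_eval]; exact hz)]
    congr 1
    rw [D.PP_eval, D.QP_eval]
    unfold ft
    field_simp
  have hiter : ∀ (w : ℂ) (k : ℕ), (∀ j < k, D.Qt S t ((D.ft S t)^[j] w) ≠ 0) →
      (sp x)^[k] (w : OnePoint ℂ) = ((D.ft S t)^[k] w : ℂ) := by
    intro w k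
    induction k with
    | zero => intro _; rfl
    | succ k ih =>
      intro hk
      rw [Function.iterate_succ_apply', Function.iterate_succ_apply',
        ih (fun j hj => hk j (by omega))]
      exact hfin _ (hk k (by omega))
  have hshift : ∀ (f : OnePoint ℂ → OnePoint ℂ) (c z : OnePoint ℂ) (N : ℕ),
      Tendsto (fun k => f^[k] (f^[N] c)) atTop (𝓝 z) → Tendsto (fun k => f^[k] c) atTop (𝓝 z) := by
    intro f c z N h
    rw [← tendsto_add_atTop_iff_nat N]
    apply h.congr
    intro k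
    rw [Function.iterate_add_apply]
  have hnorm : ∀ u : ℕ → ℂ, Tendsto (fun k => ‖u k‖) atTop atTop →
      Tendsto (fun k => (u k : OnePoint ℂ)) atTop (𝓝 ∞) := by
    intro u hu
    have h5 : Tendsto u atTop (Filter.coclosedCompact ℂ) := by
      rw [Filter.coclosedCompact_eq_cocompact, ← Metric.cobounded_eq_cocompact]
      exact tendsto_norm_atTop_iff_cobounded.1 hu
    exact OnePoint.tendsto_coe_infty.comp h5
  have hcritP : ∀ z : ℂ, (derivative (D.PP S t)).eval z * (D.QP S t).eval z -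
      (D.PP S t).eval z * (derivative (D.QP S t)).eval z = D.crit S t z := by
    intro z
    have e1 : derivative (D.QP S t) = derivative D.Q + Polynomial.C (t : ℂ) * derivative S := by
      unfold QP
      rw [derivative_add, derivative_C_mul]
    have e2 : derivative (D.PP S t) = D.QP S t + Polynomial.X * derivative (D.QP S t) +
        Polynomial.C (t : ℂ) * derivative D.R := by
      unfold PP
      rw [derivative_add, derivative_mul, derivative_X, one_mul, derivative_C_mul]
    rw [e2, D.PP_eval, eval_add, eval_add, eval_mul, eval_mul, eval_X, eval_C, e1, D.QP_eval]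
    unfold crit
    simp only [eval_add, eval_mul, eval_C]
    ring
  intro c hcr
  have hpr := (SP (n + 1) x (by omega) hx).2.2.2.1 c
  have hwr : wr x (Pool.Agent.H790R3.RB.hc c) = 0 := by
    by_contra h
    apply hcr
    have := INJL SP WR (n + 1) x _ (by omega) hx hpr.2 h
    rwa [hpr.1] at this
  induction c using OnePoint.rec with
  | infty =>
    exfalso
    have e1 : Pool.Agent.H790R3.RB.hc (∞ : OnePoint ℂ) = (1, 0) := rfl
    have e2 : x (1, Fin.last (n + 1)) = 0 := by
      have := hco 1 (Fin.last (n + 1))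
      rw [hx1, Fin.val_last] at this
      rw [← this]
      exact coeff_eq_zero_of_natDegree_lt (by omega)
    have e3 : x (0, Fin.last (n + 1)) ≠ 0 := by
      have := hco 0 (Fin.last (n + 1))
      rw [hx0, Fin.val_last] at this
      rw [← this, hPc]
      exact h2
    have e4 : x (1, ⟨n + 1 - 1, by omega⟩) ≠ 0 := by
      have := hco 1 ⟨n + 1 - 1, by omega⟩
      rw [hx1] at this
      rw [← this]
      simp only [Nat.add_sub_cancel]
      rw [hQc]
      exact h1
    rw [e1, wr_at_inf (by omega) x e2] at hwr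
    have e5 : ((n + 1 : ℕ) : ℂ) ≠ 0 := by exact_mod_cast (Nat.succ_ne_zero n)
    exact mul_ne_zero (mul_ne_zero e3 e5) e4 hwr
  | coe z =>
    have e1 : Pool.Agent.H790R3.RB.hc (z : OnePoint ℂ) = (z, 1) := rfl
    rw [e1, Pool.Agent.W364.NM.wr_eval (by omega) x z, hx0, hx1, hcritP] at hwr
    have e5 : ((n + 1 : ℕ) : ℂ) ≠ 0 := by exact_mod_cast (Nat.succ_ne_zero n)
    have e6 : D.crit S t z = 0 := (mul_eq_zero.1 hwr).resolve_left e5
    obtain ⟨N, k1, k2⟩ := hcrit z e6
    have k3 := hiter z N k1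
    rcases k2 with ⟨a, ha, l1, ⟨ε, hε, l2⟩, l3⟩ | ⟨l1, ⟨B, l2⟩, l3⟩
    · refine ⟨(a : OnePoint ℂ), ?_, ?_, ?_⟩
      · rw [hfin a (h3 a ha)]
        congr 1
        unfold ft
        rw [D.mem_zs.1 ha, zero_div, mul_zero, add_zero]
      · refine ⟨(fun z : ℂ => (z : OnePoint ℂ)) '' ball a ε,
          (OnePoint.isOpenEmbedding_coe.isOpenMap _ isOpen_ball).mem_nhds
            ⟨a, mem_ball_self hε, rfl⟩, ?_⟩
        rintro _ ⟨w, hw, rfl⟩
        rw [mem_ball, dist_eq_norm] at hw
        obtain ⟨m1, m2⟩ := l2 w hw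
        have m3 : (fun k => (sp x)^[k] (w : OnePoint ℂ)) =
            fun k => (((D.ft S t)^[k] w : ℂ) : OnePoint ℂ) :=
          funext fun k => hiter w k (fun j _ => m1 j)
        rw [m3]
        exact (OnePoint.continuous_coe.tendsto a).comp m2
      · apply hshift (sp x) _ _ N
        rw [k3]
        have m3 : (fun k => (sp x)^[k] (((D.ft S t)^[N] z : ℂ) : OnePoint ℂ)) =
            fun k => (((D.ft S t)^[k] ((D.ft S t)^[N] z) : ℂ) : OnePoint ℂ) :=
          funext fun k => hiter _ k (fun j _ => l1 j)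
        rw [m3]
        exact (OnePoint.continuous_coe.tendsto a).comp l3
    · refine ⟨∞, hinf, ?_, ?_⟩
      · refine ⟨((fun z : ℂ => (z : OnePoint ℂ)) '' closedBall 0 B)ᶜ, ?_, ?_⟩
        · apply IsOpen.mem_nhds
          · rw [isOpen_compl_iff]
            exact ((isCompact_closedBall 0 B).image OnePoint.continuous_coe).isClosed
          · rintro ⟨w, -, hw⟩
            exact OnePoint.coe_ne_infty w hw
        · intro w hw
          induction w using OnePoint.rec with
          | infty =>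
            have m1 : ∀ k, (sp x)^[k] (∞ : OnePoint ℂ) = ∞ := fun k => by
              induction k with
              | zero => rfl
              | succ k ih => rw [Function.iterate_succ_apply', ih, hinf]
            have m2 : (fun k => (sp x)^[k] (∞ : OnePoint ℂ)) = fun _ => ∞ := funext m1
            rw [m2]
            exact tendsto_const_nhds
          | coe w =>
            have hw' : B < ‖w‖ := by
              by_contra hcon
              push Not at hcon
              exact hw ⟨w, by rw [mem_closedBall_zero_iff]; exact hcon, rfl⟩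
            obtain ⟨m1, m2⟩ := l2 w hw'
            have m3 : (fun k => (sp x)^[k] (w : OnePoint ℂ)) =
                fun k => (((D.ft S t)^[k] w : ℂ) : OnePoint ℂ) :=
              funext fun k => hiter w k (fun j _ => m1 j)
            rw [m3]
            exact hnorm _ m2
      · apply hshift (sp x) _ _ N
        rw [k3]
        have m3 : (fun k => (sp x)^[k] (((D.ft S t)^[N] z : ℂ) : OnePoint ℂ)) =
            fun k => (((D.ft S t)^[k] ((D.ft S t)^[N] z) : ℂ) : OnePoint ℂ) :=
          funext fun k => hiter _ k (fun j _ => l1 j)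
        rw [m3]
        exact hnorm _ l3

end Dat

end Pool.Agent.Helper65.EV
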