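import Mathlib
import Pool.Agent.Helper65.EV.Sphere

/-! The directional theorem. -/

set_option autoImplicit false

open Topology Filter Metric Set MeasureTheory Polynomial
open scoped Real NNReal OnePoint

namespace Pool.Agent.Helper65.EV

open Pool.Agent.Helper65.EU

namespace Dat

variable (D : Dat)

theorem orbit_inf {S : ℂ[X]} {t c R0 : ℝ} (hc : 0 < c) (ht : 0 < t) (hR0 : 0 < R0)
    (h : ∀ z, R0 ≤ ‖z‖ → D.Qt S t z ≠ 0 ∧ (1 + c * t) * ‖z‖ ≤ ‖D.ft S t z‖) {w : ℂ}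
    (hw : R0 ≤ ‖w‖) : (∀ j, D.Qt S t ((D.ft S t)^[j] w) ≠ 0) ∧
      Tendsto (fun k : ℕ => ‖(D.ft S t)^[k] w‖) atTop atTop := by
  have h1 : ∀ j : ℕ, (1 + c * t) ^ j * ‖w‖ ≤ ‖(D.ft S t)^[j] w‖ ∧ R0 ≤ ‖(D.ft S t)^[j] w‖ := by
    intro j
    induction j with
    | zero => simp [hw]
    | succ j ih =>
      obtain ⟨i1, i2⟩ := ih
      obtain ⟨-, k2⟩ := h _ i2
      rw [Function.iterate_succ_apply']
      constructor
      · calc (1 + c * t) ^ (j + 1) * ‖w‖ = (1 + c * t) * ((1 + c * t) ^ j * ‖w‖) := by ring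
          _ ≤ (1 + c * t) * ‖(D.ft S t)^[j] w‖ := mul_le_mul_of_nonneg_left i1 (by positivity)
          _ ≤ _ := k2
      · have : 0 ≤ c * t * ‖(D.ft S t)^[j] w‖ := by positivity
        nlinarith
  refine ⟨fun j => (h _ (h1 j).2).1, ?_⟩
  have h2 : Tendsto (fun k : ℕ => (1 + c * t) ^ k * ‖w‖) atTop atTop := by
    apply Tendsto.atTop_mul_const (hR0.trans_le hw)
    apply tendsto_pow_atTop_atTop_of_one_lt
    have : 0 < c * t := by positivity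
    linarith
  exact tendsto_atTop_mono (fun k => (h1 k).1) h2

theorem orbit_fin {S : ℂ[X]} {t c r : ℝ} {a : ℂ} (hc : 0 < c) (ht : 0 < t) (hct : c * t < 1)
    (h : ∀ z, ‖z - a‖ ≤ r → D.Qt S t z ≠ 0 ∧ ‖D.ft S t z - a‖ ≤ (1 - c * t) * ‖z - a‖) {w : ℂ}
    (hw : ‖w - a‖ ≤ r) : (∀ j, D.Qt S t ((D.ft S t)^[j] w) ≠ 0) ∧
      Tendsto (fun k : ℕ => (D.ft S t)^[k] w) atTop (𝓝 a) := by
  have hct0 : 0 < c * t := by positivity
  have h1 : ∀ j : ℕ, ‖(D.ft S t)^[j] w - a‖ ≤ (1 - c * t) ^ j * ‖w - a‖ ∧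
      ‖(D.ft S t)^[j] w - a‖ ≤ r := by
    intro j
    induction j with
    | zero => simp [hw]
    | succ j ih =>
      obtain ⟨i1, i2⟩ := ih
      obtain ⟨-, k2⟩ := h _ i2
      rw [Function.iterate_succ_apply']
      constructor
      · calc ‖D.ft S t ((D.ft S t)^[j] w) - a‖ ≤ (1 - c * t) * ‖(D.ft S t)^[j] w - a‖ := k2
          _ ≤ (1 - c * t) * ((1 - c * t) ^ j * ‖w - a‖) :=
            mul_le_mul_of_nonneg_left i1 (by linarith)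
          _ = _ := by ring
      · have : 0 ≤ c * t * ‖(D.ft S t)^[j] w - a‖ := by positivity
        nlinarith
  refine ⟨fun j => (h _ (h1 j).2).1, ?_⟩
  rw [tendsto_iff_norm_sub_tendsto_zero]
  have h2 : Tendsto (fun k : ℕ => (1 - c * t) ^ k * ‖w - a‖) atTop (𝓝 (0 * ‖w - a‖)) := by
    apply Tendsto.mul_const
    exact tendsto_pow_atTop_nhds_zero_of_lt_one (by linarith) (by linarith)
  rw [zero_mul] at h2
  exact squeeze_zero (fun k => norm_nonneg _) (fun k => (h1 k).1) h2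

/-- **the directional theorem** -/
theorem hyp_dir {S : ℂ[X]} (hS : S.natDegree ≤ D.Q.natDegree) (hG : ∀ a ∈ D.zs, (D.ρ a).re ≠ 0)
    (hGi : D.rinf.re ≠ 0) (hNL : ∀ p ∈ D.ps, D.NoLinkFrom p) (hJ : D.JOk S) :
    ∀ᶠ t : ℝ in 𝓝[>] 0, IsCoprime (D.PP S t) (D.QP S t) ∧
      max (D.PP S t).natDegree (D.QP S t).natDegree = D.Q.natDegree + 1 ∧
      ∃ f : OnePoint ℂ → OnePoint ℂ, Continuous f ∧
        (∀ z : ℂ, (D.QP S t).eval z ≠ 0 → f z = ((D.PP S t).eval z / (D.QP S t).eval z : ℂ)) ∧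
        HypFix f := by
  obtain ⟨R0, r, hr, hrJ⟩ := D.exists_radii' hG hGi hJ
  have ht0' : Tendsto (fun t : ℝ => t) (𝓝[>] 0) (𝓝 0) := nhdsWithin_le_nhds
  have htC : Tendsto (fun t : ℝ => (t : ℂ)) (𝓝[>] 0) (𝓝 0) := by
    have := (Complex.continuous_ofReal.tendsto 0).comp ht0'
    rwa [Complex.ofReal_zero] at this
  have hlin : ∀ A B : ℂ, A ≠ 0 → ∀ᶠ t : ℝ in 𝓝[>] 0, A + t * B ≠ 0 := by
    intro A B hA
    have h1 : Tendsto (fun t : ℝ => A + (t : ℂ) * B) (𝓝[>] 0) (𝓝 (A + 0 * B)) :=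
      (htC.mul_const B).const_add A
    rw [zero_mul, add_zero] at h1
    exact h1.eventually_ne hA
  have hlc : D.Q.leadingCoeff ≠ 0 := leadingCoeff_ne_zero.2 D.Q_ne
  have e1 := hlin D.Q.leadingCoeff (S.coeff D.Q.natDegree) hlc
  have e2 := hlin D.Q.leadingCoeff (S.coeff D.Q.natDegree + D.R.leadingCoeff) hlc
  have e3 : ∀ᶠ t : ℝ in 𝓝[>] 0, ∀ a ∈ D.zs, D.Qt S t a ≠ 0 :=
    (Filter.eventually_all_finset D.zs).2 fun a ha => hlin _ _ (D.Q_zs ha)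
  have e4 := D.crit_reach hS hG hGi hNL hJ hr hrJ
  have hfin : ∀ a : ℂ, ∃ c : ℝ, 0 < c ∧ (a ∈ D.zs → (D.ρ a).re < 0 → ∀ᶠ t : ℝ in 𝓝[>] 0, c * t < 1 ∧
      ∀ z, ‖z - a‖ ≤ r a → D.Qt S t z ≠ 0 ∧ ‖D.ft S t z - a‖ ≤ (1 - c * t) * ‖z - a‖) := by
    intro a
    by_cases ha : a ∈ D.zs
    · by_cases hre : (D.ρ a).re < 0
      · obtain ⟨c, h1, h2⟩ := D.sink_fin S hr ha hre
        exact ⟨c, h1, fun _ _ => h2⟩
      · exact ⟨1, one_pos, fun _ h => absurd h hre⟩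
    · exact ⟨1, one_pos, fun h => absurd h ha⟩
  choose ca hca hca2 using hfin
  have e5 : ∀ᶠ t : ℝ in 𝓝[>] 0, ∀ a ∈ D.zs, (D.ρ a).re < 0 → ca a * t < 1 ∧
      ∀ z, ‖z - a‖ ≤ r a → D.Qt S t z ≠ 0 ∧ ‖D.ft S t z - a‖ ≤ (1 - ca a * t) * ‖z - a‖ := by
    rw [Filter.eventually_all_finset]
    intro a ha
    by_cases hre : (D.ρ a).re < 0
    · exact (hca2 a ha hre).mono fun t ht _ => ht
    · exact Eventually.of_forall fun _ h => absurd h hre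
  have hinf : ∃ c : ℝ, 0 < c ∧ (0 < D.rinf.re → ∀ᶠ t : ℝ in 𝓝[>] 0,
      ∀ z, R0 ≤ ‖z‖ → D.Qt S t z ≠ 0 ∧ (1 + c * t) * ‖z‖ ≤ ‖D.ft S t z‖) := by
    by_cases hre : 0 < D.rinf.re
    · obtain ⟨c, h1, h2⟩ := D.sink_inf hS hr hre
      exact ⟨c, h1, fun _ => h2⟩
    · exact ⟨1, one_pos, fun h => absurd h hre⟩
  obtain ⟨ci, hci, hci2⟩ := hinf
  have e6 : ∀ᶠ t : ℝ in 𝓝[>] 0, 0 < D.rinf.re → 
      ∀ z, R0 ≤ ‖z‖ → D.Qt S t z ≠ 0 ∧ (1 + ci * t) * ‖z‖ ≤ ‖D.ft S t z‖ := by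
    by_cases hre : 0 < D.rinf.re
    · exact (hci2 hre).mono fun t ht _ => ht
    · exact Eventually.of_forall fun _ h => absurd h hre
  filter_upwards [e1, e2, e3, e4, e5, e6, self_mem_nhdsWithin] with t g1 g2 g3 g4 g5 g6 g7
  have ht : 0 < t := g7
  apply D.sphere hS ht g1 (by rw [add_assoc, ← mul_add]; exact g2) g3
  intro c hc
  obtain ⟨N, k1, k2⟩ := g4 c hc
  refine ⟨N, k1, ?_⟩
  rcases k2 with ⟨l1, l2⟩ | ⟨a, ha, l1, l2⟩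
  · right
    obtain ⟨m1, m2⟩ := D.orbit_inf hci ht hr.R0_pos (g6 l1) l2.le
    exact ⟨m1, ⟨R0, fun w hw => D.orbit_inf hci ht hr.R0_pos (g6 l1) hw.le⟩, m2⟩
  · left
    obtain ⟨n1, n2⟩ := g5 a ha l1
    obtain ⟨m1, m2⟩ := D.orbit_fin (hca a) ht n1 n2 l2.le
    exact ⟨a, ha, m1, ⟨r a, hr.r_pos a ha, fun w hw => D.orbit_fin (hca a) ht n1 n2 hw.le⟩, m2⟩

end Dat

end Pool.Agent.Helper65.EV
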