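import Mathlib
import Pool.Agent.Helper65.EV.Main

/-! All but countably many directions. -/

set_option autoImplicit false

open Topology Filter Metric Set MeasureTheory Polynomial
open scoped Real NNReal OnePoint

namespace Pool.Agent.Helper65.EV

open Pool.Agent.Helper65.EU

namespace Dat

/-- the rotated data -/
noncomputable def rot (D : Dat) (θ : ℝ) : Dat where
  Q := D.Q
  R := Polynomial.C (Complex.exp (θ * Complex.I)) * D.R
  hR := by
    have hu : IsUnit (Polynomial.C (Complex.exp (θ * Complex.I))) :=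
      Polynomial.isUnit_C.2 (Complex.exp_ne_zero _).isUnit
    exact D.hR.unit_mul hu
  hc := by
    have hu : IsUnit (Polynomial.C (Complex.exp (θ * Complex.I))) :=
      Polynomial.isUnit_C.2 (Complex.exp_ne_zero _).isUnit
    exact (isCoprime_mul_unit_left_right hu _ _).2 D.hc
  hd := by
    rw [natDegree_C_mul (Complex.exp_ne_zero _)]
    exact D.hd
  hn := D.hn

variable (D : Dat)

theorem rot_zs (θ : ℝ) : (D.rot θ).zs = D.zs := by
  ext a
  rw [mem_zs, mem_zs]
  show (Polynomial.C (Complex.exp (θ * Complex.I)) * D.R).eval a = 0 ↔ _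
  rw [eval_mul, eval_C, mul_eq_zero]
  simp [Complex.exp_ne_zero]

theorem rot_ps (θ : ℝ) : (D.rot θ).ps = D.ps := rfl

theorem rot_ρ (θ : ℝ) (a : ℂ) : D.ρ a = Complex.exp (θ * Complex.I) * (D.rot θ).ρ a := by
  unfold ρ
  show _ = _ * (D.Q.eval a / (derivative (Polynomial.C (Complex.exp (θ * Complex.I)) * D.R)).eval a)
  rw [derivative_C_mul, eval_mul, eval_C, ← mul_div_assoc, mul_div_mul_left _ _ (Complex.exp_ne_zero _)]

theorem rot_rinf (θ : ℝ) : (D.rot θ).rinf = Complex.exp (θ * Complex.I) * D.rinf := by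
  unfold rinf
  show (Polynomial.C (Complex.exp (θ * Complex.I)) * D.R).leadingCoeff / D.Q.leadingCoeff = _
  rw [leadingCoeff_mul, leadingCoeff_C, mul_div_assoc]

/-- the values which decide about links -/
noncomputable def lval (p q : ℂ) (n : D.zs → ℤ) : ℂ :=
  ∑ a : D.zs, D.ρ a * (Complex.log ((q - a) / (p - a)) + n a * (2 * π * Complex.I))

/-- the static conditions on the jump points -/
def JStat (S : ℂ[X]) : Prop := ∀ p ∈ D.ps, D.mu p ≠ 1 → S.eval p ≠ 0 ∧
  D.R.eval (D.jp S p) ≠ 0 ∧ D.Q.eval (D.jp S p) ≠ 0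

/-- the starting points: poles and jump points -/
noncomputable def starts (S : ℂ[X]) : Finset ℂ :=
  D.ps ∪ (D.ps.filter (fun p => D.mu p ≠ 1)).image (D.jp S)

/-- the exceptional directions -/
def Bad (S : ℂ[X]) : Set ℝ :=
  (⋃ a ∈ D.zs, {θ : ℝ | ∃ s : ℝ, Complex.I * D.ρ a = s * Complex.exp (θ * Complex.I)}) ∪
  {θ : ℝ | ∃ s : ℝ, Complex.I * (starRingEnd ℂ) D.rinf = s * Complex.exp (θ * Complex.I)} ∪
  ⋃ p ∈ D.starts S, ⋃ q ∈ D.ps, ⋃ n : D.zs → ℤ,
    {θ : ℝ | D.lval p q n ≠ 0 ∧ ∃ s : ℝ, D.lval p q n = s * Complex.exp (θ * Complex.I)}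

theorem rinf_ne : D.rinf ≠ 0 :=
  div_ne_zero (leadingCoeff_ne_zero.2 D.R_ne) (leadingCoeff_ne_zero.2 D.Q_ne)

theorem Bad_countable (S : ℂ[X]) : (D.Bad S).Countable := by
  unfold Bad
  apply Countable.union
  · apply Countable.union
    · apply (Finset.countable_toSet D.zs).biUnion
      intro a ha
      exact circ (mul_ne_zero Complex.I_ne_zero (D.ρ_ne ha))
    · exact circ (mul_ne_zero Complex.I_ne_zero ((_root_.map_ne_zero _).2 D.rinf_ne))
  · apply (Finset.countable_toSet (D.starts S)).biUnion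
    intro p _
    apply (Finset.countable_toSet D.ps).biUnion
    intro q _
    apply countable_iUnion
    intro n
    by_cases h : D.lval p q n = 0
    · have : {θ : ℝ | D.lval p q n ≠ 0 ∧
          ∃ s : ℝ, D.lval p q n = s * Complex.exp (θ * Complex.I)} = ∅ := by
        ext θ
        simp [h]
      rw [this]
      exact countable_empty
    · exact (circ h).mono fun θ hθ => hθ.2

theorem rot_jp (S : ℂ[X]) (θ : ℝ) (p : ℂ) :
    (D.rot θ).jp (Polynomial.C (Complex.exp (θ * Complex.I)) * S) p = D.jp S p := by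
  unfold jp
  show p + (Polynomial.C (Complex.exp (θ * Complex.I)) * D.R).eval p /
    (Polynomial.C (Complex.exp (θ * Complex.I)) * S).eval p = _
  rw [eval_mul, eval_mul, eval_C, mul_div_mul_left _ _ (Complex.exp_ne_zero _)]

theorem rot_good {S : ℂ[X]} {θ : ℝ} (hθ : θ ∉ D.Bad S) :
    (∀ a ∈ (D.rot θ).zs, ((D.rot θ).ρ a).re ≠ 0) ∧
    (D.rot θ).rinf.re ≠ 0 ∧ ∀ p ∈ D.starts S, (D.rot θ).NoLinkFrom p := by
  unfold Bad at hθ
  simp only [mem_union, not_or] at hθ
  obtain ⟨⟨h1, h2⟩, h3⟩ := hθ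
  refine ⟨?_, ?_, ?_⟩
  · intro a ha hre
    rw [D.rot_zs] at ha
    apply h1
    simp only [mem_iUnion]
    refine ⟨a, ha, -((D.rot θ).ρ a).im, ?_⟩
    rw [D.rot_ρ θ a]
    have h4 : (D.rot θ).ρ a = ((D.rot θ).ρ a).im * Complex.I := by
      apply Complex.ext
      · simp [hre]
      · simp
    rw [h4]
    simp only [Complex.mul_im, Complex.ofReal_re, Complex.I_im, mul_one, Complex.ofReal_im,
      Complex.I_re, mul_zero, add_zero]
    push_cast
    linear_combination (Complex.exp (θ * Complex.I) * ((D.rot θ).ρ a).im) * Complex.I_sq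
  · intro hre
    apply h2
    refine ⟨(D.rot θ).rinf.im, ?_⟩
    have h4 : (D.rot θ).rinf = (D.rot θ).rinf.im * Complex.I := by
      apply Complex.ext
      · simp [hre]
      · simp
    have h5 : D.rinf = Complex.exp (-(θ * Complex.I)) * ((D.rot θ).rinf.im * Complex.I) := by
      rw [← h4, D.rot_rinf θ, ← mul_assoc, ← Complex.exp_add]
      simp
    have h6 : (starRingEnd ℂ) D.rinf = Complex.exp (θ * Complex.I) *
        ((D.rot θ).rinf.im * -Complex.I) := by
      rw [h5, map_mul, map_mul, Complex.conj_ofReal, Complex.conj_I, ← Complex.exp_conj, map_neg,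
        map_mul, Complex.conj_ofReal, Complex.conj_I]
      congr 2
      ring
    show Complex.I * (starRingEnd ℂ) D.rinf = _
    rw [h6]
    linear_combination (-(Complex.exp (θ * Complex.I) * (D.rot θ).rinf.im)) * Complex.I_sq
  · intro p hp q hq ℓ hℓ s hs hsum
    apply h3
    rw [D.rot_ps] at hq
    rw [D.rot_zs] at hℓ hsum
    have hn : ∀ a : D.zs, ∃ n : ℤ, ℓ a = Complex.log ((q - a) / (p - a)) + n * (2 * π * Complex.I) := by
      intro a
      have hne : (q - a) / (p - a) ≠ 0 := by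
        rw [← hℓ a a.2]
        exact Complex.exp_ne_zero _
      have h4 := hℓ a a.2
      rw [← Complex.exp_log hne] at h4
      obtain ⟨n, hn⟩ := Complex.exp_eq_exp_iff_exists_int.1 h4
      exact ⟨n, hn⟩
    choose n hn using hn
    have hval : D.lval p q n = s * Complex.exp (θ * Complex.I) := by
      unfold lval
      have h5 : ∑ a : D.zs, D.ρ a * (Complex.log ((q - a) / (p - a)) + n a * (2 * π * Complex.I)) =
          ∑ a : D.zs, Complex.exp (θ * Complex.I) * ((D.rot θ).ρ a * ℓ a) := by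
        refine Finset.sum_congr rfl fun a _ => ?_
        rw [← hn a, D.rot_ρ θ a]
        ring
      rw [h5, ← Finset.mul_sum, Finset.sum_coe_sort D.zs (fun a => (D.rot θ).ρ a * ℓ a), hsum]
      ring
    simp only [mem_iUnion]
    refine ⟨p, hp, q, hq, n, ?_, s, hval⟩
    rw [hval]
    exact mul_ne_zero (by exact_mod_cast hs.ne') (Complex.exp_ne_zero _)

/-- **hyperbolicity in all but countably many directions**, when infinity is fixed -/
theorem hyp_rot {S : ℂ[X]} (hS : S.natDegree ≤ D.Q.natDegree) (hJ : D.JStat S) {θ : ℝ}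
    (hθ : θ ∉ D.Bad S) :
    ∀ᶠ t : ℝ in 𝓝[>] 0, HypPair (D.Q.natDegree + 1)
      (Polynomial.X * (D.Q + Polynomial.C (t * Complex.exp (θ * Complex.I)) * S) +
        Polynomial.C (t * Complex.exp (θ * Complex.I)) * D.R)
      (D.Q + Polynomial.C (t * Complex.exp (θ * Complex.I)) * S) := by
  obtain ⟨h1, h2, h3⟩ := D.rot_good hθ
  have hS' : (Polynomial.C (Complex.exp (θ * Complex.I)) * S).natDegree ≤ (D.rot θ).Q.natDegree :=
    (natDegree_C_mul_le _ _).trans hS
  have hJ' : (D.rot θ).JOk (Polynomial.C (Complex.exp (θ * Complex.I)) * S) := by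
    intro p hp hm
    have hp' : p ∈ D.ps := hp
    have hm' : D.mu p ≠ 1 := hm
    obtain ⟨g1, g2, g3⟩ := hJ p hp' hm'
    rw [D.rot_jp]
    refine ⟨?_, ?_, g3, ?_⟩
    · rw [eval_mul, eval_C]
      exact mul_ne_zero (Complex.exp_ne_zero _) g1
    · show (Polynomial.C (Complex.exp (θ * Complex.I)) * D.R).eval _ ≠ 0
      rw [eval_mul, eval_C]
      exact mul_ne_zero (Complex.exp_ne_zero _) g2
    · apply h3
      exact Finset.mem_union_right _ (Finset.mem_image_of_mem _ (Finset.mem_filter.2 ⟨hp', hm'⟩))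
  have := (D.rot θ).hyp_dir hS' h1 h2
    (fun p hp => h3 p (Finset.mem_union_left _ hp)) hJ'
  filter_upwards [this] with t ht
  have e1 : (D.rot θ).QP (Polynomial.C (Complex.exp (θ * Complex.I)) * S) t =
      D.Q + Polynomial.C (t * Complex.exp (θ * Complex.I)) * S := by
    unfold QP
    rw [← mul_assoc, ← Polynomial.C_mul]
    rfl
  have e2 : (D.rot θ).PP (Polynomial.C (Complex.exp (θ * Complex.I)) * S) t =
      Polynomial.X * (D.Q + Polynomial.C (t * Complex.exp (θ * Complex.I)) * S) +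
        Polynomial.C (t * Complex.exp (θ * Complex.I)) * D.R := by
    unfold PP
    rw [e1]
    congr 1
    show Polynomial.C (t : ℂ) * (Polynomial.C (Complex.exp (θ * Complex.I)) * D.R) = _
    rw [← mul_assoc, ← Polynomial.C_mul]
  rw [e1, e2] at ht
  exact ht

end Dat

end Pool.Agent.Helper65.EV
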