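import Mathlib
import Pool.Agent.Helper65.EV.Dir

/-! The change of coordinates which moves a zero of the field to infinity. -/

set_option autoImplicit false

open Topology Filter Metric Set MeasureTheory Polynomial
open scoped Real NNReal OnePoint

namespace Pool.Agent.Helper65.EV

open Pool.Agent.Helper65.EU

theorem taylor_top {N : ℕ} {b : ℂ} {G : ℂ[X]} (hG : G.natDegree ≤ N) :
    (taylor b G).coeff N = G.coeff N := by
  rcases hG.lt_or_eq with h | h
  · rw [coeff_eq_zero_of_natDegree_lt (by rw [natDegree_taylor]; exact h),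
      coeff_eq_zero_of_natDegree_lt h]
  · rw [← h, coeff_taylor_natDegree]
    rfl

theorem flip_zero {N : ℕ} {b : ℂ} {G : ℂ[X]} (hG : G.natDegree ≤ N) :
    (EU.flip N b G).eval 0 = G.coeff N := by
  rw [← coeff_zero_eq_eval_zero]
  unfold EU.flip
  rw [coeff_reflect, revAt_zero, taylor_top hG]

theorem flip_one {N : ℕ} (hN : 1 ≤ N) {b : ℂ} {G : ℂ[X]} (hG : G.natDegree ≤ N)
    (h0 : G.coeff N = 0) : (derivative (EU.flip N b G)).eval 0 = G.coeff (N - 1) := by
  rw [← coeff_zero_eq_eval_zero, coeff_derivative]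
  unfold EU.flip
  rw [coeff_reflect, zero_add, revAt_le hN, taylor_top]
  · simp
  · rcases hG.lt_or_eq with h | h
    · omega
    · exfalso
      have h1 : G.leadingCoeff = 0 := by
        unfold leadingCoeff
        rw [h, h0]
      rw [leadingCoeff_eq_zero.1 h1, natDegree_zero] at h
      omega

theorem flip_top {N : ℕ} {b : ℂ} {G : ℂ[X]} (hG : G.natDegree ≤ N) (hb : G.eval b ≠ 0) :
    (EU.flip N b G).natDegree = N := by
  apply le_antisymm (EU.flip_natDegree hG)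
  apply le_natDegree_of_ne_zero
  unfold EU.flip
  rw [coeff_reflect, revAt_le le_rfl, Nat.sub_self, taylor_coeff_zero]
  exact hb

/-- the data of a direction -/
structure Gen where
  Q : ℂ[X]
  P1 : ℂ[X]
  Q1 : ℂ[X]
  n : ℕ
  hn : 1 ≤ n
  hQd : Q.natDegree ≤ n
  hQ : Q ≠ 0
  hP1 : P1.natDegree ≤ n + 1
  hQ1 : Q1.natDegree ≤ n + 1
  hRd : (P1 - Polynomial.X * Q1).natDegree = n + 2
  hR : (P1 - Polynomial.X * Q1).Separable
  hc : IsCoprime Q (P1 - Polynomial.X * Q1)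
  hJ : ∀ p, Q.eval p = 0 → (derivative Q).eval p = 0 → Q1.eval p ≠ 0 ∧
    (P1 - Polynomial.X * Q1).eval (P1.eval p / Q1.eval p) ≠ 0 ∧ Q.eval (P1.eval p / Q1.eval p) ≠ 0
  hJi : Q.coeff n = 0 → Q.coeff (n - 1) = 0 →
    (P1 - Polynomial.X * Q1).eval (P1.coeff (n + 1) / Q1.coeff (n + 1)) ≠ 0 ∧
      Q.eval (P1.coeff (n + 1) / Q1.coeff (n + 1)) ≠ 0

namespace Gen

variable (G : Gen)

/-- the field -/
noncomputable def R : ℂ[X] := G.P1 - Polynomial.X * G.Q1

theorem R_ne : G.R ≠ 0 := G.hR.ne_zero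

theorem Q_ne : G.Q ≠ 0 := G.hQ

theorem exists_b : ∃ b : ℂ, G.R.eval b = 0 := by
  have h : G.R.degree ≠ 0 := by
    rw [degree_eq_natDegree G.R_ne]
    have : G.R.natDegree = G.n + 2 := G.hRd
    rw [this]
    exact_mod_cast (by omega : G.n + 2 ≠ 0)
  exact IsAlgClosed.exists_root _ h

/-- the zero which is moved to infinity -/
noncomputable def b : ℂ := G.exists_b.choose

theorem b_spec : G.R.eval G.b = 0 := G.exists_b.choose_spec

theorem not_both (a : ℂ) : G.Q.eval a ≠ 0 ∨ G.R.eval a ≠ 0 := by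
  by_contra h
  push Not at h
  obtain ⟨u, v, huv⟩ := G.hc
  have := congrArg (Polynomial.eval a) huv
  have h2 : (G.P1 - Polynomial.X * G.Q1).eval a = 0 := h.2
  rw [eval_add, eval_mul, eval_mul, h.1, h2] at this
  simp at this

theorem Q_b : G.Q.eval G.b ≠ 0 := (G.not_both G.b).resolve_right (fun h => h G.b_spec)

/-- the cofactor -/
noncomputable def Rb : ℂ[X] := G.R /ₘ (Polynomial.X - Polynomial.C G.b)

theorem Rb_mul : (Polynomial.X - Polynomial.C G.b) * G.Rb = G.R :=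
  mul_divByMonic_eq_iff_isRoot.2 G.b_spec

theorem Rb_ne : G.Rb ≠ 0 := by
  intro h
  have := G.Rb_mul
  rw [h, mul_zero] at this
  exact G.R_ne this.symm

theorem Rb_natDegree : G.Rb.natDegree = G.n + 1 := by
  have h := congrArg natDegree G.Rb_mul
  rw [natDegree_mul (X_sub_C_ne_zero _) G.Rb_ne, natDegree_X_sub_C] at h
  have : G.R.natDegree = G.n + 2 := G.hRd
  omega

theorem Rb_b : G.Rb.eval G.b ≠ 0 := by
  intro h
  have h1 : (derivative G.R).eval G.b ≠ 0 :=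
    G.hR.eval₂_derivative_ne_zero (RingHom.id ℂ) G.b_spec
  apply h1
  rw [← G.Rb_mul, derivative_mul, eval_add, eval_mul, eval_mul, h]
  simp

theorem Rb_sep : G.Rb.Separable := by
  have h : ((Polynomial.X - Polynomial.C G.b) * G.Rb).Separable := by
    rw [G.Rb_mul]
    exact G.hR
  exact h.of_mul_right

theorem eval_R (z : ℂ) : G.R.eval z = (z - G.b) * G.Rb.eval z := by
  have := congrArg (Polynomial.eval z) G.Rb_mul
  rw [eval_mul, eval_sub, eval_X, eval_C] at this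
  exact this.symm

/-- the remaining zeros -/
noncomputable def as : Finset ℂ := G.Rb.roots.toFinset

theorem mem_as {a : ℂ} : a ∈ G.as ↔ G.Rb.eval a = 0 := by
  unfold as
  rw [Multiset.mem_toFinset, mem_roots G.Rb_ne, IsRoot.def]

theorem card_as : G.as.card = G.n + 1 := (EU.card_roots' G.Rb_sep).trans G.Rb_natDegree

theorem b_as : G.b ∉ G.as := fun h => G.Rb_b (G.mem_as.1 h)

theorem flip_Rb : EU.flip (G.n + 1) G.b G.Rb = Polynomial.C (G.Rb.eval G.b) *
    ∏ p ∈ G.as, (Polynomial.X - Polynomial.C ((p - G.b)⁻¹)) := by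
  have := EU.flip_prod G.b_as (G := G.Rb) (EU.prod_roots G.Rb_sep)
    (by rw [G.card_as, G.Rb_natDegree])
  rwa [G.card_as] at this

theorem R_coeff : G.R.coeff (G.n + 2) = -G.Q1.coeff (G.n + 1) := by
  unfold R
  rw [coeff_sub, coeff_X_mul, coeff_eq_zero_of_natDegree_lt (by have := G.hP1; omega), zero_sub]

theorem Rb_coeff : G.Rb.coeff (G.n + 1) = -G.Q1.coeff (G.n + 1) := by
  rw [← G.R_coeff, ← G.Rb_mul, sub_mul, coeff_sub, coeff_X_mul, coeff_C_mul,
    coeff_eq_zero_of_natDegree_lt (p := G.Rb) (n := G.n + 2) (by rw [G.Rb_natDegree]; omega)]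
  simp

theorem Q1_coeff : G.Q1.coeff (G.n + 1) ≠ 0 := by
  have h1 : G.Rb.coeff (G.n + 1) ≠ 0 := by
    rw [← G.Rb_natDegree]
    exact leadingCoeff_ne_zero.2 G.Rb_ne
  rw [G.Rb_coeff] at h1
  exact neg_ne_zero.1 h1

/-- the transformed data -/
noncomputable def dat : Dat where
  Q := EU.flip G.n G.b G.Q
  R := -EU.flip (G.n + 1) G.b G.Rb
  hR := by
    rw [G.flip_Rb, neg_eq_neg_one_mul, show (-1 : ℂ[X]) = Polynomial.C (-1) by simp, ← mul_assoc,
      ← Polynomial.C_mul]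
    exact EU.sep_aux (mul_ne_zero (by norm_num) G.Rb_b)
  hc := by
    rw [IsCoprime.neg_right_iff, isCoprime_iff_aeval_ne_zero_of_isAlgClosed ℂ ℂ]
    intro w
    by_contra hcon
    push Not at hcon
    rw [coe_aeval_eq_eval] at hcon
    obtain ⟨e1, e2⟩ := hcon
    have e1' : (EU.flip G.n G.b G.Q).eval w = 0 := e1
    have e2' : (EU.flip (G.n + 1) G.b G.Rb).eval w = 0 := e2
    by_cases hw : w = 0
    · rw [hw, flip_zero (le_of_eq G.Rb_natDegree), G.Rb_coeff] at e2'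
      exact G.Q1_coeff (neg_eq_zero.1 e2')
    · rw [EU.flip_eval G.hQd hw] at e1'
      rw [EU.flip_eval (le_of_eq G.Rb_natDegree) hw] at e2'
      rcases G.not_both (G.b + w⁻¹) with h | h
      · exact mul_ne_zero (pow_ne_zero _ hw) h e1'
      · apply h
        rw [G.eval_R, (mul_eq_zero.1 e2').resolve_left (pow_ne_zero _ hw), mul_zero]
  hd := by
    rw [natDegree_neg, flip_top (le_of_eq G.Rb_natDegree) G.Rb_b, flip_top G.hQd G.Q_b]
  hn := by
    rw [flip_top G.hQd G.Q_b]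
    exact G.hn

theorem dat_Q_natDegree : G.dat.Q.natDegree = G.n := flip_top G.hQd G.Q_b

/-- the transformed perturbation -/
noncomputable def S : ℂ[X] := EU.flip G.n G.b (G.Q1 + G.Rb)

theorem S_aux : (G.Q1 + G.Rb).natDegree ≤ G.n := by
  have h1 : (G.Q1 + G.Rb).natDegree ≤ G.n + 1 :=
    natDegree_add_le_of_degree_le G.hQ1 (le_of_eq G.Rb_natDegree)
  have h2 : (G.Q1 + G.Rb).coeff (G.n + 1) = 0 := by
    rw [coeff_add, G.Rb_coeff]
    ring
  rw [natDegree_le_iff_coeff_eq_zero]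
  intro N hN
  rcases Nat.lt_or_ge (G.n + 1) N with h | h
  · exact coeff_eq_zero_of_natDegree_lt (by omega)
  · have : N = G.n + 1 := by omega
    rw [this]
    exact h2

theorem S_natDegree : G.S.natDegree ≤ G.dat.Q.natDegree := by
  rw [G.dat_Q_natDegree]
  exact EU.flip_natDegree G.S_aux

theorem val_Q (w : ℂ) (hw : w ≠ 0) : G.dat.Q.eval w = w ^ G.n * G.Q.eval (G.b + w⁻¹) :=
  EU.flip_eval G.hQd hw

theorem val_R (w : ℂ) (hw : w ≠ 0) :
    G.dat.R.eval w = -(w ^ (G.n + 1) * G.Rb.eval (G.b + w⁻¹)) := by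
  show (-EU.flip (G.n + 1) G.b G.Rb).eval w = _
  rw [eval_neg, EU.flip_eval (le_of_eq G.Rb_natDegree) hw]

theorem val_S (w : ℂ) (hw : w ≠ 0) :
    G.S.eval w = w ^ G.n * (G.Q1.eval (G.b + w⁻¹) + G.Rb.eval (G.b + w⁻¹)) := by
  show (EU.flip G.n G.b (G.Q1 + G.Rb)).eval w = _
  rw [EU.flip_eval G.S_aux hw, eval_add]

theorem val_P1 (z : ℂ) : G.P1.eval z = z * G.Q1.eval z + (z - G.b) * G.Rb.eval z := by
  have h4 : G.R.eval z = G.P1.eval z - z * G.Q1.eval z := by
    unfold R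
    rw [eval_sub, eval_mul, eval_X]
  have h5 := G.eval_R z
  rw [h4] at h5
  linear_combination h5

/-- good jump points -/
theorem jump_ok {J : ℂ} (hR : G.R.eval J ≠ 0) (hQ : G.Q.eval J ≠ 0) :
    G.dat.R.eval ((J - G.b)⁻¹) ≠ 0 ∧ G.dat.Q.eval ((J - G.b)⁻¹) ≠ 0 := by
  have hJb : J - G.b ≠ 0 := by
    intro h
    apply hR
    rw [G.eval_R, h, zero_mul]
  have hw : (J - G.b)⁻¹ ≠ 0 := inv_ne_zero hJb
  have hz : G.b + ((J - G.b)⁻¹)⁻¹ = J := by rw [inv_inv]; ring
  rw [G.val_R _ hw, G.val_Q _ hw, hz]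
  refine ⟨neg_ne_zero.2 (mul_ne_zero (pow_ne_zero _ hw) ?_), mul_ne_zero (pow_ne_zero _ hw) hQ⟩
  intro h
  apply hR
  rw [G.eval_R, h, mul_zero]

theorem val_dQ {w : ℂ} (hw : w ≠ 0) (h0 : G.Q.eval (G.b + w⁻¹) = 0)
    (h1 : (derivative G.dat.Q).eval w = 0) : (derivative G.Q).eval (G.b + w⁻¹) = 0 := by
  have e1 : HasDerivAt (fun x => G.dat.Q.eval x) ((derivative G.dat.Q).eval w) w :=
    G.dat.Q.hasDerivAt w
  have e2 : HasDerivAt (fun x : ℂ => G.b + x⁻¹) (-(w ^ 2)⁻¹) w :=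
    (hasDerivAt_inv hw).const_add G.b
  have e3 : HasDerivAt (fun x : ℂ => G.Q.eval (G.b + x⁻¹))
      ((derivative G.Q).eval (G.b + w⁻¹) * (-(w ^ 2)⁻¹)) w :=
    HasDerivAt.comp (h₂ := fun y => G.Q.eval y) w (G.Q.hasDerivAt (G.b + w⁻¹)) e2
  have e4 : HasDerivAt (fun x : ℂ => x ^ G.n * G.Q.eval (G.b + x⁻¹))
      (G.n * w ^ (G.n - 1) * G.Q.eval (G.b + w⁻¹) +
        w ^ G.n * ((derivative G.Q).eval (G.b + w⁻¹) * (-(w ^ 2)⁻¹))) w :=
    (hasDerivAt_pow G.n w).mul e3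
  have e5 : (fun x => G.dat.Q.eval x) =ᶠ[𝓝 w] fun x : ℂ => x ^ G.n * G.Q.eval (G.b + x⁻¹) := by
    filter_upwards [isOpen_ne.mem_nhds hw] with x hx
    exact G.val_Q x hx
  have e6 := e1.unique (e4.congr_of_eventuallyEq e5)
  rw [h1, h0, mul_zero, zero_add] at e6
  have e7 : w ^ G.n ≠ 0 := pow_ne_zero _ hw
  have e8 : -(w ^ 2)⁻¹ ≠ 0 := neg_ne_zero.2 (inv_ne_zero (pow_ne_zero _ hw))
  have e9 := (mul_eq_zero.1 e6.symm).resolve_left e7
  exact (mul_eq_zero.1 e9).resolve_right e8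

theorem jstat : G.dat.JStat G.S := by
  intro p hp hmu
  have hp0 : G.dat.Q.eval p = 0 := G.dat.mem_ps.1 hp
  have hpd : (derivative G.dat.Q).eval p = 0 := by
    have h1 := G.dat.mu_pos hp
    have h2 : 1 < G.dat.Q.rootMultiplicity p := by
      have h3 : G.dat.mu p = G.dat.Q.rootMultiplicity p := rfl
      omega
    exact ((one_lt_rootMultiplicity_iff_isRoot G.dat.Q_ne).1 h2).2
  by_cases hp1 : p = 0
  · -- the hole at infinity
    rw [hp1] at hp0 hpd ⊢
    have e1 : G.dat.Q.eval 0 = G.Q.coeff G.n := flip_zero G.hQd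
    rw [e1] at hp0
    have e1' : (derivative G.dat.Q).eval 0 = G.Q.coeff (G.n - 1) := flip_one G.hn G.hQd hp0
    rw [e1'] at hpd
    obtain ⟨g1, g2⟩ := G.hJi hp0 hpd
    have g1' : G.R.eval (G.P1.coeff (G.n + 1) / G.Q1.coeff (G.n + 1)) ≠ 0 := g1
    set J := G.P1.coeff (G.n + 1) / G.Q1.coeff (G.n + 1) with hJ
    obtain ⟨g3, g4⟩ := G.jump_ok g1' g2
    have hJb : J - G.b ≠ 0 := by
      intro h
      apply g1'
      rw [G.eval_R, h, zero_mul]
    have e2 : G.S.eval 0 = (J - G.b) * G.Q1.coeff (G.n + 1) := by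
      have h1 : G.S.eval 0 = (G.Q1 + G.Rb).coeff G.n := flip_zero G.S_aux
      have h2 : (Polynomial.X - Polynomial.C G.b) * (G.Q1 + G.Rb) =
          G.P1 - Polynomial.C G.b * G.Q1 := by
        rw [mul_add, G.Rb_mul]
        unfold R
        ring
      have h3 := congrArg (fun f => coeff f (G.n + 1)) h2
      rw [sub_mul, coeff_sub, coeff_sub, coeff_X_mul, coeff_C_mul, coeff_C_mul,
        coeff_eq_zero_of_natDegree_lt (p := G.Q1 + G.Rb) (n := G.n + 1)
          (lt_of_le_of_lt G.S_aux (Nat.lt_succ_self _)), mul_zero, sub_zero] at h3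
      rw [h1, h3, hJ, sub_mul, div_mul_cancel₀ _ G.Q1_coeff]
    have e3 : G.dat.R.eval 0 = G.Q1.coeff (G.n + 1) := by
      show (-EU.flip (G.n + 1) G.b G.Rb).eval 0 = _
      rw [eval_neg, flip_zero (le_of_eq G.Rb_natDegree), G.Rb_coeff, neg_neg]
    have e4 : G.dat.jp G.S 0 = (J - G.b)⁻¹ := by
      unfold Dat.jp
      rw [e2, e3, zero_add]
      have := G.Q1_coeff
      field_simp
    rw [e4]
    refine ⟨?_, g3, g4⟩
    rw [e2]
    exact mul_ne_zero hJb G.Q1_coeff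
  · set z := G.b + p⁻¹ with hz
    have hpz : p = (z - G.b)⁻¹ := by
      rw [hz]
      simp
    have hzb : z - G.b ≠ 0 := by
      rw [hz]
      simpa using hp1
    rw [G.val_Q p hp1] at hp0
    have hQz : G.Q.eval z = 0 := (mul_eq_zero.1 hp0).resolve_left (pow_ne_zero _ hp1)
    obtain ⟨g0, g1, g2⟩ := G.hJ z hQz (G.val_dQ hp1 hQz hpd)
    have g1' : G.R.eval (G.P1.eval z / G.Q1.eval z) ≠ 0 := g1
    set J := G.P1.eval z / G.Q1.eval z with hJ
    obtain ⟨g3, g4⟩ := G.jump_ok g1' g2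
    have hJb : J - G.b ≠ 0 := by
      intro h
      apply g1'
      rw [G.eval_R, h, zero_mul]
    have e0 : (z - G.b) * (G.Q1.eval z + G.Rb.eval z) = (J - G.b) * G.Q1.eval z := by
      rw [sub_mul J, hJ, div_mul_cancel₀ _ g0, G.val_P1]
      ring
    have e5 : G.Q1.eval z + G.Rb.eval z ≠ 0 := by
      intro h
      rw [h, mul_zero] at e0
      exact mul_ne_zero hJb g0 e0.symm
    have e2 : G.S.eval p = p ^ G.n * (G.Q1.eval z + G.Rb.eval z) := G.val_S p hp1
    have e4 : G.dat.jp G.S p = (J - G.b)⁻¹ := by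
      unfold Dat.jp
      rw [e2, G.val_R p hp1, ← hz]
      have e6 : -(p ^ (G.n + 1) * G.Rb.eval z) / (p ^ G.n * (G.Q1.eval z + G.Rb.eval z)) =
          -(p * G.Rb.eval z) / (G.Q1.eval z + G.Rb.eval z) := by
        rw [pow_succ]
        field_simp
      rw [e6]
      have e7 : p + -(p * G.Rb.eval z) / (G.Q1.eval z + G.Rb.eval z) =
          p * G.Q1.eval z / (G.Q1.eval z + G.Rb.eval z) := by
        field_simp
        ring
      rw [e7, div_eq_iff e5, eq_comm, inv_mul_eq_iff_eq_mul₀ hJb, hpz]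
      field_simp
      linear_combination e0
    rw [e4]
    refine ⟨?_, g3, g4⟩
    rw [e2]
    exact mul_ne_zero (pow_ne_zero _ hp1) e5

end Gen

end Pool.Agent.Helper65.EV
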