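import Mathlib
import Pool.Agent.Helper65.EV.Flip

/-! All directions. -/

set_option autoImplicit false

open Topology Filter Metric Set MeasureTheory Polynomial
open scoped Real NNReal OnePoint

namespace Pool.Agent.Helper65.EV

open Pool.Agent.Helper65.EU

/-- **hyperbolicity in all but countably many directions** at a point of the identity stratum -/
theorem Gen.hyp (G : Gen) : ∃ B : Set ℝ, B.Countable ∧ ∀ θ ∉ B, ∀ᶠ t : ℝ in 𝓝[>] 0,
    HypPair (G.n + 1)
      (Polynomial.X * G.Q + Polynomial.C (t * Complex.exp (θ * Complex.I)) * G.P1)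
      (G.Q + Polynomial.C (t * Complex.exp (θ * Complex.I)) * G.Q1) := by
  refine ⟨G.dat.Bad G.S, G.dat.Bad_countable G.S, fun θ hθ => ?_⟩
  have h1 := G.dat.hyp_rot G.S_natDegree G.jstat hθ
  have ht0' : Tendsto (fun t : ℝ => t) (𝓝[>] 0) (𝓝 0) := nhdsWithin_le_nhds
  have htC : Tendsto (fun t : ℝ => (t : ℂ) * Complex.exp (θ * Complex.I)) (𝓝[>] 0) (𝓝 0) := by
    have := ((Complex.continuous_ofReal.tendsto 0).comp ht0').mul_const (Complex.exp (θ * Complex.I))
    rwa [Complex.ofReal_zero, zero_mul] at this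
  have hlin : ∀ A B : ℂ, A ≠ 0 → ∀ᶠ t : ℝ in 𝓝[>] 0, A + t * Complex.exp (θ * Complex.I) * B ≠ 0 := by
    intro A B hA
    have h1 : Tendsto (fun t : ℝ => A + (t : ℂ) * Complex.exp (θ * Complex.I) * B) (𝓝[>] 0)
      (𝓝 (A + 0 * B)) := (htC.mul_const B).const_add A
    rw [zero_mul, add_zero] at h1
    exact h1.eventually_ne hA
  have h2 := hlin _ (G.Q1.eval G.b) G.Q_b
  filter_upwards [h1, h2, self_mem_nhdsWithin] with t k1 k2 k3
  have ht : 0 < t := k3
  set τ : ℂ := t * Complex.exp (θ * Complex.I) with hτ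
  have hτ0 : τ ≠ 0 := mul_ne_zero (by exact_mod_cast ht.ne') (Complex.exp_ne_zero _)
  rw [G.dat_Q_natDegree] at k1
  have hzb : ∀ w : ℂ, G.b + w⁻¹ - G.b = w⁻¹ := fun w => by ring
  apply EU.conj_pair (by omega) (b := G.b) k1
  · intro w hw
    simp only [eval_add, eval_mul, eval_X, eval_C]
    rw [G.val_Q w hw, G.val_R w hw, G.val_S w hw]
    ring
  · intro w hw
    simp only [eval_add, eval_mul, eval_X, eval_C]
    rw [G.val_Q w hw, G.val_S w hw, G.val_P1 (G.b + w⁻¹), hzb]
    field_simp
    ring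
  · rw [eval_add, eval_mul, eval_C]
    exact k2
  · have d1 : (Polynomial.X * G.Q + Polynomial.C τ * G.P1).natDegree ≤ G.n + 1 := by
      apply natDegree_add_le_of_degree_le
      · refine natDegree_mul_le.trans ?_
        rw [natDegree_X]
        have := G.hQd
        omega
      · exact (natDegree_C_mul_le _ _).trans G.hP1
    have d2 : (G.Q + Polynomial.C τ * G.Q1).natDegree ≤ G.n + 1 := by
      apply natDegree_add_le_of_degree_le
      · have := G.hQd
        omega
      · exact (natDegree_C_mul_le _ _).trans G.hQ1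
    have d3 : (G.Q + Polynomial.C τ * G.Q1).coeff (G.n + 1) ≠ 0 := by
      rw [coeff_add, coeff_C_mul, coeff_eq_zero_of_natDegree_lt (by have := G.hQd; omega), zero_add]
      exact mul_ne_zero hτ0 G.Q1_coeff
    have d4 := le_natDegree_of_ne_zero d3
    rw [le_antisymm d2 d4]
    exact max_eq_right d1

end Pool.Agent.Helper65.EV
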