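import Mathlib
import Pool.Agent.Helper65.EV.Conj
import Pool.Agent.Helper65.EU.Radial

/-! Certificates along almost all rays. -/

set_option autoImplicit false

open Topology Filter Metric Set MeasureTheory Polynomial
open scoped Real NNReal OnePoint

namespace Pool.Agent.Helper65.EV

open Pool.Agent.Helper65.EU

open Pool.Agent.H790R3.RB

/-- the Jacobian determinant at infinity -/
theorem wr_inf {n : ℕ} (x : CV (n + 1)) :
    wr x (1, 0) = ((n + 1 : ℕ) : ℂ) * (x (0, Fin.last (n + 1)) * x (1, ⟨n, by omega⟩) -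
      x (0, ⟨n, by omega⟩) * x (1, Fin.last (n + 1))) := by
  have h1 : ∀ i : Fin 2, (∑ j : Fin (n + 1 + 1), x (i, j) * (((j : ℕ) : ℂ) * (1 : ℂ) ^ ((j : ℕ) - 1) *
      (0 : ℂ) ^ (n + 1 - (j : ℕ)))) = x (i, Fin.last (n + 1)) * ((n + 1 : ℕ) : ℂ) := by
    intro i
    rw [Finset.sum_eq_single_of_mem (Fin.last (n + 1)) (Finset.mem_univ _)]
    · simp
    · intro j _ hj
      have h1 : n + 1 - (j : ℕ) ≠ 0 := by
        intro h
        apply hj
        apply Fin.ext
        have := j.2
        rw [Fin.val_last]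
        omega
      rw [zero_pow h1, mul_zero, mul_zero]
  have h2 : ∀ i : Fin 2, (∑ j : Fin (n + 1 + 1), x (i, j) * (((n + 1 - (j : ℕ) : ℕ) : ℂ) *
      (1 : ℂ) ^ (j : ℕ) * (0 : ℂ) ^ (n + 1 - (j : ℕ) - 1))) = x (i, ⟨n, by omega⟩) := by
    intro i
    rw [Finset.sum_eq_single_of_mem (⟨n, by omega⟩ : Fin (n + 1 + 1)) (Finset.mem_univ _)]
    · have e1 : n + 1 - n = 1 := by omega
      simp [e1]
    · intro j _ hj
      by_cases hjd : (j : ℕ) = n + 1
      · rw [hjd]
        simp
      · have h1 : n + 1 - (j : ℕ) - 1 ≠ 0 := by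
          intro h
          apply hj
          apply Fin.ext
          have := j.2
          show (j : ℕ) = n
          omega
        rw [zero_pow h1, mul_zero, mul_zero]
  unfold wr
  simp only
  rw [h1 0, h1 1, h2 0, h2 1]
  ring

theorem quad_ev {a b c : ℂ} (hc : a ≠ 0 ∨ c ≠ 0) (θ : ℝ) : ∀ᶠ t : ℝ in 𝓝[>] 0,
    a + ((t : ℂ) * Complex.exp (θ * Complex.I)) * b +
      ((t : ℂ) * Complex.exp (θ * Complex.I)) ^ 2 * c ≠ 0 := by
  set p : ℂ[X] := Polynomial.C a + Polynomial.C b * Polynomial.X +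
    Polynomial.C c * Polynomial.X ^ 2 with hp
  have hp0 : p ≠ 0 := by
    intro h
    have h1 : p.coeff 2 = 0 := by rw [h, coeff_zero]
    have h0 : p.coeff 0 = 0 := by rw [h, coeff_zero]
    rw [hp] at h1 h0
    simp at h1 h0
    rcases hc with hc | hc
    · exact hc h0
    · exact hc h1
  have hfin : (((p.roots.toFinset : Set ℂ)) \ {0}).Finite :=
    (Finset.finite_toSet _).subset sdiff_subset
  have hmem : (((p.roots.toFinset : Set ℂ)) \ {0})ᶜ ∈ 𝓝 (0 : ℂ) :=
    hfin.isClosed.isOpen_compl.mem_nhds (fun h => h.2 rfl)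
  have ht0' : Tendsto (fun t : ℝ => t) (𝓝[>] 0) (𝓝 0) := nhdsWithin_le_nhds
  have htC : Tendsto (fun t : ℝ => (t : ℂ) * Complex.exp (θ * Complex.I)) (𝓝[>] 0) (𝓝 0) := by
    have := ((Complex.continuous_ofReal.tendsto 0).comp ht0').mul_const (Complex.exp (θ * Complex.I))
    rwa [Complex.ofReal_zero, zero_mul] at this
  filter_upwards [htC.eventually hmem, self_mem_nhdsWithin] with t h1 h2
  have ht : 0 < t := h2
  have hτ0 : (t : ℂ) * Complex.exp (θ * Complex.I) ≠ 0 :=
    mul_ne_zero (by exact_mod_cast ht.ne') (Complex.exp_ne_zero _)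
  intro h3
  apply h1
  refine ⟨?_, hτ0⟩
  rw [Finset.mem_coe, Multiset.mem_toFinset, mem_roots hp0, IsRoot.def, hp]
  simp only [eval_add, eval_mul, eval_C, eval_X, eval_pow]
  linear_combination h3

theorem wr_ev {n : ℕ} (x0 : CV (n + 1)) {v : CV (n + 1)}
    (hv : wr x0 (1, 0) ≠ 0 ∨ wr v (1, 0) ≠ 0) (θ : ℝ) :
    ∀ᶠ t : ℝ in 𝓝[>] 0, wr (x0 + ((t : ℂ) * Complex.exp (θ * Complex.I)) • v) (1, 0) ≠ 0 := by
  set B : ℂ := ((n + 1 : ℕ) : ℂ) * (x0 (0, Fin.last (n + 1)) * v (1, ⟨n, by omega⟩) +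
    v (0, Fin.last (n + 1)) * x0 (1, ⟨n, by omega⟩) -
      (x0 (0, ⟨n, by omega⟩) * v (1, Fin.last (n + 1)) +
        v (0, ⟨n, by omega⟩) * x0 (1, Fin.last (n + 1)))) with hB
  filter_upwards [quad_ev (a := wr x0 (1, 0)) (b := B) hv θ] with t ht h
  apply ht
  rw [wr_inf] at h
  rw [wr_inf x0, wr_inf v, hB]
  simp only [Pi.add_apply, Pi.smul_apply, smul_eq_mul] at h
  linear_combination h

theorem cert_dir {n : ℕ} (hn : 1 ≤ n) (x0 v : CV (n + 1)) (h0 : pol x0 0 = Polynomial.X * pol x0 1)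
    (hQd : (pol x0 1).natDegree ≤ n) (hQ : pol x0 1 ≠ 0)
    (hRd : (pol v 0 - Polynomial.X * pol v 1).natDegree = n + 2)
    (hR : (pol v 0 - Polynomial.X * pol v 1).Separable)
    (hc : IsCoprime (pol x0 1) (pol v 0 - Polynomial.X * pol v 1))
    (hJ : ∀ p, (pol x0 1).eval p = 0 → (derivative (pol x0 1)).eval p = 0 → (pol v 1).eval p ≠ 0 ∧
      (pol v 0 - Polynomial.X * pol v 1).eval ((pol v 0).eval p / (pol v 1).eval p) ≠ 0 ∧
      (pol x0 1).eval ((pol v 0).eval p / (pol v 1).eval p) ≠ 0)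
    (hJi : (pol x0 1).coeff n = 0 → (pol x0 1).coeff (n - 1) = 0 →
      (pol v 0 - Polynomial.X * pol v 1).eval ((pol v 0).coeff (n + 1) / (pol v 1).coeff (n + 1)) ≠ 0 ∧
      (pol x0 1).eval ((pol v 0).coeff (n + 1) / (pol v 1).coeff (n + 1)) ≠ 0)
    (hwv : wr x0 (1, 0) ≠ 0 ∨ wr v (1, 0) ≠ 0) :
    ∃ B : Set ℝ, B.Countable ∧ ∀ θ ∉ B, ∀ᶠ t : ℝ in 𝓝[>] 0,
      ∃ s : Finset (ℂ × ℝ), Cert s (x0 + ((t : ℂ) * Complex.exp (θ * Complex.I)) • v) := by
  set Q := pol x0 1 with hQdef
  set R := pol v 0 - Polynomial.X * pol v 1 with hRdef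
  let G : Gen := ⟨Q, pol v 0, pol v 1, n, hn, hQd, hQ, PQ.pol_natDegree v 0, PQ.pol_natDegree v 1,
    hRd, hR, hc, hJ, hJi⟩
  obtain ⟨B0, hB0, hB0'⟩ := G.hyp
  have hR0 : R ≠ 0 := hR.ne_zero
  have hQ0 : Q ≠ 0 := hQ
  have hroot : ∀ p ∈ R.roots.toFinset, R.eval p = 0 ∧ Q.eval p ≠ 0 ∧ (derivative R).eval p ≠ 0 := by
    intro p hp
    rw [Multiset.mem_toFinset, mem_roots hR0, IsRoot.def] at hp
    refine ⟨hp, (G.not_both p).resolve_right (fun h => h hp), ?_⟩
    exact hR.eval₂_derivative_ne_zero (RingHom.id ℂ) hp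
  set B1 : Set ℝ := ⋃ p ∈ R.roots.toFinset, {θ : ℝ | (Q.eval p *
    (starRingEnd ℂ) (Complex.exp (θ * Complex.I) * (derivative R).eval p)).re = 0} with hB1
  have hB1c : B1.Countable := by
    apply Set.Countable.biUnion (Finset.countable_toSet _)
    intro p hp
    obtain ⟨-, h1, h2⟩ := hroot p hp
    have h3 : Q.eval p * (starRingEnd ℂ) ((derivative R).eval p) ≠ 0 :=
      mul_ne_zero h1 ((_root_.map_ne_zero _).2 h2)
    refine (re_count h3).mono ?_
    intro θ hθ
    have hθ' : (Q.eval p * (starRingEnd ℂ) (Complex.exp (θ * Complex.I) *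
      (derivative R).eval p)).re = 0 := hθ
    show (Q.eval p * (starRingEnd ℂ) ((derivative R).eval p) *
      (starRingEnd ℂ) (Complex.exp (θ * Complex.I))).re = 0
    rw [← hθ', map_mul]
    congr 1
    ring
  refine ⟨B0 ∪ B1, hB0.union hB1c, fun θ hθ => ?_⟩
  rw [mem_union, not_or] at hθ
  have h1 := hB0' θ hθ.1
  have ht0' : Tendsto (fun t : ℝ => t) (𝓝[>] 0) (𝓝 0) := nhdsWithin_le_nhds
  have htC : Tendsto (fun t : ℝ => (t : ℂ) * Complex.exp (θ * Complex.I)) (𝓝[>] 0) (𝓝 0) := by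
    have := ((Complex.continuous_ofReal.tendsto 0).comp ht0').mul_const (Complex.exp (θ * Complex.I))
    rwa [Complex.ofReal_zero, zero_mul] at this
  -- the Jacobian determinant at infinity
  have h2 := wr_ev x0 hwv θ
  -- the multipliers
  have h3 : ∀ᶠ t : ℝ in 𝓝[>] 0, ∀ p ∈ R.roots.toFinset,
      t * Complex.normSq (Complex.exp (θ * Complex.I) * (derivative R).eval p) +
        2 * ((Q.eval p + t * Complex.exp (θ * Complex.I) * (pol v 1).eval p) *
        (starRingEnd ℂ) (Complex.exp (θ * Complex.I) * (derivative R).eval p)).re ≠ 0 := by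
    rw [Filter.eventually_all_finset]
    intro p hp
    have hre : (Q.eval p * (starRingEnd ℂ) (Complex.exp (θ * Complex.I) *
        (derivative R).eval p)).re ≠ 0 := by
      intro h
      apply hθ.2
      rw [hB1]
      exact mem_biUnion hp h
    have e1 : Tendsto (fun t : ℝ => t * Complex.normSq (Complex.exp (θ * Complex.I) *
        (derivative R).eval p) + 2 * ((Q.eval p + t * Complex.exp (θ * Complex.I) *
        (pol v 1).eval p) * (starRingEnd ℂ) (Complex.exp (θ * Complex.I) *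
        (derivative R).eval p)).re) (𝓝[>] 0) (𝓝 (0 * Complex.normSq (Complex.exp (θ * Complex.I) *
        (derivative R).eval p) + 2 * ((Q.eval p + 0 * (pol v 1).eval p) *
        (starRingEnd ℂ) (Complex.exp (θ * Complex.I) * (derivative R).eval p)).re)) := by
      apply Tendsto.add
      · exact ht0'.mul_const _
      · apply Tendsto.const_mul
        apply (Complex.continuous_re.tendsto _).comp
        apply Tendsto.mul_const
        exact (htC.mul_const _).const_add _
    rw [zero_mul, zero_mul, zero_add, add_zero] at e1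
    exact e1.eventually_ne (mul_ne_zero two_ne_zero hre)
  filter_upwards [h1, h2, h3, self_mem_nhdsWithin] with t k1 k2 k3 k4
  have ht : 0 < t := k4
  set τ : ℂ := (t : ℂ) * Complex.exp (θ * Complex.I) with hτ
  have hτ0 : τ ≠ 0 := mul_ne_zero (by exact_mod_cast ht.ne') (Complex.exp_ne_zero _)
  have k1' : HypPair (n + 1) (Polynomial.X * Q + Polynomial.C τ * pol v 0)
    (Q + Polynomial.C τ * pol v 1) := k1
  set x := x0 + τ • v with hx
  have hP : pol x 0 = Polynomial.X * Q + Polynomial.C τ * pol v 0 := by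
    rw [hx, pol_add_smul, h0]
  have hQx : pol x 1 = Q + Polynomial.C τ * pol v 1 := by
    rw [hx, pol_add_smul]
  rw [← hP, ← hQx] at k1'
  obtain ⟨hND, hHF⟩ := of_hypPair (by omega) k1'
  have hP' : pol x 0 = Polynomial.X * pol x 1 + Polynomial.C τ * R := by
    rw [hP, hQx, hRdef]
    ring
  apply cert_of_hyp (by omega) hND hHF k2
  · -- infinity is not fixed
    intro hinf
    have e1 : Pool.Agent.H790R3.RB.hc (∞ : OnePoint ℂ) = (1, 0) := rfl
    unfold sp at hinf
    rw [e1, PQ.hF_inf] at hinf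
    have e2 : (pol x 1).coeff (n + 1) ≠ 0 := by
      rw [hQx, coeff_add, coeff_C_mul, coeff_eq_zero_of_natDegree_lt (by omega), zero_add]
      refine mul_ne_zero hτ0 ?_
      have e3 : R.coeff (n + 2) ≠ 0 := by
        rw [← hRd]
        exact leadingCoeff_ne_zero.2 hR0
      rw [hRdef, coeff_sub, coeff_X_mul, PQ.pol_coeff_gt v 0 (n + 2) (by omega), zero_sub] at e3
      exact neg_ne_zero.1 e3
    rw [Pool.Agent.H790R3.RB.SP.pr_ne e2] at hinf
    exact OnePoint.coe_ne_infty _ hinf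
  · -- the fixed points
    intro p hp
    obtain ⟨e1, e2⟩ := fix_fin hp
    have e3 : (pol x 0).eval p = p * (pol x 1).eval p + τ * R.eval p := by
      rw [hP', eval_add, eval_mul, eval_mul, eval_X, eval_C]
    have e4 : R.eval p = 0 := by
      rw [div_eq_iff e1, e3] at e2
      have : τ * R.eval p = 0 := by linear_combination e2
      exact (mul_eq_zero.1 this).resolve_left hτ0
    have e5 : p ∈ R.roots.toFinset := by
      rw [Multiset.mem_toFinset, mem_roots hR0, IsRoot.def]
      exact e4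
    refine ⟨e5, ?_⟩
    have e6 : (derivative (pol x 0)).eval p = (pol x 1).eval p +
        p * (derivative (pol x 1)).eval p + τ * (derivative R).eval p := by
      rw [hP', derivative_add, derivative_mul, derivative_X, one_mul, derivative_C_mul]
      simp only [eval_add, eval_mul, eval_X, eval_C]
    rw [Pool.Agent.W364.NM.wr_eval (by omega), PQ.hF_one, e6, e3, e4]
    simp only
    set A := (pol x 1).eval p with hA
    have e7 : ((n + 1 : ℕ) : ℂ) * ((A + p * (derivative (pol x 1)).eval p +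
        τ * (derivative R).eval p) * A - (p * A + τ * 0) * (derivative (pol x 1)).eval p) =
        ((n + 1 : ℕ) : ℂ) * ((A + τ * (derivative R).eval p) * A) := by ring
    rw [e7, norm_mul, norm_mul, Complex.norm_natCast]
    intro e8
    have hn0 : ((n + 1 : ℕ) : ℝ) ≠ 0 := by exact_mod_cast (Nat.succ_ne_zero n)
    have e9 := mul_left_cancel₀ hn0 e8
    rw [pow_two] at e9
    have e10 := mul_right_cancel₀ (norm_ne_zero_iff.2 e1) e9
    have e11 : Complex.normSq (A + τ * (derivative R).eval p) = Complex.normSq A := by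
      rw [Complex.normSq_eq_norm_sq, Complex.normSq_eq_norm_sq, e10]
    rw [Complex.normSq_add] at e11
    apply k3 p e5
    have e12 : τ * (derivative R).eval p =
        (t : ℂ) * (Complex.exp (θ * Complex.I) * (derivative R).eval p) := by
      rw [hτ]; ring
    have e13 : A = Q.eval p + t * Complex.exp (θ * Complex.I) * (pol v 1).eval p := by
      rw [hA, hQx, eval_add, eval_mul, eval_C]
    rw [← e13]
    rw [e12] at e11
    set β := Complex.exp (θ * Complex.I) * (derivative R).eval p with hβ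
    have e14 : Complex.normSq ((t : ℂ) * β) = t * (t * Complex.normSq β) := by
      rw [Complex.normSq_mul, Complex.normSq_ofReal]
      ring
    have e15 : (A * (starRingEnd ℂ) ((t : ℂ) * β)).re = t * (A * (starRingEnd ℂ) β).re := by
      rw [map_mul, Complex.conj_ofReal]
      have : A * ((t : ℂ) * (starRingEnd ℂ) β) = (t : ℂ) * (A * (starRingEnd ℂ) β) := by ring
      rw [this, Complex.re_ofReal_mul]
    rw [e14, e15] at e11
    have e16 : t * (t * Complex.normSq β + 2 * (A * (starRingEnd ℂ) β).re) = 0 := by linarith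
    exact (mul_eq_zero.1 e16).resolve_left ht.ne'

end Pool.Agent.Helper65.EV
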