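import Mathlib
import Pool.Agent.Helper65.EV.Radial
import Pool.Agent.Helper65.EU.Final

/-! Generic directions. -/

set_option autoImplicit false

open Topology Filter Metric Set MeasureTheory Polynomial
open scoped Real NNReal OnePoint ENNReal

namespace Pool.Agent.Helper65.EV

open Pool.Agent.Helper65.EU

open Pool.Agent.H790R3.RB

theorem ae_lines {d : ℕ} {A : Set (CV d)} (hA : MeasurableSet A) (e : CV d)
    (h : ∀ v, {c : ℂ | v + c • e ∈ A}.Countable) : ∀ᵐ v : CV d, v ∉ A := by
  rw [ae_iff]
  simpa using null_of_lines hA e h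

theorem pol_single {d : ℕ} (i i' : Fin 2) (j : Fin (d + 1)) :
    pol (Pi.single (i, j) 1 : CV d) i' = if i' = i then Polynomial.X ^ (j : ℕ) else 0 := by
  unfold pol
  split_ifs with h
  · subst h
    rw [Finset.sum_eq_single_of_mem j (Finset.mem_univ _)]
    · rw [Pi.single_eq_same]
      exact monomial_one_right_eq_X_pow _
    · intro k _ hk
      rw [Pi.single_eq_of_ne]
      · simp
      · intro h
        exact hk (congrArg Prod.snd h)
  · apply Finset.sum_eq_zero
    intro k _
    rw [Pi.single_eq_of_ne]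
    · simp
    · intro h2
      exact h (congrArg Prod.fst h2)

theorem pol_shift {d : ℕ} (v : CV d) (c : ℂ) (i i' : Fin 2) (j : Fin (d + 1)) (z : ℂ) :
    (pol (v + c • (Pi.single (i, j) 1 : CV d)) i').eval z =
      (pol v i').eval z + if i' = i then c * z ^ (j : ℕ) else 0 := by
  rw [pol_add_smul, pol_single]
  split_ifs with h
  · simp
  · simp

theorem coe_shift {d : ℕ} (v : CV d) (c : ℂ) (i i' : Fin 2) (j j' : Fin (d + 1)) :
    (v + c • (Pi.single (i, j) 1 : CV d)) (i', j') = v (i', j') + if (i', j') = (i, j) then c else 0 := by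
  rw [Pi.add_apply, Pi.smul_apply]
  split_ifs with h
  · rw [h, Pi.single_eq_same, smul_eq_mul, mul_one]
  · rw [Pi.single_eq_of_ne h, smul_zero]

theorem cont_ev {d : ℕ} (i : Fin 2) (z : ℂ) : Continuous (fun v : CV d => (pol v i).eval z) :=
  (pol_eval_cont i).comp (by fun_prop : Continuous (fun v : CV d => (v, z)))

theorem meas_R {d : ℕ} {J : CV d → ℂ} (hJ : Measurable J) :
    Measurable (fun v : CV d => (Rv v).eval (J v)) := by
  have c1 : Continuous (fun q : CV d × ℂ => (Rv q.1).eval q.2) := by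
    simp only [Rv_eval]
    exact (pol_eval_cont 0).sub (continuous_snd.mul (pol_eval_cont 1))
  exact c1.measurable.comp (measurable_id.prodMk hJ)

/-- at most one parameter -/
theorem lin_count {A B : ℂ} (hB : B ≠ 0) {s : Set ℂ} (h : ∀ c ∈ s, A + c * B = 0) :
    s.Countable := by
  apply (Set.countable_singleton (-A / B)).mono
  intro c hc
  rw [mem_singleton_iff, eq_div_iff hB]
  linear_combination h c hc

/-- finitely many parameters -/
theorem root_count {Q : ℂ[X]} (hQ : Q ≠ 0) {A B : ℂ} (hB : B ≠ 0) {s : Set ℂ}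
    (h : ∀ c ∈ s, Q.eval ((A + c) / B) = 0) : s.Countable := by
  apply ((Q.roots.toFinset.finite_toSet.image (fun z => z * B - A)).subset _).countable
  intro c hc
  refine ⟨(A + c) / B, ?_, ?_⟩
  · rw [Finset.mem_coe, Multiset.mem_toFinset, mem_roots hQ, IsRoot.def]
    exact h c hc
  · simp only
    field_simp
    ring

theorem line_shift {n : ℕ} (v : CV (n + 1)) (c p : ℂ) (i : Fin 2) (z : ℂ) :
    (pol (v + c • (Pi.single (0, 1) 1 + (-p) • Pi.single (0, 0) 1 : CV (n + 1))) i).eval z =
      (pol v i).eval z + if i = 0 then c * (z - p) else 0 := by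
  have h1 : v + c • (Pi.single (0, 1) 1 + (-p) • Pi.single (0, 0) 1 : CV (n + 1)) =
      (v + c • (Pi.single (0, 1) 1 : CV (n + 1))) +
        (c * (-p)) • (Pi.single (0, 0) 1 : CV (n + 1)) := by
    rw [smul_add, smul_smul]
    exact (add_assoc _ _ _).symm
  rw [h1, pol_shift, pol_shift]
  split_ifs with h
  · simp
    ring
  · simp

/-- the jumps at a root -/
theorem ae_root {n : ℕ} {Q : ℂ[X]} (hQ : Q ≠ 0) (p : ℂ) : ∀ᵐ v : CV (n + 1),
    (Rv v).eval p ≠ 0 → (pol v 1).eval p ≠ 0 ∧
      (Rv v).eval ((pol v 0).eval p / (pol v 1).eval p) ≠ 0 ∧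
      Q.eval ((pol v 0).eval p / (pol v 1).eval p) ≠ 0 := by
  have hJm : Measurable (fun v : CV (n + 1) => (pol v 0).eval p / (pol v 1).eval p) :=
    (cont_ev 0 p).measurable.div (cont_ev 1 p).measurable
  have hRp : Measurable (fun v : CV (n + 1) => (Rv v).eval p) := meas_R measurable_const
  have a1 : ∀ᵐ v : CV (n + 1), v ∉ {v : CV (n + 1) | (pol v 1).eval p = 0} := by
    apply ae_lines ((cont_ev 1 p).measurable (measurableSet_singleton 0))
      (Pi.single (1, 0) 1 : CV (n + 1))
    intro v
    apply lin_count (A := (pol v 1).eval p) (B := 1) one_ne_zero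
    intro c hc
    have h1 : (pol (v + c • (Pi.single (1, 0) 1 : CV (n + 1))) 1).eval p = 0 := hc
    rw [pol_shift] at h1
    simpa using h1
  have a2 : ∀ᵐ v : CV (n + 1), v ∉ {v : CV (n + 1) | ((pol v 1).eval p ≠ 0 ∧ (Rv v).eval p ≠ 0) ∧
      (Rv v).eval ((pol v 0).eval p / (pol v 1).eval p) = 0} := by
    apply ae_lines _ (Pi.single (0, 1) 1 + (-p) • Pi.single (0, 0) 1 : CV (n + 1))
    · intro v
      by_cases h0 : (pol v 1).eval p ≠ 0 ∧ (Rv v).eval p ≠ 0
      · set J := (pol v 0).eval p / (pol v 1).eval p with hJ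
        have hJp : J - p ≠ 0 := by
          intro h
          apply h0.2
          have h1 : (pol v 0).eval p = J * (pol v 1).eval p := by
            rw [hJ, div_mul_cancel₀ _ h0.1]
          rw [Rv_eval, h1, sub_eq_zero.1 h, sub_self]
        apply lin_count (A := (Rv v).eval J) hJp
        intro c hc
        have hsh := line_shift v c p
        obtain ⟨-, h3⟩ := hc
        rw [hsh 0 p, hsh 1 p, Rv_eval, hsh 0, hsh 1] at h3
        simp only [if_true, sub_self, mul_zero, add_zero, one_ne_zero, if_false] at h3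
        rw [← hJ] at h3
        rw [Rv_eval]
        linear_combination h3
      · convert Set.countable_empty
        ext c
        simp only [mem_empty_iff_false, iff_false]
        rintro ⟨h1, -⟩
        apply h0
        have hsh := line_shift v c p
        rw [hsh 1 p, Rv_eval, hsh 0, hsh 1] at h1
        simpa [Rv_eval] using h1
    · apply MeasurableSet.inter
      · exact ((cont_ev 1 p).measurable (measurableSet_singleton 0).compl).inter
          (hRp (measurableSet_singleton 0).compl)
      · exact (meas_R hJm) (measurableSet_singleton 0)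
  have a3 : ∀ᵐ v : CV (n + 1), v ∉ {v : CV (n + 1) | (pol v 1).eval p ≠ 0 ∧
      Q.eval ((pol v 0).eval p / (pol v 1).eval p) = 0} := by
    apply ae_lines _ (Pi.single (0, 0) 1 : CV (n + 1))
    · intro v
      by_cases h0 : (pol v 1).eval p ≠ 0
      · apply root_count hQ (A := (pol v 0).eval p) h0
        intro c hc
        obtain ⟨-, h3⟩ := hc
        rw [pol_shift, pol_shift] at h3
        simpa using h3
      · convert Set.countable_empty
        ext c
        simp only [mem_empty_iff_false, iff_false]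
        rintro ⟨h1, -⟩
        apply h0
        rw [pol_shift] at h1
        simpa using h1
    · apply MeasurableSet.inter
      · exact (cont_ev 1 p).measurable (measurableSet_singleton 0).compl
      · exact (Q.continuous.measurable.comp hJm) (measurableSet_singleton 0)
  filter_upwards [a1, a2, a3] with v h1 h2 h3
  intro h0
  have h1' : (pol v 1).eval p ≠ 0 := h1
  exact ⟨h1', fun h => h2 ⟨⟨h1', h0⟩, h⟩, fun h => h3 ⟨h1', h⟩⟩

/-- the jump at infinity -/
theorem ae_inf {n : ℕ} {Q : ℂ[X]} (hQ : Q ≠ 0) : ∀ᵐ v : CV (n + 1),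
    (Rv v).eval (v (0, Fin.last (n + 1)) / v (1, Fin.last (n + 1))) ≠ 0 ∧
      Q.eval (v (0, Fin.last (n + 1)) / v (1, Fin.last (n + 1))) ≠ 0 := by
  have hl : (Fin.last (n + 1)) ≠ 0 := by
    intro h
    have := congrArg Fin.val h
    simp at this
  have hcm : ∀ i j, Measurable (fun v : CV (n + 1) => v (i, j)) := fun i j =>
    (by fun_prop : Continuous (fun v : CV (n + 1) => v (i, j))).measurable
  have hJm : Measurable (fun v : CV (n + 1) => v (0, Fin.last (n + 1)) / v (1, Fin.last (n + 1))) :=
    (hcm _ _).div (hcm _ _)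
  have a1 : ∀ᵐ v : CV (n + 1), v ∉ {v : CV (n + 1) |
      (Rv v).eval (v (0, Fin.last (n + 1)) / v (1, Fin.last (n + 1))) = 0} := by
    apply ae_lines ((meas_R hJm) (measurableSet_singleton 0)) (Pi.single (0, 0) 1 : CV (n + 1))
    intro v
    apply lin_count (A := (Rv v).eval (v (0, Fin.last (n + 1)) / v (1, Fin.last (n + 1)))) (B := 1)
      one_ne_zero
    intro c hc
    have h1 : (Rv (v + c • (Pi.single (0, 0) 1 : CV (n + 1)))).eval
      ((v + c • (Pi.single (0, 0) 1 : CV (n + 1))) (0, Fin.last (n + 1)) /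
      (v + c • (Pi.single (0, 0) 1 : CV (n + 1))) (1, Fin.last (n + 1))) = 0 := hc
    rw [coe_shift, coe_shift, Rv_shift, if_neg (by simp [hl]), if_neg (by simp), add_zero,
      add_zero, eval_add, eval_C] at h1
    linear_combination h1
  have a0 : ∀ᵐ v : CV (n + 1), v ∉ {v : CV (n + 1) | v (1, Fin.last (n + 1)) = 0} := by
    apply ae_lines ((hcm _ _) (measurableSet_singleton 0))
      (Pi.single (1, Fin.last (n + 1)) 1 : CV (n + 1))
    intro v
    apply lin_count (A := v (1, Fin.last (n + 1))) (B := 1) one_ne_zero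
    intro c hc
    have h1 : (v + c • (Pi.single (1, Fin.last (n + 1)) 1 : CV (n + 1)))
      (1, Fin.last (n + 1)) = 0 := hc
    rw [coe_shift, if_pos rfl] at h1
    linear_combination h1
  have a2 : ∀ᵐ v : CV (n + 1), v ∉ {v : CV (n + 1) | v (1, Fin.last (n + 1)) ≠ 0 ∧
      Q.eval (v (0, Fin.last (n + 1)) / v (1, Fin.last (n + 1))) = 0} := by
    apply ae_lines _ (Pi.single (0, Fin.last (n + 1)) 1 : CV (n + 1))
    · intro v
      by_cases h0 : v (1, Fin.last (n + 1)) ≠ 0
      · apply root_count hQ (A := v (0, Fin.last (n + 1))) h0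
        intro c hc
        obtain ⟨-, h3⟩ := hc
        rw [coe_shift, coe_shift, if_pos rfl, if_neg (by simp), add_zero] at h3
        exact h3
      · convert Set.countable_empty
        ext c
        simp only [mem_empty_iff_false, iff_false]
        rintro ⟨h1, -⟩
        apply h0
        rw [coe_shift, if_neg (by simp), add_zero] at h1
        exact h1
    · apply MeasurableSet.inter
      · exact (hcm _ _) (measurableSet_singleton 0).compl
      · exact (Q.continuous.measurable.comp hJm) (measurableSet_singleton 0)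
  filter_upwards [a0, a1, a2] with v h0 h1 h2
  exact ⟨h1, fun h => h2 ⟨h0, h⟩⟩

/-- the Jacobian determinant at infinity -/
theorem ae_wr {n : ℕ} : ∀ᵐ v : CV (n + 1), wr v (1, 0) ≠ 0 := by
  have hcm : ∀ i j, Measurable (fun v : CV (n + 1) => v (i, j)) := fun i j =>
    (by fun_prop : Continuous (fun v : CV (n + 1) => v (i, j))).measurable
  have hwm : Measurable (fun v : CV (n + 1) => wr v (1, 0)) := by
    simp only [wr_inf]
    fun_prop
  have hnl : (⟨n, by omega⟩ : Fin (n + 1 + 1)) ≠ Fin.last (n + 1) := by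
    intro h
    have := congrArg Fin.val h
    simp at this
  have a0 : ∀ᵐ v : CV (n + 1), v ∉ {v : CV (n + 1) | v (1, ⟨n, by omega⟩) = 0} := by
    apply ae_lines ((hcm _ _) (measurableSet_singleton 0))
      (Pi.single (1, ⟨n, by omega⟩) 1 : CV (n + 1))
    intro v
    apply lin_count (A := v (1, ⟨n, by omega⟩)) (B := 1) one_ne_zero
    intro c hc
    have h1 : (v + c • (Pi.single (1, ⟨n, by omega⟩) 1 : CV (n + 1)))
      (1, ⟨n, by omega⟩) = 0 := hc
    rw [coe_shift, if_pos rfl] at h1
    linear_combination h1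
  have a1 : ∀ᵐ v : CV (n + 1), v ∉ {v : CV (n + 1) | v (1, ⟨n, by omega⟩) ≠ 0 ∧
      wr v (1, 0) = 0} := by
    apply ae_lines _ (Pi.single (0, Fin.last (n + 1)) 1 : CV (n + 1))
    · intro v
      by_cases h0 : v (1, ⟨n, by omega⟩) ≠ 0
      · apply lin_count (A := wr v (1, 0)) (B := ((n + 1 : ℕ) : ℂ) * v (1, ⟨n, by omega⟩))
          (mul_ne_zero (by exact_mod_cast (Nat.succ_ne_zero n)) h0)
        intro c hc
        obtain ⟨-, h3⟩ := hc
        rw [wr_inf, coe_shift, coe_shift, coe_shift, coe_shift, if_pos rfl, if_neg (by simp),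
          if_neg (by simp [hnl]), if_neg (by simp)] at h3
        rw [wr_inf]
        linear_combination h3
      · convert Set.countable_empty
        ext c
        simp only [mem_empty_iff_false, iff_false]
        rintro ⟨h1, -⟩
        apply h0
        rw [coe_shift, if_neg (by simp), add_zero] at h1
        exact h1
    · apply MeasurableSet.inter
      · exact (hcm _ _) (measurableSet_singleton 0).compl
      · exact hwm (measurableSet_singleton 0)
  filter_upwards [a0, a1] with v h0 h1
  exact fun h => h1 ⟨h0, h⟩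

/-- certificates in almost all directions -/
theorem ae_dir {n : ℕ} (hn : 1 ≤ n) {x0 : CV (n + 1)}
    (h0 : pol x0 0 = Polynomial.X * pol x0 1) (hQd : (pol x0 1).natDegree ≤ n)
    (hQ : pol x0 1 ≠ 0) : ∀ᵐ v : CV (n + 1), ∃ B : Set ℝ, B.Countable ∧ ∀ θ ∉ B,
      ∀ᶠ t : ℝ in 𝓝[>] 0, x0 + ((t : ℂ) * Complex.exp (θ * Complex.I)) • v ∈ Gset (n + 1) := by
  have h1 : ∀ᵐ v : CV (n + 1), ∀ p ∈ (pol x0 1).roots.toFinset,
      (Rv v).eval p ≠ 0 → (pol v 1).eval p ≠ 0 ∧
      (Rv v).eval ((pol v 0).eval p / (pol v 1).eval p) ≠ 0 ∧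
      (pol x0 1).eval ((pol v 0).eval p / (pol v 1).eval p) ≠ 0 :=
    (Filter.eventually_all_finset _).2 fun p _ => ae_root hQ p
  filter_upwards [ae_generic (d := n + 1) hQ, h1, ae_inf hQ, ae_wr] with v hv hv1 hv2 hv3
  obtain ⟨g1, g2, g3⟩ := hv
  have hco : ∀ p, (pol x0 1).eval p = 0 → (Rv v).eval p ≠ 0 := by
    intro p hp h
    obtain ⟨u, w, huw⟩ := g3
    have := congrArg (Polynomial.eval p) huw
    rw [eval_add, eval_mul, eval_mul, hp, h] at this
    simp at this
  obtain ⟨B, hB, hB2⟩ := cert_dir hn x0 v h0 hQd hQ g1 g2 g3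
    (fun p hp _ => hv1 p (by
      rw [Multiset.mem_toFinset, mem_roots hQ, IsRoot.def]
      exact hp) (hco p hp))
    (fun _ _ => by
      have e0 := PQ.pol_coeff v 0 (Fin.last (n + 1))
      have e1 := PQ.pol_coeff v 1 (Fin.last (n + 1))
      rw [Fin.val_last] at e0 e1
      rw [e0, e1]
      exact hv2) (Or.inr hv3)
  refine ⟨B, hB, fun θ hθ => ?_⟩
  filter_upwards [hB2 θ hθ] with t ht
  exact mem_iUnion.2 ht

end Pool.Agent.Helper65.EV
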